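import Pool.Agent.Lib.MP_cb4a0f_co.Tc.Stmts
import Pool.Agent.Lib.MP_cb4a0f_co.Link
import Pool.Agent.Lib.MP_cb4a0f_co.Sem

/-!
# MP_cb4a0f_co, Tc: respecting the order of the boundary half-edges
-/

open Classical

namespace RotWqo.Tc.Mark1

open RotWqo.Bag RotWqo.Hk

universe u v

/-- Two lists of length at most two with the same elements are equal or reverse to each other. -/
theorem perm_two {γ : Type*} {L L' : List γ} (h : L.Perm L') (hl : L.length ≤ 2) :
    L = L' ∨ L = L'.reverse := by
  rcases L with _ | ⟨x, _ | ⟨y, _ | ⟨z, L⟩⟩⟩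
  · left
    exact (List.nil_perm.1 h).symm
  · left
    exact (List.singleton_perm.1 h)
  · have hlen := h.length_eq
    rcases L' with _ | ⟨a, _ | ⟨b, _ | ⟨c, L'⟩⟩⟩
    · simp at hlen
    · simp at hlen
    · have hx : x = a ∨ x = b := by
        have := h.subset (List.mem_cons_self : x ∈ [x, y])
        simpa using this
      rcases hx with rfl | rfl
      · left
        have := List.Perm.cons_inv h
        rw [List.singleton_perm] at this
        rw [this]
      · right
        have h2 : [x, y].Perm [x, a] := h.trans (List.Perm.swap _ _ _)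
        have := List.Perm.cons_inv h2
        rw [List.singleton_perm] at this
        rw [this]
        rfl
    · simp at hlen
  · simp at hl

theorem perm_bd {V V' H H' : Type*} {r : V → V' → Prop} {G : RotGraph V H} {A : Finset V}
    {G' : RotGraph V' H'} {A' : Finset V'} {β : H → H'} (h : PE r G A G' A' β) :
    ((bd G A).toList.map β).Perm (bd G' A').toList := by
  obtain ⟨f, φ, M, E⟩ := h
  rw [List.perm_ext_iff_of_nodup]
  · intro a
    rw [List.mem_map, Finset.mem_toList]
    constructor
    · rintro ⟨b, hb, rfl⟩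
      rw [Finset.mem_toList] at hb
      exact E.β_bij.mapsTo hb
    · intro ha
      obtain ⟨b, hb, rfl⟩ := E.β_bij.surjOn ha
      exact ⟨b, by rw [Finset.mem_toList]; exact hb, rfl⟩
  · refine List.Nodup.map_on ?_ (Finset.nodup_toList _)
    intro x hx y hy hxy
    rw [Finset.mem_toList] at hx hy
    exact E.β_bij.injOn hx hy hxy
  · exact Finset.nodup_toList _

theorem trans_lab {V V' V'' H H' H'' Q : Type*} {q : Q → Q → Prop} [IsPreorder Q q]
    {l : V → Q} {l' : V' → Q} {l'' : V'' → Q} {G : RotGraph V H} {A : Finset V}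
    {G' : RotGraph V' H'} {A' : Finset V'} {G'' : RotGraph V'' H''} {A'' : Finset V''}
    {β : H → H'} {β' : H' → H''} (h : PE (fun v v' => q (l v) (l' v')) G A G' A' β)
    (h' : PE (fun v v' => q (l' v) (l'' v')) G' A' G'' A'' β') :
    PE (fun v v' => q (l v) (l'' v')) G A G'' A'' (β' ∘ β) :=
  PE.trans (r₁ := fun v v' => q (l v) (l' v')) (r₂ := fun v v' => q (l' v) (l'' v'))
    (r := fun v v' => q (l v) (l'' v')) (fun _ _ _ h1 h2 => trans_of q h1 h2) h h'

/-- (E4) Respecting the order of the boundary is free. -/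
theorem e4_1 : StMark.{u} := by
  intro α V H G A Q q _ lab S hcut hS
  have hpre : IsPreorder α (fun a b => ∃ β,
      PE (fun v v' => q (lab a v) (lab b v')) (G a) (A a) (G b) (A b) β) :=
    { refl := fun a => ⟨id, PE.refl _ (fun v => refl_of q (lab a v)) (G a) (A a)⟩
      trans := by
        rintro a b c ⟨β, h⟩ ⟨β', h'⟩
        exact ⟨β' ∘ β, trans_lab h h'⟩ }
  rw [Set.partiallyWellOrderedOn_iff_exists_lt]
  intro f hf
  obtain ⟨g, hg⟩ := hS.exists_monotone_subseq hf
  obtain ⟨β, h1⟩ := hg 0 1 (by norm_num)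
  obtain ⟨β', h2⟩ := hg 1 2 (by norm_num)
  have h12 : g 0 < g 1 := g.strictMono (by norm_num)
  have h23 : g 1 < g 2 := g.strictMono (by norm_num)
  have hl : ∀ n (x : H (f (g n)) → H (f (g (n + 1)))),
      ((bd (G (f (g n))) (A (f (g n)))).toList.map x).length ≤ 2 := by
    intro n x
    rw [List.length_map, Finset.length_toList]
    exact hcut _ (hf _)
  rcases perm_two (perm_bd h1) (hl 0 β) with h3 | h3
  · exact ⟨g 0, g 1, h12, β, h1, h3⟩
  · rcases perm_two (perm_bd h2) (hl 1 β') with h4 | h4
    · exact ⟨g 1, g 2, h23, β', h2, h4⟩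
    · refine ⟨g 0, g 2, h12.trans h23, β' ∘ β, trans_lab h1 h2, ?_⟩
      rw [← List.map_map, h3, List.map_reverse, h4, List.reverse_reverse]

end RotWqo.Tc.Mark1
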