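import Pool.Agent.Lib.MP_cb4a0f_co.Tc.Stmts
import Pool.Agent.Lib.MP_cb4a0f_co.Bag.Main11

/-!
# MP_cb4a0f_co: rotated graphs of bounded tree-cut width, components, bridges and the theorem
-/

open Classical

namespace RotWqo.Tc.T1_46

open RotWqo.Bag RotWqo.Hk RotWqo.Tc

universe u v w

section Comps

variable {V H : Type*}

theorem bd_empty_iff {G : RotGraph V H} {Y : Finset V} :
    bd G Y = ∅ ↔ ∀ h ∈ G.darts, G.base h ∈ Y → G.base (G.opp h) ∈ Y := by
  simp only [bd, Finset.filter_eq_empty_iff, not_and, not_not]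

/-- The component of a vertex. -/
noncomputable def comp (G : RotGraph V H) (v : V) : Finset V :=
  G.verts.filter (fun w => ∀ Y ⊆ G.verts, v ∈ Y → bd G Y = ∅ → w ∈ Y)

theorem comp_sub (G : RotGraph V H) (v : V) : comp G v ⊆ G.verts := Finset.filter_subset _ _

theorem mem_comp_self {G : RotGraph V H} {v : V} (hv : v ∈ G.verts) : v ∈ comp G v :=
  Finset.mem_filter.2 ⟨hv, fun _ _ h _ => h⟩

theorem comp_sub_of {G : RotGraph V H} {v : V} {Y : Finset V} (hY : Y ⊆ G.verts) (hv : v ∈ Y)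
    (hb : bd G Y = ∅) : comp G v ⊆ Y := fun _ hw => (Finset.mem_filter.1 hw).2 Y hY hv hb

theorem bd_comp (G : RotGraph V H) (v : V) : bd G (comp G v) = ∅ := by
  rw [bd_empty_iff]
  intro h hh hb
  refine Finset.mem_filter.2 ⟨G.base_mem _ (G.opp_mem h hh), fun Y hY hv hbY => ?_⟩
  exact bd_empty_iff.1 hbY h hh (comp_sub_of hY hv hbY hb)

theorem bd_sdiff {G : RotGraph V H} {X Y : Finset V} (hX : bd G X = ∅) (hY : bd G Y = ∅) :
    bd G (X \ Y) = ∅ := by
  rw [bd_empty_iff] at *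
  intro h hh hb
  rw [Finset.mem_sdiff] at hb ⊢
  refine ⟨hX h hh hb.1, fun h1 => hb.2 ?_⟩
  have := hY _ (G.opp_mem h hh) h1
  rwa [G.opp_opp h hh] at this

theorem comp_eq {G : RotGraph V H} {v w : V} (hv : v ∈ G.verts) (hw : w ∈ comp G v) :
    comp G w = comp G v := by
  have h1 : comp G w ⊆ comp G v := comp_sub_of (comp_sub G v) hw (bd_comp G v)
  refine le_antisymm h1 ?_
  refine comp_sub_of (comp_sub G w) ?_ (bd_comp G w)
  by_contra h2
  have h3 : comp G v ⊆ comp G v \ comp G w :=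
    comp_sub_of (Finset.sdiff_subset.trans (comp_sub G v))
      (Finset.mem_sdiff.2 ⟨mem_comp_self hv, h2⟩) (bd_sdiff (bd_comp G v) (bd_comp G w))
  exact (Finset.mem_sdiff.1 (h3 hw)).2 (mem_comp_self (comp_sub G v hw))

theorem conn_comp {G : RotGraph V H} {v : V} (hv : v ∈ G.verts) : Conn G (comp G v) := by
  rintro Y hY ⟨w, hw⟩ hne hN
  have h1 : bd G Y = ∅ := by
    rw [bd_empty_iff]
    intro h hh hb
    have h2 := bd_empty_iff.1 (bd_comp G v) h hh (hY hb)
    by_contra h3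
    exact hN h hh hb (Finset.mem_sdiff.2 ⟨h2, h3⟩)
  refine hne (le_antisymm hY ?_)
  rw [← comp_eq hv (hY hw)]
  exact comp_sub_of (hY.trans (comp_sub G v)) hw h1

end Comps

/-- (T1b) -/
theorem stComps_46 : StComps.{u} := by
  intro V H G _
  refine ⟨G.verts.image (comp G), ⟨?_, ?_, ?_, ?_⟩, ?_, ?_⟩
  · intro X hX
    obtain ⟨v, -, rfl⟩ := Finset.mem_image.1 hX
    exact comp_sub G v
  · intro X hX
    obtain ⟨v, hv, rfl⟩ := Finset.mem_image.1 hX
    exact ⟨v, mem_comp_self hv⟩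
  · intro X hX Y hY hne
    obtain ⟨v, hv, rfl⟩ := Finset.mem_image.1 hX
    obtain ⟨w, hw, rfl⟩ := Finset.mem_image.1 hY
    rw [Finset.disjoint_left]
    intro x h1 h2
    exact hne ((comp_eq hv h1).symm.trans (comp_eq hw h2))
  · intro X hX
    obtain ⟨v, -, rfl⟩ := Finset.mem_image.1 hX
    rw [cut, bd_comp]
    simp
  · intro X hX
    obtain ⟨v, hv, rfl⟩ := Finset.mem_image.1 hX
    exact ⟨by rw [cut, bd_comp]; rfl, conn_comp hv⟩
  · intro v hv
    exact ⟨comp G v, Finset.mem_image_of_mem _ hv, mem_comp_self hv⟩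

section Ctr

variable {V H : Type*}

theorem mem_of_cls {C : Finset (Finset V)} {W : Finset V} (hC : ∀ X ∈ C, X ⊆ W) {v : V}
    (h : cls C v ∈ cA C W) : v ∈ W := by
  obtain ⟨w, hw, he⟩ := Finset.mem_image.1 h
  rcases hc : cls C w with x | X
  · rw [hc] at he
    rw [cls_inl he.symm, ← cls_inl hc]
    exact hw
  · rw [hc] at he
    obtain ⟨h1, h2⟩ := cls_inr he.symm
    exact hC X h1 h2

theorem cls_mem_cA {C : Finset (Finset V)} {W : Finset V} {v : V} (h : v ∈ W) :
    cls C v ∈ cA C W := Finset.mem_image_of_mem _ h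

theorem cls_eq {G : RotGraph V H} {W : Finset V} {C : Finset (Finset V)} (hC : Fam G W C)
    {X : Finset V} (hX : X ∈ C) {v : V} (hv : v ∈ X) : cls C v = .inr X := by
  rcases hc : cls C v with x | Y
  · unfold cls at hc
    split_ifs at hc with h1
    exact absurd ⟨X, hX, hv⟩ h1
  · obtain ⟨h1, h2⟩ := cls_inr hc
    by_cases hXY : Y = X
    · rw [hXY]
    · exact absurd hv (Finset.disjoint_left.1 (hC.disj Y h1 X hX hXY) h2)

theorem bd_ctr_sub {G : RotGraph V H} {W : Finset V} {C : Finset (Finset V)}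
    (hC : ∀ X ∈ C, X ⊆ W) : bd (ctr G C) (cA C W) ⊆ (bd G W).image .inl := by
  rintro (h | p) hd
  · obtain ⟨h1, h2, h3⟩ := mem_bd.1 hd
    refine Finset.mem_image_of_mem _ (mem_bd.2 ⟨?_, mem_of_cls hC h2, fun h4 => ?_⟩)
    · change _ ∈ ctrD G C at h1
      simp only [ctrD, Finset.mem_union, Finset.mem_image, Finset.mem_filter,
        Finset.mem_product, Sum.inl.injEq, reduceCtorEq, and_false, exists_false, or_false,
        exists_eq_right] at h1
      exact h1.1
    · exact h3 (cls_mem_cA h4)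
  · obtain ⟨h1, h2, h3⟩ := mem_bd.1 hd
    exact absurd h2 h3

theorem cut_ctr_le {G : RotGraph V H} {W : Finset V} {C : Finset (Finset V)}
    (hC : ∀ X ∈ C, X ⊆ W) : cut (ctr G C) (cA C W) ≤ cut G W :=
  (Finset.card_le_card (bd_ctr_sub hC)).trans Finset.card_image_le

theorem cA_sub_verts {G : RotGraph V H} {W : Finset V} {C : Finset (Finset V)}
    (hW : W ⊆ G.verts) : cA C W ⊆ (ctr G C).verts :=
  (Finset.image_subset_image hW).trans Finset.subset_union_left

theorem trav_of_cut_le_one {G : RotGraph V H} {X : Finset V} (h : cut G X ≤ 1) : Trav G X := by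
  intro l hl l' hl' hne
  exact absurd (Finset.card_le_one.1 h l hl l' hl') hne

/-- If the sets in `C` are unions of components that cover `G`, nothing leaves an atom. -/
theorem lgs_nil {G : RotGraph V H} {W : Finset V} {C : Finset (Finset V)} (hC : Fam G W C)
    {X : Finset V} (hX : X ∈ C) (hc : cut G X = 0) : lgs G C X = [] := by
  have h0 := bd_empty_iff.1 (Finset.card_eq_zero.1 hc)
  rw [lgs, Finset.toList_eq_nil, Finset.filter_eq_empty_iff]
  rintro h hh ⟨h1, h2⟩
  exact h2 (cls_eq hC hX (h0 h hh (cls_inr h1).2))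

theorem atom_closed {G : RotGraph V H} {W : Finset V} {C : Finset (Finset V)} (hC : Fam G W C)
    {X : Finset V} (hX : X ∈ C) (hc : cut G X = 0) {d : H ⊕ (Finset V × Bool)}
    (hd : d ∈ (ctr G C).darts) (hb : (ctr G C).base d = .inr X) :
    (ctr G C).base ((ctr G C).opp d) = .inr X := by
  have h0 := bd_empty_iff.1 (Finset.card_eq_zero.1 hc)
  rcases d with h | p
  · change cls C (G.base h) = .inr X at hb
    change cls C (G.base (G.opp h)) = .inr X
    change _ ∈ ctrD G C at hd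
    simp only [ctrD, Finset.mem_union, Finset.mem_image, Finset.mem_filter,
      Finset.mem_product, Sum.inl.injEq, reduceCtorEq, and_false, exists_false, or_false,
      exists_eq_right] at hd
    exact cls_eq hC hX (h0 h hd.1 (cls_inr hb).2)
  · exact hb

end Ctr

/-! ### Elements -/

section Elt

variable {V H : ℕ → Type u}

/-- The pieces: connected sets that at most one edge leaves, and whole graphs. -/
structure Elt (G : ∀ i, RotGraph (V i) (H i)) where
  /-- index of the rotated graph -/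
  i : ℕ
  /-- the set of vertices -/
  W : Finset (V i)
  sub : W ⊆ (G i).verts
  ne : W.Nonempty
  le : cut (G i) W ≤ 1
  ok : Conn (G i) W ∨ W = (G i).verts

end Elt

theorem pe_mono {V H V' H' : Type*} {r r' : V → V' → Prop} {G : RotGraph V H} {A : Finset V}
    {G' : RotGraph V' H'} {A' : Finset V'} {β : H → H'}
    (h : ∀ v ∈ A, ∀ v' ∈ A', r v v' → r' v v') (hp : PE r G A G' A' β) : PE r' G A G' A' β := by
  obtain ⟨f, φ, M, E⟩ := hp
  exact ⟨f, φ, M, { E with f_rel := fun v hv => h v hv _ (E.f_mem v hv) (E.f_rel v hv) }⟩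

/-- Sums of well-quasi-orders. -/
theorem wqo_sum {α β : Type*} {r : α → α → Prop} {s : β → β → Prop} [IsPreorder α r]
    [IsPreorder β s] (hr : WellQuasiOrdered r) (hs : WellQuasiOrdered s) :
    WellQuasiOrdered (Sum.LiftRel r s) := by
  intro f
  by_cases h : ∀ N, ∃ n > N, (f n).isLeft
  · obtain ⟨g, hg, hg'⟩ := Nat.exists_strictMono_subsequence (P := fun n => (f n).isLeft) h
    choose a ha using fun n => Sum.isLeft_iff.1 (hg' n)
    obtain ⟨m, n, hmn, hle⟩ := hr a
    refine ⟨g m, g n, hg hmn, ?_⟩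
    rw [ha, ha]
    exact .inl hle
  · push Not at h
    obtain ⟨N, hN⟩ := h
    have h1 : ∀ n, ∃ b, f (N + 1 + n) = .inr b := fun n => by
      have := hN (N + 1 + n) (by omega)
      rcases hf : f (N + 1 + n) with a | b
      · rw [hf] at this
        exact absurd rfl this
      · exact ⟨b, rfl⟩
    choose b hb using h1
    obtain ⟨m, n, hmn, hle⟩ := hs b
    refine ⟨N + 1 + m, N + 1 + n, by omega, ?_⟩
    rw [hb, hb]
    exact .inr hle

section Main

variable {V H : ℕ → Type u} {G : ∀ i, RotGraph (V i) (H i)}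

/-- Every element has a family of children. -/
theorem exists_children (hB : StBridge.{u}) (hK : StComps.{u}) {k : ℕ}
    {T : ∀ i, Finset (Finset (V i))} (hT : ∀ i, TCD k (G i) (G i).verts (T i)) (x : Elt G) :
    ∃ C : Finset (Finset (V x.i)), Fam (G x.i) x.W C ∧
      (∀ X ∈ C, X ⊂ x.W ∧ cut (G x.i) X ≤ 1 ∧ Conn (G x.i) X) ∧
      ((Conn (G x.i) x.W ∧ ∃ (D : Finset (V x.i ⊕ Finset (V x.i)))
        (T' : Finset (Finset (V x.i ⊕ Finset (V x.i)))),
        TCD (k + 1) (ctr (G x.i) C) (cA C x.W) T' ∧ Core (ctr (G x.i) C) (cA C x.W) D ∧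
        ExpF (ctr (G x.i) C) (cA C x.W) D T') ∨
      (¬ Conn (G x.i) x.W ∧ (∀ X ∈ C, cut (G x.i) X = 0) ∧ ∀ v ∈ x.W, ∃ X ∈ C, v ∈ X)) := by
  by_cases hc : Conn (G x.i) x.W
  · obtain ⟨C, D, T', h1, h2, h3, h4, h5⟩ := hB k (V x.i) (H x.i) (G x.i) (T x.i) x.W (hT x.i)
      x.sub x.ne x.le hc
    exact ⟨C, h1, fun X hX => ⟨(h2 X hX).1, (h2 X hX).2.1.le, (h2 X hX).2.2⟩,
      Or.inl ⟨hc, D, T', h3, h4, h5⟩⟩
  · have hW : x.W = (G x.i).verts := x.ok.resolve_left hc
    obtain ⟨C, h1, h2, h3⟩ := hK (V x.i) (H x.i) (G x.i) (hW ▸ x.ne)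
    rw [← hW] at h1 h3
    refine ⟨C, h1, fun X hX => ⟨?_, by rw [(h2 X hX).1]; exact Nat.zero_le _, (h2 X hX).2⟩,
      Or.inr ⟨hc, fun X hX => (h2 X hX).1, h3⟩⟩
    refine lt_of_le_of_ne (h1.sub X hX) fun he => hc ?_
    rw [← he]
    exact (h2 X hX).2

/-- Order of the elements. -/
def eLe {Q : Type u} (q : Q → Q → Prop) (lab : ∀ i, V i → Q) (x y : Elt G) : Prop :=
  ∃ β, PE (fun v w => q (lab x.i v) (lab y.i w)) (G x.i) x.W (G y.i) y.W β

/-- Order of the elements that respects the order of the boundary. -/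
def mLe {Q : Type u} (q : Q → Q → Prop) (lab : ∀ i, V i → Q) (x y : Elt G) : Prop :=
  MPE (fun v w => q (lab x.i v) (lab y.i w)) (G x.i) x.W (G y.i) y.W

theorem eLe_preorder {Q : Type u} (q : Q → Q → Prop) [IsPreorder Q q] (lab : ∀ i, V i → Q) :
    IsPreorder (Elt G) (eLe q lab) :=
  { refl := fun x => ⟨id, PE.refl (fun v w => q (lab x.i v) (lab x.i w))
      (fun _ => _root_.refl _) _ _⟩
    trans := fun x y z ⟨β, h⟩ ⟨β', h'⟩ => ⟨β' ∘ β,
      PE.trans (r₁ := fun v w => q (lab x.i v) (lab y.i w))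
        (r₂ := fun v w => q (lab y.i v) (lab z.i w))
        (r := fun v w => q (lab x.i v) (lab z.i w))
        (fun _ _ _ h h' => _root_.trans h h') h h'⟩ }

theorem mLe_preorder {Q : Type u} (q : Q → Q → Prop) [IsPreorder Q q] (lab : ∀ i, V i → Q) :
    IsPreorder (Elt G) (mLe q lab) :=
  { refl := fun x => ⟨id, PE.refl (fun v w => q (lab x.i v) (lab x.i w))
      (fun _ => _root_.refl _) _ _, by simp⟩
    trans := fun x y z ⟨β, h, e⟩ ⟨β', h', e'⟩ => ⟨β' ∘ β,
      PE.trans (r₁ := fun v w => q (lab x.i v) (lab y.i w))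
        (r₂ := fun v w => q (lab y.i v) (lab z.i w))
        (r := fun v w => q (lab x.i v) (lab z.i w))
        (fun _ _ _ h h' => _root_.trans h h') h h', by rw [← List.map_map, e, e']⟩ }

/-- Descendants. -/
theorem desc_sub {CC : ∀ x : Elt G, Finset (Finset (V x.i))} (hCC : ∀ x, ∀ X ∈ CC x, X ⊆ x.W)
    {m : ℕ} {x y : Elt G}
    (h : Desc (fun x y => ∃ X ∈ CC x, ∃ h1 h2 h3 h4, y = ⟨x.i, X, h1, h2, h3, h4⟩)
      (fun x => cut (G x.i) x.W) m x y) :
    ∃ (W : Finset (V x.i)) (h1 : _) (h2 : _) (h3 : _) (h4 : _), W ⊆ x.W ∧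
      y = ⟨x.i, W, h1, h2, h3, h4⟩ := by
  induction h with
  | refl x _ => exact ⟨x.W, x.sub, x.ne, x.le, x.ok, subset_rfl, rfl⟩
  | step x z y _ hxz _ ih =>
    obtain ⟨X, hX, h1, h2, h3, h4, rfl⟩ := hxz
    obtain ⟨W, g1, g2, g3, g4, g5, rfl⟩ := ih
    exact ⟨W, g1, g2, g3, g4, g5.trans (hCC x X hX), rfl⟩

theorem link {Q : Type u} (q : Q → Q → Prop) [IsPreorder Q q] (lab : ∀ i, V i → Q)
    {x : Elt G} {W : Finset (V x.i)} {m : ℕ} (hW : W ⊆ x.W) (hne : W.Nonempty)
    (hx : cut (G x.i) x.W = m) (hy : cut (G x.i) W = m) :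
    ∃ β, PE (fun v w => q (lab x.i v) (lab x.i w)) (G x.i) W (G x.i) x.W β := by
  refine exists_link (fun v w => q (lab x.i v) (lab x.i w)) (fun v => _root_.refl _) (G x.i)
    W x.W hW x.sub m hy hx fun U hWU hUx => ?_
  rcases Nat.eq_zero_or_pos m with h0 | h0
  · omega
  have hle := x.le
  have hm : m = 1 := by omega
  by_contra hlt
  have hU : bd (G x.i) U = ∅ := Finset.card_eq_zero.1 (by unfold cut at hlt; omega)
  have hUne : U ≠ x.W := by
    rintro rfl
    unfold cut at hx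
    rw [hU, Finset.card_empty] at hx
    omega
  rcases x.ok with hc | hv
  · refine hc U hUx (hne.mono hWU) hUne fun h hh hb h2 => ?_
    exact (Finset.mem_sdiff.1 h2).2 (bd_empty_iff.1 hU h hh hb)
  · have : bd (G x.i) x.W = ∅ := by
      rw [bd_empty_iff, hv]
      intro h hh _
      exact (G x.i).base_mem _ ((G x.i).opp_mem h hh)
    unfold cut at hx
    rw [this, Finset.card_empty] at hx
    omega

/-- Labels of the contracted graph. -/
noncomputable def clab {Q S V₀ : Type u} [Nonempty V₀] (lab : V₀ → Q) (C : Finset (Finset V₀))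
    (e : ∀ X ∈ C, S) : V₀ ⊕ Finset V₀ → Q ⊕ S
  | .inl v => .inl (lab v)
  | .inr X => if h : X ∈ C then .inr (e X h) else .inl (lab (Classical.arbitrary V₀))

theorem mem_C_of_cA {V₀ : Type u} {C : Finset (Finset V₀)} {W X : Finset V₀}
    (h : .inr X ∈ cA C W) : X ∈ C := by
  obtain ⟨w, -, he⟩ := Finset.mem_image.1 h
  exact (cls_inr he).1

theorem clab_inr {Q S V₀ : Type u} [Nonempty V₀] (lab : V₀ → Q) (C : Finset (Finset V₀))
    (e : ∀ X ∈ C, S) {X : Finset V₀} (h : X ∈ C) : clab lab C e (.inr X) = .inr (e X h) := by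
  simp only [clab, dif_pos h]

/-- The element that belongs to a child. -/
def child (x : Elt G) (X : Finset (V x.i)) (h1 : X ⊂ x.W) (h2 : X.Nonempty)
    (h3 : cut (G x.i) X ≤ 1 ∧ Conn (G x.i) X) : Elt G :=
  ⟨x.i, X, h1.1.trans x.sub, h2, h3.1, Or.inl h3.2⟩

/-- Expansion. -/
theorem expand [∀ i, Nonempty (V i)] [∀ i, Nonempty (H i)] (hE : StExp.{u}) {Q : Type u}
    (q : Q → Q → Prop) (lab : ∀ i, V i → Q) {S : Type u} {s : S → S → Prop} (x y : Elt G)
    (C : Finset (Finset (V x.i))) (C' : Finset (Finset (V y.i))) (hC : Fam (G x.i) x.W C)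
    (hC' : Fam (G y.i) y.W C') (hc : ∀ X ∈ C', cut (G y.i) X ≤ 1) (e : ∀ X ∈ C, S)
    (e' : ∀ X ∈ C', S) (he : ∀ X (h : X ∈ C) X' (h' : X' ∈ C'), s (e X h) (e' X' h') →
      MPE (fun v w => q (lab x.i v) (lab y.i w)) (G x.i) X (G y.i) X')
    {β : H x.i ⊕ (Finset (V x.i) × Bool) → H y.i ⊕ (Finset (V y.i) × Bool)}
    (h : PE (fun a b => Sum.LiftRel q s (clab (lab x.i) C e a) (clab (lab y.i) C' e' b))
      (ctr (G x.i) C) (cA C x.W) (ctr (G y.i) C') (cA C' y.W) β) : eLe q lab x y := by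
  refine hE (V x.i) (V y.i) (H x.i) (H y.i) (G x.i) (G y.i) C C' x.W y.W
    (fun v w => q (lab x.i v) (lab y.i w))
    (fun a b => a ∈ cA C x.W ∧ b ∈ cA C' y.W ∧
      Sum.LiftRel q s (clab (lab x.i) C e a) (clab (lab y.i) C' e' b))
    β x.sub y.sub hC hC' ?_ ?_ ?_ ?_ ?_ ?_
  · rintro v v' ⟨-, -, h3⟩
    exact Sum.liftRel_inl_inl.1 h3
  · rintro v X' ⟨-, h2, h3⟩
    rw [clab_inr _ _ _ (mem_C_of_cA h2)] at h3
    exact Sum.not_liftRel_inl_inr h3
  · rintro X v' ⟨h1, -, h3⟩
    rw [clab_inr _ _ _ (mem_C_of_cA h1)] at h3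
    exact Sum.not_liftRel_inr_inl h3
  · rintro X hX X' hX' ⟨-, -, h3⟩
    rw [clab_inr _ _ _ hX, clab_inr _ _ _ hX', Sum.liftRel_inr_inr] at h3
    exact he X hX X' hX' h3
  · intro X' hX'
    exact trav_of_cut_le_one (hc X' hX')
  · exact pe_mono (fun v hv v' hv' h' => ⟨hv, hv', h'⟩) h

/-- The contraction of a graph to its components is a fat bag. -/
theorem comps_tree {V₀ H₀ : Type u} (G : RotGraph V₀ H₀) {W : Finset V₀}
    {C : Finset (Finset V₀)} (hne : W.Nonempty) (hC : Fam G W C) (h0 : ∀ X ∈ C, cut G X = 0)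
    (hcov : ∀ v ∈ W, ∃ X ∈ C, v ∈ X) :
    IsBagTreeZ 0 2 (ctr G C) (cA C W) (.leaf (cA C W)) := by
  have hmem : ∀ z ∈ cA C W, ∃ X ∈ C, z = .inr X := by
    intro z hz
    obtain ⟨v, hv, rfl⟩ := Finset.mem_image.1 hz
    obtain ⟨X, hX, hvX⟩ := hcov v hv
    exact ⟨X, hX, cls_eq hC hX hvX⟩
  have hcl : ∀ z ∈ cA C W, ∀ d ∈ (ctr G C).darts, (ctr G C).base d = z →
      (ctr G C).base ((ctr G C).opp d) = z := by
    intro z hz d hd hb
    obtain ⟨X, hX, rfl⟩ := hmem z hz
    exact atom_closed hC hX (h0 X hX) hd hb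
  have hcut : ∀ S ⊆ cA C W, cut (ctr G C) S = 0 := by
    intro S hS
    refine Finset.card_eq_zero.2 (bd_empty_iff.2 fun d hd hb => ?_)
    rw [hcl _ (hS hb) d hd rfl]
    exact hb
  refine ⟨?_, ?_, ?_, ?_, ?_⟩
  · simp [Tree.leaves]
  · intro F hF
    rw [Tree.leaves, List.mem_singleton] at hF
    subst hF
    exact hne.image _
  · intro F hF
    rw [Tree.leaves, List.mem_singleton] at hF
    subst hF
    refine ⟨cA C W, subset_rfl, by simp, fun z hz => ⟨?_, ?_, ?_⟩⟩
    · obtain ⟨X, hX, rfl⟩ := hmem z hz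
      change (ctrR G C (.inr X)).length ≤ 2
      simp only [ctrR, if_pos hX, lgs_nil hC hX (h0 X hX)]
      simp
    · rw [hcut {z} (Finset.singleton_subset_iff.2 hz)]
      exact Nat.zero_le _
    · intro z' hz' hne' d hd hb hb'
      rw [Finset.mem_singleton] at hb hb'
      rw [hcl z hz d hd hb] at hb'
      exact hne' hb'.symm
  · exact TLB.bset_leaf _
  · intro s hs
    cases hs
    rw [TLB.bset_leaf]
    exact (hcut _ subset_rfl).le

end Main

/-- (T1) Pieces that are whole graphs with a tree-cut decomposition of bounded width. -/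
theorem stT1_46 (hM : StMainZ.{u, u, u}) (hE : StExp.{u}) (hK : StMark.{u}) (h2 : StT2.{u})
    (hB : StBridge.{u}) (hC : StComps.{u}) : StT1.{u} := by
  intro k Q q _ hq V H _ _ G lab T hT
  choose CC c1 c2 c3 using fun x : Elt G => exists_children hB hC hT x
  have instE : IsPreorder (Elt G) (eLe q lab) := eLe_preorder q lab
  have instM : IsPreorder (Elt G) (mLe q lab) := mLe_preorder q lab
  have main : (Set.univ : Set (Elt G)).PartiallyWellOrderedOn (eLe q lab) := by
    refine wqo_of_levels (eLe q lab) (fun x => x.W.card) (fun x => cut (G x.i) x.W) 1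
      (fun x y => ∃ X ∈ CC x, ∃ h1 h2 h3 h4, y = ⟨x.i, X, h1, h2, h3, h4⟩) ?_ ?_ ?_ ?_
    · rintro x y ⟨X, hX, h1, h2, h3, h4, rfl⟩
      exact Finset.card_lt_card (c2 x X hX).1
    · exact fun x => x.le
    · intro m x y hx hy hd
      obtain ⟨W, h1, h2, h3, h4, h5, rfl⟩ := desc_sub (fun x X hX => (c1 x).sub X hX) hd
      exact link q lab h5 h2 hx hy
    · intro X hX
      set Sc : Set (Elt G) := {y | ∃ x ∈ X, ∃ X ∈ CC x, ∃ h1 h2 h3 h4,
        y = ⟨x.i, X, h1, h2, h3, h4⟩} with hSc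
      have hS1 : Sc.PartiallyWellOrderedOn (mLe q lab) :=
        hK (Elt G) (fun x => V x.i) (fun x => H x.i) (fun x => G x.i) (fun x => x.W) Q q
          (fun x => lab x.i) Sc (fun x _ => x.le.trans one_le_two) hX
      let s : Sc → Sc → Prop := fun a b => mLe q lab a.1 b.1
      have hs0 : IsPreorder Sc s :=
        { refl := fun a => _root_.refl (r := mLe q lab) a.1
          trans := fun a b c h h' => _root_.trans (r := mLe q lab) h h' }
      have hs : WellQuasiOrdered s := by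
        intro f
        obtain ⟨m, n, hmn, h⟩ := hS1.exists_lt (f := fun n => (f n).1) (fun n => (f n).2)
        exact ⟨m, n, hmn, h⟩
      have hQS : WellQuasiOrdered (Sum.LiftRel q s) := wqo_sum hq hs
      have hp : IsPreorder (Q ⊕ Sc) (Sum.LiftRel q s) :=
        { refl := fun a => by
            rcases a with a | a
            · exact .inl (_root_.refl _)
            · exact .inr (_root_.refl _)
          trans := fun a b c h h' => by
            rcases h with h | h
            · rcases h' with h' | _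
              exact .inl (_root_.trans h h')
            · rcases h' with _ | h'
              exact .inr (_root_.trans h h') }
      let e : ∀ (x : Elt G) (hx : x ∈ X), ∀ Y ∈ CC x, Sc := fun x hx Y hY =>
        ⟨child x Y (c2 x Y hY).1 ((c1 x).ne Y hY) (c2 x Y hY).2, x, hx, Y, hY, _, _, _, _, rfl⟩
      have key : ∀ (x y : Elt G) (hx : x ∈ X) (hy : y ∈ X),
          (∃ β, PE (fun a b => Sum.LiftRel q s (clab (lab x.i) (CC x) (e x hx) a)
            (clab (lab y.i) (CC y) (e y hy) b)) (ctr (G x.i) (CC x)) (cA (CC x) x.W)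
            (ctr (G y.i) (CC y)) (cA (CC y) y.W) β) → eLe q lab x y := by
        rintro x y hx hy ⟨β, hβ⟩
        exact expand hE q lab x y (CC x) (CC y) (c1 x) (c1 y) (fun Y hY => (c2 y Y hY).2.1)
          (e x hx) (e y hy) (fun Y hY Y' hY' h => h) hβ
      have hX1 : {x | x ∈ X ∧ Conn (G x.i) x.W}.PartiallyWellOrderedOn (eLe q lab) := by
        rw [Set.partiallyWellOrderedOn_iff_exists_lt]
        intro f hf
        have h3 : ∀ n, ∃ (D : Finset (V (f n).i ⊕ Finset (V (f n).i)))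
            (T' : Finset (Finset (V (f n).i ⊕ Finset (V (f n).i)))),
            TCD (k + 1) (ctr (G (f n).i) (CC (f n))) (cA (CC (f n)) (f n).W) T' ∧
            Core (ctr (G (f n).i) (CC (f n))) (cA (CC (f n)) (f n).W) D ∧
            ExpF (ctr (G (f n).i) (CC (f n))) (cA (CC (f n)) (f n).W) D T' := by
          intro n
          rcases c3 (f n) with h | h
          · exact h.2
          · exact absurd (hf n).2 h.1
        choose D T' h4 h5 h6 using h3
        obtain ⟨m, n, hmn, hβ⟩ := h2 (k + 1) (Q ⊕ Sc) (Sum.LiftRel q s) hQS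
          (fun n => V (f n).i ⊕ Finset (V (f n).i))
          (fun n => H (f n).i ⊕ (Finset (V (f n).i) × Bool))
          (fun n => ctr (G (f n).i) (CC (f n)))
          (fun n => clab (lab (f n).i) (CC (f n)) (e (f n) (hf n).1))
          (fun n => cA (CC (f n)) (f n).W) D T' (fun n => cA_sub_verts (f n).sub)
          (fun n => (cut_ctr_le (c1 (f n)).sub).trans (f n).le) h4 h5 h6
        exact ⟨m, n, hmn, key (f m) (f n) (hf m).1 (hf n).1 hβ⟩
      have hX2 : {x | x ∈ X ∧ ¬ Conn (G x.i) x.W}.PartiallyWellOrderedOn (eLe q lab) := by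
        rw [Set.partiallyWellOrderedOn_iff_exists_lt]
        intro f hf
        have h3 : ∀ n, (∀ X ∈ CC (f n), cut (G (f n).i) X = 0) ∧
            ∀ v ∈ (f n).W, ∃ X ∈ CC (f n), v ∈ X := by
          intro n
          rcases c3 (f n) with h | h
          · exact absurd h.1 (hf n).2
          · exact h.2
        obtain ⟨m, n, hmn, hβ⟩ := hM 0 2 (Q ⊕ Sc) (Sum.LiftRel q s) hQS
          (fun n => V (f n).i ⊕ Finset (V (f n).i))
          (fun n => H (f n).i ⊕ (Finset (V (f n).i) × Bool))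
          (fun n => ctr (G (f n).i) (CC (f n)))
          (fun n => clab (lab (f n).i) (CC (f n)) (e (f n) (hf n).1))
          (fun n => cA (CC (f n)) (f n).W) (fun n => cA_sub_verts (f n).sub)
          (fun n => ⟨_, comps_tree (G (f n).i) (f n).ne (c1 (f n)) (h3 n).1 (h3 n).2⟩)
        exact ⟨m, n, hmn, key (f m) (f n) (hf m).1 (hf n).1 hβ⟩
      refine (hX1.union hX2).mono fun x hx => ?_
      by_cases hc : Conn (G x.i) x.W
      · exact Or.inl ⟨hx, hc⟩
      · exact Or.inr ⟨hx, hc⟩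
  have hv : ∀ i, cut (G i) (G i).verts ≤ 1 := by
    intro i
    have : bd (G i) (G i).verts = ∅ :=
      bd_empty_iff.2 fun h hh _ => (G i).base_mem _ ((G i).opp_mem h hh)
    rw [cut, this]
    exact Nat.zero_le _
  obtain ⟨m, n, hmn, β, hβ⟩ := main.exists_lt (f := fun n => (⟨n, (G n).verts, subset_rfl,
    (hT n).ne _ (hT n).top, hv n, Or.inr rfl⟩ : Elt G)) (fun n => Set.mem_univ _)
  exact ⟨m, n, hmn, β, hβ⟩

/-- (F) The theorem. -/
theorem stTCW_46 (h : StT1.{u}) : StTCW.{u} := by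
  intro k Q q _ hq V H _ _ G lab hG
  by_cases hne : ∃ i, (G i).verts = ∅
  · obtain ⟨i, hi⟩ := hne
    refine ⟨i, i + 1, Nat.lt_succ_self i, imm_of_PE _ _ _ (fun _ => Classical.arbitrary _) ?_⟩
    rw [hi]
    exact PE.empty _ _ _
  push Not at hne
  choose T hT using fun i => (hG i).resolve_left (hne i).ne_empty
  obtain ⟨m, n, hmn, β, hβ⟩ := h k Q q hq V H G lab T hT
  exact ⟨m, n, hmn, imm_of_PE _ _ _ β hβ⟩

end RotWqo.Tc.T1_46
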