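import Pool.Agent.Lib.MP_cb4a0f_co.Hk.Stmts2

/-!
# MP_cb4a0f_co: rotated graphs of bounded tree-cut width, definitions of the modules

ATOMS are vertices with at most two half-edges that are not in loops. Thin sets are sets of
vertices which at most two edges leave. A tree-cut decomposition is a laminar family of sets of
vertices: the thin children of a set are contracted to atoms.
-/

open Classical

namespace RotWqo.Tc

open RotWqo.Bag RotWqo.Hk

variable {V H V' H' : Type*}

/-! ### Atoms -/

/-- The half-edges at `z` that do not belong to loops. -/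
noncomputable def nl (G : RotGraph V H) (z : V) : Finset H :=
  G.darts.filter (fun h => G.base h = z ∧ G.base (G.opp h) ≠ z)

/-- The vertices in `Z` are atoms, and their neighbours are in `A` but not in `Z`. -/
def Thin (d : ℕ) (G : RotGraph V H) (A Z : Finset V) : Prop :=
  ∀ z ∈ Z, (G.rot z).length ≤ d ∧ (nl G z).card ≤ 2 ∧ ∀ h ∈ nl G z, G.base (G.opp h) ∈ A \ Z

/-- No edge joins `Y` and `Y'`. -/
def Nadj (G : RotGraph V H) (Y Y' : Finset V) : Prop :=
  ∀ h ∈ G.darts, G.base h ∈ Y → G.base (G.opp h) ∉ Y'

/-- The half-edges which are kept if the atoms in `Z` are suppressed. -/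
def Keep (G : RotGraph V H) (Z : Finset V) (h : H) : Prop :=
  h ∈ G.darts ∧ G.base h ∉ Z ∧ (G.base (G.opp h) ∉ Z ∨
    ∃ g, g ≠ G.opp h ∧ nl G (G.base (G.opp h)) = {G.opp h, g} ∧ G.base (G.opp g) ∉ Z)

/-- The new other half. -/
noncomputable def skOpp (G : RotGraph V H) (Z : Finset V) (h : H) : H :=
  if hh : G.base (G.opp h) ∈ Z ∧
    ∃ g, g ≠ G.opp h ∧ nl G (G.base (G.opp h)) = {G.opp h, g} ∧ G.base (G.opp g) ∉ Z
  then G.opp hh.2.choose else G.opp h

/-- `K` is the skeleton of `G`: the atoms in `Z` are suppressed (those with fewer than two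
neighbours are deleted). -/
structure IsSk (G : RotGraph V H) (Z : Finset V) (K : RotGraph V H) : Prop where
  verts : K.verts = G.verts
  darts : ∀ h, h ∈ K.darts ↔ Keep G Z h
  base : K.base = G.base
  opp : ∀ h ∈ K.darts, K.opp h = skOpp G Z h
  rot : ∀ v, K.rot v = (G.rot v).filter (fun h => decide (Keep G Z h))

/-- A fat bag: all but `k` of its vertices are pairwise nonadjacent atoms. -/
def Fat (k d : ℕ) (G : RotGraph V H) (F : Finset V) : Prop :=
  ∃ Z ⊆ F, (F \ Z).card ≤ k ∧ ∀ z ∈ Z, (G.rot z).length ≤ d ∧ cut G {z} ≤ 2 ∧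
    ∀ z' ∈ Z, z' ≠ z → Nadj G {z} {z'}

/-- A tree of fat bags of the piece `(G, A)`. -/
structure IsBagTreeZ (k d : ℕ) (G : RotGraph V H) (A : Finset V) (t : Tree (Finset V)) :
    Prop where
  pw : t.leaves.Pairwise Disjoint
  ne : ∀ F ∈ t.leaves, F.Nonempty
  fat : ∀ F ∈ t.leaves, Fat k d G F
  top : bset t = A
  cuts : ∀ s, IsSub s t → cut G (bset s) ≤ k

/-! ### Contraction of thin sets -/

/-- The vertex of the contracted graph that contains `v`. -/
noncomputable def cls (C : Finset (Finset V)) (v : V) : V ⊕ Finset V :=
  if h : ∃ X ∈ C, v ∈ X then .inr h.choose else .inl v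

/-- The half-edges of the set `X` in the contracted graph, as a list. -/
noncomputable def lgs (G : RotGraph V H) (C : Finset (Finset V)) (X : Finset V) : List H :=
  (G.darts.filter (fun h => cls C (G.base h) = .inr X ∧
    cls C (G.base (G.opp h)) ≠ .inr X)).toList

/-- The half-edges of the contracted graph. -/
noncomputable def ctrD (G : RotGraph V H) (C : Finset (Finset V)) :
    Finset (H ⊕ (Finset V × Bool)) :=
  (G.darts.filter (fun h => ∀ X, cls C (G.base h) = .inr X →
    cls C (G.base (G.opp h)) ≠ .inr X)).image .inl ∪ (C ×ˢ Finset.univ).image .inr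

/-- The ends in the contracted graph. -/
noncomputable def ctrB (G : RotGraph V H) (C : Finset (Finset V)) :
    H ⊕ (Finset V × Bool) → V ⊕ Finset V
  | .inl h => cls C (G.base h)
  | .inr p => .inr p.1

/-- The other halves in the contracted graph. -/
def ctrO (G : RotGraph V H) : H ⊕ (Finset V × Bool) → H ⊕ (Finset V × Bool)
  | .inl h => .inl (G.opp h)
  | .inr p => .inr (p.1, !p.2)

/-- The lists of the contracted graph. -/
noncomputable def ctrR (G : RotGraph V H) (C : Finset (Finset V)) :
    V ⊕ Finset V → List (H ⊕ (Finset V × Bool))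
  | .inl v => if cls C v = .inl v then (G.rot v).map .inl else []
  | .inr X => if X ∈ C then (lgs G C X).map .inl ++ [.inr (X, false), .inr (X, true)] else []

theorem cls_inr {C : Finset (Finset V)} {v : V} {X : Finset V} (h : cls C v = .inr X) :
    X ∈ C ∧ v ∈ X := by
  unfold cls at h
  split_ifs at h with h1
  cases h
  exact h1.choose_spec

theorem cls_inl {C : Finset (Finset V)} {v w : V} (h : cls C v = .inl w) : v = w := by
  unfold cls at h
  split_ifs at h with h1
  cases h
  rfl

/-- The contracted graph: each set in `C` becomes an atom with a loop, which marks the order of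
the other half-edges. -/
noncomputable def ctr (G : RotGraph V H) (C : Finset (Finset V)) :
    RotGraph (V ⊕ Finset V) (H ⊕ (Finset V × Bool)) where
  verts := G.verts.image (cls C) ∪ C.image .inr
  darts := ctrD G C
  base := ctrB G C
  opp := ctrO G
  rot := ctrR G C
  base_mem := by
    rintro (h | p) hh
    · simp only [ctrD, Finset.mem_union, Finset.mem_image, Finset.mem_filter, Finset.mem_product,
        Sum.inl.injEq, reduceCtorEq, and_false, exists_false, or_false, exists_eq_right] at hh
      exact Finset.mem_union_left _ (Finset.mem_image_of_mem _ (G.base_mem h hh.1))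
    · simp only [ctrD, Finset.mem_union, Finset.mem_image, Finset.mem_filter, Finset.mem_product,
        Sum.inr.injEq, reduceCtorEq, and_false, exists_false, false_or, exists_eq_right,
        Finset.mem_univ, and_true] at hh
      exact Finset.mem_union_right _ (Finset.mem_image_of_mem _ hh)
  opp_mem := by
    rintro (h | p) hh
    · simp only [ctrD, ctrO, Finset.mem_union, Finset.mem_image, Finset.mem_filter,
        Finset.mem_product,
        Sum.inl.injEq, reduceCtorEq, and_false, exists_false, or_false, exists_eq_right] at hh ⊢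
      refine ⟨G.opp_mem h hh.1, fun X h1 h2 => ?_⟩
      rw [G.opp_opp h hh.1] at h2
      exact hh.2 X h2 h1
    · simp only [ctrD, ctrO, Finset.mem_union, Finset.mem_image, Finset.mem_filter,
        Finset.mem_product,
        Sum.inr.injEq, reduceCtorEq, and_false, exists_false, false_or, exists_eq_right,
        Finset.mem_univ, and_true] at hh ⊢
      exact hh
  opp_opp := by
    rintro (h | p) hh
    · simp only [ctrD, Finset.mem_union, Finset.mem_image, Finset.mem_filter, Finset.mem_product,
        Sum.inl.injEq, reduceCtorEq, and_false, exists_false, or_false, exists_eq_right] at hh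
      simp only [ctrO, G.opp_opp h hh.1]
    · simp [ctrO]
  opp_ne := by
    rintro (h | p) hh
    · simp only [ctrD, Finset.mem_union, Finset.mem_image, Finset.mem_filter, Finset.mem_product,
        Sum.inl.injEq, reduceCtorEq, and_false, exists_false, or_false, exists_eq_right] at hh
      simp only [ctrO, ne_eq, Sum.inl.injEq]
      exact G.opp_ne h hh.1
    · rcases p with ⟨X, b⟩
      simp only [ctrO, ne_eq, Sum.inr.injEq, Prod.mk.injEq, true_and]
      cases b <;> simp
  nodup := by
    rintro (v | X)
    · simp only [ctrR]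
      split_ifs
      · exact (G.nodup v).map Sum.inl_injective
      · exact List.nodup_nil
    · simp only [ctrR]
      split_ifs
      · rw [List.nodup_append]
        refine ⟨(Finset.nodup_toList _).map Sum.inl_injective, by simp, ?_⟩
        intro a ha b hb hab
        subst hab
        rw [List.mem_map] at ha
        obtain ⟨h, -, rfl⟩ := ha
        simp at hb
      · exact List.nodup_nil
  mem_rot := by
    rintro (v | X) (h | p)
    · simp only [ctrR, ctrD, ctrB, Finset.mem_union, Finset.mem_image, Finset.mem_filter,
        Finset.mem_product, Sum.inl.injEq, reduceCtorEq, and_false, exists_false, or_false,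
        exists_eq_right]
      split_ifs with h1
      · simp only [List.mem_map, Sum.inl.injEq, exists_eq_right, G.mem_rot]
        constructor
        · rintro ⟨h2, rfl⟩
          exact ⟨⟨h2, fun X h3 => by rw [h1] at h3; cases h3⟩, h1⟩
        · rintro ⟨⟨h2, -⟩, h3⟩
          exact ⟨h2, cls_inl h3⟩
      · simp only [List.not_mem_nil, false_iff, not_and]
        rintro - h3
        have h4 := cls_inl h3
        rw [h4] at h3
        exact h1 h3
    · simp only [ctrR, ctrB, reduceCtorEq, and_false, iff_false]
      split_ifs <;> simp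
    · simp only [ctrR, ctrD, ctrB, Finset.mem_union, Finset.mem_image, Finset.mem_filter,
        Finset.mem_product, Sum.inl.injEq, reduceCtorEq, and_false, exists_false, or_false,
        exists_eq_right]
      split_ifs with h1
      · simp only [lgs, List.mem_append, List.mem_map, Finset.mem_toList, Finset.mem_filter,
          Sum.inl.injEq, exists_eq_right, List.mem_cons, reduceCtorEq, List.not_mem_nil, or_false]
        constructor
        · rintro ⟨h2, h3, h4⟩
          refine ⟨⟨h2, fun Y h5 => ?_⟩, h3⟩
          rw [h3] at h5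
          cases h5
          exact h4
        · rintro ⟨⟨h2, h3⟩, h4⟩
          exact ⟨h2, h4, h3 X h4⟩
      · simp only [List.not_mem_nil, false_iff, not_and]
        rintro - h3
        exact h1 (cls_inr h3).1
    · simp only [ctrR, ctrD, ctrB, Finset.mem_union, Finset.mem_image, Finset.mem_filter,
        Finset.mem_product, Sum.inr.injEq, reduceCtorEq, and_false, exists_false, false_or,
        exists_eq_right, Finset.mem_univ, and_true]
      rcases p with ⟨Y, b⟩
      split_ifs with h1
      · simp only [List.mem_append, List.mem_map, reduceCtorEq, and_false, exists_false,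
          List.mem_cons, Sum.inr.injEq, Prod.mk.injEq, List.not_mem_nil, or_false, false_or]
        constructor
        · rintro (⟨rfl, -⟩ | ⟨rfl, -⟩) <;> exact ⟨h1, rfl⟩
        · rintro ⟨-, rfl⟩
          cases b <;> simp
      · simp only [List.not_mem_nil, false_iff, not_and]
        rintro h2 h3
        exact h1 (h3 ▸ h2)

/-- The image of a set of vertices in the contracted graph. -/
noncomputable def cA (C : Finset (Finset V)) (S : Finset V) : Finset (V ⊕ Finset V) :=
  S.image (cls C)

/-- A family of disjoint thin subsets of `S`. -/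
structure Fam (G : RotGraph V H) (S : Finset V) (C : Finset (Finset V)) : Prop where
  sub : ∀ X ∈ C, X ⊆ S
  ne : ∀ X ∈ C, X.Nonempty
  disj : ∀ X ∈ C, ∀ Y ∈ C, X ≠ Y → Disjoint X Y
  thin : ∀ X ∈ C, cut G X ≤ 2

/-- Embedding of pieces that respects the chosen order of the boundary half-edges. -/
def MPE (r : V → V' → Prop) (G : RotGraph V H) (A : Finset V) (G' : RotGraph V' H')
    (A' : Finset V') : Prop :=
  ∃ β, PE r G A G' A' β ∧ (bd G A).toList.map β = (bd G' A').toList

/-- A thin set can be traversed from any boundary half-edge to the other one. -/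
def Trav (G : RotGraph V H) (X : Finset V) : Prop :=
  ∀ l ∈ bd G X, ∀ l' ∈ bd G X, l ≠ l' → ∃ N : H → H → Prop, (∀ a b, N a b → N b a) ∧
    (∀ a b c, N a b → N a c → b = c) ∧
    (∀ a b, N a b → a ∈ G.darts ∧ G.base a ∈ X ∧ G.base b = G.base a) ∧
    (∀ v ∈ X, NC N ((G.rot v).filter (fun a => decide (∃ b, N a b)))) ∧
    Run G.opp N (G.opp l) l'

/-! ### Tree-cut decompositions -/

/-- The maximal proper subsets of `X` in the family. -/
noncomputable def chd (T : Finset (Finset V)) (X : Finset V) : Finset (Finset V) :=
  T.filter (fun Y => Y ⊂ X ∧ ∀ Z ∈ T, Y ⊂ Z → ¬ Z ⊂ X)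

/-- The vertices of `X` that are in no proper subset of `X` in the family. -/
noncomputable def bag (T : Finset (Finset V)) (X : Finset V) : Finset V :=
  X.filter (fun v => ∀ Y ∈ T, Y ⊂ X → v ∉ Y)

/-- A tree-cut decomposition of the piece `(G, A)` of width at most `k`: a laminar family of
nonempty subsets of `A` containing `A`, at most `k` edges leave each of them, and for each `X` in
the family the number of vertices of `X` in no child, plus the number of children not in a set `Z`
of pairwise nonadjacent thin children, is at most `k`. -/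
structure TCD (k : ℕ) (G : RotGraph V H) (A : Finset V) (T : Finset (Finset V)) : Prop where
  top : A ∈ T
  sub : ∀ X ∈ T, X ⊆ A
  ne : ∀ X ∈ T, X.Nonempty
  lam : ∀ X ∈ T, ∀ Y ∈ T, X ⊆ Y ∨ Y ⊆ X ∨ Disjoint X Y
  cuts : ∀ X ∈ T, cut G X ≤ k
  node : ∀ X ∈ T, ∃ Z ⊆ chd T X, (∀ Y ∈ Z, cut G Y ≤ 2) ∧
    (∀ Y ∈ Z, ∀ Y' ∈ Z, Y ≠ Y' → Nadj G Y Y') ∧ (bag T X).card + (chd T X \ Z).card ≤ k

/-- `W` is connected. -/
def Conn (G : RotGraph V H) (W : Finset V) : Prop :=
  ∀ Y ⊆ W, Y.Nonempty → Y ≠ W → ¬ Nadj G Y (W \ Y)

/-- The number of edges between `Y` and `A \ Y`. -/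
noncomputable def icut (G : RotGraph V H) (A Y : Finset V) : ℕ :=
  (G.darts.filter (fun h => G.base h ∈ Y ∧ G.base (G.opp h) ∈ A \ Y)).card

/-- The piece `(G, A)` consists of a part `D` without bridges and of vertices with one neighbour,
which is in `D`. -/
structure Core (G : RotGraph V H) (A D : Finset V) : Prop where
  sub : D ⊆ A
  conn : Conn G A
  two : ∀ Y ⊆ A, icut G A Y ≤ 1 → Disjoint Y D ∨ D ⊆ Y
  pend : ∀ v ∈ A \ D, ∃ h ∈ nl G v, nl G v = {h} ∧ G.base (G.opp h) ∈ D

/-- The sets of the family are single vertices outside `D` or unions of vertices of `D` and all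
their neighbours outside `D`. -/
def ExpF (G : RotGraph V H) (A D : Finset V) (T : Finset (Finset V)) : Prop :=
  ∀ X ∈ T, (∃ v ∈ A \ D, X = {v}) ∨ ((X ∩ D).Nonempty ∧ ∀ v ∈ A \ D, ∀ h ∈ nl G v,
    (v ∈ X ↔ G.base (G.opp h) ∈ X))

end RotWqo.Tc
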