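import Pool.Agent.Lib.MP_cb4a0f_co.Tc.Stmts

/-!
# MP_cb4a0f_co: from contracted pieces to pieces
-/

open Classical

namespace RotWqo.Tc

open RotWqo.Bag RotWqo.Hk

universe u

namespace Step6

/-- The labels of the contracted graphs. -/
inductive Lb (Q α : Type u) : Type u
  | hub : Q → Lb Q α
  | atom : α → Lb Q α
  | none : Lb Q α

/-- The order on the labels. -/
def Lb.le {Q α : Type u} (q : Q → Q → Prop) (p : α → α → Prop) : Lb Q α → Lb Q α → Prop
  | .hub a, .hub b => q a b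
  | .atom a, .atom b => p a b
  | .none, .none => True
  | _, _ => False

instance {Q α : Type u} (q : Q → Q → Prop) (p : α → α → Prop) [IsPreorder Q q]
    [IsPreorder α p] : IsPreorder (Lb Q α) (Lb.le q p) where
  refl a := by
    cases a with
    | hub a => exact refl_of q a
    | atom a => exact refl_of p a
    | none => trivial
  trans a b c h h' := by
    cases a <;> cases b <;> cases c <;> simp only [Lb.le] at h h' ⊢
    · exact trans_of q h h'
    · exact trans_of p h h'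

theorem Lb.wqo {Q α : Type u} {q : Q → Q → Prop} {p : α → α → Prop} [IsPreorder Q q]
    [IsPreorder α p] (hq : WellQuasiOrdered q) (hp : WellQuasiOrdered p) :
    WellQuasiOrdered (Lb.le q p) := by
  intro f
  by_contra hcon
  push Not at hcon
  have key : ∀ (s : Set ℕ), s.Infinite → ∃ g : ℕ → ℕ, StrictMono g ∧ ∀ n, g n ∈ s := by
    intro s hs
    exact ⟨Nat.nth (· ∈ s), Nat.nth_strictMono hs, fun n => Nat.nth_mem_of_infinite hs n⟩
  have h3 : {n | ∃ a, f n = .hub a}.Infinite ∨ {n | ∃ a, f n = .atom a}.Infinite ∨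
      {n | f n = .none}.Infinite := by
    by_contra h
    push Not at h
    obtain ⟨h1, h2, h4⟩ := h
    have h5 := ((h1.union h2).union h4)
    refine Set.infinite_univ (α := ℕ) (h5.subset fun n _ => ?_)
    cases hn : f n with
    | hub a => exact Or.inl (Or.inl ⟨a, hn⟩)
    | atom a => exact Or.inl (Or.inr ⟨a, hn⟩)
    | none => exact Or.inr hn
  rcases h3 with h | h | h
  · obtain ⟨g, hg, hg'⟩ := key _ h
    choose a ha using hg'
    obtain ⟨m, n, hmn, h4⟩ := hq a
    refine hcon (g m) (g n) (hg hmn) ?_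
    rw [ha, ha]
    exact h4
  · obtain ⟨g, hg, hg'⟩ := key _ h
    choose a ha using hg'
    obtain ⟨m, n, hmn, h4⟩ := hp a
    refine hcon (g m) (g n) (hg hmn) ?_
    rw [ha, ha]
    exact h4
  · obtain ⟨g, hg, hg'⟩ := key _ h
    have h1 : f (g 0) = .none := hg' 0
    have h2 : f (g 1) = .none := hg' 1
    refine hcon (g 0) (g 1) (hg Nat.zero_lt_one) ?_
    rw [h1, h2]
    trivial

theorem MPE.refl {V H : Type*} (r : V → V → Prop) (hr : ∀ v, r v v) (G : RotGraph V H)
    (A : Finset V) : MPE r G A G A := by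
  refine ⟨id, PE.refl r hr G A, ?_⟩
  rw [List.map_id]

theorem MPE.trans {V V' V'' H H' H'' : Type*} {r₁ : V → V' → Prop} {r₂ : V' → V'' → Prop}
    {r : V → V'' → Prop} (hr : ∀ u v w, r₁ u v → r₂ v w → r u w) {G : RotGraph V H}
    {A : Finset V} {G' : RotGraph V' H'} {A' : Finset V'} {G'' : RotGraph V'' H''}
    {A'' : Finset V''} (h : MPE r₁ G A G' A') (h' : MPE r₂ G' A' G'' A'') :
    MPE r G A G'' A'' := by
  obtain ⟨β, h1, h2⟩ := h
  obtain ⟨β', h1', h2'⟩ := h'
  refine ⟨β' ∘ β, PE.trans hr h1 h1', ?_⟩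
  rw [← List.map_map, h2, h2']

end Step6

open Step6

/-- If the contracted pieces are good for all labels, then the pieces are good. -/
theorem step_6 (hE : StExp.{u}) (hM : StMark.{u}) (V H : ℕ → Type u) [∀ i, Nonempty (V i)]
    [∀ i, Nonempty (H i)] (G : ∀ i, RotGraph (V i) (H i)) (Q : Type u) (q : Q → Q → Prop)
    [IsPreorder Q q] (hq : WellQuasiOrdered q) (lab : ∀ i, V i → Q)
    (Y : Set (Σ i, Finset (V i))) (hYc : ∀ a ∈ Y, cut (G a.1) a.2 ≤ 2)
    (hY : Y.PartiallyWellOrderedOn (fun a b => ∃ β, PE (fun v v' => q (lab a.1 v) (lab b.1 v'))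
      (G a.1) a.2 (G b.1) b.2 β))
    (i : ℕ → ℕ) (S : ∀ n, Finset (V (i n))) (C : ∀ n, Finset (Finset (V (i n))))
    (hS : ∀ n, S n ⊆ (G (i n)).verts) (hF : ∀ n, Fam (G (i n)) (S n) (C n))
    (hTr : ∀ n, ∀ X ∈ C n, Trav (G (i n)) X)
    (hCY : ∀ n, ∀ X ∈ C n, (⟨i n, X⟩ : Σ i, Finset (V i)) ∈ Y)
    (hgood : ∀ (Q' : Type u) (q' : Q' → Q' → Prop) [IsPreorder Q' q'], WellQuasiOrdered q' →
      ∀ lab' : ∀ n, V (i n) ⊕ Finset (V (i n)) → Q', ∃ m n, m < n ∧ ∃ β,
        PE (fun a b => q' (lab' m a) (lab' n b)) (ctr (G (i m)) (C m)) (cA (C m) (S m))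
          (ctr (G (i n)) (C n)) (cA (C n) (S n)) β) :
    ∃ m n, m < n ∧ ∃ β, PE (fun a b => q (lab (i m) a) (lab (i n) b)) (G (i m)) (S m)
      (G (i n)) (S n) β := by
  set p : {a // a ∈ Y} → {a // a ∈ Y} → Prop := fun a b =>
    MPE (fun v v' => q (lab a.1.1 v) (lab b.1.1 v')) (G a.1.1) a.1.2 (G b.1.1) b.1.2 with hp
  have : IsPreorder {a // a ∈ Y} p :=
    { refl := fun a => MPE.refl (fun v v' => q (lab a.1.1 v) (lab a.1.1 v'))
        (fun v => refl_of q _) (G a.1.1) a.1.2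
      trans := fun a b c h h' => MPE.trans (r₁ := fun v v' => q (lab a.1.1 v) (lab b.1.1 v'))
        (r₂ := fun v v' => q (lab b.1.1 v) (lab c.1.1 v'))
        (r := fun v v' => q (lab a.1.1 v) (lab c.1.1 v'))
        (fun u v w h1 h2 => trans_of q h1 h2) h h' }
  have hpw : WellQuasiOrdered p := by
    have h1 := hM (Σ i, Finset (V i)) (fun a => V a.1) (fun a => H a.1) (fun a => G a.1)
      (fun a => a.2) Q q (fun a => lab a.1) Y hYc hY
    intro f
    obtain ⟨m, n, hmn, h2⟩ := h1 f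
    exact ⟨m, n, hmn, h2⟩
  set lab' : ∀ n, V (i n) ⊕ Finset (V (i n)) → Lb Q {a // a ∈ Y} := fun n x => match x with
    | .inl v => .hub (lab (i n) v)
    | .inr X => if h : X ∈ C n then .atom ⟨⟨i n, X⟩, hCY n X h⟩ else .none with hlab'
  obtain ⟨m, n, hmn, β, hβ⟩ := hgood (Lb Q {a // a ∈ Y}) (Lb.le q p) (Lb.wqo hq hpw) lab'
  refine ⟨m, n, hmn, ?_⟩
  refine hE (V (i m)) (V (i n)) (H (i m)) (H (i n)) (G (i m)) (G (i n)) (C m) (C n) (S m) (S n)
    _ (fun a b => Lb.le q p (lab' m a) (lab' n b)) β (hS m) (hS n) (hF m) (hF n) ?_ ?_ ?_ ?_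
    (hTr n) hβ
  · intro v v' h
    exact h
  · intro v X' h
    simp only [hlab'] at h
    split_ifs at h <;> exact h
  · intro X v' h
    simp only [hlab'] at h
    split_ifs at h <;> exact h
  · intro X hX X' hX' h
    simp only [hlab', dif_pos hX, dif_pos hX'] at h
    exact h

end RotWqo.Tc
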