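import Pool.Agent.Lib.MP_cb4a0f_co.Tc.LeafZa77
import Pool.Agent.Lib.MP_cb4a0f_co.Hk.LeafX5

/-!
# MP_cb4a0f_co: the leaf theorem with atoms
-/

open Classical

namespace RotWqo.Tc.LeafZ77

open RotWqo.Bag RotWqo.Hk RotWqo.Tc RotWqo.Tc.Skel18 RotWqo.Hk.LeafX5

universe u v w

/-! ### The skeleton without some of the atoms -/

section Sk

variable {V : Type u} {H : Type v} {d : ℕ} {G K₀ K : RotGraph V H} {A Z P S : Finset V}

theorem keep_P (hT : Thin d G A Z) (hP : P ⊆ Z) {h : H} (hh : h ∈ G.darts)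
    (hp : G.base h ∈ P) : Keep G (Z \ P) h ∧ skOpp G (Z \ P) h = G.opp h := by
  have h1 : G.base (G.opp h) ∉ Z \ P := by
    by_cases h2 : G.base (G.opp h) = G.base h
    · rw [h2]
      exact fun h3 => (Finset.mem_sdiff.1 h3).2 hp
    · have h3 := thin_nb hT hh (hP hp) h2
      exact fun h4 => (Finset.mem_sdiff.1 h3).2 (Finset.mem_sdiff.1 h4).1
  exact ⟨⟨hh, fun h3 => (Finset.mem_sdiff.1 h3).2 hp, Or.inl h1⟩, skOpp_of_notMem G _ h h1⟩

theorem opp_P (hT : Thin d G A Z) (hP : P ⊆ Z) (hK : IsSk G (Z \ P) K) {h : H}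
    (hh : h ∈ G.darts) (hp : G.base h ∈ P) : h ∈ K.darts ∧ K.opp h = G.opp h := by
  obtain ⟨h1, h2⟩ := keep_P hT hP hh hp
  have h3 := (hK.darts h).2 h1
  exact ⟨h3, (hK.opp h h3).trans h2⟩

theorem rot_P (hT : Thin d G A Z) (hP : P ⊆ Z) (hK : IsSk G (Z \ P) K) {z : V} (hz : z ∈ P) :
    K.rot z = G.rot z := by
  rw [hK.rot, List.filter_eq_self]
  intro h hh
  obtain ⟨h1, h2⟩ := (G.mem_rot _ _).1 hh
  rw [decide_eq_true_eq]
  exact (keep_P hT hP h1 (h2 ▸ hz)).1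

theorem pat_P (hT : Thin d G A Z) (hP : P ⊆ Z) (hK : IsSk G (Z \ P) K) {z : V} (hz : z ∈ P)
    (k : ℕ) : pat k K z = pat k G z := by
  unfold pat
  refine Finset.filter_congr fun p _ => ?_
  rw [rot_P hT hP hK hz]
  refine exists_congr fun a => exists_congr fun b => and_congr_right fun h1 => ?_
  refine and_congr_right fun _ => ?_
  obtain ⟨h2, h3⟩ := (G.mem_rot _ _).1 (List.mem_of_getElem? h1)
  rw [(opp_P hT hP hK h2 (h3 ▸ hz)).2]

theorem bd_P (hT : Thin d G A Z) (hP : P ⊆ Z) (hK : IsSk G (Z \ P) K) :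
    bd K P = bd G P := by
  ext h
  rw [mem_bd, mem_bd, hK.base]
  constructor
  · rintro ⟨h1, h2, h3⟩
    have h4 := ((hK.darts h).1 h1).1
    rw [(opp_P hT hP hK h4 h2).2] at h3
    exact ⟨h4, h2, h3⟩
  · rintro ⟨h1, h2, h3⟩
    obtain ⟨h4, h5⟩ := opp_P hT hP hK h1 h2
    rw [h5]
    exact ⟨h4, h2, h3⟩

theorem hubs_union (hZ : Z ⊆ A) (hP : P ⊆ Z) : (A \ Z) ∪ P = A \ (Z \ P) := by
  ext v
  simp only [Finset.mem_union, Finset.mem_sdiff]
  constructor
  · rintro (⟨h1, h2⟩ | h1)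
    · exact ⟨h1, fun h3 => h2 h3.1⟩
    · exact ⟨hZ (hP h1), fun h3 => h3.2 h1⟩
  · rintro ⟨h1, h2⟩
    by_cases h3 : v ∈ Z
    · right
      by_contra h4
      exact h2 ⟨h3, h4⟩
    · exact Or.inl ⟨h1, h3⟩

theorem cut_union_P (hT : Thin d G A Z) (hZ : Z ⊆ A) (hP : P ⊆ Z) (hK : IsSk G (Z \ P) K) :
    cut K ((A \ Z) ∪ P) = cut G A := by
  rw [hubs_union hZ hP, cut, cut,
    bd_eq (Finset.sdiff_subset.trans hZ) (thin_mono hT Finset.sdiff_subset) hK]

theorem cut_hubs (hT : Thin d G A Z) (hZ : Z ⊆ A) (hP : P ⊆ Z) (hK : IsSk G (Z \ P) K) :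
    cut K (A \ Z) ≤ cut G A + 2 * P.card := by
  have h1 : A \ Z = ((A \ Z) ∪ P) \ P := by
    ext v
    simp only [Finset.mem_union, Finset.mem_sdiff]
    constructor
    · rintro ⟨h1, h2⟩
      exact ⟨Or.inl ⟨h1, h2⟩, fun h3 => h2 (hP h3)⟩
    · rintro ⟨h1 | h1, h2⟩
      · exact h1
      · exact absurd h1 h2
  have h2 := cut_sdiff_le K ((A \ Z) ∪ P) P
  rw [← h1, cut_union_P hT hZ hP hK] at h2
  have h3 : cut K P ≤ P.card * 2 := by
    rw [cut, bd_P hT hP hK]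
    exact cut_atoms hT hP
  omega

/-- The skeleton with fewer suppressed atoms has larger cuts. -/
theorem cut_sk_le (hK₀ : IsSk G Z K₀) (hK : IsSk G (Z \ P) K) (hS : S ⊆ A \ Z) :
    cut K₀ S ≤ cut K S := by
  refine Finset.card_le_card fun h hh => ?_
  rw [mem_bd, hK₀.darts, hK₀.base] at hh
  obtain ⟨h1, h2, h3⟩ := hh
  rw [hK₀.opp h ((hK₀.darts h).2 h1)] at h3
  rw [mem_bd, hK.darts, hK.base]
  have h4 : G.base h ∉ Z \ P := fun h5 => h1.2.1 (Finset.mem_sdiff.1 h5).1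
  rcases skOpp_cases G Z h h1 with ⟨h5, h6⟩ | ⟨h5, g, h6, h7⟩
  · have h8 : G.base (G.opp h) ∉ Z \ P := fun h9 => h5 (Finset.mem_sdiff.1 h9).1
    have h9 : Keep G (Z \ P) h := ⟨h1.1, h4, Or.inl h8⟩
    refine ⟨h9, h2, ?_⟩
    rw [hK.opp h ((hK.darts h).2 h9), skOpp_of_notMem G _ h h8]
    rwa [h6] at h3
  · by_cases h8 : G.base (G.opp h) ∈ P
    · have h9 : G.base (G.opp h) ∉ Z \ P := fun h9 => (Finset.mem_sdiff.1 h9).2 h8
      have h10 : Keep G (Z \ P) h := ⟨h1.1, h4, Or.inl h9⟩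
      refine ⟨h10, h2, ?_⟩
      rw [hK.opp h ((hK.darts h).2 h10), skOpp_of_notMem G _ h h9]
      exact fun h11 => (Finset.mem_sdiff.1 (hS h11)).2 h5
    · have h9 : G.base (G.opp h) ∈ Z \ P := Finset.mem_sdiff.2 ⟨h5, h8⟩
      have h10 : Sup G (Z \ P) h g :=
        ⟨h6.1, h6.2.1, fun h11 => h6.2.2 (Finset.mem_sdiff.1 h11).1⟩
      have h11 : Keep G (Z \ P) h := ⟨h1.1, h4, Or.inr ⟨g, h10⟩⟩
      refine ⟨h11, h2, ?_⟩
      rw [hK.opp h ((hK.darts h).2 h11), skOpp_of_sup G _ h g h9 h10]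
      rwa [h7] at h3

end Sk

/-! ### Rich pieces -/

theorem rich {V V₀ : Type u} {H H₀ : Type v} [Nonempty V] [Nonempty H] [Nonempty H₀] {d : ℕ}
    {r : V₀ → V → Prop} {G₀ : RotGraph V₀ H₀} {A₀ Z₀ : Finset V₀} {G K G₁ : RotGraph V H}
    {A Z : Finset V} {ζ : V₀ → V} (hZ₀ : Z₀ ⊆ A₀) (hT₀ : Thin d G₀ A₀ Z₀)
    (hA : A ⊆ G.verts) (hZ : Z ⊆ A) (hT : Thin d G A Z) (hP : Z₀.image ζ ⊆ Z)
    (hK : IsSk G (Z \ Z₀.image ζ) K) (hG₁ : Sub1 G₁ K (A \ Z)) (hc : cut G₀ A₀ = cut G A)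
    (hζ : Set.InjOn ζ (Z₀ : Set V₀)) (hr : ∀ z ∈ Z₀, r z (ζ z))
    (hl : ∀ z ∈ Z₀, (G₀.rot z).length = (G.rot (ζ z)).length)
    (hp : ∀ z ∈ Z₀, pat d G₀ z = pat d G (ζ z))
    (hσ : ∀ σ : H₀ → H, Set.BijOn σ (bd G₀ (A₀ \ Z₀) : Set H₀) (bd G₁ (A \ Z) : Set H) →
      PE r G₀ (A₀ \ Z₀) G₁ (A \ Z) σ) (hPE : StSkPE.{u, v}) :
    ∃ β, PE r G₀ A₀ G A β := by
  obtain ⟨φ, hφ⟩ := PE_atoms (r := r) d G₀ K ζ Z₀ hζ hr (fun z hz => (hT₀ z hz).1)
    (fun z hz => by rw [hl z hz, rot_P hT hP hK (Finset.mem_image_of_mem _ hz)])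
    (fun z hz => by rw [hp z hz, pat_P hT hP hK (Finset.mem_image_of_mem _ hz)])
    (fun h h1 h2 h3 => thin_loop hT₀ h1 h2 h3)
    (fun h h1 h2 h3 => by
      have h4 := ((hK.darts h).1 h1).1
      rw [hK.base] at h2 h3 ⊢
      rw [(opp_P hT hP hK h4 h2).2] at h3 ⊢
      exact thin_loop hT h4 (hP h2) (hP h3))
  obtain ⟨σ, hσ1, hσ2⟩ := PE_hubs (r := r) (G := G₀) (G' := K) (B := A₀ \ Z₀) (Z := Z₀)
    (B' := A \ Z) (Z' := Z₀.image ζ) Finset.sdiff_disjoint
    (Finset.disjoint_left.2 fun v h1 h2 => (Finset.mem_sdiff.1 h1).2 (hP h2)) hφ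
    (fun h hh => by
      obtain ⟨h1, h2, h3⟩ := mem_bd.1 hh
      exact thin_nb hT₀ h1 h2 fun h4 => h3 (h4 ▸ h2))
    (fun h hh => by
      rw [bd_P hT hP hK] at hh
      obtain ⟨h1, h2, h3⟩ := mem_bd.1 hh
      rw [hK.base, (opp_P hT hP hK h1 h2).2]
      exact thin_nb hT h1 (hP h2) fun h4 => h3 (h4 ▸ h2))
    (by rw [Finset.sdiff_union_of_subset hZ₀, cut_union_P hT hZ hP hK, hc])
  obtain ⟨β₁, hβ₁⟩ := hG₁.pe
  have hb := hβ₁.bij
  have hinv := hb.invOn_invFunOn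
  have hb' : Set.BijOn (Function.invFunOn β₁ (bd G₁ (A \ Z) : Set H)) (bd K (A \ Z) : Set H)
      (bd G₁ (A \ Z) : Set H) := hb.symm hinv.symm
  have h1 := hσ (Function.invFunOn β₁ (bd G₁ (A \ Z) : Set H) ∘ σ) (hb'.comp hσ1)
  have h2 : PE r G₀ (A₀ \ Z₀) K (A \ Z) (β₁ ∘
      (Function.invFunOn β₁ (bd G₁ (A \ Z) : Set H) ∘ σ)) :=
    PE.trans (r₁ := r) (r₂ := fun a b => a = b) (r := r) (fun u v w h h' => h' ▸ h) h1 hβ₁
  have h3 : PE r G₀ (A₀ \ Z₀) K (A \ Z) σ := by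
    refine PE_congr h2 fun x hx => ?_
    exact hinv.2 (hσ1.mapsTo (Finset.mem_coe.2 hx))
  obtain ⟨β, hβ⟩ := hσ2 h3
  rw [Finset.sdiff_union_of_subset hZ₀, hubs_union hZ hP] at hβ
  have h4 := (hPE V H G K A (Z \ Z₀.image ζ) d hA (Finset.sdiff_subset.trans hZ)
    (thin_mono hT Finset.sdiff_subset) hK).1
  exact ⟨_, PE.trans (r₁ := r) (r₂ := fun a b => a = b) (r := r)
    (fun u v w h h' => h' ▸ h) hβ h4⟩

/-! ### Types of atoms -/

/-- The types of atoms. -/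
abbrev Ty (d : ℕ) (Q : Type w) : Type w := Q × (Fin (d + 1) × Finset (Fin d × Fin d))

/-- The type of an atom. -/
noncomputable def ty {V : Type u} {H : Type v} {Q : Type w} (d : ℕ) (G : RotGraph V H)
    (lab : V → Q) (z : V) : Ty d Q :=
  (lab z, (⟨min (G.rot z).length d, Nat.lt_succ_of_le (min_le_right _ _)⟩, pat d G z))

/-- Comparison of types. -/
def Tle {Q : Type w} {d : ℕ} (q : Q → Q → Prop) (a b : Ty d Q) : Prop :=
  q a.1 b.1 ∧ a.2 = b.2

theorem Tle.trans {Q : Type w} {d : ℕ} {q : Q → Q → Prop} [IsPreorder Q q] {a b c : Ty d Q}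
    (h : Tle q a b) (h' : Tle q b c) : Tle q a c :=
  ⟨_root_.trans h.1 h'.1, h.2.trans h'.2⟩

theorem Tle.wqo {Q : Type w} {q : Q → Q → Prop} [IsPreorder Q q] (hq : WellQuasiOrdered q)
    (d : ℕ) : WellQuasiOrdered (fun a b : Ty d Q => Tle q a b) :=
  hq.prod (Finite.wellQuasiOrdered (fun a b : Fin (d + 1) × Finset (Fin d × Fin d) => a = b))

/-- Sets of types that are closed downwards. -/
def Low {T : Type w} (ρ : T → T → Prop) (X : Set T) : Prop := ∀ a b, ρ a b → b ∈ X → a ∈ X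

theorem wf_low {T : Type w} {ρ : T → T → Prop} (hρ : WellQuasiOrdered ρ) :
    WellFounded (fun X Y : {X : Set T // Low ρ X} => X.1 ⊂ Y.1) := by
  rw [wellFounded_iff_isEmpty_descending_chain]
  refine ⟨fun ⟨f, hf⟩ => ?_⟩
  have h1 : ∀ n, ∃ x, x ∈ (f n).1 ∧ x ∉ (f (n + 1)).1 := fun n => Set.exists_of_ssubset (hf n)
  choose x hx hx' using h1
  have h2 : Antitone (fun n => (f n).1) := antitone_nat_of_succ_le fun n => (hf n).1
  obtain ⟨m, n, hmn, h3⟩ := hρ x
  exact hx' m ((f (m + 1)).2 _ _ h3 (h2 (Nat.succ_le_of_lt hmn) (hx n)))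

theorem exists_inj {V V' : Type*} [Nonempty V'] (Z : Finset V) (N : V → Finset V')
    (hN : ∀ z ∈ Z, Z.card ≤ (N z).card) :
    ∃ ζ : V → V', Set.InjOn ζ (Z : Set V) ∧ ∀ z ∈ Z, ζ z ∈ N z := by
  have key : ∀ S : Finset V, S ⊆ Z → ∃ ζ : V → V', Set.InjOn ζ (S : Set V) ∧
      ∀ z ∈ S, ζ z ∈ N z := by
    intro S
    induction S using Finset.induction_on with
    | empty =>
      intro _
      exact ⟨fun _ => Classical.arbitrary V', by simp, by simp⟩
    | insert a S ha ih =>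
      intro hS
      obtain ⟨ζ, h1, h2⟩ := ih ((Finset.subset_insert a S).trans hS)
      have h3 : (S.image ζ).card < (N a).card := by
        have h4 : (S.image ζ).card ≤ S.card := Finset.card_image_le
        have h5 := Finset.card_le_card hS
        rw [Finset.card_insert_of_notMem ha] at h5
        have h6 := hN a (hS (Finset.mem_insert_self _ _))
        omega
      obtain ⟨x, hx, hx'⟩ := Finset.exists_mem_notMem_of_card_lt_card h3
      have hne : ∀ z ∈ S, z ≠ a := fun z hz h => ha (h ▸ hz)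
      refine ⟨Function.update ζ a x, ?_, ?_⟩
      · intro y hy z hz he
        rw [Finset.mem_coe, Finset.mem_insert] at hy hz
        rcases hy with rfl | hy <;> rcases hz with rfl | hz
        · rfl
        · rw [Function.update_self, Function.update_of_ne (hne z hz)] at he
          exact absurd (he ▸ Finset.mem_image_of_mem _ hz) hx'
        · rw [Function.update_self, Function.update_of_ne (hne y hy)] at he
          exact absurd (he ▸ Finset.mem_image_of_mem _ hy) hx'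
        · rw [Function.update_of_ne (hne z hz), Function.update_of_ne (hne y hy)] at he
          exact h1 (Finset.mem_coe.2 hy) (Finset.mem_coe.2 hz) he
      · intro z hz
        rcases Finset.mem_insert.1 hz with rfl | hz
        · rw [Function.update_self]
          exact hx
        · rw [Function.update_of_ne (hne z hz)]
          exact h2 z hz
  exact key Z (Finset.Subset.refl _)

/-! ### Splitting -/

/-- The theorem for sequences whose atoms have types in `X`. -/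
def Goal (k d : ℕ) (Q : Type w) (q : Q → Q → Prop) (X : Set (Ty d Q)) : Prop :=
  ∀ (c : ℕ) (V : ℕ → Type u) (H : ℕ → Type v) [∀ i, Nonempty (V i)]
    [∀ i, Nonempty (H i)] (G : ∀ i, RotGraph (V i) (H i)) (lab : ∀ i, V i → Q)
    (A Z : ∀ i, Finset (V i)), (∀ i, A i ⊆ (G i).verts) → (∀ i, Z i ⊆ A i) →
    (∀ i, (A i \ Z i).card ≤ k) → (∀ i, cut (G i) (A i) ≤ c) →
    (∀ i, Thin d (G i) (A i) (Z i)) → (∀ i, ∀ z ∈ Z i, ty d (G i) (lab i) z ∈ X) →
    ∃ m n, m < n ∧ ∃ β, PE (fun a b => q (lab m a) (lab n b)) (G m) (A m) (G n) (A n) β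

theorem union_sdiff_sub {V : Type*} (S T : Finset V) : (S ∪ T) \ T ⊆ S := by
  intro v hv
  obtain ⟨h1, h2⟩ := Finset.mem_sdiff.1 hv
  exact (Finset.mem_union.1 h1).resolve_right h2

theorem split {Q : Type w} (q : Q → Q → Prop) [IsPreorder Q q] {V : ℕ → Type u}
    {H : ℕ → Type v} (G : ∀ i, RotGraph (V i) (H i)) (lab : ∀ i, V i → Q)
    (L R : ∀ i, Finset (V i)) (hLR : ∀ i, Disjoint (L i) (R i))
    (hL : WellQuasiOrdered (fun m n : ℕ => ∃ β,
        PE (fun a b => q (lab m a) (lab n b)) (G m) (L m) (G n) (L n) β))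
    (hR : WellQuasiOrdered (fun m n : ℕ => ∃ β,
        PE (fun a b => q (lab m a) (lab n b)) (G m) (R m) (G n) (R n) β)) :
    WellQuasiOrdered (fun m n : ℕ => ∃ β,
        PE (fun a b => q (lab m a) (lab n b)) (G m) (L m ∪ R m) (G n) (L n ∪ R n) β) := by
  intro f
  have := isPreorder_PE q G lab L
  have := isPreorder_PE q G lab R
  obtain ⟨g1, hg1⟩ := hL.exists_monotone_subseq f
  obtain ⟨g2, hg2⟩ := hR.exists_monotone_subseq (fun n => f (g1 n))
  obtain ⟨m, n, hmn, β, hβ⟩ := exists_PE_glue q (fun n => V (f (g1 (g2 n))))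
    (fun n => H (f (g1 (g2 n)))) (fun n => G (f (g1 (g2 n))))
    (fun n => lab (f (g1 (g2 n)))) (fun n => L (f (g1 (g2 n)))) (fun n => R (f (g1 (g2 n))))
    (fun n => hLR _)
    (fun n => hg1 _ _ (g2.monotone (Nat.le_succ n)))
    (fun n => hg2 _ _ (Nat.le_succ n))
  exact ⟨g1 (g2 m), g1 (g2 n), g1.strictMono (g2.strictMono hmn), β, hβ⟩

/-- The induction step. -/
theorem step (hU : StUniB.{u, v}) (hKx : StSkEx.{u, v}) (hPE : StSkPE.{u, v})
    (hG : StSegZ.{u, v, w}) (hS : StStruct.{u, v}) (hL : StLeafX.{u, v, w}) (k d : ℕ)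
    (Q : Type w) (q : Q → Q → Prop) [IsPreorder Q q] (hq : WellQuasiOrdered q)
    (X : Set (Ty d Q)) (ihk : ∀ k' < k, Goal.{u, v, w} k' d Q q Set.univ)
    (ihX : ∀ τ ∈ X, Goal.{u, v, w} k d Q q (X \ {a | Tle q τ a})) :
    Goal.{u, v, w} k d Q q X := by
  intro c V H _ _ G lab A Z hAv hZA hk hc hT hty
  -- sets of boundedly many atoms
  have hE : ∀ (e : ℕ) (φ : ℕ → ℕ) (E : ∀ n, Finset (V (φ n))), (∀ n, E n ⊆ Z (φ n)) →
      (∀ n, (E n).card ≤ e) → WellQuasiOrdered (fun m n : ℕ => ∃ β,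
        PE (fun a b => q (lab (φ m) a) (lab (φ n) b)) (G (φ m)) (E m) (G (φ n)) (E n) β) := by
    intro e φ E hE he f
    exact hL e (e * 2) Q q hq (fun i => V (φ (f i))) (fun i => H (φ (f i)))
      (fun i => G (φ (f i))) (fun i => lab (φ (f i))) (fun i => E (f i))
      (fun i => (hE _).trans ((hZA _).trans (hAv _))) (fun i => he _)
      (fun i => (cut_atoms (hT _) (hE _)).trans (Nat.mul_le_mul_right 2 (he _)))
  -- enumerations and a monotone subsequence
  choose en hen using fun i => exists_enum (A i \ Z i)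
  let D := (Fin (k + 1) × Fin (c + 1)) × (Fin k → Q)
  have hP1 : WellQuasiOrdered (fun a b : Fin (k + 1) × Fin (c + 1) => a = b) :=
    Finite.wellQuasiOrdered _
  have hP2 : WellQuasiOrdered (fun a b : Fin k → Q => ∀ i, q (a i) (b i)) :=
    WellQuasiOrdered.pi (r := fun _ => q) (fun _ => hq)
  have hP : WellQuasiOrdered (fun a b : D => a.1 = b.1 ∧ ∀ i, q (a.2 i) (b.2 i)) :=
    hP1.prod hP2
  have : IsPreorder D (fun a b : D => a.1 = b.1 ∧ ∀ i, q (a.2 i) (b.2 i)) :=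
    { refl := fun a => ⟨rfl, fun i => _root_.refl _⟩
      trans := fun a b c h h' => ⟨h.1.trans h'.1, fun i => _root_.trans (h.2 i) (h'.2 i)⟩ }
  obtain ⟨g, hg⟩ := hP.exists_monotone_subseq (fun i =>
    ((⟨(A i \ Z i).card, Nat.lt_succ_of_le (hk i)⟩,
      ⟨cut (G i) (A i), Nat.lt_succ_of_le (hc i)⟩), fun j : Fin k => lab i (en i j)))
  have hcard : ∀ n, (A (g n) \ Z (g n)).card = (A (g 0) \ Z (g 0)).card := by
    intro n
    have h1 := (hg 0 n (Nat.zero_le _)).1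
    have h2 := congrArg (fun p : Fin (k + 1) × Fin (c + 1) => (p.1 : ℕ)) h1
    exact h2.symm
  have hcut : ∀ n, cut (G (g n)) (A (g n)) = cut (G (g 0)) (A (g 0)) := by
    intro n
    have h1 := (hg 0 n (Nat.zero_le _)).1
    have h2 := congrArg (fun p : Fin (k + 1) × Fin (c + 1) => (p.2 : ℕ)) h1
    exact h2.symm
  have hlab : ∀ n, ∀ j < (A (g 0) \ Z (g 0)).card,
      q (lab (g 0) (en (g 0) j)) (lab (g n) (en (g n) j)) := by
    intro n j hj
    exact (hg 0 n (Nat.zero_le _)).2 ⟨j, hj.trans_le (hk _)⟩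
  choose K₀ hK₀ using fun i => hKx (V i) (H i) (G i) (A i) (Z i) d (hAv i) (hZA i) (hT i)
  by_cases hA : ∃ N, ∀ i, ∃ j > i, ∃ S : Finset (V (g j)), S.Nonempty ∧
      S ⊆ A (g j) \ Z (g j) ∧ S ≠ A (g j) \ Z (g j) ∧ cut (K₀ (g j)) S ≤ N
  · -- a small cut of the skeleton infinitely often
    obtain ⟨N, hN⟩ := hA
    obtain ⟨φ, hφ, hφS⟩ := Nat.exists_strictMono_subsequence hN
    choose S hSne hSA hSA' hScut using hφS
    have hkpos : ∀ n, (S n).card < k ∧ ((A (g (φ n)) \ Z (g (φ n))) \ S n).card < k := by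
      intro n
      have h1 : (S n).card < (A (g (φ n)) \ Z (g (φ n))).card :=
        Finset.card_lt_card (lt_of_le_of_ne (hSA n) (hSA' n))
      have h2 := Finset.card_sdiff_add_card_eq_card (hSA n)
      have h3 := Finset.card_pos.2 (hSne n)
      have h4 := hk (g (φ n))
      omega
    have hcin : ∀ n, cut (G (g (φ n))) (S n ∪ zin (G (g (φ n))) (Z (g (φ n))) (S n)) ≤ N :=
      fun n => (cut_in (hT _) (hK₀ _) (hSA n)).trans (hScut n)
    have hcL : ∀ n, ((S n ∪ zin (G (g (φ n))) (Z (g (φ n))) (S n)) \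
        zin (G (g (φ n))) (Z (g (φ n))) (S n)).card ≤ k - 1 := by
      intro n
      have h1 := Finset.card_le_card (union_sdiff_sub
        (S n) (zin (G (g (φ n))) (Z (g (φ n))) (S n)))
      have h2 := hkpos n
      omega
    have hcR : ∀ n, ((((A (g (φ n)) \ Z (g (φ n))) \ S n) ∪
        zout (G (g (φ n))) (Z (g (φ n))) (S n)) \
        zout (G (g (φ n))) (Z (g (φ n))) (S n)).card ≤ k - 1 := by
      intro n
      have h1 := Finset.card_le_card (union_sdiff_sub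
        ((A (g (φ n)) \ Z (g (φ n))) \ S n) (zout (G (g (φ n))) (Z (g (φ n))) (S n)))
      have h2 := hkpos n
      omega
    have hk1 : k - 1 < k := by have := hkpos 0; omega
    have hSv : ∀ n, S n ∪ zin (G (g (φ n))) (Z (g (φ n))) (S n) ⊆ (G (g (φ n))).verts := by
      intro n
      refine Finset.Subset.trans ?_ (hAv _)
      exact Finset.union_subset ((hSA n).trans Finset.sdiff_subset) (zin_sub.trans (hZA _))
    have hRv : ∀ n, ((A (g (φ n)) \ Z (g (φ n))) \ S n) ∪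
        zout (G (g (φ n))) (Z (g (φ n))) (S n) ⊆ (G (g (φ n))).verts := by
      intro n
      refine Finset.Subset.trans ?_ (hAv _)
      exact Finset.union_subset (Finset.sdiff_subset.trans Finset.sdiff_subset)
        (zout_sub.trans (hZA _))
    have hL1 : WellQuasiOrdered (fun m n : ℕ => ∃ β,
        PE (fun a b => q (lab (g (φ m)) a) (lab (g (φ n)) b)) (G (g (φ m)))
          (S m ∪ zin (G (g (φ m))) (Z (g (φ m))) (S m)) (G (g (φ n)))
          (S n ∪ zin (G (g (φ n))) (Z (g (φ n))) (S n)) β) := by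
      intro f
      exact ihk (k - 1) hk1 N
        (fun i => V (g (φ (f i)))) (fun i => H (g (φ (f i)))) (fun i => G (g (φ (f i))))
        (fun i => lab (g (φ (f i))))
        (fun i => S (f i) ∪ zin (G (g (φ (f i)))) (Z (g (φ (f i)))) (S (f i)))
        (fun i => zin (G (g (φ (f i)))) (Z (g (φ (f i)))) (S (f i)))
        (fun i => hSv _) (fun i => Finset.subset_union_right) (fun i => hcL _)
        (fun i => hcin _) (fun i => thin_in (hT _) (hSA _)) (fun i z _ => Set.mem_univ _)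
    have hR1 : WellQuasiOrdered (fun m n : ℕ => ∃ β,
        PE (fun a b => q (lab (g (φ m)) a) (lab (g (φ n)) b)) (G (g (φ m)))
          (((A (g (φ m)) \ Z (g (φ m))) \ S m) ∪ zout (G (g (φ m))) (Z (g (φ m))) (S m))
          (G (g (φ n)))
          (((A (g (φ n)) \ Z (g (φ n))) \ S n) ∪ zout (G (g (φ n))) (Z (g (φ n))) (S n)) β) := by
      intro f
      exact ihk (k - 1) hk1 (c + 3 * N)
        (fun i => V (g (φ (f i)))) (fun i => H (g (φ (f i)))) (fun i => G (g (φ (f i))))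
        (fun i => lab (g (φ (f i))))
        (fun i => ((A (g (φ (f i))) \ Z (g (φ (f i)))) \ S (f i)) ∪
          zout (G (g (φ (f i)))) (Z (g (φ (f i)))) (S (f i)))
        (fun i => zout (G (g (φ (f i)))) (Z (g (φ (f i)))) (S (f i)))
        (fun i => hRv _) (fun i => Finset.subset_union_right) (fun i => hcR _)
        (fun i => (cut_out (hT _) (hZA _) (hSA _)).trans (by
          have h1 := hc (g (φ (f i)))
          have h2 := hcin (f i)
          omega)) (fun i => thin_out (hT _)) (fun i z _ => Set.mem_univ _)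
    have hE1 := hE N (fun n => g (φ n)) (fun n => zmix (G (g (φ n))) (Z (g (φ n))) (S n))
      (fun n => zmix_sub) (fun n => (card_mix (hT _) (hSA n)).trans (hcin n))
    have h1 := split q (fun n => G (g (φ n))) (fun n => lab (g (φ n))) _ _
      (fun n => disj12 (hSA n)) hL1 hR1
    have h2 := split q (fun n => G (g (φ n))) (fun n => lab (g (φ n))) _ _
      (fun n => disj3 (hSA n)) h1 hE1
    obtain ⟨m, n, hmn, β, hβ⟩ := h2 (fun n => n)
    refine ⟨g (φ m), g (φ n), g.strictMono (hφ hmn), β, ?_⟩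
    have h3 := fun n => split_sets (G := G (g (φ n))) (hZA (g (φ n))) (hSA n)
    simpa only [h3] using hβ
  push Not at hA
  by_cases hB : ∃ z₀ ∈ Z (g 0), ∀ i, ∃ j > i, ((Z (g j)).filter (fun z =>
      Tle q (ty d (G (g 0)) (lab (g 0)) z₀) (ty d (G (g j)) (lab (g j)) z))).card <
        (Z (g 0)).card
  · -- few atoms of a certain type infinitely often
    obtain ⟨z₀, hz₀, hB⟩ := hB
    obtain ⟨φ, hφ, hφS⟩ := Nat.exists_strictMono_subsequence hB
    set E : ∀ n, Finset (V (g (φ n))) := fun n => (Z (g (φ n))).filter (fun z =>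
      Tle q (ty d (G (g 0)) (lab (g 0)) z₀) (ty d (G (g (φ n))) (lab (g (φ n))) z)) with hEdef
    have hEZ : ∀ n, E n ⊆ Z (g (φ n)) := fun n => Finset.filter_subset _ _
    have hE1 := hE (Z (g 0)).card (fun n => g (φ n)) E hEZ (fun n => (hφS n).le)
    have hL1 : WellQuasiOrdered (fun m n : ℕ => ∃ β,
        PE (fun a b => q (lab (g (φ m)) a) (lab (g (φ n)) b)) (G (g (φ m)))
          (A (g (φ m)) \ E m) (G (g (φ n))) (A (g (φ n)) \ E n) β) := by
      intro f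
      refine ihX _ (hty _ z₀ hz₀) (c + 2 * (Z (g 0)).card)
        (fun i => V (g (φ (f i)))) (fun i => H (g (φ (f i)))) (fun i => G (g (φ (f i))))
        (fun i => lab (g (φ (f i)))) (fun i => A (g (φ (f i))) \ E (f i))
        (fun i => Z (g (φ (f i))) \ E (f i))
        (fun i => Finset.sdiff_subset.trans (hAv _))
        (fun i => Finset.sdiff_subset_sdiff (hZA _) (Finset.Subset.refl _))
        (fun i => ?_) (fun i => ?_) (fun i => thin_sdiff (hT _) (hEZ _)) (fun i z hz => ?_)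
      · rw [sdiff_hubs (hEZ _)]
        exact hk _
      · have h1 := cut_sdiff_le (G (g (φ (f i)))) (A (g (φ (f i)))) (E (f i))
        have h2 := cut_atoms (hT (g (φ (f i)))) (hEZ (f i))
        have h3 := hc (g (φ (f i)))
        have h4 : (E (f i)).card < (Z (g 0)).card := hφS (f i)
        omega
      · obtain ⟨h1, h2⟩ := Finset.mem_sdiff.1 hz
        exact ⟨hty _ z h1, fun h3 => h2 (Finset.mem_filter.2 ⟨h1, h3⟩)⟩
    have h2 := split q (fun n => G (g (φ n))) (fun n => lab (g (φ n)))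
      (fun n => A (g (φ n)) \ E n) E (fun n => Finset.sdiff_disjoint) hL1 hE1
    obtain ⟨m, n, hmn, β, hβ⟩ := h2 (fun n => n)
    refine ⟨g (φ m), g (φ n), g.strictMono (hφ hmn), β, ?_⟩
    have h3 : ∀ n, A (g (φ n)) \ E n ∪ E n = A (g (φ n)) := fun n =>
      Finset.sdiff_union_of_subset ((hEZ n).trans (hZA _))
    simpa only [h3] using hβ
  push Not at hB
  -- the numbers of universality
  set p := (Z (g 0)).card with hp
  choose 𝒩 h𝒩 using fun M => hU k M (c + 2 * p) (dts (G (g 0)) (A (g 0) \ Z (g 0))).card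
  obtain ⟨M₀, s, w', hSt⟩ := hS k (c + 2 * p) 𝒩
  choose I hI using fun M => hA (𝒩 M)
  obtain ⟨J₁, hJ₁⟩ : ∃ J : ℕ, ∀ M ≤ M₀, I M ≤ J := by
    refine ⟨(Finset.range (M₀ + 1)).sup I, fun M hM => ?_⟩
    exact Finset.le_sup (f := I) (Finset.mem_range.2 (Nat.lt_succ_of_le hM))
  choose I' hI' using hB
  obtain ⟨J₂, hJ₂⟩ : ∃ J : ℕ, ∀ z₀ (h : z₀ ∈ Z (g 0)), I' z₀ h ≤ J := by
    refine ⟨(Z (g 0)).attach.sup (fun z => I' z.1 z.2), fun z₀ h => ?_⟩
    exact Finset.le_sup (f := fun z : {x // x ∈ Z (g 0)} => I' z.1 z.2)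
      (Finset.mem_attach _ ⟨z₀, h⟩)
  set J := max J₁ J₂ with hJ
  have hζ : ∀ n, ∃ ζ : V (g 0) → V (g (J + 1 + n)), Set.InjOn ζ (Z (g 0) : Set (V (g 0))) ∧
      ∀ z ∈ Z (g 0), ζ z ∈ (Z (g (J + 1 + n))).filter (fun y =>
        Tle q (ty d (G (g 0)) (lab (g 0)) z)
          (ty d (G (g (J + 1 + n))) (lab (g (J + 1 + n))) y)) := by
    intro n
    refine exists_inj _ _ fun z hz => hI' z hz (J + 1 + n) ?_
    have h1 := hJ₂ z hz
    have h2 := le_max_right J₁ J₂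
    omega
  choose ζ hζ1 hζ2 using hζ
  have hPZ : ∀ n, (Z (g 0)).image (ζ n) ⊆ Z (g (J + 1 + n)) := by
    intro n y hy
    obtain ⟨z, hz, rfl⟩ := Finset.mem_image.1 hy
    exact (Finset.mem_filter.1 (hζ2 n z hz)).1
  choose K hK using fun n => hKx (V (g (J + 1 + n))) (H (g (J + 1 + n))) (G (g (J + 1 + n)))
    (A (g (J + 1 + n))) (Z (g (J + 1 + n)) \ (Z (g 0)).image (ζ n)) d (hAv _)
    (Finset.sdiff_subset.trans (hZA _)) (thin_mono (hT _) Finset.sdiff_subset)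
  have hKc : ∀ n, cut (K n) (A (g (J + 1 + n)) \ Z (g (J + 1 + n))) ≤ c + 2 * p := by
    intro n
    have h1 := cut_hubs (hT (g (J + 1 + n))) (hZA _) (hPZ n) (hK n)
    have h2 : ((Z (g 0)).image (ζ n)).card ≤ p := Finset.card_image_le
    have h3 := hc (g (J + 1 + n))
    omega
  have hKv : ∀ n, A (g (J + 1 + n)) \ Z (g (J + 1 + n)) ⊆ (K n).verts := by
    intro n
    rw [(hK n).verts]
    exact Finset.sdiff_subset.trans (hAv _)
  by_cases hR : ∃ n, ∃ M ≤ M₀, ¬ Poor (𝒩 M) M (K n) (A (g (J + 1 + n)) \ Z (g (J + 1 + n)))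
  · -- a rich piece
    obtain ⟨n, M, hM, hnP⟩ := hR
    unfold Poor at hnP
    push Not at hnP
    obtain ⟨G₁, hG₁, ι, hι, hbad⟩ := hnP
    obtain ⟨f, hf, hf'⟩ := exists_bij (a := (A (g 0) \ Z (g 0)).card) (hen (g 0))
      (by have := hen (g (J + 1 + n)); rwa [hcard] at this)
    have hcut1 : cut G₁ (A (g (J + 1 + n)) \ Z (g (J + 1 + n))) =
        cut (K n) (A (g (J + 1 + n)) \ Z (g (J + 1 + n))) := hG₁.cuts _ (Finset.Subset.refl _)
    have hty2 : ∀ z ∈ Z (g 0), Tle q (ty d (G (g 0)) (lab (g 0)) z)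
        (ty d (G (g (J + 1 + n))) (lab (g (J + 1 + n))) (ζ n z)) :=
      fun z hz => (Finset.mem_filter.1 (hζ2 n z hz)).2
    obtain ⟨β, hβ⟩ := rich (d := d) (r := fun a b => q (lab (g 0) a) (lab (g (J + 1 + n)) b))
      (ζ := ζ n) (hZA (g 0)) (hT (g 0)) (hAv (g (J + 1 + n))) (hZA _) (hT _) (hPZ n) (hK n)
      hG₁ (hcut _).symm (hζ1 n) (fun z hz => (hty2 z hz).1)
      (fun z hz => by
        have h1 := congrArg (fun x : Fin (d + 1) × Finset (Fin d × Fin d) => (x.1 : ℕ))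
          (hty2 z hz).2
        simp only [ty] at h1
        rwa [min_eq_left (hT _ z hz).1,
          min_eq_left (hT _ _ (hPZ n (Finset.mem_image_of_mem _ hz))).1] at h1)
      (fun z hz => congrArg (fun x : Fin (d + 1) × Finset (Fin d × Fin d) => x.2)
          (hty2 z hz).2)
      (fun σ hσ => h𝒩 M (V (g 0)) (V (g (J + 1 + n))) (H (g 0)) (H (g (J + 1 + n)))
        (G (g 0)) (A (g 0) \ Z (g 0)) G₁ (A (g (J + 1 + n)) \ Z (g (J + 1 + n))) ι
        (fun a b => q (lab (g 0) a) (lab (g (J + 1 + n)) b)) f σ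
        (Finset.sdiff_subset.trans (hAv _)) hG₁.verts hf
        (fun v hv => by
          obtain ⟨i, hi, h1, h2⟩ := hf' v hv
          rw [h2, ← h1]
          exact hlab _ i hi) (hk _) le_rfl hσ (by rw [hcut1]; exact hKc n)
        (fun S h1 h2 h3 => by
          rw [hG₁.cuts S h2]
          refine le_trans ?_ (cut_sk_le (hK₀ _) (hK n) h2)
          refine (hI M (J + 1 + n) ?_ S h1 h2 h3).le
          have h4 := hJ₁ M hM
          have h5 := le_max_left J₁ J₂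
          omega) hι hbad) hPE
    exact ⟨g 0, g (J + 1 + n), g.strictMono (by omega), β, hβ⟩
  · push Not at hR
    have hcar : ∀ n, ∃ ι : H (g (J + 1 + n)) → ℕ,
        Cutting (K n) (A (g (J + 1 + n)) \ Z (g (J + 1 + n))) ι s ∧
        (dts (K n) (A (g (J + 1 + n)) \ Z (g (J + 1 + n))) = ∅ ∨
          ∃ t, IsSegCar w' (K n) (A (g (J + 1 + n)) \ Z (g (J + 1 + n))) ι t) :=
      fun n => hSt _ _ _ _ (hKv n) (hk _) (hKc n) fun M hM => hR n M hM
    choose ι hι hcar using hcar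
    obtain ⟨m, n, hmn, β, hβ⟩ := hG k d s w' Q q hq (fun n => V (g (J + 1 + n)))
      (fun n => H (g (J + 1 + n))) (fun n => G (g (J + 1 + n))) K
      (fun n => lab (g (J + 1 + n))) (fun n => A (g (J + 1 + n)))
      (fun n => Z (g (J + 1 + n))) (fun n => (Z (g 0)).image (ζ n)) ι (fun n => hAv _)
      (fun n => hZA _) hPZ (fun n => hk _) (fun n => hT _) hK hι hcar
    exact ⟨g (J + 1 + m), g (J + 1 + n), g.strictMono (by omega), β, hβ⟩

theorem goal_all (hU : StUniB.{u, v}) (hKx : StSkEx.{u, v}) (hPE : StSkPE.{u, v})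
    (hG : StSegZ.{u, v, w}) (hS : StStruct.{u, v}) (hL : StLeafX.{u, v, w}) (d : ℕ)
    (Q : Type w) (q : Q → Q → Prop) [IsPreorder Q q] (hq : WellQuasiOrdered q) (k : ℕ) :
    Goal.{u, v, w} k d Q q Set.univ := by
  induction k using Nat.strong_induction_on with
  | _ k ihk =>
  have key : ∀ X : {X : Set (Ty d Q) // Low (fun a b : Ty d Q => Tle q a b) X},
      Goal.{u, v, w} k d Q q X.1 := by
    intro X
    induction X using (wf_low (Tle.wqo hq d)).induction with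
    | _ X ih =>
    refine step hU hKx hPE hG hS hL k d Q q hq X.1 ihk fun τ hτ => ?_
    refine ih ⟨X.1 \ {a | Tle q τ a}, fun a b hab hb => ⟨X.2 a b hab hb.1, fun h => ?_⟩⟩ ?_
    · exact hb.2 (Tle.trans h hab)
    · refine ⟨Set.sdiff_subset, fun h => ?_⟩
      exact (h hτ).2 ⟨_root_.refl _, rfl⟩
  exact key ⟨Set.univ, fun _ _ _ _ => Set.mem_univ _⟩

/-- (Z4) The leaf theorem with atoms. -/
theorem leafZ77 (hU : StUniB.{u, v}) (hKx : StSkEx.{u, v}) (hPE : StSkPE.{u, v})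
    (hG : StSegZ.{u, v, w}) (hS : StStruct.{u, v}) (hL : StLeafX.{u, v, w}) :
    StLeafZ.{u, v, w} := by
  intro k c d Q q _ hq V H _ _ G lab A Z hAv hZA hk hc hT
  exact goal_all hU hKx hPE hG hS hL d Q q hq k c V H G lab A Z hAv hZA hk hc hT
    fun _ _ _ => Set.mem_univ _

end RotWqo.Tc.LeafZ77
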