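import Pool.Agent.Lib.MP_cb4a0f_co.Tc.SegT21
import Pool.Agent.Lib.MP_cb4a0f_co.Arc.Final21
import Pool.Agent.Lib.MP_cb4a0f_co.Arc.Main22

/-!
# MP_cb4a0f_co: pieces whose skeleton has a segment carving of bounded width (seat 21)

The arcs become hubs, each with a dummy loop in front of it; the vertices outside `B = A \ Z` are
kept.
-/

open Classical

namespace RotWqo.Tc.SegZ21

open RotWqo.Bag RotWqo.Hk SegT21

universe u v w

/-! ### the graph -/

section graph

variable {V : Type u} {H : Type v} {n : ℕ}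

/-- the arc of a half-edge -/
noncomputable def jj (G : RotGraph V H) (ι : H → ℕ) (p : Fin n → V × ℕ) (h : H) :
    Option (Fin n) := if hh : ∃ j, p j = (G.base h, ι h) then some hh.choose else none

theorem jj_some {G : RotGraph V H} {ι : H → ℕ} {p : Fin n → V × ℕ} {h : H} {j : Fin n}
    (hj : jj G ι p h = some j) : p j = (G.base h, ι h) := by
  unfold jj at hj
  split_ifs at hj with h1
  rw [← Option.some.inj hj]
  exact h1.choose_spec

theorem jj_none {G : RotGraph V H} {ι : H → ℕ} {p : Fin n → V × ℕ} {h : H}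
    (hj : jj G ι p h = none) : ∀ j, p j ≠ (G.base h, ι h) := by
  unfold jj at hj
  split_ifs at hj with h1
  exact fun j h2 => h1 ⟨j, h2⟩

/-- the end of a half-edge of the new graph -/
noncomputable def yb (G : RotGraph V H) (ι : H → ℕ) (p : Fin n → V × ℕ) :
    H ⊕ (Fin n × Bool) → V ⊕ Fin n
  | .inl h => (jj G ι p h).elim (.inl (G.base h)) .inr
  | .inr d => .inr d.1

/-- the list of a vertex of the new graph -/
noncomputable def yr (G : RotGraph V H) (ι : H → ℕ) (p : Fin n → V × ℕ) :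
    V ⊕ Fin n → List (H ⊕ (Fin n × Bool))
  | .inl v => ((G.rot v).filter (fun h => decide (jj G ι p h = none))).map .inl
  | .inr j => .inr (j, true) :: .inr (j, false) ::
      ((G.rot (p j).1).filter (fun h => decide (jj G ι p h = some j))).map .inl

theorem yb_inl_inl {G : RotGraph V H} {ι : H → ℕ} {p : Fin n → V × ℕ} {h : H} {v : V} :
    yb G ι p (.inl h) = .inl v ↔ G.base h = v ∧ jj G ι p h = none := by
  unfold yb
  rcases ho : jj G ι p h with _ | j
  · simp [ho]
  · simp [ho]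

theorem yb_inl_inr {G : RotGraph V H} {ι : H → ℕ} {p : Fin n → V × ℕ} {h : H} {j : Fin n} :
    yb G ι p (.inl h) = .inr j ↔ jj G ι p h = some j := by
  unfold yb
  rcases ho : jj G ι p h with _ | j
  · simp [ho]
  · simp [ho]

/-- the arcs as vertices, with a dummy loop in front of each -/
noncomputable def yg (G : RotGraph V H) (ι : H → ℕ) (p : Fin n → V × ℕ) :
    RotGraph (V ⊕ Fin n) (H ⊕ (Fin n × Bool)) where
  verts := G.verts.disjSum Finset.univ
  darts := G.darts.disjSum Finset.univ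
  base := yb G ι p
  opp := Sum.elim (fun h => Sum.inl (G.opp h)) (fun d => Sum.inr (d.1, !d.2))
  rot := yr G ι p
  base_mem a ha := by
    rcases hb : yb G ι p a with v | j
    · rcases a with h | d
      · rw [Finset.inl_mem_disjSum] at ha
        rw [Finset.inl_mem_disjSum, ← (yb_inl_inl.1 hb).1]
        exact G.base_mem h ha
      · cases hb
    · rw [Finset.inr_mem_disjSum]
      exact Finset.mem_univ _
  opp_mem a ha := by
    rcases a with h | d
    · rw [Sum.elim_inl, Finset.inl_mem_disjSum]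
      rw [Finset.inl_mem_disjSum] at ha
      exact G.opp_mem h ha
    · rw [Sum.elim_inr, Finset.inr_mem_disjSum]
      exact Finset.mem_univ _
  opp_opp a ha := by
    rcases a with h | d
    · rw [Finset.inl_mem_disjSum] at ha
      simp [G.opp_opp h ha]
    · simp
  opp_ne a ha := by
    rcases a with h | d
    · rw [Finset.inl_mem_disjSum] at ha
      simp [G.opp_ne h ha]
    · rcases d with ⟨j, b⟩
      simp
  nodup v := by
    rcases v with v | j
    · exact ((G.nodup v).filter _).map Sum.inl_injective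
    · unfold yr
      rw [List.nodup_cons, List.nodup_cons]
      refine ⟨?_, ?_, ((G.nodup _).filter _).map Sum.inl_injective⟩
      · simp
      · simp
  mem_rot v a := by
    rcases v with v | j
    · unfold yr
      rcases a with h | d
      · rw [Finset.inl_mem_disjSum, yb_inl_inl, List.mem_map]
        constructor
        · rintro ⟨g, h1, h2⟩
          cases h2
          rw [List.mem_filter, G.mem_rot, decide_eq_true_eq] at h1
          exact ⟨h1.1.1, h1.1.2, h1.2⟩
        · rintro ⟨h1, h2, h3⟩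
          refine ⟨h, ?_, rfl⟩
          rw [List.mem_filter, G.mem_rot, decide_eq_true_eq]
          exact ⟨⟨h1, h2⟩, h3⟩
      · constructor
        · intro h1
          obtain ⟨g, -, h2⟩ := List.mem_map.1 h1
          cases h2
        · rintro ⟨-, h2⟩
          cases h2
    · unfold yr
      rw [List.mem_cons, List.mem_cons]
      rcases a with h | d
      · rw [Finset.inl_mem_disjSum, yb_inl_inr, List.mem_map]
        constructor
        · rintro (h1 | h1 | ⟨g, h1, h2⟩)
          · cases h1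
          · cases h1
          · cases h2
            rw [List.mem_filter, G.mem_rot, decide_eq_true_eq] at h1
            exact ⟨h1.1.1, h1.2⟩
        · rintro ⟨h1, h2⟩
          refine Or.inr (Or.inr ⟨h, ?_, rfl⟩)
          rw [List.mem_filter, G.mem_rot, decide_eq_true_eq]
          exact ⟨⟨h1, by rw [jj_some h2]⟩, h2⟩
      · rw [Finset.inr_mem_disjSum]
        constructor
        · rintro (h1 | h1 | h1)
          · cases h1
            exact ⟨Finset.mem_univ _, rfl⟩
          · cases h1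
            exact ⟨Finset.mem_univ _, rfl⟩
          · obtain ⟨g, -, h2⟩ := List.mem_map.1 h1
            cases h2
        · rintro ⟨-, h2⟩
          rcases d with ⟨i, b⟩
          have h3 : i = j := Sum.inr.inj h2
          rw [h3]
          cases b
          · exact Or.inr (Or.inl rfl)
          · exact Or.inl rfl

/-- the hubs of the new graph -/
def hb (V : Type u) (n : ℕ) (j : Fin n) : V ⊕ Fin n := Sum.inr j

theorem hb_inj : Function.Injective (hb V n) := fun _ _ h => Sum.inr.inj h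

theorem isHub_inr (j : Fin n) : Arc.IsHub (hb V n) (Sum.inr j) := ⟨j, rfl⟩

theorem not_isHub (v : V) : ¬ Arc.IsHub (hb V n) (Sum.inl v) := by
  rintro ⟨j, h⟩
  cases h

/-- the units -/
def e1 (V : Type u) (H : Type v) (n : ℕ) : V ⊕ H → (V ⊕ Fin n) ⊕ (H ⊕ (Fin n × Bool)) :=
  Sum.map Sum.inl Sum.inl

theorem e1_inj : Function.Injective (e1 V H n) :=
  Sum.map_injective.2 ⟨Sum.inl_injective, Sum.inl_injective⟩

/-- a set of units of the new graph -/
def im (n : ℕ) (Y : Finset (V ⊕ H)) : Finset ((V ⊕ Fin n) ⊕ (H ⊕ (Fin n × Bool))) :=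
  Y.map ⟨e1 V H n, e1_inj⟩

theorem mem_im {Y : Finset (V ⊕ H)} {x : (V ⊕ Fin n) ⊕ (H ⊕ (Fin n × Bool))} :
    x ∈ im n Y ↔ ∃ y ∈ Y, e1 V H n y = x := by
  unfold im
  rw [Finset.mem_map]
  rfl

theorem inl_mem_im {Y : Finset (V ⊕ H)} {x : V ⊕ Fin n} :
    Sum.inl x ∈ im n Y ↔ ∃ v, x = Sum.inl v ∧ Sum.inl v ∈ Y := by
  rw [mem_im]
  constructor
  · rintro ⟨y, h1, h2⟩
    rcases y with v | h
    · exact ⟨v, (Sum.inl.inj h2).symm, h1⟩
    · cases h2
  · rintro ⟨v, rfl, h1⟩
    exact ⟨_, h1, rfl⟩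

theorem inr_mem_im {Y : Finset (V ⊕ H)} {x : H ⊕ (Fin n × Bool)} :
    Sum.inr x ∈ im n Y ↔ ∃ h, x = Sum.inl h ∧ Sum.inr h ∈ Y := by
  rw [mem_im]
  constructor
  · rintro ⟨y, h1, h2⟩
    rcases y with v | h
    · cases h2
    · exact ⟨h, (Sum.inr.inj h2).symm, h1⟩
  · rintro ⟨v, rfl, h1⟩
    exact ⟨_, h1, rfl⟩

theorem tmap_im (t : Tree (V ⊕ H)) : (Seg21.tmap (e1 V H n) t).set = im n t.set := by
  ext x
  rw [Seg21.mem_tmap, mem_im]

/-- the numbering of the arcs fits -/
structure Num (G : RotGraph V H) (B : Finset V) (ι : H → ℕ) (p : Fin n → V × ℕ) : Prop where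
  inj : Function.Injective p
  mem : ∀ j, (p j).1 ∈ B
  cov : ∀ h ∈ dts G B, ∃ j, p j = (G.base h, ι h)

variable {G : RotGraph V H} {B Z : Finset V} {ι : H → ℕ} {p : Fin n → V × ℕ}

theorem jj_hub (hp : Num G B ι p) {h : H} {j : Fin n} :
    jj G ι p h = some j ↔ G.base h = (p j).1 ∧ ι h = (p j).2 := by
  constructor
  · intro h1
    rw [jj_some h1]
    exact ⟨rfl, rfl⟩
  · intro h1
    rcases ho : jj G ι p h with _ | i
    · exact absurd (Prod.ext h1.1.symm h1.2.symm) (jj_none ho j)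
    · have h2 := jj_some ho
      have h3 : p i = p j := by
        rw [h2]
        exact Prod.ext h1.1 h1.2
      rw [hp.inj h3]

theorem jj_out (hp : Num G B ι p) {h : H} (hh : G.base h ∉ B) : jj G ι p h = none := by
  rcases ho : jj G ι p h with _ | i
  · rfl
  · have h2 := hp.mem i
    rw [jj_some ho] at h2
    exact absurd h2 hh

theorem jj_in (hp : Num G B ι p) {h : H} (hh : h ∈ dts G B) : ∃ j, jj G ι p h = some j := by
  obtain ⟨j, hj⟩ := hp.cov h hh
  exact ⟨j, (jj_hub hp).2 (by rw [hj]; exact ⟨rfl, rfl⟩)⟩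

theorem inn_inl (hp : Num G B ι p) (hZ : ∀ z ∈ Z, z ∉ B) {Y : Finset (V ⊕ H)}
    (hY : Y ⊆ Z.disjSum (dts G B)) {h : H} (hh : h ∈ G.darts) :
    Arc.inn (yg G ι p) (hb V n) (im n Y) (Sum.inl h) ↔ inU G Y h := by
  have hY1 : ∀ v, Sum.inl v ∈ Y → v ∈ Z := fun v hv => Finset.inl_mem_disjSum.1 (hY hv)
  have hY2 : ∀ g, Sum.inr g ∈ Y → g ∈ dts G B := fun g hg => Finset.inr_mem_disjSum.1 (hY hg)
  unfold Arc.inn inU
  show (Arc.IsHub (hb V n) (yb G ι p (Sum.inl h)) ∧ _) ∨
    (¬ Arc.IsHub (hb V n) (yb G ι p (Sum.inl h)) ∧ Sum.inl (yb G ι p (Sum.inl h)) ∈ _) ↔ _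
  rw [inr_mem_im, inl_mem_im]
  by_cases hB : G.base h ∈ B
  · obtain ⟨j, hj⟩ := jj_in hp (mem_dts.2 ⟨hh, hB⟩)
    have h1 := yb_inl_inr.2 hj
    rw [h1]
    constructor
    · rintro (⟨-, g, h2, h3⟩ | ⟨-, v, h2, -⟩)
      · cases h2
        exact Or.inl h3
      · cases h2
    · rintro (h2 | h2)
      · exact Or.inl ⟨isHub_inr j, h, rfl, h2⟩
      · exact absurd hB (hZ _ (hY1 _ h2))
  · have h1 := yb_inl_inl.2 ⟨rfl, jj_out hp hB⟩
    rw [h1]
    constructor
    · rintro (⟨h2, -⟩ | ⟨-, v, h2, h3⟩)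
      · exact absurd h2 (not_isHub _)
      · cases h2
        exact Or.inr h3
    · rintro (h2 | h2)
      · exact absurd (mem_dts.1 (hY2 _ h2)).2 hB
      · exact Or.inr ⟨not_isHub _, _, rfl, h2⟩

theorem inn_inr {Y : Finset (V ⊕ H)} {d : Fin n × Bool} :
    ¬ Arc.inn (yg G ι p) (hb V n) (im n Y) (Sum.inr d) := by
  unfold Arc.inn
  rintro (⟨-, h1⟩ | ⟨-, h1⟩)
  · obtain ⟨h, h2, -⟩ := inr_mem_im.1 h1
    cases h2
  · obtain ⟨v, h2, -⟩ := inl_mem_im.1 h1
    cases h2

theorem inU_all {h : H} (hh : h ∈ G.darts) :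
    inU G (Z.disjSum (dts G B)) h ↔ G.base h ∈ B ∨ G.base h ∈ Z := by
  unfold inU
  rw [Finset.inr_mem_disjSum, Finset.inl_mem_disjSum, mem_dts]
  tauto

theorem rot_hub (hp : Num G B ι p) (j : Fin n) : (yg G ι p).rot (Sum.inr j) =
    Sum.inr (j, true) :: Sum.inr (j, false) ::
      ((G.rot (p j).1).filter (fun h => decide (ι h = (p j).2))).map Sum.inl := by
  show yr G ι p (Sum.inr j) = _
  simp only [yr]
  congr 3
  refine List.filter_congr fun h hh => ?_
  rw [decide_eq_decide, jj_hub hp]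
  exact ⟨fun h => h.2, fun h => ⟨((G.mem_rot _ _).1 hh).2, h⟩⟩

theorem rot_out (hp : Num G B ι p) {v : V} (hv : v ∉ B) : (yg G ι p).rot (Sum.inl v) =
    (G.rot v).map Sum.inl := by
  show yr G ι p (Sum.inl v) = _
  simp only [yr]
  congr 1
  rw [List.filter_eq_self]
  intro h hh
  rw [decide_eq_true_eq]
  exact jj_out hp (by rw [((G.mem_rot _ _).1 hh).2]; exact hv)

theorem lst_hub (hp : Num G B ι p) (hZ : ∀ z ∈ Z, z ∉ B) (j : Fin n) :
    Arc.lst (yg G ι p) (hb V n) (im n (Z.disjSum (dts G B))) (Sum.inr j) =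
      ((G.rot (p j).1).filter (fun h => decide (ι h = (p j).2))).map Sum.inl := by
  unfold Arc.lst
  rw [rot_hub hp, List.filter_cons_of_neg (by simpa using inn_inr),
    List.filter_cons_of_neg (by simpa using inn_inr), List.filter_eq_self]
  intro a ha
  obtain ⟨h, h1, rfl⟩ := List.mem_map.1 ha
  rw [List.mem_filter, G.mem_rot] at h1
  rw [decide_eq_true_eq, inn_inl hp hZ (Finset.Subset.refl _) h1.1.1, inU_all h1.1.1]
  exact Or.inl (h1.1.2 ▸ hp.mem j)

theorem not_cpl (hp : Num G B ι p) (j : Fin n) (Y : Finset (V ⊕ H)) :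
    ¬ Arc.cpl (yg G ι p) (hb V n) (im n Y) (Sum.inr j) := by
  intro h
  refine inn_inr (h (Sum.inr (j, true)) ?_)
  rw [rot_hub hp]
  exact List.mem_cons_self

theorem bdx_eq (hp : Num G B ι p) (hZ : ∀ z ∈ Z, z ∉ B) {Y : Finset (V ⊕ H)}
    (hY : Y ⊆ Z.disjSum (dts G B)) :
    Arc.bdx (yg G ι p) (hb V n) (im n Y) = (lv G Y).image Sum.inl := by
  ext a
  rw [Arc.mem_bdx, Finset.mem_image]
  constructor
  · rintro ⟨h1, h2, h3⟩
    rcases a with h | d
    · have hh : h ∈ G.darts := Finset.inl_mem_disjSum.1 h1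
      rw [inn_inl hp hZ hY hh] at h2
      have h4 : ¬ Arc.inn (yg G ι p) (hb V n) (im n Y) (Sum.inl (G.opp h)) := h3
      rw [inn_inl hp hZ hY (G.opp_mem h hh)] at h4
      exact ⟨h, mem_lv.2 ⟨hh, h2, h4⟩, rfl⟩
    · exact absurd h2 inn_inr
  · rintro ⟨h, h1, rfl⟩
    rw [mem_lv] at h1
    refine ⟨Finset.inl_mem_disjSum.2 h1.1, ?_, ?_⟩
    · rw [inn_inl hp hZ hY h1.1]
      exact h1.2.1
    · show ¬ Arc.inn (yg G ι p) (hb V n) (im n Y) (Sum.inl (G.opp h))
      rw [inn_inl hp hZ hY (G.opp_mem h h1.1)]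
      exact h1.2.2

theorem ecut_le (hp : Num G B ι p) (hZ : ∀ z ∈ Z, z ∉ B) {Y : Finset (V ⊕ H)}
    (hY : Y ⊆ Z.disjSum (dts G B)) :
    Arc.ecut (yg G ι p) (hb V n) (im n Y) ≤ (lv G Y).card := by
  unfold Arc.ecut
  rw [bdx_eq hp hZ hY]
  exact Finset.card_image_le

theorem idx_two {α β : Type*} (f : α → β) (hf : Function.Injective f) (z z' : β)
    (hz : ∀ a, z ≠ f a) (hz' : ∀ a, z' ≠ f a) {L : List α} (hL : L.Nodup) {a : α} (ha : a ∈ L) :
    (z :: z' :: L.map f).idxOf (f a) = L.idxOf a + 2 := by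
  rw [List.idxOf_cons_ne _ (hz a), Seg21.idx_cons_map f hf z' hz' hL ha]

theorem idx_sec {β : Type*} {z z' : β} (hz : z ≠ z') (L : List β) :
    (z :: z' :: L).idxOf z' = 1 := by
  rw [List.idxOf_cons_ne _ hz, Seg21.idx_head]

theorem cv (hp : Num G B ι p) {Y : Finset (V ⊕ H)}
    (hY : ∀ a ∈ dts G B, ∀ b ∈ dts G B, ∀ c ∈ dts G B, G.base a = G.base b →
      G.base c = G.base b → ι a = ι b → ι c = ι b → pos G a ≤ pos G b → pos G b ≤ pos G c →
      Sum.inr a ∈ Y → Sum.inr c ∈ Y → Sum.inr b ∈ Y) :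
    Arc.Cv (yg G ι p) (hb V n) (im n Y) := by
  intro j a ha b hb c hc hab hbc haY hcY
  obtain ⟨a, rfl, haY'⟩ := inr_mem_im.1 haY
  obtain ⟨c, rfl, hcY'⟩ := inr_mem_im.1 hcY
  have er : (yg G ι p).rot (SegZ21.hb V n j) = _ := rot_hub hp j
  set L := (G.rot (p j).1).filter (fun h => decide (ι h = (p j).2)) with hL
  rw [er] at ha hb hc hab hbc
  have hLm : ∀ h, h ∈ L → h ∈ G.darts ∧ G.base h = (p j).1 ∧ ι h = (p j).2 := by
    intro h hh
    rw [hL, List.mem_filter, G.mem_rot] at hh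
    exact ⟨hh.1.1, hh.1.2, of_decide_eq_true hh.2⟩
  have hinl : ∀ h : H, (Sum.inl h : H ⊕ (Fin n × Bool)) ∈
      Sum.inr (j, true) :: Sum.inr (j, false) :: L.map Sum.inl → h ∈ L := by
    intro h hh
    rcases List.mem_cons.1 hh with h1 | h1
    · cases h1
    · rcases List.mem_cons.1 h1 with h1 | h1
      · cases h1
      · obtain ⟨g, h2, h3⟩ := List.mem_map.1 h1
        cases h3
        exact h2
  have hidx := fun (h : H) (hh : h ∈ L) => idx_two (Sum.inl : H → H ⊕ (Fin n × Bool))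
    Sum.inl_injective (Sum.inr (j, true)) (Sum.inr (j, false)) (by simp) (by simp)
      ((G.nodup _).filter _) hh
  have haL := hinl a ha
  have hcL := hinl c hc
  rcases b with b | d
  · have hbL := hinl b hb
    rw [hidx a haL, hidx b hbL] at hab
    rw [hidx c hcL, hidx b hbL] at hbc
    obtain ⟨a1, a2, a3⟩ := hLm a haL
    obtain ⟨b1, b2, b3⟩ := hLm b hbL
    obtain ⟨c1, c2, c3⟩ := hLm c hcL
    have h1 := Seg21.idx_lt (G.nodup _) _ haL hbL (by omega)
    have h2 := Seg21.idx_lt (G.nodup _) _ hbL hcL (by omega)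
    refine inr_mem_im.2 ⟨b, rfl, ?_⟩
    refine hY a (mem_dts.2 ⟨a1, a2 ▸ hp.mem j⟩) b (mem_dts.2 ⟨b1, b2 ▸ hp.mem j⟩) c
      (mem_dts.2 ⟨c1, c2 ▸ hp.mem j⟩) (a2.trans b2.symm) (c2.trans b2.symm) (a3.trans b3.symm)
      (c3.trans b3.symm) ?_ ?_ haY' hcY'
    · unfold pos
      rw [a2, b2]
      exact h1.le
    · unfold pos
      rw [c2, b2]
      exact h2.le
  · exfalso
    rw [hidx a haL] at hab
    rcases List.mem_cons.1 hb with h1 | h1
    · rw [h1, Seg21.idx_head] at hab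
      omega
    · rcases List.mem_cons.1 h1 with h1 | h1
      · rw [h1, idx_sec (by simp)] at hab
        omega
      · obtain ⟨g, h2, h3⟩ := List.mem_map.1 h1
        cases h3

end graph

/-! ### from the new graphs back -/

section back

variable {V V' : Type u} {H H' : Type v} {n : ℕ} {G : RotGraph V H} {A B Z : Finset V}
  {ι : H → ℕ} {p : Fin n → V × ℕ} {G' : RotGraph V' H'} {A' B' Z' : Finset V'} {ι' : H' → ℕ}
  {p' : Fin n → V' × ℕ}

/-- `B` and `Z` are the parts of `A` -/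
structure Prt (A B Z : Finset V) : Prop where
  disj : ∀ z ∈ Z, z ∉ B
  mem : ∀ v, v ∈ A ↔ v ∈ B ∨ v ∈ Z

theorem inn_all (hp : Num G B ι p) (hA : Prt A B Z) {h : H} (hh : h ∈ G.darts) :
    Arc.inn (yg G ι p) (hb V n) (im n (Z.disjSum (dts G B))) (Sum.inl h) ↔ G.base h ∈ A := by
  rw [inn_inl hp hA.disj (Finset.Subset.refl _) hh, inU_all hh, hA.mem]

theorem mem_cases (hp : Num G B ι p) (hA : Prt A B Z) {a : H ⊕ (Fin n × Bool)}
    (ha : a ∈ (yg G ι p).darts)
    (h : Arc.inn (yg G ι p) (hb V n) (im n (Z.disjSum (dts G B))) a) :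
    ∃ h ∈ G.darts, G.base h ∈ A ∧ a = Sum.inl h := by
  rcases a with h1 | d
  · have hh : h1 ∈ G.darts := Finset.inl_mem_disjSum.1 ha
    exact ⟨h1, hh, (inn_all hp hA hh).1 h, rfl⟩
  · exact absurd h inn_inr

theorem mem_bdx' (hp : Num G B ι p) (hA : Prt A B Z) {a : H ⊕ (Fin n × Bool)} :
    a ∈ Arc.bdx (yg G ι p) (hb V n) (im n (Z.disjSum (dts G B))) ↔
      ∃ h ∈ bd G A, Sum.inl h = a := by
  rw [bdx_eq hp hA.disj (Finset.Subset.refl _), Finset.mem_image]
  refine exists_congr fun h => and_congr_left fun _ => ?_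
  rw [mem_lv]
  unfold bd
  rw [Finset.mem_filter]
  refine and_congr_right fun hh => ?_
  rw [inU_all hh, inU_all (G.opp_mem h hh), ← hA.mem, ← hA.mem]

theorem base_eq {x y : H} (h : yb G ι p (Sum.inl x) = yb G ι p (Sum.inl y)) :
    G.base x = G.base y := by
  rcases hx : yb G ι p (Sum.inl x) with v | j
  · rw [hx] at h
    rw [(yb_inl_inl.1 hx).1, (yb_inl_inl.1 h.symm).1]
  · rw [hx] at h
    have h1 := jj_some (yb_inl_inr.1 hx)
    have h2 := jj_some (yb_inl_inr.1 h.symm)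
    rw [h1] at h2
    exact (Prod.mk.injEq _ _ _ _ ▸ h2).1

theorem back [Nonempty V'] [Nonempty H'] {S : ℕ} (hS : 0 < S) {k : ℕ} (a : Fin k → V)
    (a' : Fin k → V') (ha : Function.Injective a) (ha' : Function.Injective a')
    (hB : ∀ v, v ∈ B ↔ ∃ j, a j = v) (hB' : ∀ v, v ∈ B' ↔ ∃ j, a' j = v)
    (hA : Prt A B Z) (hA' : Prt A' B' Z')
    (e : Fin n ≃ Fin k × Fin S) (hp : Num G B ι p) (hp' : Num G' B' ι' p')
    (hpe : ∀ j, p j = (a (e j).1, ((e j).2 : ℕ))) (hpe' : ∀ j, p' j = (a' (e j).1, ((e j).2 : ℕ)))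
    (hι : Cutting G B ι S) (hι' : Cutting G' B' ι' S)
    (r : V → V' → Prop) (r' : V ⊕ Fin n → V' ⊕ Fin n → Prop)
    (hr : ∀ j, r' (Sum.inr j) (Sum.inr j) → r (p j).1 (p' j).1)
    (hr' : ∀ x y, r' (Sum.inl x) (Sum.inl y) → r x y)
    {β : H ⊕ (Fin n × Bool) → H' ⊕ (Fin n × Bool)} {f : V ⊕ Fin n → V' ⊕ Fin n}
    {φ : H ⊕ (Fin n × Bool) → H' ⊕ (Fin n × Bool)}
    {M : H' ⊕ (Fin n × Bool) → H' ⊕ (Fin n × Bool) → Prop}
    (hP : Arc.PED r' (yg G ι p) (hb V n) (im n (Z.disjSum (dts G B))) (yg G' ι' p') (hb V' n)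
      (im n (Z'.disjSum (dts G' B'))) β f φ M) :
    ∃ β', PE r G A G' A' β' := by
  set f0 : V → V' := fun v => if v ∈ B then
    Function.extend a a' (fun _ => Classical.arbitrary V') v else
      (f (Sum.inl v)).elim id (fun _ => Classical.arbitrary V') with hf0
  set φ0 : H → H' := fun h => Seg21.pr H' n (φ (Sum.inl h)) with hφ0
  set M0 : H' → H' → Prop := fun x y => M (Sum.inl x) (Sum.inl y) with hM0
  have hBA : ∀ v ∈ B, v ∈ A := fun v hv => (hA.mem v).2 (Or.inl hv)
  have hZA : ∀ v ∈ Z, v ∈ A := fun v hv => (hA.mem v).2 (Or.inr hv)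
  have hBA' : ∀ v ∈ B', v ∈ A' := fun v hv => (hA'.mem v).2 (Or.inl hv)
  have hZA' : ∀ v ∈ Z', v ∈ A' := fun v hv => (hA'.mem v).2 (Or.inr hv)
  have hfa : ∀ j, f0 (a j) = a' j := by
    intro j
    simp only [hf0]
    rw [if_pos ((hB _).2 ⟨j, rfl⟩)]
    exact ha.extend_apply _ _ _
  have hZX : ∀ z ∈ Z, (Sum.inl (Sum.inl z) : (V ⊕ Fin n) ⊕ (H ⊕ (Fin n × Bool))) ∈
      im n (Z.disjSum (dts G B)) := fun z hz => inl_mem_im.2
        ⟨z, rfl, Finset.inl_mem_disjSum.2 hz⟩
  have hZX' : ∀ z ∈ Z', (Sum.inl (Sum.inl z) : (V' ⊕ Fin n) ⊕ (H' ⊕ (Fin n × Bool))) ∈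
      im n (Z'.disjSum (dts G' B')) := fun z hz => inl_mem_im.2
        ⟨z, rfl, Finset.inl_mem_disjSum.2 hz⟩
  have hfZ : ∀ z ∈ Z, f (Sum.inl z) = Sum.inl (f0 z) ∧ f0 z ∈ Z' := by
    intro z hz
    obtain ⟨v, h1, h2⟩ := inl_mem_im.1 (hP.f_mem _ (hZX z hz))
    have h3 : f0 z = v := by
      simp only [hf0]
      rw [if_neg (hA.disj z hz), h1]
      rfl
    rw [h3]
    exact ⟨h1, Finset.inl_mem_disjSum.1 h2⟩
  have hfB : ∀ v ∈ B, f0 v ∈ B' := by
    intro v hv
    obtain ⟨j, rfl⟩ := (hB v).1 hv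
    rw [hfa]
    exact (hB' _).2 ⟨j, rfl⟩
  have hfj : ∀ j, f (Sum.inr j) = Sum.inr j := fun j => hP.f_hub j
  have hd : ∀ h ∈ G.darts, (Sum.inl h : H ⊕ (Fin n × Bool)) ∈ (yg G ι p).darts :=
    fun h hh => Finset.inl_mem_disjSum.2 hh
  have hφ : ∀ h ∈ G.darts, G.base h ∈ A → φ (Sum.inl h) = Sum.inl (φ0 h) ∧
      φ0 h ∈ G'.darts ∧ G'.base (φ0 h) ∈ A' := by
    intro h hh hb
    have h1 := hP.φ_mem (Sum.inl h) (hd h hh) ((inn_all hp hA hh).2 hb)
    obtain ⟨g, h2, h3, h4⟩ := mem_cases hp' hA' h1.1 h1.2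
    have h5 : φ0 h = g := by
      simp only [hφ0]
      rw [h4]
      rfl
    rw [h5]
    exact ⟨h4, h2, h3⟩
  have hM : ∀ x y, M x y → ∃ x0 ∈ G'.darts, G'.base x0 ∈ A' ∧ x = Sum.inl x0 := by
    intro x y h
    obtain ⟨h1, h2⟩ := hP.M_mem x y h
    exact mem_cases hp' hA' h1 h2
  have hdA : ∀ v (i : ℕ), v ∈ B → i < S → ∃ j, p j = (v, i) ∧ p' j = (f0 v, i) := by
    intro v i hv hi
    obtain ⟨l, rfl⟩ := (hB v).1 hv
    refine ⟨e.symm (l, ⟨i, hi⟩), ?_, ?_⟩
    · rw [hpe, Equiv.apply_symm_apply]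
    · rw [hpe', Equiv.apply_symm_apply, hfa]
  have hdA' : ∀ v (i : ℕ), v ∈ B' → i < S → ∃ j, p' j = (v, i) := by
    intro v i hv hi
    obtain ⟨l, rfl⟩ := (hB' v).1 hv
    refine ⟨e.symm (l, ⟨i, hi⟩), ?_⟩
    rw [hpe', Equiv.apply_symm_apply]
  have hKer : ∀ b : H', Ker G A φ0 b ↔
      Arc.Kx (yg G ι p) (hb V n) (im n (Z.disjSum (dts G B))) φ (Sum.inl b) := by
    intro b
    constructor
    · rintro ⟨h, h1, h2, h3⟩
      exact ⟨Sum.inl h, hd h h1, (inn_all hp hA h1).2 h2, by rw [(hφ h h1 h2).1, h3]⟩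
    · rintro ⟨z, h1, h2, h3⟩
      obtain ⟨h, hh, hh', rfl⟩ := mem_cases hp hA h1 h2
      rw [(hφ h hh hh').1] at h3
      exact ⟨h, hh, hh', Sum.inl.inj h3⟩
  have hrun : ∀ x y, Run (yg G' ι' p').opp M (Sum.inl x) y →
      ∃ y0, y = Sum.inl y0 ∧ Run G'.opp M0 x y0 := by
    intro x y h
    generalize hz : (Sum.inl x : H' ⊕ (Fin n × Bool)) = z at h
    induction h generalizing x with
    | refl z => exact ⟨x, hz.symm, Run.refl x⟩
    | step z z' y h1 _ ih =>
      subst hz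
      obtain ⟨z0, -, -, h3⟩ := hM _ _ (hP.M_symm _ _ h1)
      obtain ⟨y0, h4, h5⟩ := ih z0 h3.symm
      refine ⟨y0, h4, Run.step _ z0 _ ?_ h5⟩
      rw [h3] at h1
      exact h1
  have hbd : ∀ h, h ∈ bd G A ↔ Sum.inl h ∈ Arc.bdx (yg G ι p) (hb V n)
      (im n (Z.disjSum (dts G B))) := by
    intro h
    rw [mem_bdx' hp hA]
    constructor
    · exact fun h1 => ⟨h, h1, rfl⟩
    · rintro ⟨g, h1, h2⟩
      cases h2
      exact h1
  have hbd' : ∀ h, h ∈ bd G' A' ↔ Sum.inl h ∈ Arc.bdx (yg G' ι' p') (hb V' n)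
      (im n (Z'.disjSum (dts G' B'))) := by
    intro h
    rw [mem_bdx' hp' hA']
    constructor
    · exact fun h1 => ⟨h, h1, rfl⟩
    · rintro ⟨g, h1, h2⟩
      cases h2
      exact h1
  have hβ : ∀ h ∈ bd G A, β (Sum.inl h) = Sum.inl (Seg21.pr H' n (β (Sum.inl h))) := by
    intro h hh
    have h1 := hP.β_bij.mapsTo (Finset.mem_coe.2 ((hbd h).1 hh))
    rw [Finset.mem_coe, mem_bdx' hp' hA'] at h1
    obtain ⟨g, -, h2⟩ := h1
    rw [← h2]
    rfl
  -- the words at one arc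
  have hword : ∀ j, ((G'.rot (p' j).1).filter (fun h => decide (ι' h = (p' j).2))).filter
      (fun b => decide (Ker G A φ0 b)) =
      ((G.rot (p j).1).filter (fun h => decide (ι h = (p j).2))).map φ0 := by
    intro j
    have h1 := hP.rot_eq (Sum.inr j) (Or.inl (isHub_inr j))
    rw [hfj, Arc.Union6.filter_wd, Arc.Union6.map_wd, if_neg (not_cpl hp' j _),
      if_neg (not_cpl hp j _), List.singleton_append, List.singleton_append] at h1
    have h2 := Arc.Union6.strip h1
    rw [lst_hub hp' hA'.disj, lst_hub hp hA.disj, List.filter_map, List.map_map] at h2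
    have h3 : ((G.rot (p j).1).filter (fun h => decide (ι h = (p j).2))).map (φ ∘ Sum.inl) =
        (((G.rot (p j).1).filter (fun h => decide (ι h = (p j).2))).map φ0).map Sum.inl := by
      rw [List.map_map]
      refine List.map_congr_left fun h hh => ?_
      rw [List.mem_filter, G.mem_rot] at hh
      exact (hφ h hh.1.1 (hBA _ (by rw [hh.1.2]; exact hp.mem j))).1
    rw [h3] at h2
    have h4 := List.map_injective_iff.2 Sum.inl_injective h2
    rw [← h4]
    refine List.filter_congr fun b _ => ?_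
    rw [decide_eq_decide.2 (hKer b)]
    rfl
  have hncl : ∀ j, Arc.NCL M0 (((G'.rot (p' j).1).filter (fun h => decide (ι' h = (p' j).2))).filter
      (fun b => decide (Ker G A φ0 b ∨ ∃ c, M0 b c))) := by
    intro j
    have h1 := hP.nc (Sum.inr j) (Or.inl (isHub_inr j))
    rw [Arc.Union6.filter_wd, if_neg (not_cpl hp' j _), List.singleton_append] at h1
    have h2 := Arc.NC22.fromNC h1 _ (List.IsRotated.refl _)
    rw [lst_hub hp' hA'.disj, List.filter_map] at h2
    have h3 : ∀ b : H', (Arc.Kx (yg G ι p) (hb V n) (im n (Z.disjSum (dts G B))) φ (Sum.inl b) ∨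
        ∃ c, M (Sum.inl b) c) ↔ (Ker G A φ0 b ∨ ∃ c, M0 b c) := by
      intro b
      rw [hKer]
      refine or_congr Iff.rfl ⟨?_, ?_⟩
      · rintro ⟨c, hc⟩
        obtain ⟨c0, -, -, h4⟩ := hM _ _ (hP.M_symm _ _ hc)
        exact ⟨c0, by rw [h4] at hc; exact hc⟩
      · rintro ⟨c, hc⟩
        exact ⟨_, hc⟩
    have h5 : ∀ l : List H', Arc.NCL M (l.map Sum.inl) → Arc.NCL M0 l := by
      intro l hl
      generalize hz : l.map (Sum.inl : H' → H' ⊕ (Fin n × Bool)) = z at hl
      induction hl generalizing l with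
      | done z h6 =>
        subst hz
        refine Arc.NCL.done _ fun b hb c hc => ?_
        exact h6 (Sum.inl b) (List.mem_map_of_mem hb) (Sum.inl c) hc
      | pair l₁ b c l₂ hbc _ ih =>
        obtain ⟨m₁, m₂, rfl, h6, h7⟩ := List.map_eq_append_iff.1 hz
        obtain ⟨b0, m₃, rfl, h8, h9⟩ := List.map_eq_cons_iff.1 h7
        obtain ⟨c0, m₄, rfl, h10, h11⟩ := List.map_eq_cons_iff.1 h9
        subst h8 h10
        refine Arc.NCL.pair _ _ _ _ hbc (ih _ ?_)
        rw [List.map_append, h6, h11]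
    have h6 := h5 _ h2
    refine (congrArg (Arc.NCL M0) ?_).mp h6
    refine List.filter_congr fun b _ => ?_
    rw [← decide_eq_decide.2 (h3 b)]
    rfl
  have hbase : ∀ h ∈ G.darts, G.base h ∈ A → G'.base (φ0 h) = f0 (G.base h) := by
    intro h h1 h2
    have h3 : yb G' ι' p' (φ (Sum.inl h)) = f (yb G ι p (Sum.inl h)) :=
      hP.φ_base (Sum.inl h) (hd h h1) ((inn_all hp hA h1).2 h2)
    rw [(hφ h h1 h2).1] at h3
    rcases (hA.mem _).1 h2 with h4 | h4
    · have hh : h ∈ dts G B := mem_dts.2 ⟨h1, h4⟩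
      obtain ⟨j, hj, hj'⟩ := hdA (G.base h) (ι h) h4 (hι.lt h hh)
      have h5 : jj G ι p h = some j := (jj_hub hp).2 (by rw [hj]; exact ⟨rfl, rfl⟩)
      rw [yb_inl_inr.2 h5, hfj] at h3
      have h6 := (jj_hub hp').1 (yb_inl_inr.1 h3)
      rw [h6.1, hj']
    · rw [yb_inl_inl.2 ⟨rfl, jj_out hp (hA.disj _ h4)⟩, (hfZ _ h4).1] at h3
      exact (yb_inl_inl.1 h3).1
  have hcplZ : ∀ z ∈ Z, Arc.cpl (yg G ι p) (hb V n) (im n (Z.disjSum (dts G B)))
      (Sum.inl z) := fun z hz => Arc.cpl_of_mem (not_isHub z) (hZX z hz)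
  have hcplZ' : ∀ z ∈ Z', Arc.cpl (yg G' ι' p') (hb V' n) (im n (Z'.disjSum (dts G' B')))
      (Sum.inl z) := fun z hz => Arc.cpl_of_mem (not_isHub z) (hZX' z hz)
  refine ⟨fun h => Seg21.pr H' n (β (Sum.inl h)), f0, φ0, M0, ?_⟩
  constructor
  · intro v hv
    rcases (hA.mem v).1 hv with h1 | h1
    · exact hBA' _ (hfB v h1)
    · exact hZA' _ (hfZ v h1).2
  · intro v hv
    rcases (hA.mem v).1 hv with h1 | h1
    · obtain ⟨j, h2, h3⟩ := hdA v 0 h1 hS
      have h4 := hP.f_rel (Sum.inr j) (Or.inl (isHub_inr j))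
      rw [hfj] at h4
      have h5 := hr j h4
      rw [h2, h3] at h5
      exact h5
    · have h2 := hP.f_rel (Sum.inl v) (Or.inr (hZX v h1))
      rw [(hfZ v h1).1] at h2
      exact hr' _ _ h2
  · intro v hv w hw hvw
    rcases (hA.mem v).1 (Finset.mem_coe.1 hv) with h1 | h1 <;>
      rcases (hA.mem w).1 (Finset.mem_coe.1 hw) with h2 | h2
    · obtain ⟨i, rfl⟩ := (hB v).1 h1
      obtain ⟨j, rfl⟩ := (hB w).1 h2
      rw [hfa, hfa] at hvw
      rw [ha' hvw]
    · have h3 := hfB v h1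
      rw [hvw] at h3
      exact absurd h3 (hA'.disj _ (hfZ w h2).2)
    · have h3 := hfB w h2
      rw [← hvw] at h3
      exact absurd h3 (hA'.disj _ (hfZ v h1).2)
    · have h3 := hP.f_inj (Sum.inl v) (Sum.inl w) (hZX v h1) (hZX w h2)
        (by rw [(hfZ v h1).1, (hfZ w h2).1, hvw])
      exact Sum.inl.inj h3
  · exact fun x y h => hP.M_symm _ _ h
  · exact fun x y z h h' => Sum.inl.inj (hP.M_fun _ _ _ h h')
  · intro x y h
    obtain ⟨x0, h1, -, h2⟩ := hM _ _ h
    cases h2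
    exact h1
  · intro x y h
    obtain ⟨x0, h1, h1', h2⟩ := hM _ _ h
    obtain ⟨y0, h3, h3', h4⟩ := hM _ _ (hP.M_symm _ _ h)
    cases h2
    cases h4
    exact ⟨h1', base_eq (hP.M_base _ _ h)⟩
  · intro x y h h1
    exact hP.M_ker _ _ h ((hKer x).1 h1)
  · intro h h1 h2
    exact (hφ h h1 h2).2.1
  · exact hbase
  · intro h h1 g g1 h2 g2 hhg
    have h3 := hP.φ_inj (Sum.inl h) (hd h h1) (Sum.inl g) (hd g g1)
      ((inn_all hp hA h1).2 h2) ((inn_all hp hA g1).2 g2)
      (by rw [(hφ h h1 h2).1, (hφ g g1 g2).1, hhg])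
    exact Sum.inl.inj h3
  · intro v hv
    rcases (hA.mem v).1 hv with hv0 | hv0
    · have hv' : f0 v ∈ B' := hfB v hv0
      have key : ∀ s ≤ S, ((G'.rot (f0 v)).filter (fun h => decide (ι' h < s))).filter
          (fun b => decide (Ker G A φ0 b)) =
            ((G.rot v).filter (fun h => decide (ι h < s))).map φ0 := by
        intro s
        induction s with
        | zero =>
          intro _
          simp
        | succ s ih =>
          intro hs
          obtain ⟨j, hj, hj'⟩ := hdA v s hv0 (by omega)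
          have h1 := hword j
          rw [hj, hj'] at h1
          rw [Seg21.filter_succ ι' s _ (Seg21.rot_pairwise hι' hv'),
            Seg21.filter_succ ι s _ (Seg21.rot_pairwise hι hv0),
            List.filter_append, List.map_append, ih (by omega), h1]
      have h1 := key S le_rfl
      have h2 : (G'.rot (f0 v)).filter (fun h => decide (ι' h < S)) = G'.rot (f0 v) := by
        rw [List.filter_eq_self]
        intro h hh
        rw [G'.mem_rot] at hh
        simpa using hι'.lt h (Finset.mem_filter.2 ⟨hh.1, by rw [hh.2]; exact hv'⟩)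
      have h3 : (G.rot v).filter (fun h => decide (ι h < S)) = G.rot v := by
        rw [List.filter_eq_self]
        intro h hh
        rw [G.mem_rot] at hh
        simpa using hι.lt h (Finset.mem_filter.2 ⟨hh.1, by rw [hh.2]; exact hv0⟩)
      rw [h2, h3] at h1
      rw [h1]
    · have h1 := hP.rot_eq (Sum.inl v) (Or.inr (hZX v hv0))
      obtain ⟨h2, h3⟩ := hfZ v hv0
      rw [h2, Arc.wd_of_cpl (hcplZ' _ h3), Arc.wd_of_cpl (hcplZ v hv0),
        rot_out hp' (hA'.disj _ h3), rot_out hp (hA.disj v hv0), Arc.Final21.filter_some,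
        List.filter_map, List.map_map, List.map_map] at h1
      have h4 := h1.map (fun o : Option (H' ⊕ (Fin n × Bool)) =>
        o.elim (Classical.arbitrary H') (Seg21.pr H' n))
      rw [List.map_map, List.map_map] at h4
      have h5 : ((G'.rot (f0 v)).filter ((fun a => decide (Arc.Kx (yg G ι p) (hb V n)
          (im n (Z.disjSum (dts G B))) φ a)) ∘ Sum.inl)).map
          ((fun o : Option (H' ⊕ (Fin n × Bool)) =>
            o.elim (Classical.arbitrary H') (Seg21.pr H' n)) ∘ some ∘ Sum.inl) =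
          (G'.rot (f0 v)).filter (fun a => decide (Ker G A φ0 a)) := by
        refine (List.map_id _).trans ?_
        refine List.filter_congr fun b _ => ?_
        rw [decide_eq_decide.2 (hKer b)]
        rfl
      rw [h5] at h4
      refine h4.trans ?_
      refine (congrArg (fun l => l ~r _) ?_).mpr (List.IsRotated.refl _)
      rw [List.map_map]
      rfl
  · intro x hx
    rcases (hA'.mem x).1 hx with hx0 | hx0
    · have key : ∀ s ≤ S, Arc.NCL M0 (((G'.rot x).filter (fun h => decide (ι' h < s))).filter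
          (fun b => decide (Ker G A φ0 b ∨ ∃ c, M0 b c))) := by
        intro s
        induction s with
        | zero =>
          intro _
          simp only [Nat.not_lt_zero, decide_false, List.filter_false, List.filter_nil]
          exact Arc.NCL.done _ fun b hb => by cases hb
        | succ s ih =>
          intro hs
          obtain ⟨j, hj⟩ := hdA' x s hx0 (by omega)
          have h1 := hncl j
          rw [hj] at h1
          rw [Seg21.filter_succ ι' s _ (Seg21.rot_pairwise hι' hx0), List.filter_append]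
          exact Arc.NC22.append (ih (by omega)) h1
      have h1 := key S le_rfl
      have h2 : (G'.rot x).filter (fun h => decide (ι' h < S)) = G'.rot x := by
        rw [List.filter_eq_self]
        intro h hh
        rw [G'.mem_rot] at hh
        simpa using hι'.lt h (Finset.mem_filter.2 ⟨hh.1, by rw [hh.2]; exact hx0⟩)
      rw [h2] at h1
      have h3 : ∀ l : List H', Arc.NCL M0 l → NC M0 l := by
        intro l hl
        induction hl with
        | done l hl => exact NC.done _ hl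
        | pair l₁ b c l₂ hbc _ ih =>
          refine NC.pair _ b c (l₂ ++ l₁) ?_ hbc (ih.of_isRotated List.isRotated_append)
          exact List.isRotated_append
      exact h3 _ h1
    · have h1 := hP.nc (Sum.inl x) (Or.inr (hZX' x hx0))
      rw [Arc.wd_of_cpl (hcplZ' x hx0), rot_out hp' (hA'.disj x hx0),
        Arc.Final21.filter_some, List.filter_map] at h1
      have h2 := Arc.Final21.nc_strip (Sum.inl (Classical.arbitrary H')) h1
      have h3 := h2.map (M' := M0) (φ := Seg21.pr H' n) (by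
        intro a b hab
        obtain ⟨a0, -, -, rfl⟩ := hM _ _ hab
        obtain ⟨b0, -, -, rfl⟩ := hM _ _ (hP.M_symm _ _ hab)
        exact hab) (by
        intro a ha c hc
        obtain ⟨a0, -, rfl⟩ := List.mem_map.1 ha
        exact ⟨Sum.inl c, hc⟩)
      rw [List.map_map] at h3
      refine (congrArg (NC M0) ?_).mp h3
      refine (List.map_id _).trans ?_
      refine List.filter_congr fun b _ => ?_
      have h4 : (Arc.Kx (yg G ι p) (hb V n) (im n (Z.disjSum (dts G B))) φ (Sum.inl b) ∨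
          ∃ c, M (Sum.inl b) c) ↔ (Ker G A φ0 b ∨ ∃ c, M0 b c) := by
        rw [hKer]
        refine or_congr Iff.rfl ⟨?_, ?_⟩
        · rintro ⟨c, hc⟩
          obtain ⟨c0, -, -, h4⟩ := hM _ _ (hP.M_symm _ _ hc)
          exact ⟨c0, by rw [h4] at hc; exact hc⟩
        · rintro ⟨c, hc⟩
          exact ⟨_, hc⟩
      exact decide_eq_decide.2 h4
  · intro h h1 h2 h3
    obtain ⟨y, h4, h5⟩ := hP.run_in (Sum.inl h) (hd h h1) ((inn_all hp hA h1).2 h2)
      ((inn_all hp hA (G.opp_mem h h1)).2 h3)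
    rw [(hφ h h1 h2).1] at h4
    obtain ⟨y0, rfl, h6⟩ := hrun _ _ h4
    refine ⟨y0, h6, ?_⟩
    have h7 : (Sum.inl (G'.opp y0) : H' ⊕ (Fin n × Bool)) = φ (Sum.inl (G.opp h)) := h5
    rw [(hφ _ (G.opp_mem h h1) h3).1] at h7
    exact Sum.inl.inj h7
  · intro h h1
    have h1' := h1
    unfold bd at h1'
    rw [Finset.mem_filter] at h1'
    have h2 := hP.run_out (Sum.inl h) ((hbd h).1 h1)
    rw [(hφ h h1'.1 h1'.2.1).1] at h2
    obtain ⟨y0, h3, h4⟩ := hrun _ _ h2
    have h5 : Seg21.pr H' n (β (Sum.inl h)) = y0 := by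
      rw [h3]
      rfl
    rw [h5]
    exact h4
  · refine ⟨?_, ?_, ?_⟩
    · intro h h1
      have h1' := Finset.mem_coe.1 h1
      have h2 := hP.β_bij.mapsTo (Finset.mem_coe.2 ((hbd h).1 h1'))
      rw [hβ h h1'] at h2
      exact Finset.mem_coe.2 ((hbd' _).2 (Finset.mem_coe.1 h2))
    · intro h h1 g g1 hhg
      have h1' := Finset.mem_coe.1 h1
      have g1' := Finset.mem_coe.1 g1
      refine Sum.inl.inj (hP.β_bij.injOn (Finset.mem_coe.2 ((hbd h).1 h1'))
        (Finset.mem_coe.2 ((hbd g).1 g1')) ?_)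
      rw [hβ h h1', hβ g g1']
      exact congrArg Sum.inl hhg
    · intro b hb1
      obtain ⟨z, h1, h2⟩ := hP.β_bij.surjOn (Finset.mem_coe.2 ((hbd' b).1 (Finset.mem_coe.1 hb1)))
      have h3 := h1
      rw [Finset.mem_coe, mem_bdx' hp hA] at h3
      obtain ⟨h, h4, rfl⟩ := h3
      refine ⟨h, Finset.mem_coe.2 h4, ?_⟩
      beta_reduce
      rw [h2]
      rfl

end back

/-- (Z3) -/
theorem segZ21 (hX : StArcX.{u, v, w}) : StSegZ.{u, v, w} := by
  intro k d s w Q q _ hq V H _ _ G K lab A Z P ι hA hZA hPZ hk hT hK hcut ht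
  have hSk : ∀ i, Sk (G i) (K i) (A i \ Z i) (Z i) := fun i => sk_of (hT i) (hK i)
  have hU := fun i => exists_uc (hSk i) (hcut i) (ht i)
  choose ι' hcut' ht' using hU
  have hprt : ∀ i, Prt (A i) (A i \ Z i) (Z i) := fun i =>
    ⟨fun z hz h => (Finset.mem_sdiff.1 h).2 hz, fun v => by
      rw [Finset.mem_sdiff]
      constructor
      · intro hv
        by_cases h : v ∈ Z i
        · exact Or.inr h
        · exact Or.inl ⟨hv, h⟩
      · rintro (h | h)
        · exact h.1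
        · exact hZA i h⟩
  -- a subsequence
  have hwq : WellQuasiOrdered (fun a b : Fin (k + 1) × Bool => a = b) :=
    Finite.wellQuasiOrdered _
  obtain ⟨g, hg⟩ := hwq.exists_monotone_subseq (fun i =>
    ((⟨(A i \ Z i).card, Nat.lt_succ_of_le (hk i)⟩ : Fin (k + 1)),
      decide ((Z i).disjSum (dts (G i) (A i \ Z i)) = ∅)))
  have hcard : ∀ i, (A (g i) \ Z (g i)).card = (A (g 0) \ Z (g 0)).card := by
    intro i
    have h1 := congrArg (fun x => (x.1 : ℕ)) (hg 0 i (Nat.zero_le i))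
    exact h1.symm
  have hemp : ∀ i, (Z (g i)).disjSum (dts (G (g i)) (A (g i) \ Z (g i))) = ∅ ↔
      (Z (g 0)).disjSum (dts (G (g 0)) (A (g 0) \ Z (g 0))) = ∅ := by
    intro i
    have h1 := congrArg (fun x => x.2) (hg 0 i (Nat.zero_le i))
    exact (decide_eq_decide.1 h1).symm
  set k' := (A (g 0) \ Z (g 0)).card with hk'
  -- enumerations
  set a : ∀ i, Fin k' → V (g i) := fun i j =>
    ((Finset.equivFinOfCardEq (hcard i)).symm j : V (g i)) with ha
  have hinj : ∀ i, Function.Injective (a i) := by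
    intro i x y hxy
    exact (Finset.equivFinOfCardEq (hcard i)).symm.injective (Subtype.ext hxy)
  have hmemB : ∀ i v, v ∈ A (g i) \ Z (g i) ↔ ∃ j, a i j = v := by
    intro i v
    constructor
    · intro hv
      refine ⟨Finset.equivFinOfCardEq (hcard i) ⟨v, hv⟩, ?_⟩
      simp only [ha, Equiv.symm_apply_apply]
    · rintro ⟨j, rfl⟩
      exact ((Finset.equivFinOfCardEq (hcard i)).symm j).2
  by_cases h0 : (Z (g 0)).disjSum (dts (G (g 0)) (A (g 0) \ Z (g 0))) = ∅
  · -- no units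
    have h1 : ∀ i, Z (g i) = ∅ ∧ dts (G (g i)) (A (g i) \ Z (g i)) = ∅ := fun i =>
      Finset.disjSum_eq_empty.1 ((hemp i).2 h0)
    have h2 : ∀ i, A (g i) \ Z (g i) = A (g i) := fun i => by
      rw [(h1 i).1, Finset.sdiff_empty]
    have h3 : ∀ i, dts (G (g i)) (A (g i)) = ∅ := fun i => by
      have := (h1 i).2
      rwa [h2 i] at this
    have h4 : ∀ i v, v ∈ A (g i) ↔ ∃ j, a i j = v := fun i v => by
      rw [← hmemB i v, h2 i]
    obtain ⟨m, l, hml, h5⟩ := Arc.Main22.wqo_pi hq k' (fun i => fun j => lab (g i) (a i j))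
    obtain ⟨β, hβ⟩ := Seg21.back0 (a m) (a l) (hinj m) (hinj l) (h4 m) (h4 l) (h3 m) (h3 l)
      (fun x y => q (lab (g m) x) (lab (g l) y)) h5
    exact ⟨g m, g l, g.strictMono hml, β, hβ⟩
  · set n := k' * (s + 1) with hn
    set e : Fin n ≃ Fin k' × Fin (s + 1) := finProdFinEquiv.symm with he
    set p : ∀ i, Fin n → V (g i) × ℕ := fun i j => (a i (e j).1, ((e j).2 : ℕ)) with hp
    have hnum : ∀ i, Num (G (g i)) (A (g i) \ Z (g i)) (ι' (g i)) (p i) := by
      intro i
      refine ⟨?_, ?_, ?_⟩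
      · intro x y hxy
        simp only [hp, Prod.mk.injEq] at hxy
        exact e.injective (Prod.ext (hinj i hxy.1) (Fin.ext hxy.2))
      · intro j
        exact (hmemB i _).2 ⟨_, rfl⟩
      · intro h hh
        obtain ⟨l, hl⟩ := (hmemB i _).1 (mem_dts.1 hh).2
        refine ⟨e.symm (l, ⟨ι' (g i) h, (hcut' (g i)).lt h hh⟩), ?_⟩
        simp only [hp, Equiv.apply_symm_apply]
        rw [hl]
    have ht0 : ∀ i, ∃ t, IsUC (w + 2 * w + 3) (G (g i)) (A (g i) \ Z (g i)) (Z (g i))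
        (ι' (g i)) t := by
      intro i
      rcases ht' (g i) with h1 | h1
      · exact absurd ((hemp i).1 h1) h0
      · exact h1
    choose t ht using ht0
    set lab' : ∀ i, V (g i) ⊕ Fin n → Q := fun i =>
      Sum.elim (lab (g i)) (fun j => lab (g i) (p i j).1) with hlab'
    obtain ⟨m, l, hml, β, f, φ, M, hP⟩ := hX (max d (w + 2 * w + 3)) n Q q hq
      (fun i => V (g i) ⊕ Fin n) (fun i => H (g i) ⊕ (Fin n × Bool))
      (fun i => yg (G (g i)) (ι' (g i)) (p i)) lab'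
      (fun i => hb (V (g i)) n) (fun i => Seg21.tmap (e1 (V (g i)) (H (g i)) n) (t i))
      (fun i => hb_inj)
      (fun i j => Finset.inr_mem_disjSum.2 (Finset.mem_univ _))
      (fun i => by
        rw [Seg21.tmap_leaves]
        exact (ht i).nodup.map e1_inj)
      (fun i => by
        intro x hx
        rw [tmap_im, mem_im, (ht i).set] at hx
        obtain ⟨y, hy, rfl⟩ := hx
        rcases y with z | h
        · rw [Finset.inl_mem_disjSum] at hy
          show Sum.inl (Sum.inl z) ∈ _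
          rw [Arc.inl_mem_units]
          exact ⟨Finset.inl_mem_disjSum.2 (hA _ (hZA _ hy)), not_isHub z⟩
        · rw [Finset.inr_mem_disjSum] at hy
          show Sum.inr (Sum.inl h) ∈ _
          rw [Arc.inr_mem_units]
          refine ⟨Finset.inl_mem_disjSum.2 (mem_dts.1 hy).1, ?_⟩
          obtain ⟨j, hj⟩ := jj_in (hnum i) hy
          have h1 : (yg (G (g i)) (ι' (g i)) (p i)).base (Sum.inl h) = Sum.inr j :=
            yb_inl_inr.2 hj
          rw [h1]
          exact isHub_inr j)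
      (fun i v hv => by
        rw [tmap_im, inl_mem_im, (ht i).set] at hv
        obtain ⟨z, rfl, hz⟩ := hv
        rw [Finset.inl_mem_disjSum] at hz
        rw [rot_out (hnum i) ((hprt (g i)).disj z hz), List.length_map]
        exact (hT (g i) z hz).1.trans (le_max_left _ _))
      (fun i t' ht1 => by
        obtain ⟨t₀, h1, rfl⟩ := Seg21.isSub_tmap _ ht1
        have h4 : t₀.set ⊆ (Z (g i)).disjSum (dts (G (g i)) (A (g i) \ Z (g i))) := by
          have := TL.sub_set h1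
          rwa [(ht i).set] at this
        rw [tmap_im]
        exact ⟨cv (hnum i) ((ht i).cv t₀ h1), ((ecut_le (hnum i) (hprt (g i)).disj h4).trans
          ((ht i).cut t₀ h1)).trans (le_max_right _ _)⟩)
    rw [tmap_im, tmap_im, (ht m).set, (ht l).set] at hP
    obtain ⟨β', hβ'⟩ := back (Nat.succ_pos s) (a m) (a l) (hinj m) (hinj l) (hmemB m) (hmemB l)
      (hprt (g m)) (hprt (g l)) e (hnum m) (hnum l) (fun _ => rfl) (fun _ => rfl)
      (hcut' (g m)) (hcut' (g l)) (fun x y => q (lab (g m) x) (lab (g l) y)) _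
      (fun _ h => h) (fun _ _ h => h) hP
    exact ⟨g m, g l, g.strictMono hml, β', hβ'⟩

end RotWqo.Tc.SegZ21
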