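import Pool.Agent.Lib.MP_cb4a0f_co.Tc.Stmts

/-!
# MP_cb4a0f_co: the skeleton of a piece with atoms
-/

open Classical

namespace RotWqo.Tc.Skel18

open RotWqo.Bag RotWqo.Hk RotWqo.Tc

universe u v w

variable {V : Type u} {H : Type v}

/-- The condition for suppressing. -/
def Sup (G : RotGraph V H) (Z : Finset V) (h g : H) : Prop :=
  g ≠ G.opp h ∧ nl G (G.base (G.opp h)) = {G.opp h, g} ∧ G.base (G.opp g) ∉ Z

theorem mem_nl {G : RotGraph V H} {z : V} {h : H} :
    h ∈ nl G z ↔ h ∈ G.darts ∧ G.base h = z ∧ G.base (G.opp h) ≠ z := by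
  simp [nl]

/-- The two cases for the new other half. -/
theorem skOpp_cases (G : RotGraph V H) (Z : Finset V) (h : H) (hk : Keep G Z h) :
    (G.base (G.opp h) ∉ Z ∧ skOpp G Z h = G.opp h) ∨
      (G.base (G.opp h) ∈ Z ∧ ∃ g, Sup G Z h g ∧ skOpp G Z h = G.opp g) := by
  by_cases h1 : G.base (G.opp h) ∈ Z
  · right
    obtain ⟨-, -, h2 | h2⟩ := hk
    · exact absurd h1 h2
    · refine ⟨h1, h2.choose, h2.choose_spec, ?_⟩
      unfold skOpp
      rw [dif_pos ⟨h1, h2⟩]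
  · left
    refine ⟨h1, ?_⟩
    unfold skOpp
    rw [dif_neg fun h2 => h1 h2.1]

theorem skOpp_of_notMem (G : RotGraph V H) (Z : Finset V) (h : H) (h1 : G.base (G.opp h) ∉ Z) :
    skOpp G Z h = G.opp h := by
  unfold skOpp
  rw [dif_neg fun h2 => h1 h2.1]

theorem skOpp_of_sup (G : RotGraph V H) (Z : Finset V) (h g : H) (h1 : G.base (G.opp h) ∈ Z)
    (hs : Sup G Z h g) : skOpp G Z h = G.opp g := by
  have h2 : ∃ g, g ≠ G.opp h ∧ nl G (G.base (G.opp h)) = {G.opp h, g} ∧ G.base (G.opp g) ∉ Z :=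
    ⟨g, hs⟩
  unfold skOpp
  rw [dif_pos ⟨h1, h2⟩]
  congr 1
  have h3 := h2.choose_spec
  generalize h2.choose = g' at h3
  have h4 : g' ∈ nl G (G.base (G.opp h)) := by
    rw [h3.2.1]; simp
  rw [hs.2.1] at h4
  simp only [Finset.mem_insert, Finset.mem_singleton] at h4
  exact h4.resolve_left h3.1

theorem sup_base {G : RotGraph V H} {Z : Finset V} {h g : H} (hs : Sup G Z h g) :
    g ∈ G.darts ∧ G.base g = G.base (G.opp h) := by
  have h1 : g ∈ nl G (G.base (G.opp h)) := by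
    rw [hs.2.1]; simp
  exact ⟨(mem_nl.1 h1).1, (mem_nl.1 h1).2.1⟩

/-- Going back. -/
theorem sup_back {G : RotGraph V H} {Z : Finset V} {h g : H} (hh : h ∈ G.darts)
    (hb : G.base h ∉ Z) (hs : Sup G Z h g) : Sup G Z (G.opp g) (G.opp h) := by
  obtain ⟨h1, h2⟩ := sup_base hs
  refine ⟨?_, ?_, ?_⟩
  · rw [G.opp_opp g h1]
    exact hs.1.symm
  · rw [G.opp_opp g h1, h2, hs.2.1, Finset.pair_comm]
  · rw [G.opp_opp h hh]
    exact hb

theorem keep_skOpp {G : RotGraph V H} {Z : Finset V} {h : H} (hk : Keep G Z h) :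
    Keep G Z (skOpp G Z h) := by
  rcases skOpp_cases G Z h hk with ⟨h1, h2⟩ | ⟨h1, g, h2, h3⟩
  · rw [h2]
    refine ⟨G.opp_mem h hk.1, h1, Or.inl ?_⟩
    rw [G.opp_opp h hk.1]
    exact hk.2.1
  · rw [h3]
    obtain ⟨h4, h5⟩ := sup_base h2
    exact ⟨G.opp_mem g h4, h2.2.2, Or.inr ⟨G.opp h, sup_back hk.1 hk.2.1 h2⟩⟩

theorem skOpp_skOpp {G : RotGraph V H} {Z : Finset V} {h : H} (hk : Keep G Z h) :
    skOpp G Z (skOpp G Z h) = h := by
  rcases skOpp_cases G Z h hk with ⟨h1, h2⟩ | ⟨h1, g, h2, h3⟩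
  · rw [h2, skOpp_of_notMem, G.opp_opp h hk.1]
    rw [G.opp_opp h hk.1]
    exact hk.2.1
  · obtain ⟨h4, h5⟩ := sup_base h2
    rw [h3, skOpp_of_sup G Z (G.opp g) (G.opp h) _ (sup_back hk.1 hk.2.1 h2), G.opp_opp h hk.1]
    rw [G.opp_opp g h4, h5]
    exact h1

theorem skOpp_ne {G : RotGraph V H} {Z : Finset V} {h : H} (hk : Keep G Z h) :
    skOpp G Z h ≠ h := by
  rcases skOpp_cases G Z h hk with ⟨h1, h2⟩ | ⟨h1, g, h2, h3⟩
  · rw [h2]
    exact G.opp_ne h hk.1
  · obtain ⟨h4, h5⟩ := sup_base h2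
    rw [h3]
    intro h6
    apply h2.1
    rw [← h6, G.opp_opp g h4]

/-- The skeleton. -/
noncomputable def skel (G : RotGraph V H) (Z : Finset V) : RotGraph V H where
  verts := G.verts
  darts := G.darts.filter (fun h => Keep G Z h)
  base := G.base
  opp := skOpp G Z
  rot v := (G.rot v).filter (fun h => decide (Keep G Z h))
  base_mem h hh := G.base_mem h (Finset.mem_filter.1 hh).1
  opp_mem h hh := by
    have h1 := keep_skOpp (Finset.mem_filter.1 hh).2
    exact Finset.mem_filter.2 ⟨h1.1, h1⟩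
  opp_opp h hh := skOpp_skOpp (Finset.mem_filter.1 hh).2
  opp_ne h hh := skOpp_ne (Finset.mem_filter.1 hh).2
  nodup v := (G.nodup v).filter _
  mem_rot v h := by
    rw [List.mem_filter, G.mem_rot, Finset.mem_filter]
    simp only [decide_eq_true_eq]
    tauto

theorem isSk_skel (G : RotGraph V H) (Z : Finset V) : IsSk G Z (skel G Z) := by
  refine ⟨rfl, fun h => ?_, rfl, fun h _ => rfl, fun v => rfl⟩
  simp only [skel, Finset.mem_filter, and_iff_right_iff_imp]
  exact fun hk => hk.1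

/-- (Z2a) -/
theorem skex_18 : StSkEx.{u, v} := fun _ _ G _ Z _ _ _ _ => ⟨skel G Z, isSk_skel G Z⟩

/-- The boundary is unchanged. -/
theorem bd_eq {G K : RotGraph V H} {A Z : Finset V} {d : ℕ} (hZ : Z ⊆ A) (hT : Thin d G A Z)
    (hK : IsSk G Z K) : bd K (A \ Z) = bd G A := by
  ext h
  rw [mem_bd, mem_bd, hK.darts, hK.base]
  constructor
  · rintro ⟨h1, h2, h3⟩
    rw [hK.opp h ((hK.darts h).2 h1)] at h3
    refine ⟨h1.1, (Finset.mem_sdiff.1 h2).1, ?_⟩
    rcases skOpp_cases G Z h h1 with ⟨h4, h5⟩ | ⟨h4, g, h5, h6⟩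
    · rw [h5] at h3
      intro h6
      exact h3 (Finset.mem_sdiff.2 ⟨h6, h4⟩)
    · exfalso
      rw [h6] at h3
      apply h3
      have h7 : g ∈ nl G (G.base (G.opp h)) := by
        rw [h5.2.1]; simp
      exact (hT _ h4).2.2 g h7
  · rintro ⟨h1, h2, h3⟩
    have h4 : G.base (G.opp h) ∉ Z := fun h5 => h3 (hZ h5)
    have h5 : G.base h ∉ Z := by
      intro h5
      have h6 : h ∈ nl G (G.base h) := by
        rw [mem_nl]
        refine ⟨h1, rfl, fun h7 => ?_⟩
        rw [h7] at h3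
        exact h3 h2
      exact h3 (Finset.mem_sdiff.1 ((hT _ h5).2.2 h h6)).1
    have h6 : Keep G Z h := ⟨h1, h5, Or.inl h4⟩
    refine ⟨h6, Finset.mem_sdiff.2 ⟨h2, h5⟩, ?_⟩
    rw [hK.opp h ((hK.darts h).2 h6), skOpp_of_notMem G Z h h4]
    exact fun h7 => h3 (Finset.mem_sdiff.1 h7).1

/-- The two half-edges at a suppressed atom. -/
def MM (G : RotGraph V H) (Z : Finset V) (a b : H) : Prop :=
  ∃ z ∈ Z, a ≠ b ∧ nl G z = {a, b}

theorem mm_left {G : RotGraph V H} {Z : Finset V} {a b : H} (h : MM G Z a b) :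
    a ∈ G.darts ∧ G.base a ∈ Z ∧ a ≠ b ∧ nl G (G.base a) = {a, b} := by
  obtain ⟨z, h1, h2, h3⟩ := h
  have h4 : a ∈ nl G z := by rw [h3]; simp
  obtain ⟨h5, h6, -⟩ := mem_nl.1 h4
  rw [h6]
  exact ⟨h5, h1, h2, h3⟩

theorem mm_symm {G : RotGraph V H} {Z : Finset V} {a b : H} (h : MM G Z a b) : MM G Z b a := by
  obtain ⟨z, h1, h2, h3⟩ := h
  exact ⟨z, h1, h2.symm, by rw [h3, Finset.pair_comm]⟩

/-- (Z2b) -/
theorem skpe_18 : StSkPE.{u, v} := by
  intro V H G K A Z d hA hZ hT hK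
  have hbd := bd_eq hZ hT hK
  refine ⟨⟨id, id, MM G Z, ?_⟩, by rw [cut, cut, hbd]⟩
  have hKer : ∀ a, Ker K (A \ Z) id a ↔ Keep G Z a ∧ G.base a ∈ A \ Z := by
    intro a
    rw [Ker_id, hK.darts, hK.base]
  refine ⟨?_, fun _ _ => rfl, fun _ _ _ _ h => h, fun _ _ h => mm_symm h, ?_, ?_, ?_, ?_, ?_, ?_,
    fun _ _ _ _ _ _ h => h, ?_, ?_, ?_, fun _ _ => .refl _, ?_⟩
  · intro v hv
    exact (Finset.mem_sdiff.1 hv).1
  · intro a b c h1 h2
    obtain ⟨-, -, h3, h4⟩ := mm_left h1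
    obtain ⟨-, -, h5, h6⟩ := mm_left h2
    rw [h4] at h6
    have h7 : b ∈ ({a, c} : Finset H) := by rw [← h6]; simp
    simp only [Finset.mem_insert, Finset.mem_singleton] at h7
    exact h7.resolve_left h3.symm
  · intro a b h
    exact (mm_left h).1
  · intro a b h
    obtain ⟨h1, h2, h3, h4⟩ := mm_left h
    refine ⟨hZ h2, ?_⟩
    have h5 : b ∈ nl G (G.base a) := by rw [h4]; simp
    exact (mem_nl.1 h5).2.1
  · intro a b h hk
    rw [hKer] at hk
    exact hk.1.2.1 (mm_left h).2.1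
  · intro h hh _
    exact ((hK.darts h).1 hh).1
  · intro h hh _
    rw [hK.base]
    rfl
  · intro v hv
    rw [hK.rot, List.map_id]
    have h1 : (G.rot (id v)).filter (fun a => decide (Ker K (A \ Z) id a)) =
        (G.rot v).filter (fun h => decide (Keep G Z h)) := by
      refine List.filter_congr fun a ha => ?_
      rw [decide_eq_decide, hKer]
      have h2 := (G.mem_rot _ _).1 ha
      refine ⟨fun h => h.1, fun h => ⟨h, ?_⟩⟩
      rw [h2.2]
      exact hv
    rw [h1]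
  · intro x hx
    set l := (G.rot x).filter (fun a => decide (Ker K (A \ Z) id a ∨ ∃ b, MM G Z a b)) with hl
    have hml : ∀ a, a ∈ l ↔ a ∈ G.rot x ∧ (Ker K (A \ Z) id a ∨ ∃ b, MM G Z a b) := by
      intro a
      rw [hl, List.mem_filter, decide_eq_true_eq]
    by_cases hxM : ∃ a b, MM G Z a b ∧ G.base a = x
    · obtain ⟨a, b, hab, rfl⟩ := hxM
      obtain ⟨h1, h2, h3, h4⟩ := mm_left hab
      have h5 : ∀ c, c ∈ l ↔ c = a ∨ c = b := by
        intro c
        rw [hml]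
        constructor
        · rintro ⟨h6, h7 | ⟨e, h7⟩⟩
          · exfalso
            rw [hKer] at h7
            have h8 := (G.mem_rot _ _).1 h6
            exact h7.1.2.1 (h8.2 ▸ h2)
          · obtain ⟨h8, h9, h10, h11⟩ := mm_left h7
            have h12 := (G.mem_rot _ _).1 h6
            rw [h12.2, h4] at h11
            have : c ∈ ({a, b} : Finset H) := by rw [h11]; simp
            simpa using this
        · rintro (rfl | rfl)
          · exact ⟨(G.mem_rot _ _).2 ⟨h1, rfl⟩, Or.inr ⟨b, hab⟩⟩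
          · have h6 := mm_left (mm_symm hab)
            have h7 : c ∈ nl G (G.base a) := by rw [h4]; simp
            exact ⟨(G.mem_rot _ _).2 ⟨h6.1, (mem_nl.1 h7).2.1⟩, Or.inr ⟨a, mm_symm hab⟩⟩
      have hnd : l.Nodup := (G.nodup _).filter _
      have h6 : l.toFinset = {a, b} := by
        ext c
        simp [h5]
      have h7 : l.length = 2 := by
        rw [← List.toFinset_card_of_nodup hnd, h6, Finset.card_pair h3]
      obtain ⟨c, e, h8⟩ := List.length_eq_two.1 h7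
      have hc : c = a ∨ c = b := (h5 c).1 (by rw [h8]; simp)
      have he : e = a ∨ e = b := (h5 e).1 (by rw [h8]; simp)
      have hce : c ≠ e := by
        rw [h8] at hnd
        simpa using hnd
      have hM : MM G Z c e := by
        rcases hc with rfl | rfl <;> rcases he with rfl | rfl
        · exact absurd rfl hce
        · exact hab
        · exact mm_symm hab
        · exact absurd rfl hce
      rw [h8]
      exact .pair _ c e [] (List.IsRotated.refl _) hM (.done _ (by simp))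
    · refine .done _ fun a ha b hab => hxM ⟨a, b, hab, ?_⟩
      exact ((G.mem_rot _ _).1 ((hml a).1 ha).1).2
  · intro h hh _ _
    have h1 := (hK.darts h).1 hh
    rw [hK.opp h hh]
    rcases skOpp_cases G Z h h1 with ⟨h2, h3⟩ | ⟨h2, g, h3, h4⟩
    · exact ⟨h, .refl _, h3.symm⟩
    · exact ⟨g, .step _ _ _ ⟨_, h2, h3.1.symm, h3.2.1⟩ (.refl _), h4.symm⟩
  · rw [hbd]
    exact Set.bijOn_id _

end RotWqo.Tc.Skel18
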