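import Pool.Agent.Lib.MP_cb4a0f_co.Tc.Defs

/-!
# MP_cb4a0f_co: rotated graphs of bounded tree-cut width, statements of the modules
-/

open Classical

namespace RotWqo.Tc

open RotWqo.Bag RotWqo.Hk

universe u v w

/-! ### Pieces with boundedly many hubs and any number of atoms -/

/-- (Z1) `StUniX` with prescribed boundary map. -/
def StUniB : Prop := ∀ k M c D : ℕ, ∃ N : ℕ, ∀ (V V' : Type u) (H H' : Type v) [Nonempty H']
  (G : RotGraph V H) (A : Finset V) (G' : RotGraph V' H') (A' : Finset V') (ι : H' → ℕ)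
  (r : V → V' → Prop) (f : V → V') (σ : H → H'), A ⊆ G.verts → A' ⊆ G'.verts →
    Set.BijOn f (A : Set V) (A' : Set V') → (∀ v ∈ A, r v (f v)) → A.card ≤ k →
    (dts G A).card ≤ D → Set.BijOn σ (bd G A : Set H) (bd G' A' : Set H') → cut G' A' ≤ c →
    (∀ S, S.Nonempty → S ⊆ A' → S ≠ A' → N ≤ cut G' S) → Cutting G' A' ι M →
    N ≤ nbad G' A' M ι → PE r G A G' A' σ

/-- (Z2a) The skeleton exists. -/
def StSkEx : Prop := ∀ (V : Type u) (H : Type v) (G : RotGraph V H) (A Z : Finset V) (d : ℕ),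
  A ⊆ G.verts → Z ⊆ A → Thin d G A Z → ∃ K : RotGraph V H, IsSk G Z K

/-- (Z2b) The skeleton embeds. -/
def StSkPE : Prop := ∀ (V : Type u) (H : Type v) (G K : RotGraph V H) (A Z : Finset V) (d : ℕ),
  A ⊆ G.verts → Z ⊆ A → Thin d G A Z → IsSk G Z K →
    PE (fun a b => a = b) K (A \ Z) G A id ∧ cut K (A \ Z) = cut G A

/-- (Z3) Pieces whose skeleton (with the atoms in `P` kept) has a segment carving. -/
def StSegZ : Prop := ∀ (k d s w : ℕ) (Q : Type w) (q : Q → Q → Prop) [IsPreorder Q q],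
  WellQuasiOrdered q → ∀ (V : ℕ → Type u) (H : ℕ → Type v) [∀ i, Nonempty (V i)]
    [∀ i, Nonempty (H i)] (G K : ∀ i, RotGraph (V i) (H i)) (lab : ∀ i, V i → Q)
    (A Z P : ∀ i, Finset (V i)) (ι : ∀ i, H i → ℕ), (∀ i, A i ⊆ (G i).verts) →
    (∀ i, Z i ⊆ A i) → (∀ i, P i ⊆ Z i) → (∀ i, (A i \ Z i).card ≤ k) →
    (∀ i, Thin d (G i) (A i) (Z i)) → (∀ i, IsSk (G i) (Z i \ P i) (K i)) →
    (∀ i, Cutting (K i) (A i \ Z i) (ι i) s) →
    (∀ i, dts (K i) (A i \ Z i) = ∅ ∨ ∃ t, IsSegCar w (K i) (A i \ Z i) (ι i) t) →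
    ∃ m n, m < n ∧ ∃ β, PE (fun a b => q (lab m a) (lab n b)) (G m) (A m) (G n) (A n) β

/-- (Z4) The leaf theorem with atoms. -/
def StLeafZ : Prop := ∀ (k c d : ℕ) (Q : Type w) (q : Q → Q → Prop) [IsPreorder Q q],
  WellQuasiOrdered q → ∀ (V : ℕ → Type u) (H : ℕ → Type v) [∀ i, Nonempty (V i)]
    [∀ i, Nonempty (H i)] (G : ∀ i, RotGraph (V i) (H i)) (lab : ∀ i, V i → Q)
    (A Z : ∀ i, Finset (V i)), (∀ i, A i ⊆ (G i).verts) → (∀ i, Z i ⊆ A i) →
    (∀ i, (A i \ Z i).card ≤ k) → (∀ i, cut (G i) (A i) ≤ c) →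
    (∀ i, Thin d (G i) (A i) (Z i)) →
    ∃ m n, m < n ∧ ∃ β, PE (fun a b => q (lab m a) (lab n b)) (G m) (A m) (G n) (A n) β

/-- (Z5a) Linked trees of fat bags. -/
def StLinkedZ : Prop := ∀ (k d : ℕ) (V : Type u) (H : Type v) (G : RotGraph V H)
  (A : Finset V) (t : Tree (Finset V)), IsBagTreeZ k d G A t →
    ∃ t', IsBagTreeZ k d G A t' ∧ LinkedB G t'

/-- (Z5) Pieces with trees of fat bags. -/
def StMainZ : Prop := ∀ (k d : ℕ) (Q : Type w) (q : Q → Q → Prop) [IsPreorder Q q],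
  WellQuasiOrdered q → ∀ (V : ℕ → Type u) (H : ℕ → Type v) [∀ i, Nonempty (V i)]
    [∀ i, Nonempty (H i)] (G : ∀ i, RotGraph (V i) (H i)) (lab : ∀ i, V i → Q)
    (A : ∀ i, Finset (V i)), (∀ i, A i ⊆ (G i).verts) →
    (∀ i, ∃ t, IsBagTreeZ k d (G i) (A i) t) →
    ∃ m n, m < n ∧ ∃ β, PE (fun a b => q (lab m a) (lab n b)) (G m) (A m) (G n) (A n) β

/-! ### Contraction and expansion -/

/-- (E2) Expansion of the atoms of the contracted graphs. -/
def StExp : Prop := ∀ (V V' H H' : Type u) [Nonempty V'] [Nonempty H'] (G : RotGraph V H)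
  (G' : RotGraph V' H') (C : Finset (Finset V)) (C' : Finset (Finset V')) (S : Finset V)
  (S' : Finset V') (r : V → V' → Prop) (rc : V ⊕ Finset V → V' ⊕ Finset V' → Prop)
  (β : H ⊕ (Finset V × Bool) → H' ⊕ (Finset V' × Bool)), S ⊆ G.verts → S' ⊆ G'.verts →
    Fam G S C → Fam G' S' C' → (∀ v v', rc (.inl v) (.inl v') → r v v') →
    (∀ v X', ¬ rc (.inl v) (.inr X')) → (∀ X v', ¬ rc (.inr X) (.inl v')) →
    (∀ X ∈ C, ∀ X' ∈ C', rc (.inr X) (.inr X') → MPE r G X G' X') →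
    (∀ X' ∈ C', Trav G' X') → PE rc (ctr G C) (cA C S) (ctr G' C') (cA C' S') β →
    ∃ β, PE r G S G' S' β

/-- (E3) Connected thin sets can be traversed. -/
def StTrav : Prop := ∀ (V : Type u) (H : Type v) (G : RotGraph V H) (X : Finset V),
  X ⊆ G.verts → cut G X ≤ 2 → Conn G X → Trav G X

/-- (E4) Respecting the order of the boundary is free. -/
def StMark : Prop := ∀ (α : Type u) (V H : α → Type u) (G : ∀ a, RotGraph (V a) (H a))
  (A : ∀ a, Finset (V a)) (Q : Type u) (q : Q → Q → Prop) [IsPreorder Q q]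
  (lab : ∀ a, V a → Q) (S : Set α), (∀ a ∈ S, cut (G a) (A a) ≤ 2) →
    S.PartiallyWellOrderedOn (fun a b => ∃ β,
      PE (fun v v' => q (lab a v) (lab b v')) (G a) (A a) (G b) (A b) β) →
    S.PartiallyWellOrderedOn (fun a b =>
      MPE (fun v v' => q (lab a v) (lab b v')) (G a) (A a) (G b) (A b))

/-! ### Tree-cut decompositions -/

/-- The maximal thin sets of the family that are properly contained in `X`. -/
noncomputable def thn {V H : Type*} (G : RotGraph V H) (T : Finset (Finset V)) (X : Finset V) :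
    Finset (Finset V) :=
  T.filter (fun Y => Y ⊂ X ∧ cut G Y ≤ 2 ∧ ∀ Z ∈ T, Y ⊂ Z → Z ⊂ X → 2 < cut G Z)

/-- (T2a) If the maximal thin proper subsets are contracted, there is a tree of fat bags. -/
def StThick : Prop := ∀ (k : ℕ) (V H : Type u) (G : RotGraph V H) (A : Finset V)
  (T : Finset (Finset V)) (X : Finset V), A ⊆ G.verts → TCD k G A T → X ∈ T →
    Fam G X (thn G T X) ∧
      ∃ t, IsBagTreeZ (k + k * k) 4 (ctr G (thn G T X)) (cA (thn G T X) X) t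

/-- (T2) Pieces without bridges, up to vertices with one neighbour. -/
def StT2 : Prop := ∀ (k : ℕ) (Q : Type u) (q : Q → Q → Prop) [IsPreorder Q q],
  WellQuasiOrdered q → ∀ (V H : ℕ → Type u) [∀ i, Nonempty (V i)] [∀ i, Nonempty (H i)]
    (G : ∀ i, RotGraph (V i) (H i)) (lab : ∀ i, V i → Q) (A D : ∀ i, Finset (V i))
    (T : ∀ i, Finset (Finset (V i))), (∀ i, A i ⊆ (G i).verts) → (∀ i, cut (G i) (A i) ≤ 1) →
    (∀ i, TCD k (G i) (A i) (T i)) → (∀ i, Core (G i) (A i) (D i)) →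
    (∀ i, ExpF (G i) (A i) (D i) (T i)) →
    ∃ m n, m < n ∧ ∃ β, PE (fun a b => q (lab m a) (lab n b)) (G m) (A m) (G n) (A n) β

/-- (T1a) Contraction of the parts behind bridges. -/
def StBridge : Prop := ∀ (k : ℕ) (V H : Type u) (G : RotGraph V H) (T : Finset (Finset V))
  (W : Finset V), TCD k G G.verts T → W ⊆ G.verts → W.Nonempty → cut G W ≤ 1 → Conn G W →
    ∃ (C : Finset (Finset V)) (D : Finset (V ⊕ Finset V)) (T' : Finset (Finset (V ⊕ Finset V))),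
      Fam G W C ∧ (∀ X ∈ C, X ⊂ W ∧ cut G X = 1 ∧ Conn G X) ∧
      TCD (k + 1) (ctr G C) (cA C W) T' ∧ Core (ctr G C) (cA C W) D ∧
      ExpF (ctr G C) (cA C W) D T'

/-- (T1b) Connected components. -/
def StComps : Prop := ∀ (V H : Type u) (G : RotGraph V H), G.verts.Nonempty →
  ∃ C : Finset (Finset V), Fam G G.verts C ∧ (∀ X ∈ C, cut G X = 0 ∧ Conn G X) ∧
    ∀ v ∈ G.verts, ∃ X ∈ C, v ∈ X

/-- (T1) Pieces that are whole graphs with a tree-cut decomposition of bounded width. -/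
def StT1 : Prop := ∀ (k : ℕ) (Q : Type u) (q : Q → Q → Prop) [IsPreorder Q q],
  WellQuasiOrdered q → ∀ (V H : ℕ → Type u) [∀ i, Nonempty (V i)] [∀ i, Nonempty (H i)]
    (G : ∀ i, RotGraph (V i) (H i)) (lab : ∀ i, V i → Q) (T : ∀ i, Finset (Finset (V i))),
    (∀ i, TCD k (G i) (G i).verts (T i)) →
    ∃ m n, m < n ∧ ∃ β, PE (fun a b => q (lab m a) (lab n b)) (G m) (G m).verts (G n)
      (G n).verts β

/-- (F) The theorem. -/
def StTCW : Prop := ∀ (k : ℕ) (Q : Type u) (q : Q → Q → Prop) [IsPreorder Q q],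
  WellQuasiOrdered q → ∀ (V H : ℕ → Type u) [∀ i, Nonempty (V i)] [∀ i, Nonempty (H i)]
    (G : ∀ i, RotGraph (V i) (H i)) (lab : ∀ i, V i → Q),
    (∀ i, (G i).verts = ∅ ∨ ∃ T, TCD k (G i) (G i).verts T) →
    ∃ i j, i < j ∧ Imm (fun v w => q (lab i v) (lab j w)) (G i) (G j)

end RotWqo.Tc
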