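import Pool.Agent.Lib.MP_cb4a0f_co.Tc.AllOf
import Pool.Agent.Lib.MP_cb4a0f_co.Tc.UniB39
import Pool.Agent.Lib.MP_cb4a0f_co.Tc.Skel18
import Pool.Agent.Lib.MP_cb4a0f_co.Tc.SegZ21
import Pool.Agent.Lib.MP_cb4a0f_co.Tc.LeafZ77
import Pool.Agent.Lib.MP_cb4a0f_co.Hk.All

/-!
# MP_cb4a0f_co: rotated graphs of bounded tree-cut width, the theorem
-/

namespace RotWqo.Tc

universe u v w

theorem stLeafZ : StLeafZ.{u, v, w} :=
  LeafZ77.leafZ77 UniB39.uniB39 Skel18.skex_18 Skel18.skpe_18 (SegZ21.segZ21 Hk.arcx_19)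
    Hk.stStruct Hk.stLeafX

theorem wqo_tcw : StTCW.{u} := wqo_tcw_of stLeafZ

end RotWqo.Tc
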