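import Pool.Agent.Lib.MP_cb4a0f_co.Tc.Stmts

/-!
# MP_cb4a0f_co: contraction of the parts behind bridges (module T1a)
-/

open Classical

namespace RotWqo.Tc.Bridge49

open RotWqo RotWqo.Bag RotWqo.Hk RotWqo.Tc

variable {V H : Type*}

/-! ### The contracted graph -/

theorem cls_of_mem {C : Finset (Finset V)} (hd : ∀ X ∈ C, ∀ Y ∈ C, X ≠ Y → Disjoint X Y)
    {X : Finset V} (hX : X ∈ C) {v : V} (hv : v ∈ X) : cls C v = .inr X := by
  have h : ∃ X ∈ C, v ∈ X := ⟨X, hX, hv⟩
  unfold cls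
  rw [dif_pos h]
  by_contra hne
  have hne' : h.choose ≠ X := fun e => hne (by rw [e])
  exact (Finset.disjoint_left.1 (hd _ h.choose_spec.1 _ hX hne')) h.choose_spec.2 hv

theorem cls_of_not {C : Finset (Finset V)} {v : V} (h : ∀ X ∈ C, v ∉ X) :
    cls C v = .inl v := by
  unfold cls
  rw [dif_neg]
  rintro ⟨X, hX, hv⟩
  exact h X hX hv

theorem inl_mem_ctr {G : RotGraph V H} {C : Finset (Finset V)} {h : H} :
    (.inl h : H ⊕ (Finset V × Bool)) ∈ (ctr G C).darts ↔ h ∈ G.darts ∧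
      ∀ X, cls C (G.base h) = .inr X → cls C (G.base (G.opp h)) ≠ .inr X := by
  simp [ctr, ctrD]

theorem mem_cA0 {C : Finset (Finset V)} {S : Finset V} {x : V ⊕ Finset V} :
    x ∈ cA C S ↔ ∃ v ∈ S, cls C v = x := by
  simp [cA]

theorem cls_mem_cA {C : Finset (Finset V)} {S : Finset V} {v : V} (h : v ∈ S) :
    cls C v ∈ cA C S := mem_cA0.2 ⟨v, h, rfl⟩

theorem mem_nl {G : RotGraph V H} {z : V} {h : H} :
    h ∈ nl G z ↔ h ∈ G.darts ∧ G.base h = z ∧ G.base (G.opp h) ≠ z := by
  simp [nl]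

theorem mem_chd {T : Finset (Finset V)} {X Y : Finset V} :
    Y ∈ chd T X ↔ Y ∈ T ∧ Y ⊂ X ∧ ∀ Z ∈ T, Y ⊂ Z → ¬ Z ⊂ X := by
  simp [chd]

theorem mem_bag {T : Finset (Finset V)} {X : Finset V} {v : V} :
    v ∈ bag T X ↔ v ∈ X ∧ ∀ Y ∈ T, Y ⊂ X → v ∉ Y := by
  simp [bag]

attribute [-instance] instDecidableEqSum

/-! ### Boundary facts -/

theorem mem_bd' {G : RotGraph V H} {A : Finset V} {h : H} :
    h ∈ bd G A ↔ h ∈ G.darts ∧ G.base h ∈ A ∧ G.base (G.opp h) ∉ A := by
  simp [bd]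

theorem cut_pos {G : RotGraph V H} {W Y : Finset V} (hc : Conn G W) (hY : Y ⊆ W)
    (hne : Y.Nonempty) (hn : Y ≠ W) :
    ∃ h ∈ bd G Y, G.base (G.opp h) ∈ W := by
  have h1 := hc Y hY hne hn
  unfold Nadj at h1
  push Not at h1
  obtain ⟨h, h2, h3, h4⟩ := h1
  rw [Finset.mem_sdiff] at h4
  exact ⟨h, mem_bd'.2 ⟨h2, h3, h4.2⟩, h4.1⟩

theorem one_le_cut {G : RotGraph V H} {W Y : Finset V} (hc : Conn G W) (hY : Y ⊆ W)
    (hne : Y.Nonempty) (hn : Y ≠ W) : 1 ≤ cut G Y := by
  obtain ⟨h, h1, -⟩ := cut_pos hc hY hne hn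
  exact Finset.card_pos.2 ⟨h, h1⟩

/-- The sets behind bridges. -/
structure YS (G : RotGraph V H) (W : Finset V) (v0 : V) (Y : Finset V) : Prop where
  sub : Y ⊆ W
  ne : Y.Nonempty
  v0 : v0 ∉ Y
  one : cut G Y = 1

theorem YS.ne_top {G : RotGraph V H} {W : Finset V} {v0 : V} {Y : Finset V} (hv : v0 ∈ W)
    (h : YS G W v0 Y) : Y ≠ W := by
  rintro rfl
  exact h.v0 hv

theorem YS.union {G : RotGraph V H} {W : Finset V} {v0 : V} {Y Y' : Finset V} (hv : v0 ∈ W)
    (hc : Conn G W) (h : YS G W v0 Y) (h' : YS G W v0 Y') (hm : (Y ∩ Y').Nonempty) :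
    YS G W v0 (Y ∪ Y') := by
  have h1 : Y ∪ Y' ⊆ W := Finset.union_subset h.sub h'.sub
  have h2 : v0 ∉ Y ∪ Y' := by
    rw [Finset.mem_union]
    rintro (h3 | h3)
    · exact h.v0 h3
    · exact h'.v0 h3
  have h3 : (Y ∪ Y').Nonempty := h.ne.mono Finset.subset_union_left
  have h4 : 1 ≤ cut G (Y ∪ Y') := one_le_cut hc h1 h3 (by rintro e; exact h2 (e ▸ hv))
  have h5 : 1 ≤ cut G (Y ∩ Y') := one_le_cut hc (Finset.inter_subset_left.trans h.sub) hm
    (by rintro e; exact h2 (Finset.mem_union_left _ (Finset.mem_inter.1 (e ▸ hv)).1))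
  have h6 := cut_submod G Y Y'
  have h7 := h.one
  have h8 := h'.one
  exact ⟨h1, h3, h2, by omega⟩

theorem YS.nadj {G : RotGraph V H} {W : Finset V} {v0 : V} {Y Y' : Finset V} (hv : v0 ∈ W)
    (hc : Conn G W) (h : YS G W v0 Y) (h' : YS G W v0 Y') (hm : Disjoint Y Y') :
    Nadj G Y Y' := by
  intro a ha hb hb'
  have h1 : Y ∪ Y' ⊆ W := Finset.union_subset h.sub h'.sub
  have h2 : v0 ∉ Y ∪ Y' := by
    rw [Finset.mem_union]
    rintro (h3 | h3)
    · exact h.v0 h3
    · exact h'.v0 h3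
  have h3 : (Y ∪ Y').Nonempty := h.ne.mono Finset.subset_union_left
  obtain ⟨g, hg, -⟩ := cut_pos hc h1 h3 (by rintro e; exact h2 (e ▸ hv))
  rw [mem_bd', Finset.mem_union, Finset.mem_union, not_or] at hg
  obtain ⟨x, hx⟩ := Finset.card_eq_one.1 h.one
  obtain ⟨x', hx'⟩ := Finset.card_eq_one.1 h'.one
  have ha1 : a ∈ bd G Y := mem_bd'.2 ⟨ha, hb, fun h4 => Finset.disjoint_left.1 hm h4 hb'⟩
  have ha2 : G.opp a ∈ bd G Y' := mem_bd'.2 ⟨G.opp_mem a ha, hb', by
    rw [G.opp_opp a ha]
    exact fun h4 => Finset.disjoint_left.1 hm hb h4⟩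
  obtain ⟨hg1, hg2, hg3, hg4⟩ := hg
  rcases hg2 with hg2 | hg2
  · have h5 : g ∈ bd G Y := mem_bd'.2 ⟨hg1, hg2, hg3⟩
    rw [hx, Finset.mem_singleton] at h5 ha1
    rw [h5, ← ha1] at hg4
    exact hg4 hb'
  · have h5 : g ∈ bd G Y' := mem_bd'.2 ⟨hg1, hg2, hg4⟩
    rw [hx', Finset.mem_singleton] at h5 ha2
    rw [h5, ← ha2, G.opp_opp a ha] at hg3
    exact hg3 hb

theorem YS.conn {G : RotGraph V H} {W : Finset V} {v0 : V} {Y : Finset V} (hv : v0 ∈ W)
    (hc : Conn G W) (h : YS G W v0 Y) : Conn G Y := by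
  intro Z hZ hne hn hna
  have hs : (Y \ Z).Nonempty := by
    rw [Finset.sdiff_nonempty]
    intro h1
    exact hn (Finset.Subset.antisymm hZ h1)
  obtain ⟨a, ha, -⟩ := cut_pos hc (hZ.trans h.sub) hne
    (by rintro rfl; exact h.v0 (hZ hv))
  obtain ⟨b, hb, -⟩ := cut_pos hc (Finset.sdiff_subset.trans h.sub) hs
    (by intro e; exact h.v0 (Finset.sdiff_subset (e ▸ hv)))
  rw [mem_bd'] at ha hb
  have ha' : a ∈ bd G Y := mem_bd'.2 ⟨ha.1, hZ ha.2.1, fun h1 =>
    hna a ha.1 ha.2.1 (Finset.mem_sdiff.2 ⟨h1, ha.2.2⟩)⟩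
  have hb' : b ∈ bd G Y := by
    refine mem_bd'.2 ⟨hb.1, (Finset.mem_sdiff.1 hb.2.1).1, fun h1 => ?_⟩
    have h2 : G.base (G.opp b) ∈ Z := by
      by_contra h3
      exact hb.2.2 (Finset.mem_sdiff.2 ⟨h1, h3⟩)
    refine hna (G.opp b) (G.opp_mem b hb.1) h2 ?_
    rw [G.opp_opp b hb.1]
    exact hb.2.1
  obtain ⟨x, hx⟩ := Finset.card_eq_one.1 h.one
  rw [hx, Finset.mem_singleton] at ha' hb'
  rw [ha', ← hb'] at ha
  exact (Finset.mem_sdiff.1 hb.2.1).2 ha.2.1

/-- The maximal sets behind bridges. -/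
structure BC (G : RotGraph V H) (W : Finset V) (v0 : V) (C : Finset (Finset V)) : Prop where
  hv0 : v0 ∈ W
  leg : ∀ h ∈ bd G W, G.base h = v0
  cutW : cut G W ≤ 1
  conn : Conn G W
  ys : ∀ X ∈ C, YS G W v0 X
  disj : ∀ X ∈ C, ∀ Y ∈ C, X ≠ Y → Disjoint X Y
  max : ∀ U, YS G W v0 U → ∃ X ∈ C, U ⊆ X

theorem exists_BC (G : RotGraph V H) (W : Finset V) (hne : W.Nonempty) (hcut : cut G W ≤ 1)
    (hc : Conn G W) : ∃ v0 C, BC G W v0 C := by
  obtain ⟨v0, hv0, hleg⟩ : ∃ v0 ∈ W, ∀ h ∈ bd G W, G.base h = v0 := by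
    rcases (bd G W).eq_empty_or_nonempty with h1 | ⟨h0, h1⟩
    · obtain ⟨v, hv⟩ := hne
      refine ⟨v, hv, fun h hh => ?_⟩
      rw [h1] at hh
      exact absurd hh (Finset.notMem_empty h)
    · refine ⟨G.base h0, (mem_bd'.1 h1).2.1, fun h hh => ?_⟩
      rw [Finset.card_le_one.1 hcut h hh h0 h1]
  set C : Finset (Finset V) := W.powerset.filter
    (fun Y => YS G W v0 Y ∧ ∀ Y', YS G W v0 Y' → Y ⊆ Y' → Y' = Y) with hC
  have hmem : ∀ Y, Y ∈ C ↔ YS G W v0 Y ∧ ∀ Y', YS G W v0 Y' → Y ⊆ Y' → Y' = Y := by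
    intro Y
    rw [hC, Finset.mem_filter, Finset.mem_powerset]
    exact ⟨fun h => h.2, fun h => ⟨h.1.sub, h⟩⟩
  refine ⟨v0, C, hv0, hleg, hcut, hc, fun X hX => ((hmem X).1 hX).1, ?_, ?_⟩
  · intro X hX Y hY hXY
    rw [hmem] at hX hY
    by_contra hd
    have h1 : (X ∩ Y).Nonempty := by
      rw [Finset.disjoint_iff_inter_eq_empty] at hd
      exact Finset.nonempty_iff_ne_empty.2 hd
    have h2 := hX.1.union hv0 hc hY.1 h1
    have h3 := hX.2 _ h2 Finset.subset_union_left
    have h4 := hY.2 _ h2 Finset.subset_union_right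
    exact hXY (h3.symm.trans h4)
  · intro U hU
    obtain ⟨X, hX, hmax⟩ := Finset.exists_max_image
      (W.powerset.filter (fun Y => YS G W v0 Y ∧ U ⊆ Y)) Finset.card
      ⟨U, Finset.mem_filter.2 ⟨Finset.mem_powerset.2 hU.sub, hU, Finset.Subset.refl U⟩⟩
    rw [Finset.mem_filter, Finset.mem_powerset] at hX
    refine ⟨X, (hmem X).2 ⟨hX.2.1, fun Y' hY' hs => ?_⟩, hX.2.2⟩
    have h1 := hmax Y' (Finset.mem_filter.2 ⟨Finset.mem_powerset.2 hY'.sub, hY',
      hX.2.2.trans hs⟩)
    exact (Finset.eq_of_subset_of_card_le hs h1).symm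

/-- The vertices in no set of `C`. -/
noncomputable def D0 (W : Finset V) (C : Finset (Finset V)) : Finset V :=
  W.filter (fun v => ∀ X ∈ C, v ∉ X)

theorem mem_D0 {W : Finset V} {C : Finset (Finset V)} {v : V} :
    v ∈ D0 W C ↔ v ∈ W ∧ ∀ X ∈ C, v ∉ X := by
  simp [D0]

theorem cls_D0 {W : Finset V} {C : Finset (Finset V)} {v : V} (h : v ∈ D0 W C) :
    cls C v = .inl v := cls_of_not (mem_D0.1 h).2

/-- The leg of `X`. -/
theorem BC.leg_ex {G : RotGraph V H} {W : Finset V} {v0 : V} {C : Finset (Finset V)}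
    (hB : BC G W v0 C) {X : Finset V} (hX : X ∈ C) :
    ∃ l, bd G X = {l} ∧ G.base (G.opp l) ∈ D0 W C := by
  have hY := hB.ys X hX
  obtain ⟨l, hl⟩ := Finset.card_eq_one.1 hY.one
  obtain ⟨a, ha, ha2⟩ := cut_pos hB.conn hY.sub hY.ne (hY.ne_top hB.hv0)
  have h1 : a = l := by
    have h2 := ha
    rw [hl, Finset.mem_singleton] at h2
    exact h2
  subst h1
  refine ⟨a, hl, mem_D0.2 ⟨ha2, fun Y hYC hm => ?_⟩⟩
  rw [mem_bd'] at ha
  by_cases hXY : X = Y
  · subst hXY
    exact ha.2.2 hm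
  · exact (hY.nadj hB.hv0 hB.conn (hB.ys Y hYC) (hB.disj X hX Y hYC hXY)) a ha.1 ha.2.1 hm

/-- The leg of `X` is attached in `S`. -/
def Att (G : RotGraph V H) (S X : Finset V) : Prop := ∀ l ∈ bd G X, G.base (G.opp l) ∈ S

/-- The image of `S` in the contracted graph. -/
noncomputable def hat (G : RotGraph V H) (W : Finset V) (C : Finset (Finset V))
    (S : Finset V) : Finset (V ⊕ Finset V) :=
  (S ∩ D0 W C).image .inl ∪ (C.filter (fun X => Att G S X)).image .inr

theorem inl_mem_hat {G : RotGraph V H} {W : Finset V} {C : Finset (Finset V)}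
    {S : Finset V} {v : V} : (.inl v : V ⊕ Finset V) ∈ hat G W C S ↔ v ∈ S ∧ v ∈ D0 W C := by
  simp [hat]

theorem inr_mem_hat {G : RotGraph V H} {W : Finset V} {C : Finset (Finset V)}
    {S X : Finset V} : (.inr X : V ⊕ Finset V) ∈ hat G W C S ↔ X ∈ C ∧ Att G S X := by
  simp [hat]

theorem mem_cA {G : RotGraph V H} {W : Finset V} {v0 : V} {C : Finset (Finset V)}
    (hB : BC G W v0 C) (x : V ⊕ Finset V) :
    x ∈ cA C W ↔ (∃ v ∈ D0 W C, x = .inl v) ∨ ∃ X ∈ C, x = .inr X := by
  rw [mem_cA0]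
  constructor
  · rintro ⟨v, hv, rfl⟩
    by_cases h : ∀ X ∈ C, v ∉ X
    · exact Or.inl ⟨v, mem_D0.2 ⟨hv, h⟩, cls_of_not h⟩
    · push Not at h
      obtain ⟨X, hX, hvX⟩ := h
      exact Or.inr ⟨X, hX, cls_of_mem hB.disj hX hvX⟩
  · rintro (⟨v, hv, rfl⟩ | ⟨X, hX, rfl⟩)
    · exact ⟨v, (mem_D0.1 hv).1, cls_D0 hv⟩
    · obtain ⟨v, hv⟩ := (hB.ys X hX).ne
      exact ⟨v, (hB.ys X hX).sub hv, cls_of_mem hB.disj hX hv⟩

/-- Classification of the half-edges at a set of `C` in the contracted graph. -/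
theorem BC.edge_in {G : RotGraph V H} {W : Finset V} {v0 : V} {C : Finset (Finset V)}
    (hB : BC G W v0 C) {h : H} {X : Finset V}
    (hh : (.inl h : H ⊕ (Finset V × Bool)) ∈ (ctr G C).darts)
    (hX : cls C (G.base h) = .inr X) :
    X ∈ C ∧ h ∈ bd G X ∧ G.base (G.opp h) ∈ D0 W C ∧
      ∀ l ∈ bd G X, l = h := by
  rw [inl_mem_ctr] at hh
  obtain ⟨h1, h2⟩ := cls_inr hX
  obtain ⟨l, hl, hl2⟩ := hB.leg_ex h1
  have h3 : h ∈ bd G X := mem_bd'.2 ⟨hh.1, h2, fun h4 =>
    hh.2 X hX (cls_of_mem hB.disj h1 h4)⟩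
  have h5 : h = l := by
    rw [hl, Finset.mem_singleton] at h3
    exact h3
  subst h5
  refine ⟨h1, h3, hl2, fun g hg => ?_⟩
  rw [hl, Finset.mem_singleton] at hg
  exact hg

theorem opp_inl_mem {G : RotGraph V H} {C : Finset (Finset V)} {h : H}
    (hh : (.inl h : H ⊕ (Finset V × Bool)) ∈ (ctr G C).darts) :
    (.inl (G.opp h) : H ⊕ (Finset V × Bool)) ∈ (ctr G C).darts :=
  (ctr G C).opp_mem _ hh

/-- Membership in a hat is preserved along edges at sets of `C`. -/
theorem BC.hat_edge {G : RotGraph V H} {W : Finset V} {v0 : V} {C : Finset (Finset V)}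
    (hB : BC G W v0 C) {h : H} {X S : Finset V}
    (hh : (.inl h : H ⊕ (Finset V × Bool)) ∈ (ctr G C).darts)
    (hX : cls C (G.base h) = .inr X) :
    (cls C (G.base h) ∈ hat G W C S ↔ cls C (G.base (G.opp h)) ∈ hat G W C S) := by
  obtain ⟨h1, h2, h3, h4⟩ := hB.edge_in hh hX
  rw [hX, cls_D0 h3, inl_mem_hat, inr_mem_hat]
  constructor
  · rintro ⟨-, h5⟩
    exact ⟨h5 h h2, h3⟩
  · rintro ⟨h5, -⟩
    exact ⟨h1, fun l hl => by rw [h4 l hl]; exact h5⟩

theorem BC.bd_hat {G : RotGraph V H} {W : Finset V} {v0 : V} {C : Finset (Finset V)}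
    (hB : BC G W v0 C) (S : Finset V) :
    bd (ctr G C) (hat G W C S) ⊆ (bd G S ∪ if v0 ∈ S then bd G W else ∅).image .inl := by
  intro x hx
  rw [mem_bd'] at hx
  obtain ⟨hx1, hx2, hx3⟩ := hx
  rcases x with h | p
  · rw [Finset.mem_image]
    refine ⟨h, ?_, rfl⟩
    change cls C (G.base h) ∈ _ at hx2
    change cls C (G.base (G.opp h)) ∉ _ at hx3
    rcases hv : cls C (G.base h) with v | X
    · have hv' := cls_inl hv
      rw [hv, inl_mem_hat] at hx2
      obtain ⟨hvS, hvD⟩ := hx2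
      have hd : h ∈ G.darts := (inl_mem_ctr.1 hx1).1
      by_cases hW : G.base (G.opp h) ∈ W
      · rcases hw : cls C (G.base (G.opp h)) with w | Y
        · have hw' := cls_inl hw
          rw [hw, inl_mem_hat] at hx3
          refine Finset.mem_union_left _ (mem_bd'.2 ⟨hd, hv' ▸ hvS, fun h1 => ?_⟩)
          refine hx3 ⟨hw' ▸ h1, mem_D0.2 ⟨hw' ▸ hW, fun Z hZ hwZ => ?_⟩⟩
          rw [hw', cls_of_mem hB.disj hZ hwZ] at hw
          cases hw
        · exfalso
          have h1 := opp_inl_mem hx1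
          have h2 := hB.hat_edge (S := S) h1 hw
          rw [G.opp_opp h hd] at h2
          refine hx3 (h2.2 ?_)
          rw [hv, inl_mem_hat]
          exact ⟨hvS, hvD⟩
      · have h1 : h ∈ bd G W := mem_bd'.2 ⟨hd, hv' ▸ (mem_D0.1 hvD).1, hW⟩
        have h2 := hB.leg h h1
        have h3 : v0 ∈ S := by
          rw [← h2, hv']
          exact hvS
        rw [if_pos h3]
        exact Finset.mem_union_right _ h1
    · exfalso
      exact hx3 ((hB.hat_edge hx1 hv).1 hx2)
  · exact absurd hx2 hx3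

theorem BC.cut_hat {G : RotGraph V H} {W : Finset V} {v0 : V} {C : Finset (Finset V)}
    (hB : BC G W v0 C) (S : Finset V) :
    cut (ctr G C) (hat G W C S) ≤ cut G S + if v0 ∈ S then 1 else 0 := by
  refine (Finset.card_le_card (hB.bd_hat S)).trans (Finset.card_image_le.trans
    ((Finset.card_union_le _ _).trans (Nat.add_le_add_left ?_ _)))
  split_ifs
  · exact hB.cutW
  · simp

/-- Half-edges at an atom. -/
theorem BC.nl_inr {G : RotGraph V H} {W : Finset V} {v0 : V} {C : Finset (Finset V)}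
    (hB : BC G W v0 C) {X : Finset V} (hX : X ∈ C) :
    ∃ l, bd G X = {l} ∧ G.base (G.opp l) ∈ D0 W C ∧
      nl (ctr G C) (.inr X) = {.inl l} ∧ bd (ctr G C) {.inr X} = {.inl l} := by
  obtain ⟨l, hl, hl2⟩ := hB.leg_ex hX
  have hl3 : l ∈ bd G X := by
    rw [hl]
    exact Finset.mem_singleton_self l
  rw [mem_bd'] at hl3
  have hcl : cls C (G.base l) = .inr X := cls_of_mem hB.disj hX hl3.2.1
  have hco : cls C (G.base (G.opp l)) = .inl (G.base (G.opp l)) := cls_D0 hl2
  have hmem : (.inl l : H ⊕ (Finset V × Bool)) ∈ (ctr G C).darts := by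
    rw [inl_mem_ctr]
    refine ⟨hl3.1, fun Y _ hY => ?_⟩
    rw [hco] at hY
    cases hY
  have key : ∀ x, (x ∈ (ctr G C).darts ∧ (ctr G C).base x = .inr X ∧
      (ctr G C).base ((ctr G C).opp x) ≠ .inr X) ↔ x = .inl l := by
    intro x
    constructor
    · rintro ⟨h1, h2, h3⟩
      rcases x with h | p
      · have h4 := (hB.edge_in h1 h2).2.1
        rw [hl, Finset.mem_singleton] at h4
        rw [h4]
      · exact absurd h2 h3
    · rintro rfl
      refine ⟨hmem, hcl, ?_⟩
      change cls C (G.base (G.opp l)) ≠ _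
      rw [hco]
      exact fun h => by cases h
  refine ⟨l, hl, hl2, ?_, ?_⟩
  · ext x
    rw [mem_nl, Finset.mem_singleton]
    exact key x
  · ext x
    rw [mem_bd', Finset.mem_singleton, Finset.mem_singleton, Finset.mem_singleton]
    exact key x

/-! ### The core -/

theorem BC.core_conn {G : RotGraph V H} {W : Finset V} {v0 : V} {C : Finset (Finset V)}
    (hB : BC G W v0 C) : Conn (ctr G C) (cA C W) := by
  intro Y hY hne hn hna
  set U : Finset V := W.filter (fun v => cls C v ∈ Y) with hU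
  have hUW : U ⊆ W := Finset.filter_subset _ _
  have hUne : U.Nonempty := by
    obtain ⟨y, hy⟩ := hne
    obtain ⟨v, hv, hv2⟩ := mem_cA0.1 (hY hy)
    exact ⟨v, Finset.mem_filter.2 ⟨hv, hv2 ▸ hy⟩⟩
  have hUn : U ≠ W := by
    intro e
    refine hn (Finset.Subset.antisymm hY fun y hy => ?_)
    obtain ⟨v, hv, rfl⟩ := mem_cA0.1 hy
    rw [← e] at hv
    exact (Finset.mem_filter.1 hv).2
  obtain ⟨a, ha, ha2⟩ := cut_pos hB.conn hUW hUne hUn
  rw [mem_bd'] at ha
  have h1 := (Finset.mem_filter.1 ha.2.1).2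
  have h2 : cls C (G.base (G.opp a)) ∉ Y := fun h => ha.2.2 (Finset.mem_filter.2 ⟨ha2, h⟩)
  refine hna (.inl a) ?_ h1 (Finset.mem_sdiff.2 ⟨?_, h2⟩)
  · rw [inl_mem_ctr]
    refine ⟨ha.1, fun X hX hX' => h2 ?_⟩
    rw [hX', ← hX]
    exact h1
  · exact cls_mem_cA ha2

theorem BC.core_two {G : RotGraph V H} {W : Finset V} {v0 : V} {C : Finset (Finset V)}
    (hB : BC G W v0 C) (Y : Finset (V ⊕ Finset V)) (_ : Y ⊆ cA C W)
    (hi : icut (ctr G C) (cA C W) Y ≤ 1) :
    Disjoint Y ((D0 W C).image .inl) ∨ (D0 W C).image .inl ⊆ Y := by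
  set U : Finset V := W.filter (fun v => cls C v ∈ Y) with hU
  have hUW : U ⊆ W := Finset.filter_subset _ _
  -- internal edges of `U` are internal edges of `Y`
  have hic : ∀ a ∈ G.darts, G.base a ∈ U → G.base (G.opp a) ∈ W → G.base (G.opp a) ∉ U →
      (.inl a : H ⊕ (Finset V × Bool)) ∈ (ctr G C).darts.filter
        (fun h => (ctr G C).base h ∈ Y ∧ (ctr G C).base ((ctr G C).opp h) ∈ cA C W \ Y) := by
    intro a ha h1 h2 h3
    have h4 := (Finset.mem_filter.1 h1).2
    have h5 : cls C (G.base (G.opp a)) ∉ Y := fun h => h3 (Finset.mem_filter.2 ⟨h2, h⟩)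
    rw [Finset.mem_filter]
    refine ⟨?_, h4, Finset.mem_sdiff.2 ⟨cls_mem_cA h2, h5⟩⟩
    rw [inl_mem_ctr]
    refine ⟨ha, fun X hX hX' => h5 ?_⟩
    rw [hX', ← hX]
    exact h4
  by_cases hv : v0 ∈ U
  · right
    set U' := W \ U with hU'
    have hv' : v0 ∉ U' := fun h => (Finset.mem_sdiff.1 h).2 hv
    have hsub : U' ⊆ W := Finset.sdiff_subset
    have hD : Disjoint U' (D0 W C) := by
      rcases U'.eq_empty_or_nonempty with h0 | hne
      · rw [h0]
        exact Finset.disjoint_empty_left _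
      · have h1 : 1 ≤ cut G U' := one_le_cut hB.conn hsub hne (by intro e; exact hv' (e ▸ hB.hv0))
        have h2 : cut G U' ≤ 1 := by
          refine le_trans ?_ hi
          rw [cut, icut]
          refine Finset.card_le_card_of_injOn (fun a => .inl (G.opp a)) ?_ ?_
          · intro a ha
            rw [Finset.mem_coe, mem_bd'] at ha
            obtain ⟨ha1, ha2, ha3⟩ := ha
            have ha4 : G.base (G.opp a) ∈ W := by
              by_contra h5
              have h6 := hB.leg a (mem_bd'.2 ⟨ha1, hsub ha2, h5⟩)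
              exact hv' (h6 ▸ ha2)
            refine Finset.mem_coe.2 <| hic (G.opp a) (G.opp_mem a ha1) ?_ ?_ ?_
            · by_contra h7
              exact ha3 (Finset.mem_sdiff.2 ⟨ha4, h7⟩)
            · rw [G.opp_opp a ha1]
              exact hsub ha2
            · rw [G.opp_opp a ha1]
              exact (Finset.mem_sdiff.1 ha2).2
          · intro a ha b hb hab
            rw [Finset.mem_coe, mem_bd'] at ha hb
            have h3 : G.opp a = G.opp b := Sum.inl_injective hab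
            rw [← G.opp_opp a ha.1, h3, G.opp_opp b hb.1]
        obtain ⟨X, hX, hUX⟩ := hB.max U' ⟨hsub, hne, hv', le_antisymm h2 h1⟩
        rw [Finset.disjoint_left]
        intro u hu hu2
        exact (mem_D0.1 hu2).2 X hX (hUX hu)
    intro y hy
    obtain ⟨v, hvD, rfl⟩ := Finset.mem_image.1 hy
    by_contra h1
    refine Finset.disjoint_left.1 hD (Finset.mem_sdiff.2 ⟨(mem_D0.1 hvD).1, fun h2 => h1 ?_⟩) hvD
    have h3 := (Finset.mem_filter.1 h2).2
    rw [cls_D0 hvD] at h3
    exact h3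
  · left
    have hD : Disjoint U (D0 W C) := by
      rcases U.eq_empty_or_nonempty with h0 | hne
      · rw [h0]
        exact Finset.disjoint_empty_left _
      · have h1 : 1 ≤ cut G U := one_le_cut hB.conn hUW hne (by intro e; exact hv (e ▸ hB.hv0))
        have h2 : cut G U ≤ 1 := by
          refine le_trans ?_ hi
          rw [cut, icut]
          refine Finset.card_le_card_of_injOn (fun a => .inl a) ?_ ?_
          · intro a ha
            rw [Finset.mem_coe, mem_bd'] at ha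
            obtain ⟨ha1, ha2, ha3⟩ := ha
            have ha4 : G.base (G.opp a) ∈ W := by
              by_contra h5
              have h6 := hB.leg a (mem_bd'.2 ⟨ha1, hUW ha2, h5⟩)
              exact hv (h6 ▸ ha2)
            exact Finset.mem_coe.2 (hic a ha1 ha2 ha4 ha3)
          · intro a ha b hb hab
            exact Sum.inl_injective hab
        obtain ⟨X, hX, hUX⟩ := hB.max U ⟨hUW, hne, hv, le_antisymm h2 h1⟩
        rw [Finset.disjoint_left]
        intro u hu hu2
        exact (mem_D0.1 hu2).2 X hX (hUX hu)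
    rw [Finset.disjoint_left]
    intro y hyY hyD
    obtain ⟨v, hvD, rfl⟩ := Finset.mem_image.1 hyD
    refine Finset.disjoint_left.1 hD (Finset.mem_filter.2 ⟨(mem_D0.1 hvD).1, ?_⟩) hvD
    rw [cls_D0 hvD]
    exact hyY

theorem BC.core {G : RotGraph V H} {W : Finset V} {v0 : V} {C : Finset (Finset V)}
    (hB : BC G W v0 C) : Core (ctr G C) (cA C W) ((D0 W C).image .inl) := by
  refine ⟨?_, hB.core_conn, hB.core_two, ?_⟩
  · intro x hx
    obtain ⟨v, hv, rfl⟩ := Finset.mem_image.1 hx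
    exact (mem_cA hB _).2 (Or.inl ⟨v, hv, rfl⟩)
  · intro v hv
    rw [Finset.mem_sdiff, mem_cA hB] at hv
    obtain ⟨h1 | ⟨X, hX, rfl⟩, h2⟩ := hv
    · obtain ⟨w, hw, rfl⟩ := h1
      exact absurd (Finset.mem_image_of_mem _ hw) h2
    · obtain ⟨l, hl, hl2, hl3, -⟩ := hB.nl_inr hX
      refine ⟨.inl l, by rw [hl3]; exact Finset.mem_singleton_self _, hl3, ?_⟩
      change cls C (G.base (G.opp l)) ∈ _
      rw [cls_D0 hl2]
      exact Finset.mem_image_of_mem _ hl2

/-! ### The decomposition -/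

/-- The decomposition of the contracted graph. -/
noncomputable def T1 (G : RotGraph V H) (W : Finset V) (C T : Finset (Finset V)) :
    Finset (Finset (V ⊕ Finset V)) :=
  (T.filter (fun S => (S ∩ D0 W C).Nonempty)).image (hat G W C) ∪
    C.image (fun X => {.inr X})

theorem mem_T1 {G : RotGraph V H} {W : Finset V} {C T : Finset (Finset V)}
    {Y : Finset (V ⊕ Finset V)} : Y ∈ T1 G W C T ↔
      (∃ S ∈ T, (S ∩ D0 W C).Nonempty ∧ hat G W C S = Y) ∨ ∃ X ∈ C, {.inr X} = Y := by
  simp only [T1, Finset.mem_union, Finset.mem_image, Finset.mem_filter, and_assoc]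

theorem hat_mono {G : RotGraph V H} {W : Finset V} {C : Finset (Finset V)} {S S' : Finset V}
    (h : S ⊆ S') : hat G W C S ⊆ hat G W C S' := by
  intro x hx
  rcases x with v | X
  · rw [inl_mem_hat] at hx ⊢
    exact ⟨h hx.1, hx.2⟩
  · rw [inr_mem_hat] at hx ⊢
    exact ⟨hx.1, fun l hl => h (hx.2 l hl)⟩

theorem BC.hat_congr {G : RotGraph V H} {W : Finset V} {v0 : V} {C : Finset (Finset V)}
    (hB : BC G W v0 C) {S S' : Finset V} (h : S ∩ D0 W C = S' ∩ D0 W C) :
    hat G W C S = hat G W C S' := by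
  have hiff : ∀ v ∈ D0 W C, v ∈ S ↔ v ∈ S' := by
    intro v hv
    have h1 : v ∈ S ∩ D0 W C ↔ v ∈ S' ∩ D0 W C := by rw [h]
    simpa [Finset.mem_inter, hv] using h1
  ext x
  rcases x with v | X
  · rw [inl_mem_hat, inl_mem_hat]
    constructor
    · rintro ⟨h1, h2⟩
      exact ⟨(hiff v h2).1 h1, h2⟩
    · rintro ⟨h1, h2⟩
      exact ⟨(hiff v h2).2 h1, h2⟩
  · rw [inr_mem_hat, inr_mem_hat]
    refine and_congr_right fun hX => ?_
    obtain ⟨l, hl, hl2⟩ := hB.leg_ex hX
    simp only [Att, hl, Finset.mem_singleton, forall_eq]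
    exact hiff _ hl2

theorem BC.expF {G : RotGraph V H} {W : Finset V} {v0 : V} {C : Finset (Finset V)}
    (hB : BC G W v0 C) (T : Finset (Finset V)) :
    ExpF (ctr G C) (cA C W) ((D0 W C).image .inl) (T1 G W C T) := by
  intro Y hY
  rw [mem_T1] at hY
  rcases hY with ⟨S, hS, hSn, rfl⟩ | ⟨X, hX, rfl⟩
  · right
    constructor
    · obtain ⟨v, hv⟩ := hSn
      rw [Finset.mem_inter] at hv
      exact ⟨.inl v, Finset.mem_inter.2 ⟨inl_mem_hat.2 hv, Finset.mem_image_of_mem _ hv.2⟩⟩
    · intro v hv h hh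
      rw [Finset.mem_sdiff, mem_cA hB] at hv
      obtain ⟨h1 | ⟨X, hX, rfl⟩, h2⟩ := hv
      · obtain ⟨w, hw, rfl⟩ := h1
        exact absurd (Finset.mem_image_of_mem _ hw) h2
      · obtain ⟨l, hl, hl2, hl3, -⟩ := hB.nl_inr hX
        rw [hl3, Finset.mem_singleton] at hh
        subst hh
        change _ ↔ cls C (G.base (G.opp l)) ∈ _
        rw [cls_D0 hl2, inl_mem_hat, inr_mem_hat]
        simp only [Att, hl, Finset.mem_singleton, forall_eq]
        tauto
  · left
    refine ⟨.inr X, Finset.mem_sdiff.2 ⟨(mem_cA hB _).2 (Or.inr ⟨X, hX, rfl⟩), ?_⟩, rfl⟩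
    intro h
    obtain ⟨v, -, hv⟩ := Finset.mem_image.1 h
    cases hv

theorem BC.tcd {G : RotGraph V H} {W : Finset V} {v0 : V} {C T : Finset (Finset V)} {k : ℕ}
    (hB : BC G W v0 C) (hT : TCD k G G.verts T) (hW : W ⊆ G.verts) :
    TCD (k + 1) (ctr G C) (cA C W) (T1 G W C T) := by
  have hv0D : v0 ∈ D0 W C := mem_D0.2 ⟨hB.hv0, fun X hX => (hB.ys X hX).v0⟩
  have hhat_ne : ∀ S, (S ∩ D0 W C).Nonempty → ∃ v, (.inl v : V ⊕ Finset V) ∈ hat G W C S := by
    rintro S ⟨v, hv⟩
    exact ⟨v, inl_mem_hat.2 (Finset.mem_inter.1 hv)⟩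
  refine ⟨?_, ?_, ?_, ?_, ?_, ?_⟩
  · rw [mem_T1]
    left
    have h1 : v0 ∈ G.verts ∩ D0 W C := Finset.mem_inter.2 ⟨hW hB.hv0, hv0D⟩
    refine ⟨G.verts, hT.top, ⟨v0, h1⟩, ?_⟩
    ext x
    rw [mem_cA hB]
    rcases x with v | X
    · rw [inl_mem_hat]
      constructor
      · rintro ⟨-, h2⟩
        exact Or.inl ⟨v, h2, rfl⟩
      · rintro (⟨w, hw, h3⟩ | ⟨X, hX, h3⟩)
        · cases h3
          exact ⟨hW (mem_D0.1 hw).1, hw⟩
        · cases h3
    · rw [inr_mem_hat]
      constructor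
      · rintro ⟨h2, -⟩
        exact Or.inr ⟨X, h2, rfl⟩
      · rintro (⟨w, hw, h3⟩ | ⟨Y, hY, h3⟩)
        · cases h3
        · cases h3
          exact ⟨hY, fun l hl => G.base_mem _ (G.opp_mem _ (mem_bd'.1 hl).1)⟩
  · intro Y hY x hx
    rw [mem_T1] at hY
    rw [mem_cA hB]
    rcases hY with ⟨S, hS, hSn, rfl⟩ | ⟨X, hX, rfl⟩
    · rcases x with v | X
      · exact Or.inl ⟨v, (inl_mem_hat.1 hx).2, rfl⟩
      · exact Or.inr ⟨X, (inr_mem_hat.1 hx).1, rfl⟩
    · rw [Finset.mem_singleton] at hx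
      exact Or.inr ⟨X, hX, hx⟩
  · intro Y hY
    rw [mem_T1] at hY
    rcases hY with ⟨S, hS, hSn, rfl⟩ | ⟨X, hX, rfl⟩
    · obtain ⟨v, hv⟩ := hhat_ne S hSn
      exact ⟨_, hv⟩
    · exact Finset.singleton_nonempty _
  · intro Y hY Y' hY'
    rw [mem_T1] at hY hY'
    rcases hY with ⟨S, hS, hSn, rfl⟩ | ⟨X, hX, rfl⟩
    · rcases hY' with ⟨S', hS', hSn', rfl⟩ | ⟨X', hX', rfl⟩
      · rcases hT.lam S hS S' hS' with h | h | h
        · exact Or.inl (hat_mono h)
        · exact Or.inr (Or.inl (hat_mono h))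
        · right
          right
          rw [Finset.disjoint_left]
          intro x hx hx'
          rcases x with v | X
          · rw [inl_mem_hat] at hx hx'
            exact Finset.disjoint_left.1 h hx.1 hx'.1
          · rw [inr_mem_hat] at hx hx'
            obtain ⟨l, hl, -⟩ := hB.leg_ex hx.1
            have h1 : l ∈ bd G X := by rw [hl]; exact Finset.mem_singleton_self l
            exact Finset.disjoint_left.1 h (hx.2 l h1) (hx'.2 l h1)
      · by_cases h : (.inr X' : V ⊕ Finset V) ∈ hat G W C S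
        · exact Or.inr (Or.inl (Finset.singleton_subset_iff.2 h))
        · exact Or.inr (Or.inr (Finset.disjoint_singleton_right.2 h))
    · by_cases h : (.inr X : V ⊕ Finset V) ∈ Y'
      · exact Or.inl (Finset.singleton_subset_iff.2 h)
      · exact Or.inr (Or.inr (Finset.disjoint_singleton_left.2 h))
  · intro Y hY
    rw [mem_T1] at hY
    rcases hY with ⟨S, hS, hSn, rfl⟩ | ⟨X, hX, rfl⟩
    · have h1 := hB.cut_hat S
      have h2 := hT.cuts S hS
      split_ifs at h1 <;> omega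
    · obtain ⟨l, -, -, -, h1⟩ := hB.nl_inr hX
      rw [cut, h1, Finset.card_singleton]
      omega
  · intro Y hY
    rw [mem_T1] at hY
    rcases hY with ⟨S0, hS0, hSn0, rfl⟩ | ⟨X, hX, rfl⟩
    · -- take `S` minimal
      obtain ⟨S, hS, hmin⟩ := Finset.exists_min_image
        (T.filter (fun S => S ∩ D0 W C = S0 ∩ D0 W C)) Finset.card
        ⟨S0, Finset.mem_filter.2 ⟨hS0, rfl⟩⟩
      rw [Finset.mem_filter] at hS
      obtain ⟨hST, hSS⟩ := hS
      rw [hB.hat_congr hSS.symm]
      rw [← hSS] at hSn0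
      have hmin' : ∀ R ∈ T, R ⊂ S → R ∩ D0 W C ≠ S ∩ D0 W C := by
        intro R hR hRS e
        have h1 := hmin R (Finset.mem_filter.2 ⟨hR, e.trans hSS⟩)
        exact absurd (Finset.card_lt_card hRS) (not_lt.2 h1)
      have hne' : ∀ R ∈ T, R ⊂ S → hat G W C R ⊂ hat G W C S := by
        intro R hR hRS
        refine Finset.ssubset_iff_subset_ne.2 ⟨hat_mono hRS.1, fun e => hmin' R hR hRS ?_⟩
        ext v
        rw [Finset.mem_inter, Finset.mem_inter, ← inl_mem_hat (G := G), e, inl_mem_hat]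
      -- children of `S` are disjoint
      have hdisj : ∀ R ∈ chd T S, ∀ R' ∈ chd T S, R ≠ R' → Disjoint R R' := by
        intro R hR R' hR' hne
        rw [mem_chd] at hR hR'
        rcases hT.lam R hR.1 R' hR'.1 with h | h | h
        · exact absurd hR'.2.1 (hR.2.2 R' hR'.1 (Finset.ssubset_iff_subset_ne.2 ⟨h, hne⟩))
        · exact absurd hR.2.1 (hR'.2.2 R hR.1 (Finset.ssubset_iff_subset_ne.2 ⟨h, hne.symm⟩))
        · exact h
      obtain ⟨Z, hZ, hZ1, hZ2, hZ3⟩ := hT.node S hST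
      -- children of the hat
      have hchd : ∀ Y ∈ chd (T1 G W C T) (hat G W C S), (∃ X ∈ C, {.inr X} = Y) ∨
          ∃ R ∈ chd T S, (R ∩ D0 W C).Nonempty ∧ hat G W C R = Y := by
        intro Y hY
        rw [mem_chd, mem_T1] at hY
        obtain ⟨⟨R0, hR0, hRn, rfl⟩ | h1, h2, h3⟩ := hY
        · right
          have h4 : R0 ⊂ S := by
            obtain ⟨v, hv⟩ := hRn
            rw [Finset.mem_inter] at hv
            have hvS : v ∈ S := (inl_mem_hat.1 (h2.1 (inl_mem_hat.2 hv))).1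
            rcases hT.lam R0 hR0 S hST with h | h | h
            · refine Finset.ssubset_iff_subset_ne.2 ⟨h, ?_⟩
              rintro rfl
              exact absurd h2 (ssubset_irrefl _)
            · exfalso
              exact h2.2 (hat_mono h)
            · exact absurd hvS (Finset.disjoint_left.1 h hv.1)
          obtain ⟨R, hR, hmax⟩ := Finset.exists_max_image
            (T.filter (fun R => R0 ⊆ R ∧ R ⊂ S)) Finset.card
            ⟨R0, Finset.mem_filter.2 ⟨hR0, Finset.Subset.refl _, h4⟩⟩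
          rw [Finset.mem_filter] at hR
          obtain ⟨hRT, hR0R, hRS⟩ := hR
          refine ⟨R, ?_, hRn.mono (Finset.inter_subset_inter_right hR0R), ?_⟩
          · rw [mem_chd]
            refine ⟨hRT, hRS, fun R' hR' h5 h6 => ?_⟩
            have h7 := hmax R' (Finset.mem_filter.2 ⟨hR', hR0R.trans h5.1, h6⟩)
            exact absurd (Finset.card_lt_card h5) (not_lt.2 h7)
          · by_contra hne
            refine h3 (hat G W C R) ?_ (Finset.ssubset_iff_subset_ne.2
              ⟨hat_mono hR0R, fun e => hne e.symm⟩) (hne' R hRT hRS)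
            rw [mem_T1]
            exact Or.inl ⟨R, hRT, hRn.mono (Finset.inter_subset_inter_right hR0R), rfl⟩
        · exact Or.inl h1
      refine ⟨(chd (T1 G W C T) (hat G W C S)).filter (fun Y => (∃ X ∈ C, {.inr X} = Y) ∨
        ∃ R ∈ Z, v0 ∉ R ∧ hat G W C R = Y), Finset.filter_subset _ _, ?_, ?_, ?_⟩
      · intro Y hY
        rw [Finset.mem_filter] at hY
        rcases hY.2 with ⟨X, hX, rfl⟩ | ⟨R, hR, hvR, rfl⟩
        · obtain ⟨l, -, -, -, h1⟩ := hB.nl_inr hX
          rw [cut, h1, Finset.card_singleton]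
          omega
        · have h1 := hB.cut_hat R
          rw [if_neg hvR] at h1
          exact h1.trans (by simpa using hZ1 R hR)
      · -- nonadjacent
        have hA : ∀ X ∈ C, ∀ Y' ∈ chd (T1 G W C T) (hat G W C S), {.inr X} ∈
            chd (T1 G W C T) (hat G W C S) → {.inr X} ≠ Y' →
            ∀ h ∈ (ctr G C).darts, (ctr G C).base h = .inr X →
              (ctr G C).base ((ctr G C).opp h) ∉ Y' := by
          intro X hX Y' hY' hXc hne h hh hb hb'
          rw [mem_chd] at hXc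
          have hXY : (.inr X : V ⊕ Finset V) ∉ Y' := by
            intro h1
            rw [mem_chd] at hY'
            exact hXc.2.2 Y' hY'.1 (Finset.ssubset_iff_subset_ne.2
              ⟨Finset.singleton_subset_iff.2 h1, hne⟩) hY'.2.1
          rcases h with h | p
          · obtain ⟨h1, h2, h3, h4⟩ := hB.edge_in hh hb
            change cls C (G.base (G.opp h)) ∈ Y' at hb'
            rcases hchd Y' hY' with ⟨X', hX', rfl⟩ | ⟨R, hR, hRn, rfl⟩
            · rw [cls_D0 h3, Finset.mem_singleton] at hb'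
              cases hb'
            · refine hXY ?_
              have h5 := (hB.hat_edge (S := R) hh hb).2 hb'
              change cls C (G.base h) = _ at hb
              rw [hb] at h5
              exact h5
          · change (Sum.inr p.1 : V ⊕ Finset V) = _ at hb
            change (Sum.inr p.1 : V ⊕ Finset V) ∈ Y' at hb'
            rw [hb] at hb'
            exact hXY hb'
        intro Y hY Y' hY' hne
        rw [Finset.mem_filter] at hY hY'
        obtain ⟨hY1, hY2⟩ := hY
        obtain ⟨hY1', hY2'⟩ := hY'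
        rcases hY2 with ⟨X, hX, rfl⟩ | ⟨R, hR, hvR, rfl⟩
        · intro h hh hb
          exact hA X hX Y' hY1' hY1 hne h hh (Finset.mem_singleton.1 hb)
        · rcases hY2' with ⟨X, hX, rfl⟩ | ⟨R', hR', hvR', rfl⟩
          · intro h hh hb hb'
            refine hA X hX _ hY1 hY1' hne.symm ((ctr G C).opp h) ((ctr G C).opp_mem h hh)
              (Finset.mem_singleton.1 hb') ?_
            rw [(ctr G C).opp_opp h hh]
            exact hb
          · have hRR : R ≠ R' := by
              rintro rfl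
              exact hne rfl
            have hdis := hdisj R (hZ hR) R' (hZ hR') hRR
            intro h hh hb hb'
            rcases h with h | p
            · have hd : h ∈ G.darts := (inl_mem_ctr.1 hh).1
              change cls C (G.base h) ∈ _ at hb
              change cls C (G.base (G.opp h)) ∈ _ at hb'
              rcases hu : cls C (G.base h) with u | X
              · rcases hw : cls C (G.base (G.opp h)) with w | X
                · have hu' := cls_inl hu
                  have hw' := cls_inl hw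
                  rw [hu, inl_mem_hat] at hb
                  rw [hw, inl_mem_hat] at hb'
                  refine hZ2 R hR R' hR' hRR h hd ?_ ?_
                  · rw [hu']
                    exact hb.1
                  · rw [hw']
                    exact hb'.1
                · have h1 := hB.hat_edge (S := R') (opp_inl_mem hh) hw
                  rw [G.opp_opp h hd] at h1
                  have h2 := h1.1 hb'
                  rw [hu, inl_mem_hat] at h2 hb
                  exact Finset.disjoint_left.1 hdis hb.1 h2.1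
              · have h1 := hB.hat_edge (S := R) hh hu
                have h2 := h1.1 hb
                obtain ⟨-, -, h3, -⟩ := hB.edge_in hh hu
                rw [cls_D0 h3, inl_mem_hat] at h2 hb'
                exact Finset.disjoint_left.1 hdis h2.1 hb'.1
            · change (Sum.inr p.1 : V ⊕ Finset V) ∈ _ at hb
              change (Sum.inr p.1 : V ⊕ Finset V) ∈ _ at hb'
              rw [inr_mem_hat] at hb hb'
              obtain ⟨l, hl, -⟩ := hB.leg_ex hb.1
              have h1 : l ∈ bd G p.1 := by rw [hl]; exact Finset.mem_singleton_self l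
              exact Finset.disjoint_left.1 hdis (hb.2 l h1) (hb'.2 l h1)
      · -- count
        have hbag : (bag (T1 G W C T) (hat G W C S)).card ≤ (bag T S).card := by
          refine (Finset.card_le_card (t := (bag T S).image .inl) ?_).trans Finset.card_image_le
          intro x hx
          rw [mem_bag] at hx
          rcases x with v | X
          · refine Finset.mem_image_of_mem _ ?_
            have hv := inl_mem_hat.1 hx.1
            rw [mem_bag]
            refine ⟨hv.1, fun R hR hRS hvR => ?_⟩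
            refine hx.2 (hat G W C R) ?_ (hne' R hR hRS) (inl_mem_hat.2 ⟨hvR, hv.2⟩)
            rw [mem_T1]
            exact Or.inl ⟨R, hR, ⟨v, Finset.mem_inter.2 ⟨hvR, hv.2⟩⟩, rfl⟩
          · exfalso
            have hX := inr_mem_hat.1 hx.1
            refine hx.2 {.inr X} ?_ ?_ (Finset.mem_singleton_self _)
            · rw [mem_T1]
              exact Or.inr ⟨X, hX.1, rfl⟩
            · refine Finset.ssubset_iff_subset_ne.2 ⟨Finset.singleton_subset_iff.2 hx.1, ?_⟩
              intro e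
              obtain ⟨v, hv⟩ := hhat_ne S hSn0
              rw [← e, Finset.mem_singleton] at hv
              cases hv
        have hcard : ((chd (T1 G W C T) (hat G W C S)) \
            (chd (T1 G W C T) (hat G W C S)).filter (fun Y => (∃ X ∈ C, {.inr X} = Y) ∨
            ∃ R ∈ Z, v0 ∉ R ∧ hat G W C R = Y)).card ≤
            (chd T S \ Z).card + 1 := by
          refine (Finset.card_le_card (t := ((chd T S \ Z) ∪
            (chd T S).filter (fun R => v0 ∈ R)).image (hat G W C)) ?_).trans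
            (Finset.card_image_le.trans ((Finset.card_union_le _ _).trans
              (Nat.add_le_add_left ?_ _)))
          · intro Y hY
            rw [Finset.mem_sdiff, Finset.mem_filter] at hY
            obtain ⟨hY1, hY2⟩ := hY
            rcases hchd Y hY1 with h1 | ⟨R, hR, hRn, rfl⟩
            · exact absurd ⟨hY1, Or.inl h1⟩ hY2
            · refine Finset.mem_image_of_mem _ ?_
              rw [Finset.mem_union, Finset.mem_sdiff, Finset.mem_filter]
              by_cases hv : v0 ∈ R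
              · exact Or.inr ⟨hR, hv⟩
              · by_cases hRZ : R ∈ Z
                · exact absurd ⟨hY1, Or.inr ⟨R, hRZ, hv, rfl⟩⟩ hY2
                · exact Or.inl ⟨hR, hRZ⟩
          · rw [Finset.card_le_one]
            intro R hR R' hR'
            rw [Finset.mem_filter] at hR hR'
            by_contra hne
            exact Finset.disjoint_left.1 (hdisj R hR.1 R' hR'.1 hne) hR.2 hR'.2
        omega
    · refine ⟨∅, Finset.empty_subset _, by simp, by simp, ?_⟩
      have h1 : chd (T1 G W C T) {.inr X} = ∅ := by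
        rw [Finset.eq_empty_iff_forall_notMem]
        intro Y hY
        rw [mem_chd] at hY
        have h2 : Y = ∅ := by
          have := hY.2.1
          rwa [Finset.ssubset_singleton_iff] at this
        rw [mem_T1, h2] at hY
        rcases hY.1 with ⟨S, hS, hSn, h3⟩ | ⟨X', hX', h3⟩
        · obtain ⟨v, hv⟩ := hhat_ne S hSn
          rw [h3] at hv
          exact absurd hv (Finset.notMem_empty _)
        · exact Finset.singleton_ne_empty _ h3
      rw [h1]
      have h2 : (bag (T1 G W C T) ({.inr X} : Finset (V ⊕ Finset V))).card ≤ 1 :=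
        (Finset.card_le_card (Finset.filter_subset _ _)).trans (by simp)
      simp only [Finset.empty_sdiff, Finset.card_empty]
      omega

theorem bridge49 : StBridge := by
  intro k V H G T W hT hW hne hcut hc
  obtain ⟨v0, C, hB⟩ := exists_BC G W hne hcut hc
  refine ⟨C, (D0 W C).image .inl, T1 G W C T, ⟨fun X hX => (hB.ys X hX).sub,
    fun X hX => (hB.ys X hX).ne, hB.disj, fun X hX => ?_⟩, fun X hX => ?_, hB.tcd hT hW,
    hB.core, hB.expF T⟩
  · rw [(hB.ys X hX).one]
    omega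
  · have h := hB.ys X hX
    exact ⟨Finset.ssubset_iff_subset_ne.2 ⟨h.sub, h.ne_top hB.hv0⟩, h.one,
      h.conn hB.hv0 hB.conn⟩

end RotWqo.Tc.Bridge49
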