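import Pool.Agent.Lib.MP_cb4a0f_co.Tc.LinkedZ11
import Pool.Agent.Lib.MP_cb4a0f_co.Bag.Main11

/-!
# MP_cb4a0f_co: pieces with trees of fat bags, from the leaf theorem with atoms
-/

open Classical

namespace RotWqo.Tc.MainZ11

open RotWqo.Bag RotWqo.Hk RotWqo.Tc

universe u v

/-- The atoms of a fat bag that have no edge leaving the bag are atoms in the sense of the leaf
theorem. -/
theorem fat_thin {V : Type u} {H : Type v} {k d : ℕ} {G : RotGraph V H} {F : Finset V}
    (hF : Fat k d G F) (hc : cut G F ≤ k) :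
    ∃ Z ⊆ F, (F \ Z).card ≤ k + k ∧ Thin d G F Z := by
  obtain ⟨Z, hZ, hk, hz⟩ := hF
  refine ⟨Z.filter (fun z => ∀ h ∈ nl G z, G.base (G.opp h) ∈ F),
    (Finset.filter_subset _ _).trans hZ, ?_, fun z hz1 => ?_⟩
  · have h1 : F \ Z.filter (fun z => ∀ h ∈ nl G z, G.base (G.opp h) ∈ F) ⊆
        (F \ Z) ∪ (bd G F).image G.base := by
      intro v hv
      rw [Finset.mem_sdiff, Finset.mem_filter] at hv
      rw [Finset.mem_union, Finset.mem_sdiff]
      by_cases hvZ : v ∈ Z
      · right
        have h2 : ¬ ∀ h ∈ nl G v, G.base (G.opp h) ∈ F := fun h2 => hv.2 ⟨hvZ, h2⟩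
        push Not at h2
        obtain ⟨h, h3, h4⟩ := h2
        unfold nl at h3
        rw [Finset.mem_filter] at h3
        rw [Finset.mem_image]
        refine ⟨h, ?_, h3.2.1⟩
        unfold bd
        rw [Finset.mem_filter, h3.2.1]
        exact ⟨h3.1, hv.1, h4⟩
      · exact Or.inl ⟨hv.1, hvZ⟩
    refine (Finset.card_le_card h1).trans ((Finset.card_union_le _ _).trans ?_)
    exact Nat.add_le_add hk (Finset.card_image_le.trans hc)
  · rw [Finset.mem_filter] at hz1
    obtain ⟨h1, h2, h3⟩ := hz z hz1.1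
    refine ⟨h1, ?_, fun h hh => ?_⟩
    · refine le_trans (le_of_eq ?_) h2
      unfold cut bd nl
      congr 1
      ext h
      simp only [Finset.mem_filter, Finset.mem_singleton]
    · refine Finset.mem_sdiff.2 ⟨hz1.2 h hh, fun h4 => ?_⟩
      unfold nl at hh
      rw [Finset.mem_filter] at hh
      rw [Finset.mem_filter] at h4
      exact h3 _ h4.1 hh.2.2 h hh.1 (Finset.mem_singleton.2 hh.2.1) (Finset.mem_singleton_self _)

end RotWqo.Tc.MainZ11

namespace RotWqo.Tc

open RotWqo.Bag RotWqo.Hk

universe u v w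

/-- (Z5) Pieces with trees of fat bags. -/
theorem mainZ11 (hL : StLeafZ.{u, v, w}) : StMainZ.{u, v, w} := by
  intro k d Q q _ hq V H _ _ G lab A hA hG
  -- linked trees of bags
  have hT : ∀ i, ∃ t, IsBagTreeZ k d (G i) (A i) t ∧ LinkedB (G i) t := by
    intro i
    obtain ⟨t, ht⟩ := hG i
    exact linkedZ11 k d (V i) (H i) (G i) (A i) t ht
  choose T hT1 hT4 using hT
  have hok : ∀ i, TLB.Ok (fun _ => True) (T i) := fun i =>
    TLB.ok_iff.mpr ⟨(hT1 i).pw, fun B hB => ⟨(hT1 i).ne B hB, trivial⟩⟩
  set le : Bag.Elt V T → Bag.Elt V T → Prop := fun x y =>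
    ∃ β, PE (fun v w => q (lab x.i v) (lab y.i w)) (G x.i) (bset x.t) (G y.i) (bset y.t) β
    with hle
  have : IsPreorder (Bag.Elt V T) le :=
    { refl := fun x => ⟨id, PE.refl (fun v w => q (lab x.i v) (lab x.i w))
        (fun v => _root_.refl _) _ _⟩
      trans := fun x y z ⟨β, h⟩ ⟨β', h'⟩ => ⟨β' ∘ β,
        PE.trans (r₁ := fun v w => q (lab x.i v) (lab y.i w))
          (r₂ := fun v w => q (lab y.i v) (lab z.i w))
          (r := fun v w => q (lab x.i v) (lab z.i w))
          (fun u v w h h' => _root_.trans h h') h h'⟩ }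
  have main : (Set.univ : Set (Bag.Elt V T)).PartiallyWellOrderedOn le := by
    refine wqo_of_levels le (fun x => x.t.leaves.length) (Bag.val G) k Bag.Ch ?_ ?_ ?_ ?_
    · rintro x y ⟨l, r, hlr, ⟨h, rfl⟩ | ⟨h, rfl⟩⟩
      · have := leaves_pos r
        simp only [hlr, Tree.leaves, List.length_append]
        omega
      · have := leaves_pos l
        simp only [hlr, Tree.leaves, List.length_append]
        omega
    · intro x
      exact (hT1 x.i).cuts x.t x.h
    · intro m x y hx hy hd
      obtain ⟨i, b, a, hb, ha, rfl, rfl, hp⟩ := Bag.Desc.pathGe G hd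
      exact exists_link (fun v w => q (lab i v) (lab i w)) (fun v => _root_.refl _) (G i)
        (bset a) (bset b) (pathGe_bset hp)
        ((TLB.sub_bset hb).trans ((hT1 i).top ▸ hA i)) m hy hx (hT4 i b a m hb hp hx hy)
    · intro X hC
      set C : Set (Bag.Elt V T) := {y | ∃ x ∈ X, Bag.Ch x y} with hCdef
      have h1 : {x | x ∈ X ∧ ∃ v, x.t = .leaf v}.PartiallyWellOrderedOn le := by
        rw [Set.partiallyWellOrderedOn_iff_exists_lt]
        intro f hf
        choose B hB using fun n => (hf n).2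
        have hmem : ∀ n, B n ∈ (T (f n).i).leaves := by
          intro n
          have h := (f n).h
          rw [hB n] at h
          clear_value le
          generalize T (f n).i = t at h
          induction h with
          | refl => simp [Tree.leaves]
          | left l r _ ih => exact List.mem_append_left _ ih
          | right l r _ ih => exact List.mem_append_right _ ih
        have hcut : ∀ n, cut (G (f n).i) (B n) ≤ k := by
          intro n
          have h := (hT1 (f n).i).cuts _ (f n).h
          rwa [hB n, TLB.bset_leaf] at h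
        choose Z hZ1 hZ2 hZ3 using fun n =>
          MainZ11.fat_thin ((hT1 (f n).i).fat _ (hmem n)) (hcut n)
        obtain ⟨m, n, hmn, β, hβ⟩ := hL (k + k) k d Q q hq (fun n => V (f n).i)
          (fun n => H (f n).i) (fun n => G (f n).i) (fun n => lab (f n).i) B Z
          (fun n => by
            have h : bset (T (f n).i) ⊆ (G (f n).i).verts := by
              rw [(hT1 (f n).i).top]
              exact hA _
            exact fun v hv => h (TLB.mem_bset.mpr ⟨B n, hmem n, hv⟩))
          hZ1 hZ2 hcut hZ3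
        refine ⟨m, n, hmn, β, ?_⟩
        simpa only [hB, TLB.bset_leaf] using hβ
      have h2 : {x | x ∈ X ∧ ∃ l r, x.t = .node l r}.PartiallyWellOrderedOn le := by
        rw [Set.partiallyWellOrderedOn_iff_exists_lt]
        intro f hf
        choose l r hlr using fun n => (hf n).2
        have hsub : ∀ n, IsSub (.node (l n) (r n)) (T (f n).i) := fun n => hlr n ▸ (f n).h
        have hl : ∀ n, IsSub (l n) (T (f n).i) := fun n =>
          IsSub.trans' (.left _ _ .refl) (hsub n)
        have hr : ∀ n, IsSub (r n) (T (f n).i) := fun n =>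
          IsSub.trans' (.right _ _ .refl) (hsub n)
        have hlC : ∀ n, (⟨(f n).i, l n, hl n⟩ : Bag.Elt V T) ∈ C := fun n =>
          ⟨f n, (hf n).1, l n, r n, hlr n, Or.inl ⟨hl n, rfl⟩⟩
        have hrC : ∀ n, (⟨(f n).i, r n, hr n⟩ : Bag.Elt V T) ∈ C := fun n =>
          ⟨f n, (hf n).1, l n, r n, hlr n, Or.inr ⟨hr n, rfl⟩⟩
        obtain ⟨g, hg⟩ := hC.exists_monotone_subseq hlC
        obtain ⟨g', hg'⟩ := hC.exists_monotone_subseq (fun n => hrC (g n))
        obtain ⟨m, n, hmn, β, hβ⟩ := exists_PE_glue q (fun n => V (f (g (g' n))).i)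
          (fun n => H (f (g (g' n))).i) (fun n => G (f (g (g' n))).i)
          (fun n => lab (f (g (g' n))).i) (fun n => bset (l (g (g' n))))
          (fun n => bset (r (g (g' n))))
          (fun n => ((hok _).sub (hsub _)).2.2)
          (fun n => hg _ _ (g'.monotone (Nat.le_succ n)))
          (fun n => hg' _ _ (Nat.le_succ n))
        refine ⟨g (g' m), g (g' n), g.strictMono (g'.strictMono hmn), β, ?_⟩
        simpa only [hlr, TLB.bset_node] using hβ
      refine (h1.union h2).mono fun x hx => ?_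
      rcases ht : x.t with v | ⟨l, r⟩
      · exact Or.inl ⟨hx, v, ht⟩
      · exact Or.inr ⟨hx, l, r, ht⟩
  obtain ⟨m, n, hmn, β, hβ⟩ := main.exists_lt
    (f := fun n => (⟨n, T n, .refl⟩ : Bag.Elt V T)) (fun n => Set.mem_univ _)
  refine ⟨m, n, hmn, β, ?_⟩
  have hβ' : PE (fun v w => q (lab m v) (lab n w)) (G m) (bset (T m)) (G n) (bset (T n)) β := hβ
  rwa [(hT1 m).top, (hT1 n).top] at hβ'

end RotWqo.Tc
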