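import Pool.Agent.Lib.MP_cb4a0f_co.Tc.Step6

/-!
# MP_cb4a0f_co: pieces without bridges, up to vertices with one neighbour
-/

open Classical

namespace RotWqo.Tc

open RotWqo.Bag RotWqo.Hk

universe u

namespace T26

section
variable {V H : Type*} {G : RotGraph V H} {A D : Finset V} {T : Finset (Finset V)} {k : ℕ}

lemma mem_nl {z : V} {h : H} : h ∈ nl G z ↔ h ∈ G.darts ∧ G.base h = z ∧
    G.base (G.opp h) ≠ z := Finset.mem_filter

lemma cut_single (v : V) : cut G {v} = (nl G v).card := by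
  unfold cut
  congr 1
  ext h
  rw [mem_bd, mem_nl, Finset.mem_singleton, Finset.mem_singleton]

lemma exists_of_not_nadj {Y Y' : Finset V} (h : ¬ Nadj G Y Y') : ∃ a ∈ G.darts,
    G.base a ∈ Y ∧ G.base (G.opp a) ∈ Y' := by
  unfold Nadj at h
  push Not at h
  exact h

lemma one_le_cut (hc : Conn G A) {Y : Finset V} (hY : Y ⊆ A) (hn : Y.Nonempty) (hne : Y ≠ A) :
    1 ≤ cut G Y := by
  obtain ⟨a, h1, h2, h3⟩ := exists_of_not_nadj (hc Y hY hn hne)
  refine Finset.card_pos.2 ⟨a, mem_bd.2 ⟨h1, h2, ?_⟩⟩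
  exact (Finset.mem_sdiff.1 h3).2

lemma icut_le (Y : Finset V) : icut G A Y ≤ cut G Y := by
  refine Finset.card_le_card fun h hh => ?_
  rw [Finset.mem_filter, Finset.mem_sdiff] at hh
  exact mem_bd.2 ⟨hh.1, hh.2.1, hh.2.2.2⟩

lemma cut_le_icut {Y : Finset V} (hY : Y ⊆ A) : cut G Y ≤ icut G A Y + cut G A := by
  have h1 : bd G Y ⊆ G.darts.filter (fun h => G.base h ∈ Y ∧ G.base (G.opp h) ∈ A \ Y) ∪
      bd G A := by
    intro h hh
    rw [mem_bd] at hh
    rw [Finset.mem_union, Finset.mem_filter, Finset.mem_sdiff, mem_bd]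
    by_cases h2 : G.base (G.opp h) ∈ A
    · exact Or.inl ⟨hh.1, hh.2.1, h2, hh.2.2⟩
    · exact Or.inr ⟨hh.1, hY hh.2.1, h2⟩
  exact (Finset.card_le_card h1).trans (Finset.card_union_le _ _)

/-- Sets of the family with cut 2 meet `D` but do not contain it. -/
lemma cut_two (hA : cut G A ≤ 1) (hT : TCD k G A T) (hC : Core G A D) (hE : ExpF G A D T)
    {X : Finset V} (hX : X ∈ T) (h2 : cut G X = 2) : (X ∩ D).Nonempty ∧ ¬ D ⊆ X ∧
      ∀ h ∈ bd G X, G.base (G.opp h) ∈ A := by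
  have hXA := hT.sub X hX
  rcases hE X hX with ⟨v, hv, rfl⟩ | ⟨h3, h4⟩
  · obtain ⟨h, -, h5, -⟩ := hC.pend v hv
    rw [cut_single, h5, Finset.card_singleton] at h2
    omega
  have h5 : ¬ D ⊆ X := by
    intro h6
    have h7 : X = A := by
      refine hXA.antisymm fun v hv => ?_
      by_cases hvD : v ∈ D
      · exact h6 hvD
      · obtain ⟨h, h8, -, h9⟩ := hC.pend v (Finset.mem_sdiff.2 ⟨hv, hvD⟩)
        exact (h4 v (Finset.mem_sdiff.2 ⟨hv, hvD⟩) h h8).2 (h6 h9)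
    rw [h7] at h2
    omega
  refine ⟨h3, h5, ?_⟩
  have h6 : 2 ≤ icut G A X := by
    by_contra h7
    rcases hC.two X hXA (by omega) with h8 | h8
    · obtain ⟨v, hv⟩ := h3
      rw [Finset.mem_inter] at hv
      exact Finset.disjoint_left.1 h8 hv.1 hv.2
    · exact h5 h8
  have h7 : G.darts.filter (fun h => G.base h ∈ X ∧ G.base (G.opp h) ∈ A \ X) = bd G X := by
    refine Finset.eq_of_subset_of_card_le (fun h hh => ?_) ?_
    · rw [Finset.mem_filter, Finset.mem_sdiff] at hh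
      exact mem_bd.2 ⟨hh.1, hh.2.1, hh.2.2.2⟩
    · have h8 : (bd G X).card = 2 := h2
      rw [h8]
      exact h6
  intro h hh
  rw [← h7, Finset.mem_filter, Finset.mem_sdiff] at hh
  exact hh.2.2.1

/-- Linking for sets with cut 2. -/
lemma link_two (hA : cut G A ≤ 1) (hT : TCD k G A T) (hC : Core G A D) (hE : ExpF G A D T)
    {X Y : Finset V} (hX : X ∈ T) (hY : Y ∈ T) (hX2 : cut G X = 2) (hY2 : cut G Y = 2)
    {U : Finset V} (hYU : Y ⊆ U) (hUX : U ⊆ X) : 2 ≤ cut G U := by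
  obtain ⟨x1, x2, x3⟩ := cut_two hA hT hC hE hX hX2
  obtain ⟨⟨v, hv⟩, -⟩ := cut_two hA hT hC hE hY hY2
  rw [Finset.mem_inter] at hv
  by_contra h1
  have h2 := icut_le (G := G) (A := A) U
  rcases hC.two U (hUX.trans (hT.sub X hX)) (by omega) with h3 | h3
  · exact Finset.disjoint_left.1 h3 (hYU hv.1) hv.2
  · exact x2 (h3.trans hUX)

/-- Linking for sets with cut 1. -/
lemma link_one (hC : Core G A D) {X Y : Finset V} (hX : X ⊆ A) (hYn : Y.Nonempty)
    (hX1 : cut G X = 1) {U : Finset V} (hYU : Y ⊆ U) (hUX : U ⊆ X) : 1 ≤ cut G U := by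
  by_cases h1 : U = A
  · have h2 : X = A := hX.antisymm (h1 ▸ hUX)
    rw [h1, ← h2, hX1]
  · exact one_le_cut hC.conn (hUX.trans hX) (hYn.mono hYU) h1

/-- Sets with cut 2 properly contained in a set of the family are connected. -/
lemma conn_two (hA : cut G A ≤ 1) (hT : TCD k G A T) (hC : Core G A D) (hE : ExpF G A D T)
    {X : Finset V} (hX : X ∈ T) (hXA : X ≠ A) (hX2 : cut G X = 2) : Conn G X := by
  obtain ⟨x1, x2, x3⟩ := cut_two hA hT hC hE hX hX2
  intro Y hYX hYn hYne hnad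
  have hYX' : Y ⊆ A := hYX.trans (hT.sub X hX)
  have hZn : (X \ Y).Nonempty := Finset.sdiff_nonempty.2 fun h => hYne (hYX.antisymm h)
  have hZX : X \ Y ⊆ A := Finset.sdiff_subset.trans (hT.sub X hX)
  have hYA : Y ≠ A := by
    rintro rfl
    exact hXA ((hT.sub X hX).antisymm hYX)
  have hZA : X \ Y ≠ A := by
    intro h
    exact hXA ((hT.sub X hX).antisymm (h ▸ Finset.sdiff_subset))
  have h1 := one_le_cut hC.conn hYX' hYn hYA
  have h2 := one_le_cut hC.conn hZX hZn hZA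
  have h3 : cut G Y + cut G (X \ Y) ≤ cut G X := by
    unfold cut
    rw [← Finset.card_union_of_disjoint]
    · refine Finset.card_le_card fun h hh => ?_
      rw [Finset.mem_union, mem_bd, mem_bd] at hh
      rw [mem_bd]
      rcases hh with ⟨a1, a2, a3⟩ | ⟨a1, a2, a3⟩
      · refine ⟨a1, hYX a2, fun h4 => hnad h a1 a2 (Finset.mem_sdiff.2 ⟨h4, a3⟩)⟩
      · refine ⟨a1, (Finset.mem_sdiff.1 a2).1, fun h4 => ?_⟩
        have h5 : G.base (G.opp h) ∈ Y := by
          by_contra h6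
          exact a3 (Finset.mem_sdiff.2 ⟨h4, h6⟩)
        refine hnad (G.opp h) (G.opp_mem h a1) h5 ?_
        rw [G.opp_opp h a1]
        exact a2
    · rw [Finset.disjoint_left]
      intro h hh hh'
      rw [mem_bd] at hh hh'
      exact (Finset.mem_sdiff.1 hh'.2.1).2 hh.2.1
  have key : ∀ U ⊆ X, cut G U ≤ 1 → Disjoint U D := by
    intro U hU hc
    have h4 := icut_le (G := G) (A := A) U
    rcases hC.two U (hU.trans (hT.sub X hX)) (by omega) with h5 | h5
    · exact h5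
    · exact absurd (h5.trans hU) x2
  obtain ⟨v, hv⟩ := x1
  rw [Finset.mem_inter] at hv
  by_cases hvY : v ∈ Y
  · exact Finset.disjoint_left.1 (key Y hYX (by omega)) hvY hv.2
  · exact Finset.disjoint_left.1 (key (X \ Y) Finset.sdiff_subset (by omega))
      (Finset.mem_sdiff.2 ⟨hv.1, hvY⟩) hv.2

lemma mem_thn {X Y : Finset V} : Y ∈ thn G T X ↔ Y ∈ T ∧ Y ⊂ X ∧ cut G Y ≤ 2 ∧
    ∀ Z ∈ T, Y ⊂ Z → Z ⊂ X → 2 < cut G Z := Finset.mem_filter


end

/-- Thin sets of the family as elements. -/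
def El {V H : ℕ → Type u} (G : ∀ i, RotGraph (V i) (H i)) (T : ∀ i, Finset (Finset (V i))) :
    Type u := {a : Σ i, Finset (V i) // a.2 ∈ T a.1 ∧ cut (G a.1) a.2 ≤ 2}

/-- Children. -/
def ChT {V H : ℕ → Type u} (G : ∀ i, RotGraph (V i) (H i)) (T : ∀ i, Finset (Finset (V i)))
    (x y : El G T) : Prop :=
  ∃ (i : ℕ) (X Y : Finset (V i)), x.1 = ⟨i, X⟩ ∧ y.1 = ⟨i, Y⟩ ∧ Y ∈ thn (G i) (T i) X

lemma desc_sub {V H : ℕ → Type u} {G : ∀ i, RotGraph (V i) (H i)}
    {T : ∀ i, Finset (Finset (V i))} {m : ℕ} {lb : El G T → ℕ} {x y : El G T}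
    (h : Desc (ChT G T) lb m x y) : ∃ (i : ℕ) (X Y : Finset (V i)), x.1 = ⟨i, X⟩ ∧
      y.1 = ⟨i, Y⟩ ∧ Y ⊆ X := by
  induction h with
  | refl x _ => exact ⟨x.1.1, x.1.2, x.1.2, rfl, rfl, subset_rfl⟩
  | step x z y _ hxz _ ih =>
    obtain ⟨i, Z, Y, h1, h2, h3⟩ := ih
    obtain ⟨j, X, Z', h4, h5, h6⟩ := hxz
    rw [h1] at h5
    obtain ⟨h7, h8⟩ := Sigma.mk.inj_iff.1 h5
    subst h7
    have h9 := eq_of_heq h8
    subst h9
    exact ⟨i, X, Y, h4, h2, h3.trans (mem_thn.1 h6).2.1.subset⟩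

end T26

open T26 Step6

/-- (T2) -/
theorem t2_6 (hE : StExp.{u}) (hTr : StTrav.{u, u}) (hM : StMark.{u}) (hTh : StThick.{u})
    (hZ : StMainZ.{u, u, u}) : StT2.{u} := by
  intro k Q q _ hq V H _ _ G lab A D T hA hA1 hT hC hX
  set le : El G T → El G T → Prop := fun a b =>
    ∃ β, PE (fun v v' => q (lab a.1.1 v) (lab b.1.1 v')) (G a.1.1) a.1.2 (G b.1.1) b.1.2 β
    with hle
  have : IsPreorder (El G T) le :=
    { refl := fun x => ⟨id, PE.refl (fun v w => q (lab x.1.1 v) (lab x.1.1 w))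
        (fun v => refl_of q _) _ _⟩
      trans := fun x y z ⟨β, h⟩ ⟨β', h'⟩ => ⟨β' ∘ β,
        PE.trans (r₁ := fun v w => q (lab x.1.1 v) (lab y.1.1 w))
          (r₂ := fun v w => q (lab y.1.1 v) (lab z.1.1 w))
          (r := fun v w => q (lab x.1.1 v) (lab z.1.1 w))
          (fun u v w h h' => trans_of q h h') h h'⟩ }
  have main : (Set.univ : Set (El G T)).PartiallyWellOrderedOn le := by
    refine wqo_of_levels le (fun x => x.1.2.card) (fun x => cut (G x.1.1) x.1.2) 2 (ChT G T)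
      ?_ ?_ ?_ ?_
    · rintro ⟨⟨a, b⟩, hx⟩ ⟨⟨c, d⟩, hy⟩ ⟨i, X, Y, h1, h2, h3⟩
      have h1' : (⟨a, b⟩ : Σ i, Finset (V i)) = ⟨i, X⟩ := h1
      have h2' : (⟨c, d⟩ : Σ i, Finset (V i)) = ⟨i, Y⟩ := h2
      cases h1'
      cases h2'
      exact Finset.card_lt_card (mem_thn.1 h3).2.1
    · intro x
      exact x.2.2
    · intro m x y hx hy hd
      obtain ⟨i, X, Y, h1, h2, h3⟩ := desc_sub hd
      obtain ⟨⟨a, b⟩, hxT, hxc⟩ := x
      obtain ⟨⟨c, d⟩, hyT, hyc⟩ := y
      have h1' : (⟨a, b⟩ : Σ i, Finset (V i)) = ⟨i, X⟩ := h1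
      have h2' : (⟨c, d⟩ : Σ i, Finset (V i)) = ⟨i, Y⟩ := h2
      cases h1'
      cases h2'
      change cut (G i) X = m at hx
      change cut (G i) Y = m at hy
      change X ∈ T i at hxT
      change Y ∈ T i at hyT
      change cut (G i) X ≤ 2 at hxc
      refine exists_link (fun v w => q (lab i v) (lab i w)) (fun v => refl_of q _) (G i) Y X h3
        (((hT i).sub X hxT).trans (hA i)) m hy hx ?_
      intro U hYU hUX
      rcases m with _ | _ | _ | m
      · exact Nat.zero_le _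
      · exact link_one (hC i) ((hT i).sub X hxT) ((hT i).ne Y hyT) hx hYU hUX
      · exact link_two (hA1 i) (hT i) (hC i) (hX i) hxT hyT hx hy hYU hUX
      · omega
    · intro S hS
      rw [Set.partiallyWellOrderedOn_iff_exists_lt]
      intro f hf
      have hmem : ∀ n, (f n).1.2 ∈ T (f n).1.1 := fun n => (f n).2.1
      have hsub : ∀ n, (f n).1.2 ⊆ A (f n).1.1 := fun n => (hT _).sub _ (hmem n)
      have hth : ∀ n, _ := fun n => hTh k _ _ (G (f n).1.1) (A (f n).1.1) (T (f n).1.1)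
        (f n).1.2 (hA _) (hT _) (hmem n)
      obtain ⟨m, n, hmn, h⟩ := step_6 hE hM V H G Q q hq lab
        (Subtype.val '' {y | ∃ x ∈ S, ChT G T x y})
        (by
          rintro _ ⟨y, -, rfl⟩
          exact y.2.2)
        (hS.image_of_monotone_on (fun a _ b _ h => h))
        (fun n => (f n).1.1) (fun n => (f n).1.2)
        (fun n => thn (G (f n).1.1) (T (f n).1.1) (f n).1.2)
        (fun n => (hsub n).trans (hA _)) (fun n => (hth n).1)
        (by
          intro n X hXn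
          obtain ⟨x1, x2, x3, -⟩ := mem_thn.1 hXn
          have hXA : X ⊂ A (f n).1.1 := x2.trans_subset (hsub n)
          rcases Nat.lt_or_ge (cut (G (f n).1.1) X) 2 with h2 | h2
          · intro l hl l' hl' hne
            have h3 : 1 < (bd (G (f n).1.1) X).card := Finset.one_lt_card.2 ⟨l, hl, l', hl', hne⟩
            unfold cut at h2
            omega
          · exact hTr _ _ _ _ (hXA.subset.trans (hA _)) x3
              (conn_two (hA1 _) (hT _) (hC _) (hX _) x1 hXA.ne (by omega)))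
        (by
          intro n X hXn
          obtain ⟨x1, x2, x3, -⟩ := mem_thn.1 hXn
          exact ⟨⟨⟨(f n).1.1, X⟩, x1, x3⟩, ⟨f n, hf n, (f n).1.1, (f n).1.2, X, rfl, rfl, hXn⟩,
            rfl⟩)
        (by
          intro Q' q' _ hq' lab'
          refine hZ (k + k * k) 4 Q' q' hq' _ _ (fun n => ctr (G (f n).1.1)
            (thn (G (f n).1.1) (T (f n).1.1) (f n).1.2)) lab' _ (fun n => ?_)
            (fun n => (hth n).2)
          intro v hv
          rw [cA, Finset.mem_image] at hv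
          obtain ⟨a, ha, rfl⟩ := hv
          exact Finset.mem_union_left _ (Finset.mem_image_of_mem _ (hA _ (hsub n ha))))
      exact ⟨m, n, hmn, h⟩
  obtain ⟨m, n, hmn, β, hβ⟩ := main.exists_lt
    (f := fun n => (⟨⟨n, A n⟩, (hT n).top, (hA1 n).trans (by norm_num)⟩ : El G T))
    (fun n => Set.mem_univ _)
  exact ⟨m, n, hmn, β, hβ⟩

end RotWqo.Tc
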