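import Pool.Agent.Lib.MP_cb4a0f_co.Tc.Stmts

/-!
# MP_cb4a0f_co: the tree of fat bags of a tree-cut decomposition
-/

open Classical

namespace RotWqo.Tc.Thick18

open RotWqo.Bag RotWqo.Hk RotWqo.Tc

universe u

variable {V H : Type u}

theorem mem_sd {α : Type*} {s t : Finset α} {a : α} : a ∈ s \ t ↔ a ∈ s ∧ a ∉ t :=
  Finset.mem_sdiff

/-! ### Trees -/

theorem bset_leaf (B : Finset V) : bset (Tree.leaf B) = B := by
  simp [bset, Tree.set, Tree.leaves]

theorem bset_node (l r : Tree (Finset V)) : bset (Tree.node l r) = bset l ∪ bset r := by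
  simp [bset, Tree.set, Tree.leaves, Finset.sup_union]

theorem leaf_subset {t : Tree (Finset V)} {B : Finset V} (h : B ∈ t.leaves) : B ⊆ bset t := by
  have h1 : B ∈ t.set := by simpa [Tree.set] using h
  exact Finset.le_sup (f := id) h1

/-! ### Cuts -/

theorem cut_sdiff_le (G : RotGraph V H) (S R : Finset V) : cut G (S \ R) ≤ cut G S + cut G R := by
  have := cut_posimod G S R
  omega

theorem cut_sup_le (G : RotGraph V H) (k : ℕ) (D : Finset (Finset V)) (h : ∀ Y ∈ D, cut G Y ≤ k) :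
    cut G (D.sup id) ≤ D.card * k := by
  induction D using Finset.induction_on with
  | empty =>
    have : bd G (∅ : Finset V) = ∅ := by
      ext h; simp [mem_bd]
    simp [cut, this]
  | insert Y D hY ih =>
    rw [Finset.sup_insert, Finset.card_insert_of_notMem hY]
    have h1 := cut_submod G Y (D.sup id)
    have h2 := h Y (Finset.mem_insert_self _ _)
    have h3 := ih fun Y' hY' => h Y' (Finset.mem_insert_of_mem hY')
    simp only [id, Finset.sup_eq_union] at h1 h3 ⊢
    rw [Nat.add_mul, one_mul]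
    omega

/-! ### The contracted graph -/

/-- The members of `C` are in `S` or disjoint from `S`. -/
def Cl (C : Finset (Finset V)) (S : Finset V) : Prop := ∀ Y ∈ C, Y ⊆ S ∨ Disjoint Y S

variable {G : RotGraph V H} {C : Finset (Finset V)}

theorem cls_of_mem (hd : ∀ X ∈ C, ∀ Y ∈ C, X ≠ Y → Disjoint X Y) {X : Finset V} {v : V}
    (hX : X ∈ C) (hv : v ∈ X) : cls C v = .inr X := by
  have h : ∃ X ∈ C, v ∈ X := ⟨X, hX, hv⟩
  unfold cls
  rw [dif_pos h]
  congr 1
  by_contra h1
  exact Finset.disjoint_left.1 (hd _ h.choose_spec.1 _ hX h1) h.choose_spec.2 hv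

theorem cls_of_notMem {v : V} (h : ∀ X ∈ C, v ∉ X) : cls C v = .inl v := by
  unfold cls
  rw [dif_neg]
  rintro ⟨X, h1, h2⟩
  exact h X h1 h2

theorem mem_cA {S : Finset V} (hc : Cl C S) (v : V) : cls C v ∈ cA C S ↔ v ∈ S := by
  unfold cA
  constructor
  · intro h
    obtain ⟨w, h1, h2⟩ := Finset.mem_image.1 h
    rcases h3 : cls C v with a | Y
    · rw [h3] at h2
      rw [cls_inl h3, ← cls_inl h2]
      exact h1
    · rw [h3] at h2
      obtain ⟨h4, h5⟩ := cls_inr h3
      obtain ⟨-, h6⟩ := cls_inr h2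
      rcases hc Y h4 with h7 | h7
      · exact h7 h5
      · exact absurd h1 (Finset.disjoint_left.1 h7 h6)
  · exact Finset.mem_image_of_mem _

theorem cl_sdiff {S R : Finset V} (hS : Cl C S) (hR : Cl C R) : Cl C (S \ R) := by
  intro Y hY
  rcases hS Y hY with h1 | h1
  · rcases hR Y hY with h2 | h2
    · right
      exact Finset.disjoint_left.2 fun v hv hv' => (Finset.mem_sdiff.1 hv').2 (h2 hv)
    · left
      intro v hv
      exact Finset.mem_sdiff.2 ⟨h1 hv, Finset.disjoint_left.1 h2 hv⟩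
  · right
    exact Finset.disjoint_left.2 fun v hv hv' =>
      Finset.disjoint_left.1 h1 hv (Finset.mem_sdiff.1 hv').1

theorem cl_sup {D : Finset (Finset V)} (hD : ∀ R ∈ D, Cl C R) : Cl C (D.sup id) := by
  intro Y hY
  by_cases h : ∃ R ∈ D, Y ⊆ R
  · obtain ⟨R, h1, h2⟩ := h
    left
    exact h2.trans (Finset.le_sup (f := id) h1)
  · right
    rw [Finset.disjoint_left]
    intro v hv hv'
    obtain ⟨R, h1, h2⟩ := Finset.mem_sup.1 hv'
    rcases hD R h1 Y hY with h3 | h3
    · exact h ⟨R, h1, h3⟩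
    · exact Finset.disjoint_left.1 h3 hv h2

theorem disjoint_cA {S R : Finset V} (hS : Cl C S) (hR : Cl C R) (h : Disjoint S R) :
    Disjoint (cA C S) (cA C R) := by
  rw [Finset.disjoint_left]
  intro w hw hw'
  obtain ⟨v, hv, rfl⟩ := Finset.mem_image.1 hw
  exact Finset.disjoint_left.1 h ((mem_cA hS v).1 hw) ((mem_cA hR v).1 hw')

theorem mem_ctr_inl {h : H} : (.inl h : H ⊕ (Finset V × Bool)) ∈ (ctr G C).darts ↔
    h ∈ G.darts ∧ ∀ X, cls C (G.base h) = .inr X → cls C (G.base (G.opp h)) ≠ .inr X := by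
  simp [ctr, ctrD]

theorem bd_ctr {S : Finset V} (hc : Cl C S) :
    bd (ctr G C) (cA C S) = (bd G S).image .inl := by
  ext x
  rcases x with h | p
  · rw [mem_bd, mem_ctr_inl]
    have e1 : (ctr G C).base (.inl h) = cls C (G.base h) := rfl
    have e2 : (ctr G C).base ((ctr G C).opp (.inl h)) = cls C (G.base (G.opp h)) := rfl
    rw [e1, e2, mem_cA hc, mem_cA hc]
    simp only [Finset.mem_image, Sum.inl.injEq, exists_eq_right, mem_bd]
    constructor
    · rintro ⟨⟨h1, -⟩, h2, h3⟩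
      exact ⟨h1, h2, h3⟩
    · rintro ⟨h1, h2, h3⟩
      refine ⟨⟨h1, fun X h4 h5 => ?_⟩, h2, h3⟩
      have h6 := (mem_cA hc (G.base h)).2 h2
      rw [h4, ← h5] at h6
      exact h3 ((mem_cA hc _).1 h6)
  · rw [mem_bd]
    have e1 : (ctr G C).base (.inr p) = .inr p.1 := rfl
    have e2 : (ctr G C).base ((ctr G C).opp (.inr p)) = .inr p.1 := rfl
    rw [e1, e2]
    simp

theorem cut_ctr {S : Finset V} (hc : Cl C S) : cut (ctr G C) (cA C S) = cut G S := by
  rw [cut, cut, bd_ctr hc, Finset.card_image_of_injective _ Sum.inl_injective]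

theorem cl_of_mem (hd : ∀ X ∈ C, ∀ Y ∈ C, X ≠ Y → Disjoint X Y) {X : Finset V} (hX : X ∈ C) :
    Cl C X := by
  intro Y hY
  by_cases h : Y = X
  · left; rw [h]
  · right; exact hd Y hY X hX h

theorem cA_of_mem (hd : ∀ X ∈ C, ∀ Y ∈ C, X ≠ Y → Disjoint X Y) {X : Finset V} (hX : X ∈ C)
    (hne : X.Nonempty) : cA C X = {.inr X} := by
  ext w
  simp only [cA, Finset.mem_image, Finset.mem_singleton]
  constructor
  · rintro ⟨v, hv, rfl⟩
    exact cls_of_mem hd hX hv
  · rintro rfl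
    obtain ⟨v, hv⟩ := hne
    exact ⟨v, hv, cls_of_mem hd hX hv⟩

theorem rot_len (hd : ∀ X ∈ C, ∀ Y ∈ C, X ≠ Y → Disjoint X Y) {X : Finset V} (hX : X ∈ C)
    (h2 : cut G X ≤ 2) : ((ctr G C).rot (.inr X)).length ≤ 4 := by
  have e1 : (ctr G C).rot (.inr X) =
      (lgs G C X).map .inl ++ [.inr (X, false), .inr (X, true)] := by
    change ctrR G C (.inr X) = _
    simp only [ctrR]
    rw [if_pos hX]
  rw [e1, List.length_append, List.length_map]
  have h3 : (lgs G C X).length ≤ 2 := by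
    rw [lgs, Finset.length_toList]
    refine (Finset.card_le_card ?_).trans h2
    intro h hh
    rw [Finset.mem_filter] at hh
    rw [mem_bd]
    refine ⟨hh.1, (cls_inr hh.2.1).2, fun h4 => hh.2.2 (cls_of_mem hd hX h4)⟩
  simp only [List.length_cons, List.length_nil]
  omega

/-! ### Laminar families -/

theorem exists_max {T : Finset (Finset V)} (p : Finset V → Prop) {Y : Finset V} (hY : Y ∈ T)
    (hp : p Y) : ∃ Z ∈ T, p Z ∧ Y ⊆ Z ∧ ∀ Z' ∈ T, p Z' → Z ⊆ Z' → Z' = Z := by
  obtain ⟨Z, hZ, hmax⟩ := Finset.exists_max_image (T.filter fun Z => p Z ∧ Y ⊆ Z) Finset.card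
    ⟨Y, Finset.mem_filter.2 ⟨hY, hp, subset_rfl⟩⟩
  rw [Finset.mem_filter] at hZ
  refine ⟨Z, hZ.1, hZ.2.1, hZ.2.2, fun Z' h1 h2 h3 => ?_⟩
  have h4 := hmax Z' (Finset.mem_filter.2 ⟨h1, h2, hZ.2.2.trans h3⟩)
  exact (Finset.eq_of_subset_of_card_le h3 h4).symm

section tcd

variable {k : ℕ} {A : Finset V} {T : Finset (Finset V)} {X : Finset V}

theorem mem_thn {Y : Finset V} : Y ∈ thn G T X ↔
    Y ∈ T ∧ Y ⊂ X ∧ cut G Y ≤ 2 ∧ ∀ Z ∈ T, Y ⊂ Z → Z ⊂ X → 2 < cut G Z := by
  simp [thn]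

theorem mem_chd {Y W : Finset V} : Y ∈ chd T W ↔
    Y ∈ T ∧ Y ⊂ W ∧ ∀ Z ∈ T, Y ⊂ Z → ¬ Z ⊂ W := by
  simp [chd]

theorem fam_18 (hT : TCD k G A T) : Fam G X (thn G T X) where
  sub Y hY := (mem_thn.1 hY).2.1.1
  ne Y hY := hT.ne Y (mem_thn.1 hY).1
  disj Y hY Y' hY' hne := by
    obtain ⟨h1, h2, h3, h4⟩ := mem_thn.1 hY
    obtain ⟨h1', h2', h3', h4'⟩ := mem_thn.1 hY'
    rcases hT.lam Y h1 Y' h1' with h | h | h
    · have := h4 Y' h1' (h.ssubset_of_ne hne) h2'
      omega
    · have := h4' Y h1 (h.ssubset_of_ne hne.symm) h2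
      omega
    · exact h
  thin Y hY := (mem_thn.1 hY).2.2.1

theorem exists_thn {Z : Finset V} (hZ : Z ∈ T) (hZX : Z ⊂ X) (h2 : cut G Z ≤ 2) :
    ∃ Y ∈ thn G T X, Z ⊆ Y := by
  obtain ⟨Y, h3, h4, h5, h6⟩ := exists_max (T := T) (fun Y => Y ⊂ X ∧ cut G Y ≤ 2) hZ ⟨hZX, h2⟩
  refine ⟨Y, mem_thn.2 ⟨h3, h4.1, h4.2, fun W h7 h8 h9 => ?_⟩, h5⟩
  by_contra h10
  have h11 := h6 W h7 ⟨h9, not_lt.1 h10⟩ h8.1
  exact h8.ne h11.symm

/-- The sets which are decomposed. -/
structure In (G : RotGraph V H) (T : Finset (Finset V)) (X W : Finset V) : Prop where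
  mem : W ∈ T
  sub : W ⊆ X
  not : ∀ Y ∈ thn G T X, ¬ W ⊆ Y

theorem In.closed (hT : TCD k G A T) {W : Finset V} (hW : In G T X W) : Cl (thn G T X) W := by
  intro Y hY
  rcases hT.lam Y (mem_thn.1 hY).1 W hW.mem with h | h | h
  · exact Or.inl h
  · exact absurd h (hW.not Y hY)
  · exact Or.inr h

theorem In.top (hX : X ∈ T) : In G T X X :=
  ⟨hX, subset_rfl, fun _ hY h => (mem_thn.1 hY).2.1.2 h⟩

theorem not_disjoint_of_subset (hT : TCD k G A T) {Y Y' W : Finset V} (hY : Y ∈ T)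
    (h : Y ⊆ Y') (h' : Y ⊆ W) : ¬ Disjoint Y' W := by
  intro hd
  obtain ⟨v, hv⟩ := hT.ne Y hY
  exact Finset.disjoint_left.1 hd (h hv) (h' hv)

theorem thin_child (hT : TCD k G A T) {W Y : Finset V} (hW : In G T X W) (hY : Y ∈ chd T W)
    (h2 : cut G Y ≤ 2) : Y ∈ thn G T X := by
  obtain ⟨h3, h4, h5⟩ := mem_chd.1 hY
  have hYX : Y ⊂ X := h4.trans_subset hW.sub
  refine mem_thn.2 ⟨h3, hYX, h2, fun Z h6 h7 h8 => ?_⟩
  by_contra h9
  obtain ⟨Y', h10, h11⟩ := exists_thn h6 h8 (not_lt.1 h9)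
  rcases hT.lam Z h6 W hW.mem with h | h | h
  · by_cases h12 : Z = W
    · exact hW.not Y' h10 (h12 ▸ h11)
    · exact h5 Z h6 h7 (h.ssubset_of_ne h12)
  · exact hW.not Y' h10 (h.trans h11)
  · exact not_disjoint_of_subset hT h3 h7.1 h4.1 h

theorem thick_child (hT : TCD k G A T) {W Y : Finset V} (hW : In G T X W) (hY : Y ∈ chd T W)
    (h2 : 2 < cut G Y) : In G T X Y := by
  obtain ⟨h3, h4, h5⟩ := mem_chd.1 hY
  refine ⟨h3, h4.1.trans hW.sub, fun Y' h6 h7 => ?_⟩
  obtain ⟨h8, h9, h10, -⟩ := mem_thn.1 h6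
  have h11 : Y ≠ Y' := by
    rintro rfl
    omega
  rcases hT.lam Y' h8 W hW.mem with h | h | h
  · by_cases h12 : Y' = W
    · exact hW.not Y' h6 (h12 ▸ subset_rfl)
    · exact h5 Y' h8 (h7.ssubset_of_ne h11) (h.ssubset_of_ne h12)
  · exact hW.not Y' h6 h
  · exact not_disjoint_of_subset hT h3 h7 h4.1 h

theorem chd_disj (hT : TCD k G A T) {W Y Y' : Finset V} (hY : Y ∈ chd T W) (hY' : Y' ∈ chd T W)
    (hne : Y ≠ Y') : Disjoint Y Y' := by
  obtain ⟨h1, h2, h3⟩ := mem_chd.1 hY
  obtain ⟨h1', h2', h3'⟩ := mem_chd.1 hY'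
  rcases hT.lam Y h1 Y' h1' with h | h | h
  · exact absurd h2' (h3 Y' h1' (h.ssubset_of_ne hne))
  · exact absurd h2 (h3' Y h1 (h.ssubset_of_ne hne.symm))
  · exact h

theorem bag_or_child {W : Finset V} {v : V} (hv : v ∈ W) :
    v ∈ bag T W ∨ ∃ Y ∈ chd T W, v ∈ Y := by
  by_cases h : ∃ Y ∈ T, Y ⊂ W ∧ v ∈ Y
  · right
    obtain ⟨Y, h1, h2⟩ := h
    obtain ⟨Z, h3, h4, h5, h6⟩ := exists_max (T := T) (fun Y => Y ⊂ W ∧ v ∈ Y) h1 h2
    refine ⟨Z, mem_chd.2 ⟨h3, h4.1, fun Z' h7 h8 h9 => ?_⟩, h4.2⟩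
    exact h8.ne (h6 Z' h7 ⟨h9, h8.1 h4.2⟩ h8.1).symm
  · left
    rw [bag, Finset.mem_filter]
    exact ⟨hv, fun Y h1 h2 h3 => h ⟨Y, h1, h2, h3⟩⟩

theorem cls_bag (hT : TCD k G A T) {W : Finset V} (hW : In G T X W) {v : V} (hv : v ∈ bag T W) :
    cls (thn G T X) v = .inl v := by
  rw [bag, Finset.mem_filter] at hv
  refine cls_of_notMem fun Y hY hvY => ?_
  obtain ⟨h8, h9, h10, -⟩ := mem_thn.1 hY
  rcases hT.lam Y h8 W hW.mem with h | h | h
  · by_cases h12 : Y = W
    · exact hW.not Y hY (h12 ▸ subset_rfl)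
    · exact hv.2 Y h8 (h.ssubset_of_ne h12) hvY
  · exact hW.not Y hY h
  · exact Finset.disjoint_left.1 h hvY hv.1

/-- The children with many edges leaving. -/
noncomputable def tck (G : RotGraph V H) (T : Finset (Finset V)) (W : Finset V) :
    Finset (Finset V) :=
  (chd T W).filter (fun Y => 2 < cut G Y)

theorem mem_tck {W Y : Finset V} : Y ∈ tck G T W ↔ Y ∈ chd T W ∧ 2 < cut G Y := by
  simp [tck]

theorem fat_18 (hT : TCD k G A T) {W : Finset V} (hW : In G T X W) :
    Fat (k + k * k) 4 (ctr G (thn G T X)) (cA (thn G T X) (W \ (tck G T W).sup id)) := by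
  have hF := fam_18 (X := X) hT
  obtain ⟨Z, hZ, hZ2, hZn, hZc⟩ := hT.node W hW.mem
  have hZC : ∀ Y ∈ Z, Y ∈ thn G T X := fun Y hY => thin_child hT hW (hZ hY) (hZ2 Y hY)
  refine ⟨Z.image .inr, ?_, ?_, ?_⟩
  · intro w hw
    obtain ⟨Y, hY, rfl⟩ := Finset.mem_image.1 hw
    obtain ⟨y, hy⟩ := hF.ne Y (hZC Y hY)
    refine Finset.mem_image.2 ⟨y, Finset.mem_sdiff.2 ⟨(mem_chd.1 (hZ hY)).2.1.1 hy, ?_⟩,
      cls_of_mem hF.disj (hZC Y hY) hy⟩
    intro h1
    obtain ⟨Y', h2, h3⟩ := Finset.mem_sup.1 h1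
    obtain ⟨h4, h5⟩ := mem_tck.1 h2
    have h6 : Y ≠ Y' := by
      rintro rfl
      have := hZ2 Y hY
      omega
    exact Finset.disjoint_left.1 (chd_disj hT (hZ hY) h4 h6) hy h3
  · refine (Finset.card_le_card (t := (bag T W).image .inl ∪ (chd T W \ Z).image .inr) ?_).trans ?_
    · intro w hw
      obtain ⟨h1, h2⟩ := mem_sd.1 hw
      obtain ⟨v, h3, rfl⟩ := Finset.mem_image.1 h1
      obtain ⟨h4, h5⟩ := Finset.mem_sdiff.1 h3
      rcases bag_or_child (T := T) h4 with h6 | ⟨Y, h6, h7⟩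
      · refine Finset.mem_union_left _ (Finset.mem_image.2 ⟨v, h6, (cls_bag hT hW h6).symm⟩)
      · have h8 : cut G Y ≤ 2 := by
          by_contra h8
          exact h5 (Finset.mem_sup.2 ⟨Y, mem_tck.2 ⟨h6, not_le.1 h8⟩, h7⟩)
        have h9 := cls_of_mem hF.disj (thin_child hT hW h6 h8) h7
        rw [h9] at h2 ⊢
        refine Finset.mem_union_right _ (Finset.mem_image_of_mem _
          (Finset.mem_sdiff.2 ⟨h6, fun h10 => h2 (Finset.mem_image_of_mem _ h10)⟩))
    · refine (Finset.card_union_le _ _).trans ?_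
      have h1 : ((bag T W).image (Sum.inl : V → V ⊕ Finset V)).card ≤ (bag T W).card :=
        Finset.card_image_le
      have h2 : ((chd T W \ Z).image (Sum.inr : Finset V → V ⊕ Finset V)).card ≤
          (chd T W \ Z).card := Finset.card_image_le
      have h3 : k ≤ k + k * k := Nat.le_add_right _ _
      omega
  · intro z hz
    obtain ⟨Y, hY, rfl⟩ := Finset.mem_image.1 hz
    have h1 := hZC Y hY
    refine ⟨rot_len hF.disj h1 (hZ2 Y hY), ?_, ?_⟩
    · rw [← cA_of_mem hF.disj h1 (hF.ne Y h1), cut_ctr (cl_of_mem hF.disj h1)]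
      exact hZ2 Y hY
    · intro z' hz' hne
      obtain ⟨Y', hY', rfl⟩ := Finset.mem_image.1 hz'
      have h3 : Y ≠ Y' := fun h => hne (by rw [h])
      have h4 := hZn Y hY Y' hY' h3
      rintro (h | p) h5 h6 h7
      · rw [mem_ctr_inl] at h5
        have e1 : (ctr G (thn G T X)).base (.inl h) = cls (thn G T X) (G.base h) := rfl
        have e2 : (ctr G (thn G T X)).base ((ctr G (thn G T X)).opp (.inl h)) =
          cls (thn G T X) (G.base (G.opp h)) := rfl
        rw [e1, Finset.mem_singleton] at h6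
        rw [e2, Finset.mem_singleton] at h7
        exact h4 h h5.1 (cls_inr h6).2 (cls_inr h7).2
      · have e1 : (ctr G (thn G T X)).base (.inr p) = .inr p.1 := rfl
        have e2 : (ctr G (thn G T X)).base ((ctr G (thn G T X)).opp (.inr p)) = .inr p.1 := rfl
        rw [e1, Finset.mem_singleton] at h6
        rw [e2, Finset.mem_singleton, h6, Sum.inr.injEq] at h7
        exact h3 h7

theorem tck_card (hT : TCD k G A T) {W : Finset V} (hW : W ∈ T) : (tck G T W).card ≤ k := by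
  obtain ⟨Z, hZ, hZ2, hZn, hZc⟩ := hT.node W hW
  refine (Finset.card_le_card (t := chd T W \ Z) ?_).trans (le_trans (Nat.le_add_left _ _) hZc)
  intro Y hY
  obtain ⟨h1, h2⟩ := mem_tck.1 hY
  refine Finset.mem_sdiff.2 ⟨h1, fun h3 => ?_⟩
  have := hZ2 Y h3
  omega

/-- The part of `W` without the thick children that are not in `D`. -/
noncomputable def prt (G : RotGraph V H) (T : Finset (Finset V)) (W : Finset V)
    (D : Finset (Finset V)) : Finset V :=
  W \ (tck G T W \ D).sup id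

theorem prt_insert (hT : TCD k G A T) {W Y : Finset V} {D : Finset (Finset V)}
    (hY : Y ∈ tck G T W) (hYD : Y ∉ D) :
    prt G T W (insert Y D) = prt G T W D ∪ Y ∧ Disjoint (prt G T W D) Y := by
  have h0 := mem_tck.1 hY
  constructor
  · ext v
    simp only [prt, Finset.mem_sdiff, Finset.mem_union, Finset.mem_sup, id, not_exists, not_and,
      Finset.mem_insert, not_or]
    constructor
    · rintro ⟨h1, h2⟩
      by_cases hv : v ∈ Y
      · exact Or.inr hv
      · left
        refine ⟨h1, fun Y' h3 h4 => ?_⟩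
        by_cases h5 : Y' = Y
        · exact hv (h5 ▸ h4)
        · exact h2 Y' ⟨h3.1, h5, h3.2⟩ h4
    · rintro (⟨h1, h2⟩ | h1)
      · exact ⟨h1, fun Y' h3 => h2 Y' ⟨h3.1, h3.2.2⟩⟩
      · refine ⟨(mem_chd.1 h0.1).2.1.1 h1, fun Y' h3 h4 => ?_⟩
        exact Finset.disjoint_left.1 (chd_disj hT (mem_tck.1 h3.1).1 h0.1 h3.2.1) h4 h1
  · rw [Finset.disjoint_left]
    intro v h1 h2
    rw [prt, Finset.mem_sdiff] at h1
    exact h1.2 (Finset.mem_sup.2 ⟨Y, Finset.mem_sdiff.2 ⟨hY, hYD⟩, h2⟩)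

theorem tree_18 (hT : TCD k G A T) (n : ℕ) : ∀ W : Finset V, W.card ≤ n → In G T X W →
    ∃ t, IsBagTreeZ (k + k * k) 4 (ctr G (thn G T X)) (cA (thn G T X) W) t := by
  induction n with
  | zero =>
    intro W h1 h2
    exact absurd (Finset.card_pos.2 (hT.ne W h2.mem)) (by omega)
  | succ n ih =>
    intro W hWn hW
    -- the children
    have hch : ∀ Y ∈ tck G T W, In G T X Y ∧
        ∃ t, IsBagTreeZ (k + k * k) 4 (ctr G (thn G T X)) (cA (thn G T X) Y) t := by
      intro Y hY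
      obtain ⟨h1, h2⟩ := mem_tck.1 hY
      have h3 := thick_child hT hW h1 h2
      refine ⟨h3, ih Y ?_ h3⟩
      have := Finset.card_lt_card (mem_chd.1 h1).2.1
      omega
    have hcl : ∀ D, Cl (thn G T X) (prt G T W D) := by
      intro D
      refine cl_sdiff (hW.closed hT) (cl_sup fun R hR => ?_)
      exact ((hch R (Finset.mem_sdiff.1 hR).1).1).closed hT
    have hcut : ∀ D, cut (ctr G (thn G T X)) (cA (thn G T X) (prt G T W D)) ≤ k + k * k := by
      intro D
      rw [cut_ctr (hcl D)]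
      refine (cut_sdiff_le G _ _).trans (Nat.add_le_add (hT.cuts W hW.mem) ?_)
      refine (cut_sup_le G k _ fun Y hY => ?_).trans (Nat.mul_le_mul_right _ ?_)
      · exact hT.cuts Y (mem_chd.1 (mem_tck.1 (Finset.mem_sdiff.1 hY).1).1).1
      · exact (Finset.card_le_card Finset.sdiff_subset).trans (tck_card hT hW.mem)
    have key : ∀ D ⊆ tck G T W, (prt G T W D).Nonempty →
        ∃ t, IsBagTreeZ (k + k * k) 4 (ctr G (thn G T X)) (cA (thn G T X) (prt G T W D)) t := by
      intro D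
      induction D using Finset.induction_on with
      | empty =>
        intro _ hne
        refine ⟨.leaf (cA (thn G T X) (prt G T W ∅)), ?_⟩
        refine ⟨by simp [Tree.leaves], ?_, ?_, bset_leaf _, ?_⟩
        · intro F hF
          simp only [Tree.leaves, List.mem_singleton] at hF
          rw [hF, cA]
          exact hne.image _
        · intro F hF
          simp only [Tree.leaves, List.mem_singleton] at hF
          rw [hF]
          have := fat_18 hT hW
          rwa [prt, Finset.sdiff_empty]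
        · intro s hs
          cases hs
          rw [bset_leaf]
          exact hcut ∅
      | insert Y D hYD ihD =>
        intro hsub _
        have hY : Y ∈ tck G T W := hsub (Finset.mem_insert_self _ _)
        have hDs : D ⊆ tck G T W := fun R hR => hsub (Finset.mem_insert_of_mem hR)
        obtain ⟨e1, e2⟩ := prt_insert hT hY hYD
        obtain ⟨hYin, tY, htY⟩ := hch Y hY
        by_cases hne : (prt G T W D).Nonempty
        · obtain ⟨t, ht⟩ := ihD hDs hne
          have hdis := disjoint_cA (hcl D) (hYin.closed hT) e2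
          have hb : bset (Tree.node t tY) = cA (thn G T X) (prt G T W (insert Y D)) := by
            rw [bset_node, ht.top, htY.top, e1]
            ext w
            simp only [cA, Finset.mem_union, Finset.mem_image, or_and_right, exists_or]
          refine ⟨.node t tY, ?_, ?_, ?_, hb, ?_⟩
          · rw [Tree.leaves, List.pairwise_append]
            refine ⟨ht.pw, htY.pw, fun a ha b hb => ?_⟩
            have h1 := leaf_subset ha
            have h2 := leaf_subset hb
            rw [ht.top] at h1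
            rw [htY.top] at h2
            exact Disjoint.mono h1 h2 hdis
          · intro F hF
            rw [Tree.leaves, List.mem_append] at hF
            rcases hF with hF | hF
            · exact ht.ne F hF
            · exact htY.ne F hF
          · intro F hF
            rw [Tree.leaves, List.mem_append] at hF
            rcases hF with hF | hF
            · exact ht.fat F hF
            · exact htY.fat F hF
          · intro s hs
            cases hs with
            | refl =>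
              rw [hb]
              exact hcut _
            | left _ _ h => exact ht.cuts s h
            | right _ _ h => exact htY.cuts s h
        · rw [Finset.not_nonempty_iff_eq_empty] at hne
          rw [e1, hne, Finset.empty_union]
          exact ⟨tY, htY⟩
    have hfull : prt G T W (tck G T W) = W := by
      rw [prt, Finset.sdiff_self, Finset.sup_empty]
      exact Finset.sdiff_empty
    have := key (tck G T W) subset_rfl (by rw [hfull]; exact hT.ne W hW.mem)
    rwa [hfull] at this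

end tcd

/-- (T2a) -/
theorem t2a_18 : StThick.{u} := by
  intro k V H G A T X _ hT hX
  exact ⟨fam_18 hT, tree_18 hT X.card X le_rfl (In.top hX)⟩

end RotWqo.Tc.Thick18
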