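import Pool.Agent.Lib.MP_cb4a0f_co.Tc.Stmts
import Pool.Agent.Lib.MP_cb4a0f_co.Link
import Pool.Agent.Lib.MP_cb4a0f_co.Sem

/-!
# MP_cb4a0f_co, Tc: connected thin sets can be traversed
-/

open Classical

namespace RotWqo.Tc.Trav1

universe u v

open RotWqo.Bag RotWqo.Hk

variable {V H : Type*}

/-- Adjacency inside `X`. -/
def adjG (G : RotGraph V H) (X : Finset V) : SimpleGraph V where
  Adj v w := v ≠ w ∧ v ∈ X ∧ w ∈ X ∧ ∃ h ∈ G.darts, G.base h = v ∧ G.base (G.opp h) = w
  symm := ⟨by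
    rintro v w ⟨h1, h2, h3, h, h4, h5, h6⟩
    exact ⟨h1.symm, h3, h2, G.opp h, G.opp_mem h h4, h6, by rw [G.opp_opp h h4]; exact h5⟩⟩
  loopless := ⟨fun v h => h.1 rfl⟩

theorem list_two {L : List H} {a b : H} (hn : L.Nodup) (hab : a ≠ b)
    (hm : ∀ c, c ∈ L ↔ c = a ∨ c = b) : L ~r a :: b :: [] := by
  have hp : L.Perm [a, b] := by
    rw [List.perm_ext_iff_of_nodup hn (by simp [hab])]
    intro c
    rw [hm c]
    simp
  rcases L with _ | ⟨x, _ | ⟨y, _ | ⟨z, L⟩⟩⟩
  · simp at hp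
  · simpa using hp.length_eq
  · have hx := (hm x).1 (by simp)
    have hy := (hm y).1 (by simp)
    have hxy : x ≠ y := by
      rw [List.nodup_cons] at hn
      intro h
      exact hn.1 (by simp [h])
    rcases hx with rfl | rfl <;> rcases hy with rfl | rfl
    · exact absurd rfl hxy
    · exact List.IsRotated.refl _
    · exact ⟨1, by simp⟩
    · exact absurd rfl hxy
  · have := hp.length_eq
    simp at this

theorem nc_two {N : H → H → Prop} {L : List H} {a b : H} (hn : L.Nodup) (hab : a ≠ b)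
    (hm : ∀ c, c ∈ L ↔ c = a ∨ c = b) (hN : N a b) : NC N L :=
  .pair _ a b [] (list_two hn hab hm) hN (.done _ (by simp))

theorem walk_trav (G : RotGraph V H) (X : Finset V) {v w : V} (p : (adjG G X).Walk v w) :
    p.IsPath → v ∈ X → ∀ l ∈ G.darts, G.base l = v → G.base (G.opp l) ∉ p.support →
      ∀ l' ∈ G.darts, G.base l' = w → G.base (G.opp l') ∉ p.support → l ≠ l' →
      ∃ N : H → H → Prop, (∀ a b, N a b → N b a) ∧ (∀ a b c, N a b → N a c → b = c) ∧
        (∀ a b, N a b → a ∈ G.darts ∧ G.base a ∈ X ∧ G.base a ∈ p.support ∧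
          G.base b = G.base a) ∧
        (∀ u, NC N ((G.rot u).filter (fun a => decide (∃ b, N a b)))) ∧
        Run G.opp N (G.opp l) l' := by
  induction p with
  | @nil v =>
    intro hp hv l hl hlv hlo l' hl' hlv' hlo' hne
    refine ⟨fun a b => (a = l ∧ b = l') ∨ (a = l' ∧ b = l), ?_, ?_, ?_, ?_, ?_⟩
    · rintro a b (⟨h1, h2⟩ | ⟨h1, h2⟩)
      · exact Or.inr ⟨h2, h1⟩
      · exact Or.inl ⟨h2, h1⟩
    · rintro a b c (⟨h1, h2⟩ | ⟨h1, h2⟩) (⟨h3, h4⟩ | ⟨h3, h4⟩)
      · rw [h2, h4]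
      · exact absurd (h1.symm.trans h3) hne
      · exact absurd (h3.symm.trans h1) hne
      · rw [h2, h4]
    · rintro a b (⟨rfl, rfl⟩ | ⟨rfl, rfl⟩)
      · exact ⟨hl, by rw [hlv]; exact hv, by rw [hlv]; simp, by rw [hlv, hlv']⟩
      · exact ⟨hl', by rw [hlv']; exact hv, by rw [hlv']; simp, by rw [hlv, hlv']⟩
    · intro u
      by_cases hu : u = v
      · subst hu
        refine nc_two ((G.nodup u).filter _) hne ?_ (Or.inl ⟨rfl, rfl⟩)
        intro c
        rw [List.mem_filter, G.mem_rot]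
        simp only [decide_eq_true_eq]
        constructor
        · rintro ⟨-, b, ⟨h1, -⟩ | ⟨h1, -⟩⟩
          · exact Or.inl h1
          · exact Or.inr h1
        · rintro (rfl | rfl)
          · exact ⟨⟨hl, hlv⟩, _, Or.inl ⟨rfl, rfl⟩⟩
          · exact ⟨⟨hl', hlv'⟩, _, Or.inr ⟨rfl, rfl⟩⟩
      · refine .done _ ?_
        intro a ha b hab
        rw [List.mem_filter, G.mem_rot] at ha
        rcases hab with ⟨h1, -⟩ | ⟨h1, -⟩
        · exact hu (by rw [← ha.1.2, h1, hlv])
        · exact hu (by rw [← ha.1.2, h1, hlv'])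
    · refine .step _ l' _ ?_ (.refl _)
      rw [G.opp_opp l hl]
      exact Or.inl ⟨rfl, rfl⟩
  | @cons v u w hadj q ih =>
    intro hp hv l hl hlv hlo l' hl' hlv' hlo' hne
    rw [SimpleGraph.Walk.cons_isPath_iff] at hp
    obtain ⟨hq, hvq⟩ := hp
    rw [SimpleGraph.Walk.support_cons, List.mem_cons, not_or] at hlo hlo'
    obtain ⟨hvu, -, hu, h₁, hh1, hh2, hh3⟩ := hadj
    have ho1 : G.opp (G.opp h₁) = h₁ := G.opp_opp h₁ hh1
    have hlne : l ≠ h₁ := by
      rintro rfl
      exact hlo.2 (by rw [hh3]; exact q.start_mem_support)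
    obtain ⟨N, hs, hf, hm, hnc, hrun⟩ := ih hq hu (G.opp h₁) (G.opp_mem h₁ hh1) hh3
      (by rw [ho1, hh2]; exact hvq) l' hl' hlv' hlo'.2 (by
        rintro rfl
        exact hlo'.1 (by rw [ho1, hh2]))
    rw [ho1] at hrun
    have hNv : ∀ a b, N a b → G.base a ≠ v := by
      intro a b hab h
      exact hvq (h ▸ (hm a b hab).2.2.1)
    refine ⟨fun a b => N a b ∨ (a = l ∧ b = h₁) ∨ (a = h₁ ∧ b = l), ?_, ?_, ?_, ?_, ?_⟩
    · rintro a b (h | ⟨h1, h2⟩ | ⟨h1, h2⟩)
      · exact Or.inl (hs a b h)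
      · exact Or.inr (Or.inr ⟨h2, h1⟩)
      · exact Or.inr (Or.inl ⟨h2, h1⟩)
    · rintro a b c (h | ⟨h1, h2⟩ | ⟨h1, h2⟩) (h' | ⟨h3, h4⟩ | ⟨h3, h4⟩)
      · exact hf a b c h h'
      · exact absurd (by rw [h3, hlv]) (hNv _ _ h)
      · exact absurd (by rw [h3, hh2]) (hNv _ _ h)
      · exact absurd (by rw [h1, hlv]) (hNv _ _ h')
      · rw [h2, h4]
      · exact absurd (h1.symm.trans h3) hlne
      · exact absurd (by rw [h1, hh2]) (hNv _ _ h')
      · exact absurd (h3.symm.trans h1) hlne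
      · rw [h2, h4]
    · rintro a b (h | ⟨rfl, rfl⟩ | ⟨rfl, rfl⟩)
      · obtain ⟨h1, h2, h3, h4⟩ := hm a b h
        exact ⟨h1, h2, by rw [SimpleGraph.Walk.support_cons]; exact List.mem_cons_of_mem _ h3, h4⟩
      · exact ⟨hl, by rw [hlv]; exact hv, by
          rw [SimpleGraph.Walk.support_cons, hlv]; exact List.mem_cons_self, by rw [hlv, hh2]⟩
      · exact ⟨hh1, by rw [hh2]; exact hv, by
          rw [SimpleGraph.Walk.support_cons, hh2]; exact List.mem_cons_self, by rw [hlv, hh2]⟩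
    · intro x
      by_cases hx : x = v
      · subst hx
        refine nc_two ((G.nodup x).filter _) hlne ?_ (Or.inr (Or.inl ⟨rfl, rfl⟩))
        intro c
        rw [List.mem_filter, G.mem_rot]
        simp only [decide_eq_true_eq]
        constructor
        · rintro ⟨⟨-, hc⟩, b, h | ⟨h1, -⟩ | ⟨h1, -⟩⟩
          · exact absurd hc (hNv _ _ h)
          · exact Or.inl h1
          · exact Or.inr h1
        · rintro (rfl | rfl)
          · exact ⟨⟨hl, hlv⟩, _, Or.inr (Or.inl ⟨rfl, rfl⟩)⟩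
          · exact ⟨⟨hh1, hh2⟩, _, Or.inr (Or.inr ⟨rfl, rfl⟩)⟩
      · have he : (G.rot x).filter (fun a => decide (∃ b, N a b ∨ (a = l ∧ b = h₁) ∨
            (a = h₁ ∧ b = l))) = (G.rot x).filter (fun a => decide (∃ b, N a b)) := by
          refine List.filter_congr ?_
          intro a ha
          rw [G.mem_rot] at ha
          rw [decide_eq_decide]
          constructor
          · rintro ⟨b, h | ⟨h1, -⟩ | ⟨h1, -⟩⟩
            · exact ⟨b, h⟩
            · exact absurd (by rw [← ha.2, h1, hlv]) hx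
            · exact absurd (by rw [← ha.2, h1, hh2]) hx
          · rintro ⟨b, h⟩
            exact ⟨b, Or.inl h⟩
        rw [he]
        refine (hnc x).congr ?_
        intro a ha y
        rw [List.mem_filter, G.mem_rot] at ha
        constructor
        · exact Or.inl
        · rintro (h | ⟨h1, -⟩ | ⟨h1, -⟩)
          · exact h
          · exact absurd (by rw [← ha.1.2, h1, hlv]) hx
          · exact absurd (by rw [← ha.1.2, h1, hh2]) hx
    · refine .step _ h₁ _ ?_ (hrun.mono fun a b => Or.inl)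
      rw [G.opp_opp l hl]
      exact Or.inr (Or.inl ⟨rfl, rfl⟩)

theorem support_sub (G : RotGraph V H) (X : Finset V) {v w : V} (p : (adjG G X).Walk v w) :
    v ∈ X → ∀ u ∈ p.support, u ∈ X := by
  induction p with
  | nil =>
    intro hv u hu
    rw [SimpleGraph.Walk.support_nil, List.mem_singleton] at hu
    rw [hu]; exact hv
  | cons hadj q ih =>
    intro hv u hu
    rw [SimpleGraph.Walk.support_cons, List.mem_cons] at hu
    rcases hu with rfl | hu
    · exact hv
    · exact ih hadj.2.2.1 u hu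

/-- (E3) Connected thin sets can be traversed. -/
theorem e3_1 : StTrav.{u, v} := by
  intro V H G X hX hcut hconn l hl l' hl' hne
  rw [mem_bd] at hl hl'
  have hreach : (adjG G X).Reachable (G.base l) (G.base l') := by
    by_contra hcon
    set R := X.filter (fun v => (adjG G X).Reachable (G.base l) v) with hR
    have h1 : R.Nonempty := ⟨G.base l, by
      rw [hR, Finset.mem_filter]
      exact ⟨hl.2.1, SimpleGraph.Reachable.refl _⟩⟩
    have h2 : R ≠ X := by
      intro h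
      have h3 : G.base l' ∈ R := by rw [h]; exact hl'.2.1
      rw [hR, Finset.mem_filter] at h3
      exact hcon h3.2
    refine hconn R (Finset.filter_subset _ _) h1 h2 ?_
    intro h hh hb hb'
    rw [Finset.mem_sdiff] at hb'
    refine hb'.2 ?_
    rw [hR, Finset.mem_filter] at hb ⊢
    refine ⟨hb'.1, hb.2.trans (SimpleGraph.Adj.reachable ?_)⟩
    refine ⟨?_, hb.1, hb'.1, h, hh, rfl, rfl⟩
    intro he
    refine hb'.2 ?_
    rw [hR, Finset.mem_filter, ← he]
    exact hb
  obtain ⟨p, hp⟩ := hreach.exists_isPath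
  have hsup := support_sub G X p hl.2.1
  obtain ⟨N, h1, h2, h3, h4, h5⟩ := walk_trav G X p hp hl.2.1 l hl.1 rfl
    (fun h => hl.2.2 (hsup _ h)) l' hl'.1 rfl (fun h => hl'.2.2 (hsup _ h)) hne
  exact ⟨N, h1, h2, fun a b hab => ⟨(h3 a b hab).1, (h3 a b hab).2.1, (h3 a b hab).2.2.2⟩,
    fun v _ => h4 v, h5⟩

end RotWqo.Tc.Trav1
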