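import Pool.Agent.Lib.MP_cb4a0f_co.Tc.T1_46
import Pool.Agent.Lib.MP_cb4a0f_co.Tc.T2_6
import Pool.Agent.Lib.MP_cb4a0f_co.Tc.Exp9
import Pool.Agent.Lib.MP_cb4a0f_co.Tc.Trav1
import Pool.Agent.Lib.MP_cb4a0f_co.Tc.Mark1
import Pool.Agent.Lib.MP_cb4a0f_co.Tc.Thick18
import Pool.Agent.Lib.MP_cb4a0f_co.Tc.Bridge49
import Pool.Agent.Lib.MP_cb4a0f_co.Tc.MainZ11

/-!
# MP_cb4a0f_co: rotated graphs of bounded tree-cut width, the theorem from the leaf theorem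
-/

namespace RotWqo.Tc

universe u

theorem wqo_tcw_of (hL : StLeafZ.{u, u, u}) : StTCW.{u} := by
  have hZ : StMainZ.{u, u, u} := mainZ11 hL
  have hE : StExp.{u} := Exp9.stExp
  have hTr : StTrav.{u, u} := Trav1.e3_1
  have hM : StMark.{u} := Mark1.e4_1
  have hTh : StThick.{u} := Thick18.t2a_18
  have h2 : StT2.{u} := t2_6 hE hTr hM hTh hZ
  exact T1_46.stTCW_46 (T1_46.stT1_46 hZ hE hM h2 Bridge49.bridge49 T1_46.stComps_46)

end RotWqo.Tc
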