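import Pool.Agent.Lib.MP_cb4a0f_co.Tc.Skel18

/-!
# MP_cb4a0f_co: the leaf theorem with atoms, lemmas on atoms, cuts and gluing
-/

open Classical

namespace RotWqo.Tc.LeafZ77

open RotWqo.Bag RotWqo.Hk RotWqo.Tc RotWqo.Tc.Skel18

universe u v w

section Thin

variable {V : Type u} {H : Type v} {d : ℕ} {G : RotGraph V H} {A Z S : Finset V}

theorem thin_nb (hT : Thin d G A Z) {h : H} (hh : h ∈ G.darts) (hz : G.base h ∈ Z)
    (hn : G.base (G.opp h) ≠ G.base h) : G.base (G.opp h) ∈ A \ Z :=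
  (hT _ hz).2.2 h (mem_nl.2 ⟨hh, rfl, hn⟩)

theorem thin_loop (hT : Thin d G A Z) {h : H} (hh : h ∈ G.darts) (hz : G.base h ∈ Z)
    (hz' : G.base (G.opp h) ∈ Z) : G.base (G.opp h) = G.base h := by
  by_contra hn
  exact (Finset.mem_sdiff.1 (thin_nb hT hh hz hn)).2 hz'

/-- Some atoms are removed from the piece. -/
theorem thin_sdiff (hT : Thin d G A Z) {E : Finset V} (hE : E ⊆ Z) :
    Thin d G (A \ E) (Z \ E) := by
  intro z hz
  obtain ⟨h1, h2, h3⟩ := hT z (Finset.mem_sdiff.1 hz).1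
  refine ⟨h1, h2, fun h hh => ?_⟩
  have h4 := Finset.mem_sdiff.1 (h3 h hh)
  simp only [Finset.mem_sdiff]
  exact ⟨⟨h4.1, fun h5 => h4.2 (hE h5)⟩, fun h5 => h4.2 h5.1⟩

/-- Some atoms are regarded as hubs. -/
theorem thin_mono (hT : Thin d G A Z) {Z' : Finset V} (hZ : Z' ⊆ Z) : Thin d G A Z' := by
  intro z hz
  obtain ⟨h1, h2, h3⟩ := hT z (hZ hz)
  refine ⟨h1, h2, fun h hh => ?_⟩
  have h4 := Finset.mem_sdiff.1 (h3 h hh)
  exact Finset.mem_sdiff.2 ⟨h4.1, fun h5 => h4.2 (hZ h5)⟩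

theorem sdiff_hubs {E : Finset V} (hE : E ⊆ Z) : (A \ E) \ (Z \ E) = A \ Z := by
  ext v
  simp only [Finset.mem_sdiff]
  constructor
  · rintro ⟨⟨h1, h2⟩, h3⟩
    exact ⟨h1, fun h4 => h3 ⟨h4, h2⟩⟩
  · rintro ⟨h1, h2⟩
    exact ⟨⟨h1, fun h3 => h2 (hE h3)⟩, fun h3 => h2 h3.1⟩

theorem cut_atoms (hT : Thin d G A Z) {E : Finset V} (hE : E ⊆ Z) :
    cut G E ≤ E.card * 2 := by
  have h1 : bd G E ⊆ E.biUnion (fun z => nl G z) := by
    intro h hh
    obtain ⟨h2, h3, h4⟩ := mem_bd.1 hh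
    refine Finset.mem_biUnion.2 ⟨G.base h, h3, mem_nl.2 ⟨h2, rfl, fun h5 => h4 ?_⟩⟩
    rw [h5]
    exact h3
  refine (Finset.card_le_card h1).trans ?_
  exact Finset.card_biUnion_le_card_mul _ _ _ fun z hz => (hT z (hE hz)).2.1

theorem cut_sdiff_le (G : RotGraph V H) (A S : Finset V) :
    cut G (A \ S) ≤ cut G A + cut G S := by
  have := cut_posimod G A S
  omega

/-- The atoms all of whose neighbours are in `S`. -/
noncomputable def zin (G : RotGraph V H) (Z S : Finset V) : Finset V :=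
  Z.filter (fun z => ∀ h ∈ nl G z, G.base (G.opp h) ∈ S)

/-- The other atoms none of whose neighbours are in `S`. -/
noncomputable def zout (G : RotGraph V H) (Z S : Finset V) : Finset V :=
  Z.filter (fun z => z ∉ zin G Z S ∧ ∀ h ∈ nl G z, G.base (G.opp h) ∉ S)

/-- The atoms with neighbours on both sides. -/
noncomputable def zmix (G : RotGraph V H) (Z S : Finset V) : Finset V :=
  Z.filter (fun z => z ∉ zin G Z S ∧ z ∉ zout G Z S)

theorem zin_sub : zin G Z S ⊆ Z := Finset.filter_subset _ _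

theorem zout_sub : zout G Z S ⊆ Z := Finset.filter_subset _ _

theorem zmix_sub : zmix G Z S ⊆ Z := Finset.filter_subset _ _

theorem thin_in (hT : Thin d G A Z) {S : Finset V} (hS : S ⊆ A \ Z) :
    Thin d G (S ∪ zin G Z S) (zin G Z S) := by
  intro z hz
  obtain ⟨hz1, hz2⟩ := Finset.mem_filter.1 hz
  obtain ⟨h1, h2, h3⟩ := hT z hz1
  refine ⟨h1, h2, fun h hh => ?_⟩
  have h4 := hz2 h hh
  refine Finset.mem_sdiff.2 ⟨Finset.mem_union_left _ h4, fun h5 => ?_⟩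
  exact (Finset.mem_sdiff.1 (hS h4)).2 (zin_sub h5)

theorem thin_out (hT : Thin d G A Z) {S : Finset V} :
    Thin d G (((A \ Z) \ S) ∪ zout G Z S) (zout G Z S) := by
  intro z hz
  obtain ⟨hz1, hz2, hz3⟩ := Finset.mem_filter.1 hz
  obtain ⟨h1, h2, h3⟩ := hT z hz1
  refine ⟨h1, h2, fun h hh => ?_⟩
  have h4 := hz3 h hh
  have h5 := h3 h hh
  refine Finset.mem_sdiff.2 ⟨Finset.mem_union_left _ (Finset.mem_sdiff.2 ⟨h5, h4⟩),
    fun h6 => ?_⟩
  exact (Finset.mem_sdiff.1 h5).2 (zout_sub h6)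

/-- The edges leaving the first part are edges of the skeleton. -/
theorem bd_in {K : RotGraph V H} (hT : Thin d G A Z) (hK : IsSk G Z K) {S : Finset V}
    (hS : S ⊆ A \ Z) : bd G (S ∪ zin G Z S) ⊆ bd K S := by
  intro h hh
  obtain ⟨h1, h2, h3⟩ := mem_bd.1 hh
  have h4 : G.base h ∈ S := by
    rcases Finset.mem_union.1 h2 with h4 | h4
    · exact h4
    · exfalso
      obtain ⟨h5, h6⟩ := Finset.mem_filter.1 h4
      by_cases h7 : G.base (G.opp h) = G.base h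
      · rw [h7] at h3
        exact h3 h2
      · exact h3 (Finset.mem_union_left _ (h6 h (mem_nl.2 ⟨h1, rfl, h7⟩)))
  have h5 : G.base h ∉ Z := (Finset.mem_sdiff.1 (hS h4)).2
  have h3' : G.base (G.opp h) ∉ S := fun h6 => h3 (Finset.mem_union_left _ h6)
  rw [mem_bd, hK.darts, hK.base]
  by_cases h6 : G.base (G.opp h) ∈ Z
  · have h7 : ¬ ∀ g ∈ nl G (G.base (G.opp h)), G.base (G.opp g) ∈ S := by
      intro h8
      exact h3 (Finset.mem_union_right _ (Finset.mem_filter.2 ⟨h6, h8⟩))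
    push Not at h7
    obtain ⟨g, h8, h9⟩ := h7
    have h10 : G.opp h ∈ nl G (G.base (G.opp h)) := by
      rw [mem_nl, G.opp_opp h h1]
      refine ⟨G.opp_mem h h1, rfl, fun h11 => h5 ?_⟩
      rw [h11]
      exact h6
    have h11 : g ≠ G.opp h := by
      rintro rfl
      rw [G.opp_opp h h1] at h9
      exact h9 h4
    have h12 : nl G (G.base (G.opp h)) = {G.opp h, g} := by
      symm
      refine Finset.eq_of_subset_of_card_le ?_ ?_
      · intro x hx
        rcases Finset.mem_insert.1 hx with rfl | hx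
        · exact h10
        · rw [Finset.mem_singleton.1 hx]
          exact h8
      · rw [Finset.card_pair h11.symm]
        exact (hT _ h6).2.1
    have h13 : G.base (G.opp g) ∉ Z := (Finset.mem_sdiff.1 ((hT _ h6).2.2 g h8)).2
    have hs : Sup G Z h g := ⟨h11, h12, h13⟩
    have h14 : Keep G Z h := ⟨h1, h5, Or.inr ⟨g, hs⟩⟩
    refine ⟨h14, h4, ?_⟩
    rw [hK.opp h ((hK.darts h).2 h14), skOpp_of_sup G Z h g h6 hs]
    exact h9
  · have h7 : Keep G Z h := ⟨h1, h5, Or.inl h6⟩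
    refine ⟨h7, h4, ?_⟩
    rw [hK.opp h ((hK.darts h).2 h7), skOpp_of_notMem G Z h h6]
    exact h3'

theorem cut_in {K : RotGraph V H} (hT : Thin d G A Z) (hK : IsSk G Z K) {S : Finset V}
    (hS : S ⊆ A \ Z) : cut G (S ∪ zin G Z S) ≤ cut K S :=
  Finset.card_le_card (bd_in hT hK hS)

theorem card_mix (_hT : Thin d G A Z) {S : Finset V}
    (hS : S ⊆ A \ Z) : (zmix G Z S).card ≤ cut G (S ∪ zin G Z S) := by
  have h1 : zmix G Z S ⊆ (bd G (S ∪ zin G Z S)).image (fun h => G.base (G.opp h)) := by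
    intro z hz
    obtain ⟨h1, h2, h3⟩ := Finset.mem_filter.1 hz
    have h4 : ¬ ∀ h ∈ nl G z, G.base (G.opp h) ∉ S := fun h5 =>
      h3 (Finset.mem_filter.2 ⟨h1, h2, h5⟩)
    push Not at h4
    obtain ⟨g, h5, h6⟩ := h4
    obtain ⟨h7, h8, h9⟩ := mem_nl.1 h5
    refine Finset.mem_image.2 ⟨G.opp g, ?_, ?_⟩
    · rw [mem_bd, G.opp_opp g h7]
      refine ⟨G.opp_mem g h7, Finset.mem_union_left _ h6, fun h10 => ?_⟩
      rcases Finset.mem_union.1 h10 with h11 | h11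
      · rw [h8] at h11
        exact (Finset.mem_sdiff.1 (hS h11)).2 h1
      · rw [h8] at h11
        exact h2 h11
    · rw [G.opp_opp g h7, h8]
  exact (Finset.card_le_card h1).trans Finset.card_image_le

theorem split_sets {S : Finset V} (hZ : Z ⊆ A) (hS : S ⊆ A \ Z) :
    ((S ∪ zin G Z S) ∪ (((A \ Z) \ S) ∪ zout G Z S)) ∪ zmix G Z S = A := by
  ext v
  simp only [Finset.mem_union, Finset.mem_sdiff]
  constructor
  · rintro (((h | h) | (h | h)) | h)
    · exact (Finset.mem_sdiff.1 (hS h)).1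
    · exact hZ (zin_sub h)
    · exact h.1.1
    · exact hZ (zout_sub h)
    · exact hZ (zmix_sub h)
  · intro h
    by_cases h1 : v ∈ Z
    · by_cases h2 : v ∈ zin G Z S
      · exact Or.inl (Or.inl (Or.inr h2))
      · by_cases h3 : v ∈ zout G Z S
        · exact Or.inl (Or.inr (Or.inr h3))
        · exact Or.inr (Finset.mem_filter.2 ⟨h1, h2, h3⟩)
    · by_cases h2 : v ∈ S
      · exact Or.inl (Or.inl (Or.inl h2))
      · exact Or.inl (Or.inr (Or.inl ⟨⟨h, h1⟩, h2⟩))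

theorem disj12 {S : Finset V} (hS : S ⊆ A \ Z) :
    Disjoint (S ∪ zin G Z S) (((A \ Z) \ S) ∪ zout G Z S) := by
  rw [Finset.disjoint_left]
  intro v h1 h2
  rcases Finset.mem_union.1 h1 with h1 | h1 <;> rcases Finset.mem_union.1 h2 with h2 | h2
  · exact (Finset.mem_sdiff.1 h2).2 h1
  · exact (Finset.mem_sdiff.1 (hS h1)).2 (zout_sub h2)
  · exact (Finset.mem_sdiff.1 (Finset.mem_sdiff.1 h2).1).2 (zin_sub h1)
  · exact (Finset.mem_filter.1 h2).2.1 h1

theorem disj3 {S : Finset V} (hS : S ⊆ A \ Z) :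
    Disjoint ((S ∪ zin G Z S) ∪ (((A \ Z) \ S) ∪ zout G Z S)) (zmix G Z S) := by
  rw [Finset.disjoint_left]
  intro v h1 h2
  obtain ⟨h3, h4, h5⟩ := Finset.mem_filter.1 h2
  rcases Finset.mem_union.1 h1 with h1 | h1 <;> rcases Finset.mem_union.1 h1 with h1 | h1
  · exact (Finset.mem_sdiff.1 (hS h1)).2 h3
  · exact h4 h1
  · exact (Finset.mem_sdiff.1 (Finset.mem_sdiff.1 h1).1).2 h3
  · exact h5 h1

theorem out_eq {S : Finset V} (hZ : Z ⊆ A) (hS : S ⊆ A \ Z) :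
    ((A \ Z) \ S) ∪ zout G Z S = (A \ zmix G Z S) \ (S ∪ zin G Z S) := by
  have h1 := split_sets (G := G) hZ hS
  have h2 := disj12 (G := G) hS
  have h3 := disj3 (G := G) hS
  rw [Finset.disjoint_left] at h2 h3
  ext v
  have h4 := Finset.ext_iff.1 h1 v
  have h5 := @h2 v
  have h6 := @h3 v
  simp only [Finset.mem_union, Finset.mem_sdiff] at h4 h5 h6 ⊢
  tauto

theorem cut_out (hT : Thin d G A Z) (hZ : Z ⊆ A) {S : Finset V} (hS : S ⊆ A \ Z) :
    cut G (((A \ Z) \ S) ∪ zout G Z S) ≤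
      cut G A + 3 * cut G (S ∪ zin G Z S) := by
  rw [out_eq hZ hS]
  have h1 := cut_sdiff_le G (A \ zmix G Z S) (S ∪ zin G Z S)
  have h2 := cut_sdiff_le G A (zmix G Z S)
  have h3 := cut_atoms hT (E := zmix G Z S) zmix_sub
  have h4 := card_mix hT hS
  omega

end Thin

/-! ### Pieces that consist of atoms -/

section Atoms

variable {V V' : Type u} {H H' : Type v}

theorem PE_congr {r : V → V' → Prop} {G : RotGraph V H} {A : Finset V} {G' : RotGraph V' H'}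
    {A' : Finset V'} {β β' : H → H'} (h : PE r G A G' A' β) (he : ∀ x ∈ bd G A, β x = β' x) :
    PE r G A G' A' β' := by
  obtain ⟨f, φ, M, E⟩ := h
  refine ⟨f, φ, M, E.f_mem, E.f_rel, E.f_inj, E.M_symm, E.M_fun, E.M_mem, E.M_base, E.M_ker,
    E.φ_mem, E.φ_base, E.φ_inj, E.rot_eq, E.nc, E.run_in, fun x hx => ?_, ?_⟩
  · rw [← he x hx]
    exact E.run_out x hx
  · exact E.β_bij.congr fun x hx => he x (Finset.mem_coe.1 hx)

theorem bd_empty (G : RotGraph V H) : bd G ∅ = ∅ := by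
  ext h; simp [mem_bd]

theorem PE_empty (r : V → V' → Prop) [Nonempty V'] [Nonempty H'] (G : RotGraph V H)
    (G' : RotGraph V' H') : PE r G ∅ G' ∅ (fun _ => Classical.arbitrary H') := by
  refine ⟨fun _ => Classical.arbitrary V', fun _ => Classical.arbitrary H', fun _ _ => False, ?_⟩
  refine ⟨by simp, by simp, by simp, fun _ _ h => h, fun _ _ _ h => h.elim,
    fun _ _ h => h.elim, fun _ _ h => h.elim, fun _ _ h => h.elim, by simp, by simp, by simp,
    by simp, ?_, by simp, by simp [bd_empty], ?_⟩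
  · intro x _
    exact .done _ fun a _ b h => h
  · rw [bd_empty, bd_empty]
    simp [Set.BijOn, Set.SurjOn]

/-- Sets of pairwise nonadjacent vertices of the same types. -/
theorem PE_atoms {r : V → V' → Prop} [Nonempty V'] [Nonempty H'] (k : ℕ) (G : RotGraph V H)
    (G' : RotGraph V' H') (ζ : V → V') (Z : Finset V) : Set.InjOn ζ (Z : Set V) →
    (∀ z ∈ Z, r z (ζ z)) → (∀ z ∈ Z, (G.rot z).length ≤ k) →
    (∀ z ∈ Z, (G.rot z).length = (G'.rot (ζ z)).length) →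
    (∀ z ∈ Z, pat k G z = pat k G' (ζ z)) →
    (∀ h ∈ G.darts, G.base h ∈ Z → G.base (G.opp h) ∈ Z → G.base (G.opp h) = G.base h) →
    (∀ h ∈ G'.darts, G'.base h ∈ Z.image ζ → G'.base (G'.opp h) ∈ Z.image ζ →
      G'.base (G'.opp h) = G'.base h) →
    ∃ β, PE r G Z G' (Z.image ζ) β := by
  induction Z using Finset.induction_on with
  | empty =>
    intro _ _ _ _ _ _ _
    exact ⟨_, PE_empty r G G'⟩
  | insert a Z ha ih =>
    intro hζ hr hk hl hp hn hn'
    have hZ : ∀ z ∈ Z, z ∈ insert a Z := fun z hz => Finset.mem_insert_of_mem hz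
    have hZ' : ∀ z ∈ Z.image ζ, z ∈ (insert a Z).image ζ := by
      intro z hz
      obtain ⟨y, hy, rfl⟩ := Finset.mem_image.1 hz
      exact Finset.mem_image_of_mem _ (hZ y hy)
    obtain ⟨β₁, h1⟩ := ih (hζ.mono fun z hz => Finset.mem_coe.2 (hZ z (Finset.mem_coe.1 hz)))
      (fun z hz => hr z (hZ z hz)) (fun z hz => hk z (hZ z hz)) (fun z hz => hl z (hZ z hz))
      (fun z hz => hp z (hZ z hz)) (fun h h1 h2 h3 => hn h h1 (hZ _ h2) (hZ _ h3))
      (fun h h1 h2 h3 => hn' h h1 (hZ' _ h2) (hZ' _ h3))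
    have haa : a ∈ insert a Z := Finset.mem_insert_self _ _
    obtain ⟨β₂, h2⟩ := PE.leaf (r := r) k G G' a (ζ a) (hr a haa) (hk a haa) (hl a haa)
      (hp a haa)
    have ha' : ζ a ∉ Z.image ζ := by
      intro h3
      obtain ⟨y, hy, h4⟩ := Finset.mem_image.1 h3
      have h5 := hζ (Finset.mem_coe.2 (hZ y hy)) (Finset.mem_coe.2 haa) h4
      exact ha (h5 ▸ hy)
    have hE : insert a Z = Z ∪ {a} := by
      ext v; simp only [Finset.mem_insert, Finset.mem_union, Finset.mem_singleton]; tauto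
    have hE' : (insert a Z).image ζ = Z.image ζ ∪ {ζ a} := by
      rw [hE, Finset.image_union, Finset.image_singleton]
    have h3 := PE.union (Finset.disjoint_singleton_right.2 ha)
      (Finset.disjoint_singleton_right.2 ha') h1 h2 ?_ ?_ ?_
    · rw [hE', hE]
      exact ⟨_, h3⟩
    · intro h hh hb
      exfalso
      obtain ⟨h4, h5, h6⟩ := mem_bd.1 hh
      have h7 := hn h h4 (hZ _ h5) (by rw [Finset.mem_singleton.1 hb]; exact haa)
      rw [h7] at h6
      exact h6 h5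
    · intro h hh _ hb
      have h0 := Finset.mem_coe.1 (h1.bij.mapsTo (Finset.mem_coe.2 hh))
      obtain ⟨h4, h5, h6⟩ := mem_bd.1 h0
      have h7 := hn' _ h4 (hZ' _ h5) (by
        rw [Finset.mem_singleton.1 hb]; exact Finset.mem_image_of_mem _ haa)
      rw [h7] at h6
      exact h6 h5
    · intro h hh _ hb
      have h0 := Finset.mem_coe.1 (h2.bij.mapsTo (Finset.mem_coe.2 hh))
      obtain ⟨h4, h5, h6⟩ := mem_bd.1 h0
      rw [Finset.mem_singleton] at h5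
      have h7 := hn' _ h4 (by rw [h5]; exact Finset.mem_image_of_mem _ haa) (hZ' _ hb)
      rw [h7, h5] at h6
      exact h6 (Finset.mem_singleton_self _)

/-- The hubs are joined with the atoms. -/
theorem PE_hubs {r : V → V' → Prop} [Nonempty H'] {G : RotGraph V H} {G' : RotGraph V' H'}
    {B Z : Finset V} {B' Z' : Finset V'} {φ : H → H'} (hBZ : Disjoint B Z)
    (hBZ' : Disjoint B' Z') (hφ : PE r G Z G' Z' φ)
    (hn : ∀ h ∈ bd G Z, G.base (G.opp h) ∈ B) (hn' : ∀ h ∈ bd G' Z', G'.base (G'.opp h) ∈ B')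
    (hc : cut G (B ∪ Z) = cut G' (B' ∪ Z')) :
    ∃ σ : H → H', Set.BijOn σ (bd G B : Set H) (bd G' B' : Set H') ∧
      (PE r G B G' B' σ → ∃ β, PE r G (B ∪ Z) G' (B' ∪ Z') β) := by
  have hd : ∀ v, v ∈ B → v ∈ Z → False := fun v h1 h2 => Finset.disjoint_left.1 hBZ h1 h2
  have hd' : ∀ v, v ∈ B' → v ∈ Z' → False := fun v h1 h2 => Finset.disjoint_left.1 hBZ' h1 h2
  -- the legs at the hubs
  have hb : ∀ h, h ∈ bd G B ↔ h ∈ bd G (B ∪ Z) ∨ (h ∈ G.darts ∧ G.opp h ∈ bd G Z) := by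
    intro h
    constructor
    · intro hh
      obtain ⟨h1, h2, h3⟩ := mem_bd.1 hh
      by_cases h4 : G.base (G.opp h) ∈ Z
      · refine Or.inr ⟨h1, mem_bd.2 ⟨G.opp_mem h h1, h4, ?_⟩⟩
        rw [G.opp_opp h h1]
        exact fun h5 => hd _ h2 h5
      · exact Or.inl (mem_bd.2 ⟨h1, Finset.mem_union_left _ h2, fun h5 =>
          (Finset.mem_union.1 h5).elim h3 h4⟩)
    · rintro (hh | ⟨h0, hh⟩)
      · obtain ⟨h1, h2, h3⟩ := mem_bd.1 hh
        rcases Finset.mem_union.1 h2 with h4 | h4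
        · exact mem_bd.2 ⟨h1, h4, fun h5 => h3 (Finset.mem_union_left _ h5)⟩
        · exfalso
          exact h3 (Finset.mem_union_left _ (hn h (mem_bd.2 ⟨h1, h4, fun h5 =>
            h3 (Finset.mem_union_right _ h5)⟩)))
      · have h4 := hn _ hh
        obtain ⟨h1, h2, h3⟩ := mem_bd.1 hh
        rw [G.opp_opp h h0] at h3 h4
        exact mem_bd.2 ⟨h0, h4, fun h5 => hd _ h5 h2⟩
  have hb' : ∀ h, h ∈ bd G' B' ↔ h ∈ bd G' (B' ∪ Z') ∨ (h ∈ G'.darts ∧ G'.opp h ∈ bd G' Z') := by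
    intro h
    constructor
    · intro hh
      obtain ⟨h1, h2, h3⟩ := mem_bd.1 hh
      by_cases h4 : G'.base (G'.opp h) ∈ Z'
      · refine Or.inr ⟨h1, mem_bd.2 ⟨G'.opp_mem h h1, h4, ?_⟩⟩
        rw [G'.opp_opp h h1]
        exact fun h5 => hd' _ h2 h5
      · exact Or.inl (mem_bd.2 ⟨h1, Finset.mem_union_left _ h2, fun h5 =>
          (Finset.mem_union.1 h5).elim h3 h4⟩)
    · rintro (hh | ⟨h0, hh⟩)
      · obtain ⟨h1, h2, h3⟩ := mem_bd.1 hh
        rcases Finset.mem_union.1 h2 with h4 | h4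
        · exact mem_bd.2 ⟨h1, h4, fun h5 => h3 (Finset.mem_union_left _ h5)⟩
        · exfalso
          exact h3 (Finset.mem_union_left _ (hn' h (mem_bd.2 ⟨h1, h4, fun h5 =>
            h3 (Finset.mem_union_right _ h5)⟩)))
      · have h4 := hn' _ hh
        obtain ⟨h1, h2, h3⟩ := mem_bd.1 hh
        rw [G'.opp_opp h h0] at h3 h4
        exact mem_bd.2 ⟨h0, h4, fun h5 => hd' _ h5 h2⟩
  have hx : ∀ h, h ∈ bd G (B ∪ Z) → G.base (G.opp h) ∉ Z := fun h h1 h2 =>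
    (mem_bd.1 h1).2.2 (Finset.mem_union_right _ h2)
  have hx' : ∀ h, h ∈ bd G' (B' ∪ Z') → G'.base (G'.opp h) ∉ Z' := fun h h1 h2 =>
    (mem_bd.1 h1).2.2 (Finset.mem_union_right _ h2)
  -- the real legs
  obtain ⟨τ, hτ⟩ : ∃ τ : H → H', Set.BijOn τ (bd G (B ∪ Z) : Set H)
      (bd G' (B' ∪ Z') : Set H') := by
    have e : bd G (B ∪ Z) ≃ bd G' (B' ∪ Z') := Finset.equivOfCardEq hc
    refine ⟨fun h => if hh : h ∈ bd G (B ∪ Z) then (e ⟨h, hh⟩ : H') else Classical.arbitrary H',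
      ?_, ?_, ?_⟩
    · intro h hh
      simp only [dif_pos (Finset.mem_coe.1 hh)]
      exact (e ⟨h, Finset.mem_coe.1 hh⟩).2
    · intro h hh h' hh' he
      simp only [dif_pos (Finset.mem_coe.1 hh), dif_pos (Finset.mem_coe.1 hh')] at he
      have := e.injective (Subtype.ext he)
      simpa using this
    · intro y hy
      refine ⟨(e.symm ⟨y, hy⟩ : H), (e.symm ⟨y, hy⟩).2, ?_⟩
      simp
  have hφb := hφ.bij
  set σ : H → H' := fun h => if G.base (G.opp h) ∈ Z then G'.opp (φ (G.opp h)) else τ h with hσ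
  have s1 : ∀ h, G.opp h ∈ bd G Z → σ h = G'.opp (φ (G.opp h)) := fun h hh => by
    simp only [hσ, if_pos (mem_bd.1 hh).2.1]
  have s2 : ∀ h, h ∈ bd G (B ∪ Z) → σ h = τ h := fun h hh => by
    simp only [hσ, if_neg (hx h hh)]
  have m1 : ∀ h, h ∈ G.darts → G.opp h ∈ bd G Z → G'.opp (σ h) ∈ bd G' Z' ∧
      σ h ∈ G'.darts ∧ G'.opp (σ h) = φ (G.opp h) := by
    intro h _ hh
    have h1 := Finset.mem_coe.1 (hφb.mapsTo (Finset.mem_coe.2 hh))
    have h2 := (mem_bd.1 h1).1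
    have h3 : G'.opp (σ h) = φ (G.opp h) := by rw [s1 h hh, G'.opp_opp _ h2]
    refine ⟨by rw [h3]; exact h1, ?_, h3⟩
    rw [s1 h hh]
    exact G'.opp_mem _ h2
  have hσb : Set.BijOn σ (bd G B : Set H) (bd G' B' : Set H') := by
    refine ⟨?_, ?_, ?_⟩
    · intro h hh
      rw [Finset.mem_coe] at hh ⊢
      rw [hb'] 
      rcases (hb h).1 hh with h1 | ⟨h0, h1⟩
      · left
        rw [s2 h h1]
        exact Finset.mem_coe.1 (hτ.mapsTo (Finset.mem_coe.2 h1))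
      · right
        obtain ⟨h2, h3, -⟩ := m1 h h0 h1
        exact ⟨h3, h2⟩
    · intro h hh g hg he
      rw [Finset.mem_coe] at hh hg
      rcases (hb h).1 hh with h1 | ⟨h0, h1⟩ <;> rcases (hb g).1 hg with g1 | ⟨g0, g1⟩
      · rw [s2 h h1, s2 g g1] at he
        exact hτ.injOn (Finset.mem_coe.2 h1) (Finset.mem_coe.2 g1) he
      · exfalso
        obtain ⟨h2, h3, -⟩ := m1 g g0 g1
        rw [← he, s2 h h1] at h2
        exact hx' _ (Finset.mem_coe.1 (hτ.mapsTo (Finset.mem_coe.2 h1))) (mem_bd.1 h2).2.1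
      · exfalso
        obtain ⟨h2, h3, -⟩ := m1 h h0 h1
        rw [he, s2 g g1] at h2
        exact hx' _ (Finset.mem_coe.1 (hτ.mapsTo (Finset.mem_coe.2 g1))) (mem_bd.1 h2).2.1
      · obtain ⟨-, -, h3⟩ := m1 h h0 h1
        obtain ⟨-, -, g3⟩ := m1 g g0 g1
        rw [he, g3] at h3
        have h4 := hφb.injOn (Finset.mem_coe.2 g1) (Finset.mem_coe.2 h1) h3
        rw [← G.opp_opp h h0, ← h4, G.opp_opp g g0]
    · intro y hy
      rw [Finset.mem_coe] at hy
      rcases (hb' y).1 hy with h1 | ⟨h0, h1⟩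
      · obtain ⟨h, h2, h3⟩ := hτ.surjOn (Finset.mem_coe.2 h1)
        rw [Finset.mem_coe] at h2
        exact ⟨h, Finset.mem_coe.2 ((hb h).2 (Or.inl h2)), by rw [s2 h h2, h3]⟩
      · obtain ⟨g, h2, h3⟩ := hφb.surjOn (Finset.mem_coe.2 h1)
        rw [Finset.mem_coe] at h2
        have h4 := (mem_bd.1 h2).1
        have h5 : G.opp (G.opp g) ∈ bd G Z := by rw [G.opp_opp g h4]; exact h2
        refine ⟨G.opp g, Finset.mem_coe.2 ((hb _).2 (Or.inr ⟨G.opp_mem g h4, h5⟩)), ?_⟩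
        rw [s1 _ h5, G.opp_opp g h4, h3, G'.opp_opp y h0]
  refine ⟨σ, hσb, fun hσP => ⟨_, PE.union hBZ hBZ' hσP hφ ?_ ?_ ?_⟩⟩
  · intro h hh hz
    obtain ⟨h1, h2, h3⟩ := mem_bd.1 hh
    have h4 : G.opp h ∈ bd G Z := by
      refine mem_bd.2 ⟨G.opp_mem h h1, hz, ?_⟩
      rw [G.opp_opp h h1]
      exact fun h5 => hd _ h2 h5
    exact (m1 h h1 h4).2.2
  · intro h hh hz
    rcases (hb h).1 hh with h1 | ⟨h0, h1⟩
    · rw [s2 h h1]
      exact hx' _ (Finset.mem_coe.1 (hτ.mapsTo (Finset.mem_coe.2 h1)))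
    · exact absurd (mem_bd.1 h1).2.1 hz
  · intro h hh hz
    exact absurd (hn h hh) hz

end Atoms

end RotWqo.Tc.LeafZ77
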