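import Pool.Agent.Lib.MP_cb4a0f_co.Tc.Skel18

/-!
# MP_cb4a0f_co: the leaf theorem with atoms, third case (the embedding in a rich piece)
-/

open Classical

namespace RotWqo.Tc.LeafZc11

open RotWqo.Bag RotWqo.Hk RotWqo.Tc

universe u v

variable {V V' : Type u} {H H' : Type v}

/-- Embeddings of pieces depend only on the values of the boundary map on the boundary. -/
theorem PE.congr_bd {r : V → V' → Prop} {G : RotGraph V H} {A : Finset V} {G' : RotGraph V' H'}
    {A' : Finset V'} {β β' : H → H'} (h : PE r G A G' A' β) (he : ∀ h ∈ bd G A, β' h = β h) :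
    PE r G A G' A' β' := by
  obtain ⟨f, φ, M, E⟩ := h
  refine ⟨f, φ, M, E.f_mem, E.f_rel, E.f_inj, E.M_symm, E.M_fun, E.M_mem, E.M_base, E.M_ker,
    E.φ_mem, E.φ_base, E.φ_inj, E.rot_eq, E.nc, E.run_in, fun h hh => ?_, ?_⟩
  · rw [he h hh]
    exact E.run_out h hh
  · refine E.β_bij.congr fun h hh => (he h (Finset.mem_coe.1 hh)).symm

/-- The empty piece. -/
theorem PE.empty' (r : V → V' → Prop) [Nonempty V'] [Nonempty H'] (G : RotGraph V H)
    (G' : RotGraph V' H') (β : H → H') : PE r G ∅ G' ∅ β := by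
  have hb : bd G ∅ = ∅ := by
    ext h; simp [mem_bd]
  have hb' : bd G' ∅ = ∅ := by
    ext h; simp [mem_bd]
  refine ⟨fun _ => Classical.arbitrary V', fun _ => Classical.arbitrary H', fun _ _ => False, ?_⟩
  refine ⟨by simp, by simp, by simp, fun _ _ h => h, fun _ _ _ h => h.elim,
    fun _ _ h => h.elim, fun _ _ h => h.elim, fun _ _ h => h.elim, by simp, by simp, by simp,
    by simp, by simp, by simp, by simp [hb], ?_⟩
  rw [hb, hb']
  simp [Set.BijOn, Set.SurjOn]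

/-- The half-edge at `v'` in the place of the half-edge `h` at `v`. -/
noncomputable def tra [Nonempty H'] (G : RotGraph V H) (v : V) (G' : RotGraph V' H') (v' : V')
    (h : H) : H' :=
  ((G'.rot v')[(G.rot v).idxOf h]?).getD (Classical.arbitrary H')

section leaf

variable [Nonempty H'] {k : ℕ} {G : RotGraph V H} {G' : RotGraph V' H'} {v : V} {v' : V'}

theorem tra_get (hlen : (G.rot v).length = (G'.rot v').length) (i : ℕ)
    (h1 : i < (G.rot v).length) :
    tra G v G' v' (G.rot v)[i] = (G'.rot v')[i]'(hlen ▸ h1) := by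
  simp [tra, (G.nodup v).idxOf_getElem i h1, hlen ▸ h1]

theorem tra_mem (hlen : (G.rot v).length = (G'.rot v').length) {h : H} (hh : h ∈ G.rot v) :
    tra G v G' v' h ∈ G'.rot v' := by
  obtain ⟨i, hi, rfl⟩ := List.getElem_of_mem hh
  rw [tra_get hlen i hi]
  exact List.getElem_mem _

theorem tra_inj (hlen : (G.rot v).length = (G'.rot v').length) {h h' : H} (hh : h ∈ G.rot v)
    (hh' : h' ∈ G.rot v) (he : tra G v G' v' h = tra G v G' v' h') : h = h' := by
  obtain ⟨i, hi, rfl⟩ := List.getElem_of_mem hh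
  obtain ⟨j, hj, rfl⟩ := List.getElem_of_mem hh'
  rw [tra_get hlen i hi, tra_get hlen j hj] at he
  have := ((G'.nodup v').getElem_inj_iff).1 he
  subst this
  rfl

theorem tra_surj (hlen : (G.rot v).length = (G'.rot v').length) {y : H'}
    (hy : y ∈ G'.rot v') : ∃ h ∈ G.rot v, tra G v G' v' h = y := by
  obtain ⟨i, hi, rfl⟩ := List.getElem_of_mem hy
  have hi' : i < (G.rot v).length := hlen ▸ hi
  exact ⟨(G.rot v)[i], List.getElem_mem _, tra_get hlen i hi'⟩

theorem tra_opp (hk : (G.rot v).length ≤ k) (hlen : (G.rot v).length = (G'.rot v').length)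
    (hpat : pat k G v = pat k G' v') {h h' : H} (hh : h ∈ G.rot v) (hh' : h' ∈ G.rot v) :
    G.opp h = h' ↔ G'.opp (tra G v G' v' h) = tra G v G' v' h' := by
  obtain ⟨i, hi, rfl⟩ := List.getElem_of_mem hh
  obtain ⟨j, hj, rfl⟩ := List.getElem_of_mem hh'
  have hi' : i < (G'.rot v').length := hlen ▸ hi
  have hj' : j < (G'.rot v').length := hlen ▸ hj
  have hik : i < k := lt_of_lt_of_le hi hk
  have hjk : j < k := lt_of_lt_of_le hj hk
  rw [tra_get hlen i hi, tra_get hlen j hj]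
  have h1 : ((⟨⟨i, hik⟩, ⟨j, hjk⟩⟩ : Fin k × Fin k) ∈ pat k G v) ↔
      G.opp (G.rot v)[i] = (G.rot v)[j] := by
    simp [pat, hi, hj, eq_comm]
  have h2 : ((⟨⟨i, hik⟩, ⟨j, hjk⟩⟩ : Fin k × Fin k) ∈ pat k G' v') ↔
      G'.opp (G'.rot v')[i] = (G'.rot v')[j] := by
    simp [pat, hi', hj', eq_comm]
  rw [← h1, ← h2, hpat]

/-- Whether the other half is at the same vertex. -/
theorem tra_loop (hk : (G.rot v).length ≤ k) (hlen : (G.rot v).length = (G'.rot v').length)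
    (hpat : pat k G v = pat k G' v') {h : H} (hh : h ∈ G.rot v) :
    G.opp h ∈ G.rot v ↔ G'.opp (tra G v G' v' h) ∈ G'.rot v' := by
  constructor
  · intro h1
    rw [(tra_opp hk hlen hpat hh h1).1 rfl]
    exact tra_mem hlen h1
  · intro h1
    obtain ⟨h', h2, h3⟩ := tra_surj hlen h1
    rw [(tra_opp hk hlen hpat hh h2).2 h3.symm]
    exact h2

/-- One vertex, with the boundary map position by position. -/
theorem PE.leaf_tra {r : V → V' → Prop} (hr : r v v') (hk : (G.rot v).length ≤ k)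
    (hlen : (G.rot v).length = (G'.rot v').length) (hpat : pat k G v = pat k G' v') :
    PE r G {v} G' {v'} (tra G v G' v') := by
  set l := G.rot v with hl
  set l' := G'.rot v' with hl'
  set φ : H → H' := tra G v G' v' with hφ
  have hmap : l.map φ = l' := by
    refine List.ext_getElem (by simp [hlen]) fun i h1 h2 => ?_
    have h3 : i < l.length := by simpa using h1
    rw [List.getElem_map]
    exact tra_get hlen i h3
  have hmem : ∀ h ∈ l, φ h ∈ l' := fun h hh => tra_mem hlen hh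
  have hdl : ∀ h, h ∈ l ↔ h ∈ G.darts ∧ G.base h = v := G.mem_rot v
  have hdl' : ∀ h, h ∈ l' ↔ h ∈ G'.darts ∧ G'.base h = v' := G'.mem_rot v'
  have key : ∀ h ∈ l, ∀ h' ∈ l, (G.opp h = h' ↔ G'.opp (φ h) = φ h') := fun h hh h' hh' =>
    tra_opp hk hlen hpat hh hh'
  have hinj : ∀ h ∈ l, ∀ h' ∈ l, φ h = φ h' → h = h' := fun h hh h' hh' heq =>
    tra_inj hlen hh hh' heq
  have hker : ∀ a, Ker G {v} φ a ↔ a ∈ l' := by
    intro a
    rw [← hmap, List.mem_map]
    constructor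
    · rintro ⟨h, h1, h2, rfl⟩
      exact ⟨h, (hdl h).2 ⟨h1, by simpa using h2⟩, rfl⟩
    · rintro ⟨h, h1, rfl⟩
      exact ⟨h, ((hdl h).1 h1).1, by simp [((hdl h).1 h1).2], rfl⟩
  have hbd : ∀ h, h ∈ bd G {v} ↔ h ∈ l ∧ G.opp h ∉ l := by
    intro h
    rw [mem_bd, hdl, hdl]
    constructor
    · rintro ⟨h1, h2, h3⟩
      exact ⟨⟨h1, by simpa using h2⟩, fun h4 => h3 (by simp [h4.2])⟩
    · rintro ⟨⟨h1, h2⟩, h3⟩
      exact ⟨h1, by simp [h2], fun h4 => h3 ⟨G.opp_mem h h1, by simpa using h4⟩⟩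
  have hbd' : ∀ h, h ∈ bd G' {v'} ↔ h ∈ l' ∧ G'.opp h ∉ l' := by
    intro h
    rw [mem_bd, hdl', hdl']
    constructor
    · rintro ⟨h1, h2, h3⟩
      exact ⟨⟨h1, by simpa using h2⟩, fun h4 => h3 (by simp [h4.2])⟩
    · rintro ⟨⟨h1, h2⟩, h3⟩
      exact ⟨h1, by simp [h2], fun h4 => h3 ⟨G'.opp_mem h h1, by simpa using h4⟩⟩
  refine ⟨fun _ => v', φ, fun _ _ => False, ?_⟩
  refine ⟨by simp, by simpa using hr, by simp, fun _ _ h => h, fun _ _ _ h => h.elim,
    fun _ _ h => h.elim, fun _ _ h => h.elim, fun _ _ h => h.elim, ?_, ?_, ?_, ?_, ?_, ?_, ?_, ?_⟩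
  · intro h h1 h2
    exact ((hdl' _).1 (hmem h ((hdl h).2 ⟨h1, by simpa using h2⟩))).1
  · intro h h1 h2
    exact ((hdl' _).1 (hmem h ((hdl h).2 ⟨h1, by simpa using h2⟩))).2
  · intro h h1 h' h1' h2 h2'
    exact hinj h ((hdl h).2 ⟨h1, by simpa using h2⟩) h' ((hdl h').2 ⟨h1', by simpa using h2'⟩)
  · intro w hw
    rw [Finset.mem_singleton] at hw
    subst hw
    rw [← hl, ← hl', hmap, List.filter_eq_self.2]
    intro a ha
    simpa using (hker a).2 ha
  · intro x _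
    exact .done _ fun a _ b h => h
  · intro h h1 h2 h3
    refine ⟨φ h, .refl _, ?_⟩
    have h4 : h ∈ l := (hdl h).2 ⟨h1, by simpa using h2⟩
    have h5 : G.opp h ∈ l := (hdl _).2 ⟨G.opp_mem h h1, by simpa using h3⟩
    exact (key h h4 _ h5).1 rfl
  · intro h _
    exact .refl _
  · refine ⟨?_, ?_, ?_⟩
    · intro h hh
      have hh' := (hbd h).1 (Finset.mem_coe.1 hh)
      refine Finset.mem_coe.2 ((hbd' _).2 ⟨hmem h hh'.1, fun h3 => hh'.2 ?_⟩)
      rw [← hmap, List.mem_map] at h3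
      obtain ⟨b, hb, hb'⟩ := h3
      rw [(key h hh'.1 b hb).2 hb'.symm]
      exact hb
    · intro h hh h' hh' heq
      exact hinj h ((hbd h).1 (Finset.mem_coe.1 hh)).1 h' ((hbd h').1 (Finset.mem_coe.1 hh')).1 heq
    · intro y hy
      have hy' := (hbd' y).1 (Finset.mem_coe.1 hy)
      have h3 := hy'.1
      rw [← hmap, List.mem_map] at h3
      obtain ⟨h, hh, rfl⟩ := h3
      refine ⟨h, Finset.mem_coe.2 ((hbd h).2 ⟨hh, fun h4 => hy'.2 ?_⟩), rfl⟩
      rw [(key h hh _ h4).1 rfl]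
      exact hmem _ h4

end leaf

/-! ### The skeleton near the atoms that are kept -/

theorem thin_mono {d : ℕ} {G : RotGraph V H} {A Z Y : Finset V} (h : Thin d G A Z) (hY : Y ⊆ Z) :
    Thin d G A Y := by
  intro z hz
  obtain ⟨h1, h2, h3⟩ := h z (hY hz)
  refine ⟨h1, h2, fun g hg => ?_⟩
  have h4 := Finset.mem_sdiff.1 (h3 g hg)
  exact Finset.mem_sdiff.2 ⟨h4.1, fun h5 => h4.2 (hY h5)⟩

/-- The other half of a half-edge at an atom. -/
theorem thin_opp {d : ℕ} {G : RotGraph V H} {A Z : Finset V} (h : Thin d G A Z) {g : H}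
    (hg : g ∈ G.darts) (hz : G.base g ∈ Z) :
    G.base (G.opp g) = G.base g ∨ G.base (G.opp g) ∈ A \ Z := by
  by_cases h1 : G.base (G.opp g) = G.base g
  · exact Or.inl h1
  · exact Or.inr ((h _ hz).2.2 g (Skel18.mem_nl.2 ⟨hg, rfl, h1⟩))

section kept

variable {d : ℕ} {G K : RotGraph V H} {A Z P : Finset V}

theorem keep_of_mem (hT : Thin d G A Z) (hP : P ⊆ Z) {h : H} (hh : h ∈ G.darts)
    (hb : G.base h ∈ P) : Keep G (Z \ P) h ∧ G.base (G.opp h) ∉ Z \ P := by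
  have h1 : G.base (G.opp h) ∉ Z \ P := by
    rcases thin_opp hT hh (hP hb) with h1 | h1
    · rw [h1, Finset.mem_sdiff]
      exact fun h2 => h2.2 hb
    · intro h2
      exact (Finset.mem_sdiff.1 h1).2 (Finset.mem_sdiff.1 h2).1
  exact ⟨⟨hh, fun h2 => (Finset.mem_sdiff.1 h2).2 hb, Or.inl h1⟩, h1⟩

theorem sk_rot (hT : Thin d G A Z) (hP : P ⊆ Z) (hK : IsSk G (Z \ P) K) {z : V} (hz : z ∈ P) :
    K.rot z = G.rot z := by
  rw [hK.rot, List.filter_eq_self]
  intro h hh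
  obtain ⟨h1, h2⟩ := (G.mem_rot z h).1 hh
  exact decide_eq_true (keep_of_mem hT hP h1 (h2 ▸ hz)).1

theorem sk_opp (hT : Thin d G A Z) (hP : P ⊆ Z) (hK : IsSk G (Z \ P) K) {h : H}
    (hh : h ∈ G.darts) (hb : G.base h ∈ P) : h ∈ K.darts ∧ K.opp h = G.opp h := by
  obtain ⟨h1, h2⟩ := keep_of_mem hT hP hh hb
  have h3 := (hK.darts h).2 h1
  exact ⟨h3, by rw [hK.opp h h3, Skel18.skOpp_of_notMem G _ h h2]⟩

theorem sk_pat (hT : Thin d G A Z) (hP : P ⊆ Z) (hK : IsSk G (Z \ P) K) {z : V} (hz : z ∈ P) :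
    pat d K z = pat d G z := by
  ext p
  simp only [pat, Finset.mem_filter, Finset.mem_univ, true_and, sk_rot hT hP hK hz]
  constructor
  · rintro ⟨a, b, h1, h2, h3⟩
    have h4 := (G.mem_rot z a).1 (List.mem_of_getElem? h1)
    exact ⟨a, b, h1, h2, by rw [← (sk_opp hT hP hK h4.1 (h4.2 ▸ hz)).2, h3]⟩
  · rintro ⟨a, b, h1, h2, h3⟩
    have h4 := (G.mem_rot z a).1 (List.mem_of_getElem? h1)
    exact ⟨a, b, h1, h2, by rw [(sk_opp hT hP hK h4.1 (h4.2 ▸ hz)).2, h3]⟩

end kept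

/-! ### The third case -/

/-- The boundary map of the hubs: half-edges of edges to atoms go to half-edges of the edges to the
image atoms, position by position. -/
noncomputable def sig [Nonempty H'] (G : RotGraph V H) (Z : Finset V) (K : RotGraph V' H')
    (ζ : V → V') (ρ : H → H') (h : H) : H' :=
  if G.base (G.opp h) ∈ Z then
    K.opp (tra G (G.base (G.opp h)) K (ζ (G.base (G.opp h))) (G.opp h))
  else ρ h

theorem bd_base {d : ℕ} {G : RotGraph V H} {A Z : Finset V} (hT : Thin d G A Z) {h : H}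
    (hh : h ∈ bd G A) : G.base h ∈ A \ Z := by
  obtain ⟨h1, h2, h3⟩ := mem_bd.1 hh
  refine Finset.mem_sdiff.2 ⟨h2, fun h4 => ?_⟩
  rcases thin_opp hT h1 h4 with h5 | h5
  · exact h3 (h5 ▸ h2)
  · exact h3 (Finset.mem_sdiff.1 h5).1

theorem exists_bijOn [Nonempty H'] {S : Finset H} {T : Finset H'} (h : S.card = T.card) :
    ∃ ρ : H → H', Set.BijOn ρ (S : Set H) (T : Set H') := by
  have e := Finset.equivOfCardEq h
  refine ⟨fun x => if hx : x ∈ S then (e ⟨x, hx⟩ : H') else Classical.arbitrary H', ?_, ?_, ?_⟩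
  · intro x hx
    have hx := Finset.mem_coe.1 hx
    simp only [dif_pos hx]
    exact (e ⟨x, hx⟩).2
  · intro x hx y hy hxy
    have hx := Finset.mem_coe.1 hx
    have hy := Finset.mem_coe.1 hy
    simp only [dif_pos hx, dif_pos hy] at hxy
    have := e.injective (Subtype.ext hxy)
    simpa using this
  · intro y hy
    have hy := Finset.mem_coe.1 hy
    refine ⟨(e.symm ⟨y, hy⟩ : H), Finset.mem_coe.2 (e.symm ⟨y, hy⟩).2, ?_⟩
    simp

/-- The third case: the hubs embed with every boundary map, and the atoms embed in atoms. -/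
theorem case3_11 [Nonempty V'] [Nonempty H'] {d : ℕ} {r : V → V' → Prop} {G : RotGraph V H}
    {G' K : RotGraph V' H'} {A Z : Finset V} {A' Z' P : Finset V'} {ζ : V → V'}
    (hZ : Z ⊆ A) (hT : Thin d G A Z) (hA' : A' ⊆ G'.verts) (hZ' : Z' ⊆ A')
    (hT' : Thin d G' A' Z') (hP : P ⊆ Z') (hK : IsSk G' (Z' \ P) K)
    (hζ : Set.BijOn ζ (Z : Set V) (P : Set V')) (hr : ∀ z ∈ Z, r z (ζ z))
    (hlen : ∀ z ∈ Z, (G.rot z).length = (G'.rot (ζ z)).length)
    (hpat : ∀ z ∈ Z, pat d G z = pat d G' (ζ z)) (hcut : cut G A = cut G' A')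
    (hPE : ∀ σ : H → H', Set.BijOn σ (bd G (A \ Z) : Set H) (bd K (A' \ Z') : Set H') →
      PE r G (A \ Z) K (A' \ Z') σ) :
    ∃ β, PE r G A G' A' β := by
  -- the atoms
  have hζm : ∀ z ∈ Z, ζ z ∈ P := fun z hz =>
    Finset.mem_coe.1 (hζ.mapsTo (Finset.mem_coe.2 hz))
  have hKl : ∀ z ∈ Z, (G.rot z).length = (K.rot (ζ z)).length := fun z hz => by
    rw [sk_rot hT' hP hK (hζm z hz)]
    exact hlen z hz
  have hKp : ∀ z ∈ Z, pat d G z = pat d K (ζ z) := fun z hz => by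
    rw [sk_pat hT' hP hK (hζm z hz)]
    exact hpat z hz
  have hKd : ∀ z ∈ P, ∀ g ∈ K.rot z, g ∈ G'.darts ∧ K.opp g = G'.opp g ∧
      (K.base (K.opp g) = z ∨ K.base (K.opp g) ∈ A' \ Z') := by
    intro z hz g hg
    rw [sk_rot hT' hP hK hz] at hg
    obtain ⟨h1, h2⟩ := (G'.mem_rot z g).1 hg
    have h3 := (sk_opp hT' hP hK h1 (h2 ▸ hz)).2
    refine ⟨h1, h3, ?_⟩
    rw [h3, hK.base]
    rcases thin_opp hT' h1 (hP (h2 ▸ hz)) with h4 | h4
    · exact Or.inl (h4.trans h2)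
    · exact Or.inr h4
  have hrotG : ∀ z h, h ∈ G.rot z ↔ h ∈ G.darts ∧ G.base h = z := G.mem_rot
  have hrotK : ∀ z h, h ∈ K.rot z ↔ h ∈ K.darts ∧ K.base h = z := K.mem_rot
  -- the boundary of the whole piece
  have hPZ : Z' \ P ⊆ A' := Finset.sdiff_subset.trans hZ'
  have hbK : bd K (A' \ (Z' \ P)) = bd G' A' :=
    Skel18.bd_eq hPZ (thin_mono hT' Finset.sdiff_subset) hK
  have hAB : A' \ (Z' \ P) = (A' \ Z') ∪ P := by
    ext v
    simp only [Finset.mem_sdiff, Finset.mem_union]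
    constructor
    · rintro ⟨h1, h2⟩
      by_cases h3 : v ∈ P
      · exact Or.inr h3
      · exact Or.inl ⟨h1, fun h4 => h2 ⟨h4, h3⟩⟩
    · rintro (⟨h1, h2⟩ | h1)
      · exact ⟨h1, fun h3 => h2 h3.1⟩
      · exact ⟨hZ' (hP h1), fun h3 => h3.2 h1⟩
  have hBP : ∀ v, v ∈ A' \ Z' → v ∉ P := fun v h1 h2 => (Finset.mem_sdiff.1 h1).2 (hP h2)
  obtain ⟨ρ, hρ⟩ : ∃ ρ : H → H', Set.BijOn ρ (bd G A : Set H) (bd G' A' : Set H') :=
    exists_bijOn hcut
  set σ := sig G Z K ζ ρ with hσ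
  have hσ1 : ∀ h, G.base (G.opp h) ∈ Z → σ h =
      K.opp (tra G (G.base (G.opp h)) K (ζ (G.base (G.opp h))) (G.opp h)) := fun h hh => by
    rw [hσ, sig, if_pos hh]
  have hσ2 : ∀ h, G.base (G.opp h) ∉ Z → σ h = ρ h := fun h hh => by
    rw [hσ, sig, if_neg hh]
  -- the half-edges to atoms
  have hb1 : ∀ h ∈ bd G (A \ Z), G.base (G.opp h) ∈ Z →
      tra G (G.base (G.opp h)) K (ζ (G.base (G.opp h))) (G.opp h) ∈ K.rot (ζ (G.base (G.opp h))) ∧
      K.opp (tra G (G.base (G.opp h)) K (ζ (G.base (G.opp h))) (G.opp h)) ∉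
        K.rot (ζ (G.base (G.opp h))) := by
    intro h hh hz
    obtain ⟨h1, h2, h3⟩ := mem_bd.1 hh
    have h4 : G.opp h ∈ G.rot (G.base (G.opp h)) := (hrotG _ _).2 ⟨G.opp_mem h h1, rfl⟩
    refine ⟨tra_mem (hKl _ hz) h4, fun h5 => ?_⟩
    have h6 := (tra_loop (hT _ hz).1 (hKl _ hz) (hKp _ hz) h4).2 h5
    rw [G.opp_opp h h1, hrotG] at h6
    rw [h6.2] at h2
    exact (Finset.mem_sdiff.1 h2).2 hz
  have hb2 : ∀ h ∈ bd G (A \ Z), G.base (G.opp h) ∉ Z → h ∈ bd G A := by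
    intro h hh hz
    obtain ⟨h1, h2, h3⟩ := mem_bd.1 hh
    exact mem_bd.2 ⟨h1, (Finset.mem_sdiff.1 h2).1, fun h4 => h3 (Finset.mem_sdiff.2 ⟨h4, hz⟩)⟩
  have hb3 : ∀ h ∈ bd G' A', h ∈ bd K (A' \ Z') ∧ K.base (K.opp h) ∉ P := by
    intro h hh
    have h1 := bd_base hT' hh
    rw [← hbK, hAB] at hh
    obtain ⟨h2, h3, h4⟩ := mem_bd.1 hh
    rw [Finset.mem_union, not_or] at h4
    refine ⟨mem_bd.2 ⟨h2, ?_, h4.1⟩, h4.2⟩
    rw [hK.base]
    exact h1
  have hσt : ∀ h ∈ bd G (A \ Z), (hz : G.base (G.opp h) ∈ Z) → σ h ∈ K.darts ∧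
      K.base (σ h) ∈ A' \ Z' ∧ K.base (K.opp (σ h)) = ζ (G.base (G.opp h)) ∧
      K.opp (σ h) = tra G (G.base (G.opp h)) K (ζ (G.base (G.opp h))) (G.opp h) := by
    intro h hh hz
    obtain ⟨h1, h2⟩ := hb1 h hh hz
    obtain ⟨h3, h4⟩ := (hrotK _ _).1 h1
    obtain ⟨h5, h6, h7⟩ := hKd _ (hζm _ hz) _ h1
    rw [hσ1 h hz, K.opp_opp _ h3]
    refine ⟨K.opp_mem _ h3, h7.resolve_left fun h8 => h2 ((hrotK _ _).2 ⟨K.opp_mem _ h3, h8⟩),
      h4, rfl⟩
  have hσs : ∀ h ∈ bd G (A \ Z), G.base (G.opp h) ∉ Z → σ h ∈ bd G' A' := by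
    intro h hh hz
    rw [hσ2 h hz]
    exact Finset.mem_coe.1 (hρ.mapsTo (Finset.mem_coe.2 (hb2 h hh hz)))
  have hσb : Set.BijOn σ (bd G (A \ Z) : Set H) (bd K (A' \ Z') : Set H') := by
    refine ⟨fun h hh => ?_, fun h hh g hg he => ?_, fun y hy => ?_⟩
    · have hh := Finset.mem_coe.1 hh
      refine Finset.mem_coe.2 ?_
      by_cases hz : G.base (G.opp h) ∈ Z
      · obtain ⟨h1, h2, h3, -⟩ := hσt h hh hz
        exact mem_bd.2 ⟨h1, h2, fun h4 => hBP _ h4 (h3 ▸ hζm _ hz)⟩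
      · exact (hb3 _ (hσs h hh hz)).1
    · have hh := Finset.mem_coe.1 hh
      have hg := Finset.mem_coe.1 hg
      obtain ⟨hd1, -, -⟩ := mem_bd.1 hh
      obtain ⟨hd2, -, -⟩ := mem_bd.1 hg
      by_cases hz : G.base (G.opp h) ∈ Z <;> by_cases hy : G.base (G.opp g) ∈ Z
      · obtain ⟨-, -, h3, h4⟩ := hσt h hh hz
        obtain ⟨-, -, h5, h6⟩ := hσt g hg hy
        have h7 : G.base (G.opp h) = G.base (G.opp g) := by
          refine hζ.injOn (Finset.mem_coe.2 hz) (Finset.mem_coe.2 hy) ?_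
          rw [← h3, ← h5, he]
        rw [he, h6, ← h7] at h4
        have h8 := tra_inj (hKl _ hz) ((hrotG _ _).2 ⟨G.opp_mem g hd2, h7.symm⟩)
          ((hrotG _ _).2 ⟨G.opp_mem h hd1, rfl⟩) h4
        rw [← G.opp_opp h hd1, ← h8, G.opp_opp g hd2]
      · obtain ⟨-, -, h3, h4⟩ := hσt h hh hz
        exact absurd (hζm _ hz) (by rw [← h3, he]; exact (hb3 _ (hσs g hg hy)).2)
      · obtain ⟨-, -, h3, h4⟩ := hσt g hg hy
        exact absurd (hζm _ hy) (by rw [← h3, ← he]; exact (hb3 _ (hσs h hh hz)).2)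
      · rw [hσ2 h hz, hσ2 g hy] at he
        exact hρ.injOn (Finset.mem_coe.2 (hb2 h hh hz)) (Finset.mem_coe.2 (hb2 g hg hy)) he
    · have hy := Finset.mem_coe.1 hy
      obtain ⟨h1, h2, h3⟩ := mem_bd.1 hy
      by_cases hp : K.base (K.opp y) ∈ P
      · obtain ⟨z, hz, hz2⟩ := hζ.surjOn (Finset.mem_coe.2 hp)
        have hz := Finset.mem_coe.1 hz
        have h4 : K.opp y ∈ K.rot (ζ z) := (hrotK _ _).2 ⟨K.opp_mem y h1, hz2.symm⟩
        obtain ⟨g, hg, hg2⟩ := tra_surj (hKl z hz) h4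
        obtain ⟨hg3, hg4⟩ := (hrotG _ _).1 hg
        have h5 : G.opp g ∉ G.rot z := by
          intro h5
          have h6 := (tra_loop (hT _ hz).1 (hKl _ hz) (hKp _ hz) hg).1 h5
          rw [hg2, K.opp_opp y h1, hrotK] at h6
          rw [h6.2] at h2
          exact hBP _ h2 (hζm _ hz)
        have h6 : G.base (G.opp g) ∈ A \ Z := by
          rcases thin_opp hT hg3 (hg4 ▸ hz) with h6 | h6
          · exact absurd ((hrotG _ _).2 ⟨G.opp_mem g hg3, h6.trans hg4⟩) h5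
          · exact h6
        have h7 : G.base (G.opp (G.opp g)) = z := by rw [G.opp_opp g hg3, hg4]
        refine ⟨G.opp g, Finset.mem_coe.2 (mem_bd.2 ⟨G.opp_mem g hg3, h6, ?_⟩), ?_⟩
        · rw [h7]
          exact fun h8 => (Finset.mem_sdiff.1 h8).2 hz
        · rw [hσ1 _ (by rw [h7]; exact hz), h7, G.opp_opp g hg3, hg2, K.opp_opp y h1]
      · have h4 : y ∈ bd G' A' := by
          rw [← hbK, hAB]
          refine mem_bd.2 ⟨h1, Finset.mem_union_left _ h2, ?_⟩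
          rw [Finset.mem_union, not_or]
          exact ⟨h3, hp⟩
        obtain ⟨h, hh, hh2⟩ := hρ.surjOn (Finset.mem_coe.2 h4)
        have hh := Finset.mem_coe.1 hh
        obtain ⟨h5, h6, h7⟩ := mem_bd.1 hh
        refine ⟨h, Finset.mem_coe.2 (mem_bd.2 ⟨h5, bd_base hT hh, fun h8 =>
          h7 (Finset.mem_sdiff.1 h8).1⟩), ?_⟩
        rw [hσ2 h fun h8 => h7 (hZ h8)]
        exact hh2
  have hPE0 := hPE σ hσb
  -- add the atoms one by one
  have hAll : ∀ Y : Finset V, Y ⊆ Z → ∃ β, PE r G ((A \ Z) ∪ Y) K ((A' \ Z') ∪ Y.image ζ) β ∧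
      ∀ h ∈ bd G ((A \ Z) ∪ Y), β h = σ h := by
    intro Y
    induction Y using Finset.induction_on with
    | empty =>
      intro _
      refine ⟨σ, ?_, fun h _ => rfl⟩
      simpa using hPE0
    | insert z Y hzY ih =>
      intro hY
      have hzZ : z ∈ Z := hY (Finset.mem_insert_self _ _)
      obtain ⟨β, h1, h2⟩ := ih ((Finset.subset_insert _ _).trans hY)
      have h3 : PE r G {z} K {ζ z} (tra G z K (ζ z)) :=
        PE.leaf_tra (hr z hzZ) (hT z hzZ).1 (hKl z hzZ) (hKp z hzZ)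
      have hYZ : Y ⊆ Z := (Finset.subset_insert _ _).trans hY
      -- half-edges on the boundary are at the hubs
      have hbd : ∀ h ∈ bd G ((A \ Z) ∪ Y), h ∈ bd G (A \ Z) := by
        intro h hh
        obtain ⟨h4, h5, h6⟩ := mem_bd.1 hh
        rw [Finset.mem_union, not_or] at h6
        refine mem_bd.2 ⟨h4, ?_, h6.1⟩
        rcases Finset.mem_union.1 h5 with h7 | h7
        · exact h7
        · rcases thin_opp hT h4 (hYZ h7) with h8 | h8
          · exact absurd (h8 ▸ h7) h6.2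
          · exact absurd h8 h6.1
      have hdis : Disjoint ((A \ Z) ∪ Y) {z} := by
        rw [Finset.disjoint_singleton_right, Finset.mem_union, not_or]
        exact ⟨fun h4 => (Finset.mem_sdiff.1 h4).2 hzZ, hzY⟩
      have hζY : ∀ y ∈ Z, ζ y ∈ Y.image ζ → y ∈ Y := by
        intro y hy h4
        obtain ⟨w, hw, hw2⟩ := Finset.mem_image.1 h4
        rw [← hζ.injOn (Finset.mem_coe.2 (hYZ hw)) (Finset.mem_coe.2 hy) hw2]
        exact hw
      have hdis' : Disjoint ((A' \ Z') ∪ Y.image ζ) {ζ z} := by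
        rw [Finset.disjoint_singleton_right, Finset.mem_union, not_or]
        exact ⟨fun h4 => hBP _ h4 (hζm z hzZ), fun h4 => hzY (hζY z hzZ h4)⟩
      have h4 := PE.union hdis hdis' h1 h3 ?_ ?_ ?_
      · refine ⟨fun h => if G.base h ∈ (A \ Z) ∪ Y then β h else tra G z K (ζ z) h, ?_,
          fun h hh => ?_⟩
        · have e1 : (A \ Z) ∪ insert z Y = (A \ Z) ∪ Y ∪ {z} := by
            ext v
            simp only [Finset.mem_union, Finset.mem_insert, Finset.mem_singleton]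
            tauto
          have e2 : (A' \ Z') ∪ (insert z Y).image ζ = (A' \ Z') ∪ Y.image ζ ∪ {ζ z} := by
            rw [Finset.image_insert]
            ext v
            simp only [Finset.mem_union, Finset.mem_insert, Finset.mem_singleton]
            tauto
          rw [e1, e2]
          exact h4
        · obtain ⟨h5, h6, h7⟩ := mem_bd.1 hh
          have h7' : G.base (G.opp h) ∉ A \ Z ∧ G.base (G.opp h) ≠ z ∧ G.base (G.opp h) ∉ Y := by
            rw [Finset.mem_union, Finset.mem_insert] at h7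
            tauto
          have h8 : G.base h ∈ A \ Z := by
            rcases Finset.mem_union.1 h6 with h8 | h8
            · exact h8
            · rcases thin_opp hT h5 (hY h8) with h9 | h9
              · rw [Finset.mem_insert] at h8
                rw [h9] at h7'
                tauto
              · exact absurd h9 h7'.1
          simp only [if_pos (Finset.mem_union_left Y h8)]
          refine h2 h (mem_bd.2 ⟨h5, Finset.mem_union_left _ h8, ?_⟩)
          rw [Finset.mem_union]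
          tauto
      · intro h hh hz
        rw [Finset.mem_singleton] at hz
        have h5 := hbd h hh
        rw [h2 h hh, (hσt h h5 (hz ▸ hzZ)).2.2.2, hz]
      · intro h hh hz
        rw [Finset.mem_singleton] at hz ⊢
        have h5 := hbd h hh
        rw [h2 h hh]
        by_cases h6 : G.base (G.opp h) ∈ Z
        · rw [(hσt h h5 h6).2.2.1]
          exact fun h7 => hz (hζ.injOn (Finset.mem_coe.2 h6) (Finset.mem_coe.2 hzZ) h7)
        · exact fun h7 => (hb3 _ (hσs h h5 h6)).2 (h7 ▸ hζm z hzZ)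
      · intro h hh hz
        obtain ⟨h5, h6, h7⟩ := mem_bd.1 hh
        rw [Finset.mem_singleton] at h6 h7
        exfalso
        rcases thin_opp hT h5 (h6 ▸ hzZ) with h8 | h8
        · exact h7 (h8.trans h6)
        · exact hz (Finset.mem_union_left _ h8)
  obtain ⟨β, hβ, -⟩ := hAll Z (Finset.Subset.refl _)
  have e1 : (A \ Z) ∪ Z = A := Finset.sdiff_union_of_subset hZ
  have e2 : (A' \ Z') ∪ Z.image ζ = A' \ (Z' \ P) := by
    rw [hAB]
    congr 1
    ext v
    rw [Finset.mem_image]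
    constructor
    · rintro ⟨z, hz, rfl⟩
      exact hζm z hz
    · intro hv
      obtain ⟨z, hz, hz2⟩ := hζ.surjOn (Finset.mem_coe.2 hv)
      exact ⟨z, Finset.mem_coe.1 hz, hz2⟩
  rw [e1, e2] at hβ
  have h5 := (Skel18.skpe_18 V' H' G' K A' (Z' \ P) d hA' hPZ (thin_mono hT' Finset.sdiff_subset)
    hK).1
  exact ⟨id ∘ β, PE.trans (r₁ := r) (r₂ := fun a b => a = b) (r := r)
    (fun u v w h h' => h' ▸ h) hβ h5⟩

/-- The conclusion of `StUniB` for the number `N`. -/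
def UniBN (k M c D N : ℕ) : Prop := ∀ (V V' : Type u) (H H' : Type v) [Nonempty H']
  (G : RotGraph V H) (A : Finset V) (G' : RotGraph V' H') (A' : Finset V') (ι : H' → ℕ)
  (r : V → V' → Prop) (f : V → V') (σ : H → H'), A ⊆ G.verts → A' ⊆ G'.verts →
    Set.BijOn f (A : Set V) (A' : Set V') → (∀ v ∈ A, r v (f v)) → A.card ≤ k →
    (dts G A).card ≤ D → Set.BijOn σ (bd G A : Set H) (bd G' A' : Set H') → cut G' A' ≤ c →
    (∀ S, S.Nonempty → S ⊆ A' → S ≠ A' → N ≤ cut G' S) → Cutting G' A' ι M →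
    N ≤ nbad G' A' M ι → PE r G A G' A' σ

theorem exists_uniBN (hU : StUniB.{u, v}) (k M c D : ℕ) : ∃ N, UniBN.{u, v} k M c D N :=
  hU k M c D

/-- The hubs embed with every boundary map if a piece contained in the skeleton is rich. -/
theorem rich_11 [Nonempty V'] [Nonempty H'] {k M c D N : ℕ} (hN : UniBN.{u, v} k M c D N)
    {r : V → V' → Prop} {G : RotGraph V H} {B : Finset V} {K G₁ : RotGraph V' H'}
    {B' : Finset V'} {ι : H' → ℕ} {f : V → V'} (hB : B ⊆ G.verts)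
    (hf : Set.BijOn f (B : Set V) (B' : Set V')) (hr : ∀ v ∈ B, r v (f v)) (hk : B.card ≤ k)
    (hD : (dts G B).card ≤ D) (hc : cut K B' ≤ c)
    (hS : ∀ S, S.Nonempty → S ⊆ B' → S ≠ B' → N ≤ cut K S) (hG₁ : Sub1 G₁ K B')
    (hι : Cutting G₁ B' ι M) (hb : N ≤ nbad G₁ B' M ι) :
    ∀ σ : H → H', Set.BijOn σ (bd G B : Set H) (bd K B' : Set H') → PE r G B K B' σ := by
  intro σ hσ
  obtain ⟨β, hβ⟩ := hG₁.pe
  have h1 := PE.bij hβ
  have h2 := h1.invOn_invFunOn
  have h3 : Set.BijOn (Function.invFunOn β (bd G₁ B' : Set H')) (bd K B' : Set H')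
      (bd G₁ B' : Set H') := h1.symm h2.symm
  have h4 := hN V V' H H' G B G₁ B' ι r f (Function.invFunOn β (bd G₁ B' : Set H') ∘ σ) hB
    hG₁.verts hf hr hk hD (h3.comp hσ)
    (by rw [hG₁.cuts _ (Finset.Subset.refl _)]; exact hc)
    (fun S h5 h6 h7 => by rw [hG₁.cuts S h6]; exact hS S h5 h6 h7) hι hb
  refine PE.congr_bd (PE.trans (r₁ := r) (r₂ := fun a b => a = b) (r := r)
    (fun u v w h h' => h' ▸ h) h4 hβ) fun h hh => ?_
  exact (h2.2 (hσ.mapsTo (Finset.mem_coe.2 hh))).symm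

/-- No hubs. -/
theorem noHub_11 [Nonempty V'] [Nonempty H'] {r : V → V' → Prop} {G : RotGraph V H}
    {B : Finset V} {K : RotGraph V' H'} {B' : Finset V'} (hB : B = ∅) (hB' : B' = ∅) :
    ∀ σ : H → H', Set.BijOn σ (bd G B : Set H) (bd K B' : Set H') → PE r G B K B' σ := by
  intro σ _
  subst hB hB'
  exact PE.empty' r G K σ

end RotWqo.Tc.LeafZc11
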