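import Pool.Agent.Lib.MP_cb4a0f_co.Tc.Stmts
import Pool.Agent.Lib.MP_cb4a0f_co.Bag.LinkedB11

/-!
# MP_cb4a0f_co: linked trees of fat bags
-/

open Classical

namespace RotWqo.Tc.LinkedZ11

open RotWqo.Bag RotWqo.Hk RotWqo.Tc

universe u v

/-- Subsets of fat bags are fat bags. -/
theorem fat_mono {V : Type u} {H : Type v} {k d : ℕ} {G : RotGraph V H} {S T : Finset V}
    (h : S ⊆ T) (hT : Fat k d G T) : Fat k d G S := by
  obtain ⟨Z, hZ, hk, hz⟩ := hT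
  refine ⟨Z ∩ S, Finset.inter_subset_right, ?_, fun z hz1 => ?_⟩
  · refine (Finset.card_le_card fun v hv => ?_).trans hk
    rw [Finset.mem_sdiff] at hv ⊢
    exact ⟨h hv.1, fun h1 => hv.2 (Finset.mem_inter.2 ⟨h1, hv.1⟩)⟩
  · obtain ⟨h1, h2, h3⟩ := hz z (Finset.mem_inter.1 hz1).1
    exact ⟨h1, h2, fun z' hz' hne => h3 z' (Finset.mem_inter.1 hz').1 hne⟩

end RotWqo.Tc.LinkedZ11

namespace RotWqo.Tc

open RotWqo.Bag RotWqo.Hk

universe u v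

/-- (Z5a) Linked trees of fat bags. -/
theorem linkedZ11 : StLinkedZ.{u, v} := by
  intro k d V H G A t ht
  have hQ : ∀ S T : Finset V, S ⊆ T → S.Nonempty → Fat k d G T → Fat k d G S :=
    fun S T h _ hT => LinkedZ11.fat_mono h hT
  obtain ⟨t', h1, h2, h3, h4⟩ := exists_linkedB (cut G) (cut_submod _) (cut_posimod _) hQ k t
    (TLB.ok_iff.mpr ⟨ht.pw, fun B hB => ⟨ht.ne B hB, ht.fat B hB⟩⟩) ht.cuts
  obtain ⟨h5, h6⟩ := TLB.ok_iff.mp h1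
  exact ⟨t', ⟨h5, fun B hB => (h6 B hB).1, fun B hB => (h6 B hB).2, h2.trans ht.top, h3⟩, h4⟩

end RotWqo.Tc
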