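import Pool.Agent.Lib.MP_cb4a0f_co.Tc.Stmts
import Pool.Agent.Lib.MP_cb4a0f_co.Hk.Seg21

/-!
# MP_cb4a0f_co: from a segment carving of the skeleton to a carving of the piece with its atoms
(seat 21)

The half-edges which are not in the skeleton are anchored at half-edges of the skeleton, the atoms
at one of their neighbouring half-edges. Each leaf is replaced by the caterpillar of what is
anchored there.
-/

open Classical

namespace RotWqo.Tc.SegT21

open RotWqo.Bag RotWqo.Hk

universe u v

/-! ### trees -/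

theorem cat {β : Type*} (l : List β) (hl : l ≠ []) : ∃ t : Tree β, t.leaves = l ∧
    ∀ s, IsSub s t → (∃ l₁ l₂, l = l₁ ++ l₂ ∧ s.leaves = l₁) ∨ ∃ b ∈ l, s.leaves = [b] := by
  induction l using List.reverseRecOn with
  | nil => exact absurd rfl hl
  | append_singleton l b ih =>
    rcases eq_or_ne l [] with rfl | h0
    · refine ⟨.leaf b, rfl, fun s hs => ?_⟩
      cases hs
      exact Or.inr ⟨b, by simp, rfl⟩
    · obtain ⟨t, h1, h2⟩ := ih h0
      refine ⟨.node t (.leaf b), by simp [Tree.leaves, h1], fun s hs => ?_⟩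
      cases hs with
      | refl => exact Or.inl ⟨l ++ [b], [], by simp, by simp [Tree.leaves, h1]⟩
      | left _ _ h3 =>
        rcases h2 s h3 with ⟨l₁, l₂, h4, h5⟩ | ⟨c, h4, h5⟩
        · exact Or.inl ⟨l₁, l₂ ++ [b], by rw [h4, List.append_assoc], h5⟩
        · exact Or.inr ⟨c, List.mem_append_left _ h4, h5⟩
      | right _ _ h3 =>
        cases h3
        exact Or.inr ⟨b, by simp, rfl⟩

/-- Each leaf is replaced by a caterpillar. -/
theorem bind {α β : Type*} (F : α → List β) : ∀ t : Tree α, t.leaves.flatMap F ≠ [] →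
    ∃ t' : Tree β, t'.leaves = t.leaves.flatMap F ∧ ∀ s', IsSub s' t' →
      (∃ s, IsSub s t ∧ s'.leaves = s.leaves.flatMap F) ∨
      (∃ a ∈ t.leaves, ∃ l₁ l₂, F a = l₁ ++ l₂ ∧ s'.leaves = l₁) ∨
      ∃ a ∈ t.leaves, ∃ b ∈ F a, s'.leaves = [b]
  | .leaf a, h => by
    have h0 : F a ≠ [] := by simpa [Tree.leaves] using h
    obtain ⟨t, h1, h2⟩ := cat (F a) h0
    refine ⟨t, by simp [Tree.leaves, h1], fun s' hs => ?_⟩
    rcases h2 s' hs with ⟨l₁, l₂, h3, h4⟩ | ⟨b, h3, h4⟩
    · exact Or.inr (Or.inl ⟨a, by simp [Tree.leaves], l₁, l₂, h3, h4⟩)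
    · exact Or.inr (Or.inr ⟨a, by simp [Tree.leaves], b, h3, h4⟩)
  | .node l r, h => by
    have hL : (Tree.node l r).leaves.flatMap F = l.leaves.flatMap F ++ r.leaves.flatMap F := by
      rw [Tree.leaves, List.flatMap_append]
    have memL : ∀ a ∈ l.leaves, a ∈ (Tree.node l r).leaves := fun a ha => by
      rw [Tree.leaves]
      exact List.mem_append_left _ ha
    have memR : ∀ a ∈ r.leaves, a ∈ (Tree.node l r).leaves := fun a ha => by
      rw [Tree.leaves]
      exact List.mem_append_right _ ha
    by_cases hl : l.leaves.flatMap F = []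
    · have hr : r.leaves.flatMap F ≠ [] := fun hr => h (by rw [hL, hl, hr]; rfl)
      obtain ⟨t', h1, h2⟩ := bind F r hr
      refine ⟨t', by rw [hL, hl, h1]; rfl, fun s' hs => ?_⟩
      rcases h2 s' hs with ⟨s, h3, h4⟩ | ⟨a, h3, h4⟩ | ⟨a, h3, h4⟩
      · exact Or.inl ⟨s, .right _ _ h3, h4⟩
      · exact Or.inr (Or.inl ⟨a, memR a h3, h4⟩)
      · exact Or.inr (Or.inr ⟨a, memR a h3, h4⟩)
    · obtain ⟨tl, h1, h2⟩ := bind F l hl
      have hsubl : ∀ s', IsSub s' tl → (∃ s, IsSub s (Tree.node l r) ∧
          s'.leaves = s.leaves.flatMap F) ∨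
          (∃ a ∈ (Tree.node l r).leaves, ∃ l₁ l₂, F a = l₁ ++ l₂ ∧ s'.leaves = l₁) ∨
          ∃ a ∈ (Tree.node l r).leaves, ∃ b ∈ F a, s'.leaves = [b] := by
        intro s' hs
        rcases h2 s' hs with ⟨s, h3, h4⟩ | ⟨a, h3, h4⟩ | ⟨a, h3, h4⟩
        · exact Or.inl ⟨s, .left _ _ h3, h4⟩
        · exact Or.inr (Or.inl ⟨a, memL a h3, h4⟩)
        · exact Or.inr (Or.inr ⟨a, memL a h3, h4⟩)
      by_cases hr : r.leaves.flatMap F = []
      · exact ⟨tl, by rw [hL, hr, h1, List.append_nil], hsubl⟩
      · obtain ⟨tr, h3, h4⟩ := bind F r hr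
        refine ⟨.node tl tr, by rw [hL, Tree.leaves, h1, h3], fun s' hs => ?_⟩
        cases hs with
        | refl => exact Or.inl ⟨.node l r, .refl, by rw [hL, Tree.leaves, h1, h3]⟩
        | left _ _ h5 => exact hsubl s' h5
        | right _ _ h5 =>
          rcases h4 s' h5 with ⟨s, h6, h7⟩ | ⟨a, h6, h7⟩ | ⟨a, h6, h7⟩
          · exact Or.inl ⟨s, .right _ _ h6, h7⟩
          · exact Or.inr (Or.inl ⟨a, memR a h6, h7⟩)
          · exact Or.inr (Or.inr ⟨a, memR a h6, h7⟩)

/-! ### positions -/

variable {V : Type u} {H : Type v}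

theorem mem_dts {G : RotGraph V H} {B : Finset V} {h : H} :
    h ∈ dts G B ↔ h ∈ G.darts ∧ G.base h ∈ B := Finset.mem_filter

theorem mem_nl {G : RotGraph V H} {z : V} {h : H} :
    h ∈ nl G z ↔ h ∈ G.darts ∧ G.base h = z ∧ G.base (G.opp h) ≠ z := Finset.mem_filter

theorem pos_inj {G : RotGraph V H} {a b : H} (ha : a ∈ G.darts) (_hb : b ∈ G.darts)
    (h : G.base a = G.base b) (hp : pos G a = pos G b) : a = b := by
  unfold pos at hp
  rw [h] at hp
  exact (List.idxOf_inj ((G.mem_rot _ _).2 ⟨ha, h⟩)).1 hp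

theorem rot_pos (G : RotGraph V H) (x : V) :
    (G.rot x).Pairwise (fun a b => pos G a < pos G b) := by
  rw [List.pairwise_iff_getElem]
  intro i j hi hj hij
  have h1 := ((G.mem_rot x _).1 (List.getElem_mem hi)).2
  have h2 := ((G.mem_rot x _).1 (List.getElem_mem hj)).2
  unfold pos
  rw [h1, h2, (G.nodup x).idxOf_getElem, (G.nodup x).idxOf_getElem]
  exact hij

/-! ### the skeleton -/

/-- what is needed about the skeleton -/
structure Sk (G K : RotGraph V H) (B Z : Finset V) : Prop where
  base : K.base = G.base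
  sub : ∀ h ∈ dts K B, h ∈ dts G B
  disj : ∀ z ∈ Z, z ∉ B
  nl : ∀ z ∈ Z, (nl G z).card ≤ 2 ∧ ∀ h ∈ nl G z, G.base (G.opp h) ∈ B
  drop : ∀ h ∈ dts G B, h ∉ dts K B → G.base (G.opp h) ∈ Z ∧
    Tc.nl G (G.base (G.opp h)) = {G.opp h}
  two : ∀ z ∈ Z, ∀ e g, e ≠ g → Tc.nl G z = {e, g} → G.opp e ∈ dts K B ∧
    (K.opp (G.opp e) ∈ dts K B → K.opp (G.opp e) = G.opp g)
  one : ∀ h ∈ dts K B, G.base (G.opp h) ∉ Z → K.opp h = G.opp h
  pos : ∀ a ∈ dts K B, ∀ b ∈ dts K B, G.base a = G.base b → pos G a ≤ pos G b →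
    pos K a ≤ pos K b

theorem pair_cases {α : Type*} {s : Finset α} {a : α} (hc : s.card ≤ 2) (ha : a ∈ s) :
    s = {a} ∨ ∃ b, b ≠ a ∧ s = {a, b} := by
  by_cases h : s = {a}
  · exact Or.inl h
  · right
    obtain ⟨b, hb, hba⟩ : ∃ b ∈ s, b ≠ a := by
      by_contra hn
      push Not at hn
      exact h (Finset.eq_singleton_iff_unique_mem.2 ⟨ha, hn⟩)
    refine ⟨b, hba, ?_⟩
    symm
    refine Finset.eq_of_subset_of_card_le ?_ ?_
    · intro c hc'
      rcases Finset.mem_insert.1 hc' with rfl | hc'
      · exact ha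
      · rw [Finset.mem_singleton] at hc'
        rw [hc']
        exact hb
    · rw [Finset.card_pair hba.symm]
      exact hc

theorem pair_other {α : Type*} {a b c : α} (h : ({a, b} : Finset α) = {a, c}) (hb : b ≠ a) :
    b = c := by
  have h1 : b ∈ ({a, c} : Finset α) := by rw [← h]; simp
  rcases Finset.mem_insert.1 h1 with h2 | h2
  · exact absurd h2 hb
  · exact Finset.mem_singleton.1 h2

theorem sk_of {G K : RotGraph V H} {A Z P : Finset V} {d : ℕ}
    (hT : Thin d G A Z) (hK : IsSk G (Z \ P) K) : Sk G K (A \ Z) Z := by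
  have hB : ∀ v, v ∈ A \ Z → v ∉ Z \ P := fun v hv h =>
    (Finset.mem_sdiff.1 hv).2 (Finset.mem_sdiff.1 h).1
  have hopp : ∀ h ∈ G.darts, ∀ z ∈ Z, G.base h ∈ A \ Z → G.base (G.opp h) = z →
      G.opp h ∈ Tc.nl G z := by
    intro h hh z hz hb he
    rw [mem_nl]
    refine ⟨G.opp_mem h hh, he, ?_⟩
    rw [G.opp_opp h hh]
    intro h1
    rw [h1] at hb
    exact (Finset.mem_sdiff.1 hb).2 hz
  refine ⟨hK.base, ?_, ?_, ?_, ?_, ?_, ?_, ?_⟩
  · intro h hh
    rw [mem_dts] at hh ⊢
    rw [hK.base] at hh
    exact ⟨((hK.darts h).1 hh.1).1, hh.2⟩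
  · intro z hz h
    exact (Finset.mem_sdiff.1 h).2 hz
  · intro z hz
    exact (hT z hz).2
  · intro h hh hn
    rw [mem_dts] at hh
    have h1 : ¬ Keep G (Z \ P) h := fun h1 => hn (by
      rw [mem_dts, hK.base]
      exact ⟨(hK.darts h).2 h1, hh.2⟩)
    unfold Keep at h1
    push Not at h1
    obtain ⟨h2, h3⟩ := h1 hh.1 (hB _ hh.2)
    have hz := (Finset.mem_sdiff.1 h2).1
    refine ⟨hz, ?_⟩
    have h4 := hopp h hh.1 _ hz hh.2 rfl
    rcases pair_cases (hT _ hz).2.1 h4 with h5 | ⟨g, h5, h6⟩
    · exact h5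
    · have h7 : g ∈ Tc.nl G (G.base (G.opp h)) := by rw [h6]; simp
      exact absurd (h3 g h5 h6) (hB _ ((hT _ hz).2.2 g h7))
  · intro z hz e g heg hn
    have he : e ∈ Tc.nl G z := by rw [hn]; simp
    have hg : g ∈ Tc.nl G z := by rw [hn]; simp
    have he' := mem_nl.1 he
    have hBe := (hT z hz).2.2 e he
    have hBg := (hT z hz).2.2 g hg
    have h1 : Keep G (Z \ P) (G.opp e) := by
      refine ⟨G.opp_mem e he'.1, hB _ hBe, ?_⟩
      rw [G.opp_opp e he'.1, he'.2.1]
      exact Or.inr ⟨g, heg.symm, hn, hB _ hBg⟩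
    have h2 : G.opp e ∈ K.darts := (hK.darts _).2 h1
    refine ⟨?_, fun h3 => ?_⟩
    · rw [mem_dts, hK.base]
      exact ⟨h2, hBe⟩
    · rw [hK.opp _ h2] at h3 ⊢
      unfold skOpp at h3 ⊢
      by_cases h4 : G.base (G.opp (G.opp e)) ∈ Z \ P ∧
        ∃ g', g' ≠ G.opp (G.opp e) ∧ Tc.nl G (G.base (G.opp (G.opp e))) = {G.opp (G.opp e), g'} ∧
          G.base (G.opp g') ∉ Z \ P
      · rw [dif_pos h4]
        have h5 := h4.2.choose_spec
        generalize h4.2.choose = c at h5 ⊢
        rw [G.opp_opp e he'.1, he'.2.1, hn] at h5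
        have h6 := pair_other h5.2.1 heg.symm
        exact congrArg G.opp h6.symm
      · rw [dif_neg h4, mem_dts, hK.base, G.opp_opp e he'.1, he'.2.1] at h3
        exact absurd hz (Finset.mem_sdiff.1 h3.2).2
  · intro h hh hn
    have h1 : h ∈ K.darts := (mem_dts.1 hh).1
    rw [hK.opp h h1]
    unfold skOpp
    rw [dif_neg]
    rintro ⟨h2, -⟩
    exact hn (Finset.mem_sdiff.1 h2).1
  · intro a ha b hb hab hp
    have h1 := hK.rot (G.base b)
    have hmem : ∀ c ∈ dts K (A \ Z), G.base c = G.base b →
        c ∈ (G.rot (G.base b)).filter (fun h => decide (Keep G (Z \ P) h)) := by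
      intro c hc hcb
      have h2 := (mem_dts.1 hc).1
      rw [hK.darts] at h2
      rw [List.mem_filter, G.mem_rot]
      exact ⟨⟨h2.1, hcb⟩, by simpa using h2⟩
    by_contra hlt
    have hlt : pos K b < pos K a := by omega
    unfold Bag.pos at hlt hp
    rw [hK.base, hab, h1] at hlt
    rw [hab] at hp
    have h3 := Seg21.idx_lt (G.nodup _) _ (hmem b hb rfl) (hmem a ha hab) hlt
    omega

/-! ### anchors of half-edges -/

/-- the anchors: half-edges of the skeleton -/
structure Anc (G K : RotGraph V H) (B : Finset V) (anc : H → Option H) : Prop where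
  mem : ∀ h ∈ dts G B, ∀ g, anc h = some g → g ∈ dts K B ∧ G.base g = G.base h
  self : ∀ g ∈ dts K B, anc g = some g
  none : ∀ h ∈ dts G B, anc h = none → ∀ g ∈ dts K B, G.base g ≠ G.base h
  mono : ∀ h ∈ dts G B, ∀ h' ∈ dts G B, G.base h = G.base h' → pos G h ≤ pos G h' →
    ∀ g g', anc h = some g → anc h' = some g' → pos G g ≤ pos G g'

theorem exists_anc {G K : RotGraph V H} {B Z : Finset V} (hS : Sk G K B Z) :
    ∃ anc, Anc G K B anc := by
  set S : H → Finset H := fun h => (dts K B).filter (fun g => G.base g = G.base h) with hSd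
  have hmS : ∀ h g, g ∈ S h ↔ g ∈ dts K B ∧ G.base g = G.base h := fun h g => by
    rw [hSd]
    exact Finset.mem_filter
  have key : ∀ h, ∃ o : Option H, (∀ g, o = some g → g ∈ S h ∧
      ((pos G g ≤ pos G h ∧ ∀ g' ∈ S h, pos G g' ≤ pos G h → pos G g' ≤ pos G g) ∨
        ((∀ g' ∈ S h, pos G h < pos G g') ∧ ∀ g' ∈ S h, pos G g ≤ pos G g'))) ∧
      (o = none → S h = ∅) := by
    intro h
    by_cases h0 : S h = ∅
    · exact ⟨none, fun g hg => (by cases hg), fun _ => h0⟩
    · by_cases h1 : ((S h).filter (fun g => pos G g ≤ pos G h)).Nonempty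
      · obtain ⟨g, h2, h3⟩ := Finset.exists_max_image _ (pos G) h1
        rw [Finset.mem_filter] at h2
        refine ⟨some g, fun g' hg' => ?_, fun h4 => by cases h4⟩
        cases hg'
        exact ⟨h2.1, Or.inl ⟨h2.2, fun g' h4 h5 => h3 g' (Finset.mem_filter.2 ⟨h4, h5⟩)⟩⟩
      · obtain ⟨g, h2, h3⟩ := Finset.exists_min_image _ (pos G) (Finset.nonempty_iff_ne_empty.2 h0)
        refine ⟨some g, fun g' hg' => ?_, fun h4 => by cases h4⟩
        cases hg'
        refine ⟨h2, Or.inr ⟨fun g' h4 => ?_, h3⟩⟩
        by_contra hn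
        exact h1 ⟨g', Finset.mem_filter.2 ⟨h4, by omega⟩⟩
  choose anc h1 h2 using key
  have hd : ∀ g ∈ dts K B, g ∈ G.darts := fun g hg => (mem_dts.1 (hS.sub g hg)).1
  refine ⟨anc, ?_, ?_, ?_, ?_⟩
  · intro h _ g hg
    exact (hmS h g).1 (h1 h g hg).1
  · intro g hg
    have h3 : g ∈ S g := (hmS g g).2 ⟨hg, rfl⟩
    rcases ho : anc g with _ | g'
    · have h4 := h2 g ho
      rw [h4] at h3
      simp at h3
    · obtain ⟨h4, h5⟩ := h1 g g' ho
      have h4' := (hmS g g').1 h4
      rcases h5 with ⟨h5, h6⟩ | ⟨h5, -⟩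
      · have h7 := h6 g h3 le_rfl
        rw [pos_inj (hd g' h4'.1) (hd g hg) h4'.2 (le_antisymm h5 h7)]
      · exact absurd (h5 g h3) (lt_irrefl _)
  · intro h _ h3 g hg he
    have h4 := h2 h h3
    have h5 : g ∈ S h := (hmS h g).2 ⟨hg, he⟩
    rw [h4] at h5
    simp at h5
  · intro h _ h' _ hb hp g g' hg hg'
    obtain ⟨h3, h4⟩ := h1 h g hg
    obtain ⟨h5, h6⟩ := h1 h' g' hg'
    have hSS : ∀ x, x ∈ S h ↔ x ∈ S h' := fun x => by rw [hmS, hmS, hb]
    rcases h4 with ⟨h4, -⟩ | ⟨-, h4⟩
    · rcases h6 with ⟨-, h6⟩ | ⟨h6, -⟩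
      · exact h6 g ((hSS g).1 h3) (h4.trans hp)
      · have := h6 g ((hSS g).1 h3)
        omega
    · exact h4 g' ((hSS g').2 h5)

/-! ### anchors of atoms -/

/-- the half-edge at which an atom is anchored -/
noncomputable def own (G : RotGraph V H) (z : V) : Option H :=
  if hz : (nl G z).Nonempty then some (G.opp hz.choose) else none

theorem own_some {G : RotGraph V H} {z : V} {h : H} (ho : own G z = some h) :
    G.opp h ∈ nl G z ∧ h ∈ G.darts ∧ G.base (G.opp h) = z := by
  unfold own at ho
  split_ifs at ho with hz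
  have h1 := hz.choose_spec
  have h2 := mem_nl.1 h1
  have h3 : G.opp h = hz.choose := by
    rw [← Option.some.inj ho, G.opp_opp _ h2.1]
  rw [h3]
  refine ⟨h1, ?_, h2.2.1⟩
  rw [← Option.some.inj ho]
  exact G.opp_mem _ h2.1

theorem own_none {G : RotGraph V H} {z : V} (ho : own G z = none) : nl G z = ∅ := by
  unfold own at ho
  split_ifs at ho with hz
  exact Finset.not_nonempty_iff_eq_empty.1 hz

/-- the units anchored at `b` -/
noncomputable def U (G : RotGraph V H) (Z : Finset V) : Option H → List (V ⊕ H)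
  | none => (Z.filter (fun z => own G z = none)).toList.map Sum.inl
  | some h => Sum.inr h :: (if G.base (G.opp h) ∈ Z ∧ own G (G.base (G.opp h)) = some h then
      [Sum.inl (G.base (G.opp h))] else [])

theorem inl_mem_U {G : RotGraph V H} {Z : Finset V} {b : Option H} {z : V} :
    Sum.inl z ∈ U G Z b ↔ z ∈ Z ∧ own G z = b := by
  rcases b with _ | h
  · unfold U
    simp
  · unfold U
    rw [List.mem_cons]
    constructor
    · rintro (h1 | h1)
      · cases h1
      · split_ifs at h1 with h2
        · rw [List.mem_singleton] at h1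
          cases h1
          exact h2
        · cases h1
    · rintro ⟨h1, h2⟩
      have h3 := (own_some h2).2.2
      right
      rw [if_pos (by rw [h3]; exact ⟨h1, h2⟩), h3]
      exact List.mem_singleton_self _

theorem inr_mem_U {G : RotGraph V H} {Z : Finset V} {b : Option H} {h : H} :
    Sum.inr h ∈ U G Z b ↔ b = some h := by
  rcases b with _ | g
  · unfold U
    simp
  · unfold U
    rw [List.mem_cons]
    constructor
    · rintro (h1 | h1)
      · cases h1
        rfl
      · split_ifs at h1 with h2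
        · rw [List.mem_singleton] at h1
          cases h1
        · cases h1
    · intro h1
      cases h1
      exact Or.inl rfl

theorem U_nodup (G : RotGraph V H) (Z : Finset V) (b : Option H) : (U G Z b).Nodup := by
  rcases b with _ | h
  · exact (Finset.nodup_toList _).map Sum.inl_injective
  · simp only [U]
    split_ifs with h1
    · simp
    · simp

/-! ### leaving edges -/

/-- the half-edge is in the set of units -/
def inU (G : RotGraph V H) (T : Finset (V ⊕ H)) (h : H) : Prop :=
  Sum.inr h ∈ T ∨ Sum.inl (G.base h) ∈ T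

/-- the half-edges in the set of units whose other half is not in the set -/
noncomputable def lv (G : RotGraph V H) (T : Finset (V ⊕ H)) : Finset H :=
  G.darts.filter (fun h => inU G T h ∧ ¬ inU G T (G.opp h))

theorem mem_lv {G : RotGraph V H} {T : Finset (V ⊕ H)} {h : H} :
    h ∈ lv G T ↔ h ∈ G.darts ∧ inU G T h ∧ ¬ inU G T (G.opp h) := Finset.mem_filter

/-- the set of units consists of those anchored at the elements of `L` -/
def From (G : RotGraph V H) (Z : Finset V) (L : Option H → Prop) (T : Finset (V ⊕ H)) : Prop :=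
  (∀ h, Sum.inr h ∈ T ↔ L (some h)) ∧ ∀ z, Sum.inl z ∈ T ↔ z ∈ Z ∧ L (own G z)

theorem lv_from {G K : RotGraph V H} {B Z : Finset V} (hS : Sk G K B Z) {L : Option H → Prop}
    {T : Finset (V ⊕ H)} (hT : From G Z L T) (hL : ∀ h, L (some h) → h ∈ dts G B) {h : H}
    (hh : h ∈ lv G T) : (h ∈ dts K B ∧ L (some h)) ∨ ∃ h₀ ∈ dts K B, L (some h₀) ∧
      own G (G.base h) = some h₀ ∧ G.base h ∈ Z ∧ h ∈ nl G (G.base h) ∧ h ≠ G.opp h₀ ∧
        nl G (G.base h) = {G.opp h₀, h} := by
  obtain ⟨h1, h2, h3⟩ := mem_lv.1 hh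
  rcases h2 with h2 | h2
  · left
    have h4 := (hT.1 h).1 h2
    refine ⟨?_, h4⟩
    by_contra hn
    obtain ⟨h5, h6⟩ := hS.drop h (hL h h4) hn
    apply h3
    right
    rw [hT.2]
    refine ⟨h5, ?_⟩
    rcases ho : own G (G.base (G.opp h)) with _ | h'
    · rw [own_none ho] at h6
      exact absurd h6 (Finset.singleton_ne_empty _).symm
    · have h7 := (own_some ho)
      rw [h6, Finset.mem_singleton] at h7
      have h8 : h' = h := by
        rw [← G.opp_opp h' h7.2.1, h7.1, G.opp_opp h h1]
      rw [h8]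
      exact h4
  · right
    obtain ⟨h4, h5⟩ := (hT.2 _).1 h2
    have h6 : h ∈ nl G (G.base h) := by
      rw [mem_nl]
      refine ⟨h1, rfl, fun h7 => h3 (Or.inr ?_)⟩
      rw [h7]
      exact h2
    rcases ho : own G (G.base h) with _ | h₀
    · rw [own_none ho] at h6
      simp at h6
    · rw [ho] at h5
      obtain ⟨h7, h8, h9⟩ := own_some ho
      have h10 : h ≠ G.opp h₀ := by
        intro h11
        apply h3
        left
        rw [h11, G.opp_opp h₀ h8, hT.1]
        exact h5
      have h11 : nl G (G.base h) = {G.opp h₀, h} := by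
        rcases pair_cases (hS.nl _ h4).1 h7 with h12 | ⟨g, h12, h13⟩
        · rw [h12, Finset.mem_singleton] at h6
          exact absurd h6 h10
        · rw [h13] at h6
          rcases Finset.mem_insert.1 h6 with h14 | h14
          · exact absurd h14 h10
          · rw [Finset.mem_singleton] at h14
            rw [h13, h14]
      refine ⟨h₀, ?_, h5, rfl, h4, h6, h10, h11⟩
      have h12 := (hS.two _ h4 _ _ h10.symm h11).1
      rw [G.opp_opp h₀ h8] at h12
      exact h12

/-- the nodes that are unions of fibres -/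
theorem lv_union {G K : RotGraph V H} {B Z : Finset V} (hS : Sk G K B Z) {w : ℕ} {X : Finset H}
    (hX : X ⊆ dts K B) (hw : (X.filter (fun h => K.opp h ∉ X)).card ≤ w)
    {L : Option H → Prop} {T : Finset (V ⊕ H)} (hT : From G Z L T)
    (hL : ∀ h, L (some h) → h ∈ dts G B) (hLX : ∀ h ∈ dts K B, L (some h) ↔ h ∈ X) :
    (lv G T).card ≤ w + 2 * w := by
  set W := X.filter (fun h => K.opp h ∉ X) with hW
  have key : lv G T ⊆ W ∪ W.biUnion (fun g => if G.base (G.opp g) ∈ Z then
      nl G (G.base (G.opp g)) else ∅) := by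
    intro h hh
    have h3 := (mem_lv.1 hh).2.2
    have h0 := (mem_lv.1 hh).1
    rcases lv_from hS hT hL hh with ⟨h1, h2⟩ | ⟨h₀, h1, h2, h4, h5, h6, h7, h8⟩
    · refine Finset.mem_union_left _ (Finset.mem_filter.2 ⟨(hLX h h1).1 h2, fun hn => h3 ?_⟩)
      by_cases hz : G.base (G.opp h) ∈ Z
      · right
        rw [hT.2]
        refine ⟨hz, ?_⟩
        have h9 : G.opp h ∈ nl G (G.base (G.opp h)) := by
          rw [mem_nl]
          refine ⟨G.opp_mem h h0, rfl, ?_⟩
          rw [G.opp_opp h h0]
          intro h10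
          refine hS.disj _ hz ?_
          rw [← h10]
          exact (mem_dts.1 (hS.sub h h1)).2
        rcases ho : own G (G.base (G.opp h)) with _ | h'
        · rw [own_none ho] at h9
          simp at h9
        · obtain ⟨h10, h11, h12⟩ := own_some ho
          by_cases h13 : G.opp h' = G.opp h
          · have h14 : h' = h := by rw [← G.opp_opp h' h11, h13, G.opp_opp h h0]
            rw [h14]
            exact h2
          · have h14 : nl G (G.base (G.opp h)) = {G.opp h, G.opp h'} := by
              rcases pair_cases (hS.nl _ hz).1 h9 with h15 | ⟨g, h15, h16⟩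
              · rw [h15, Finset.mem_singleton] at h10
                exact absurd h10 h13
              · rw [h16] at h10
                rcases Finset.mem_insert.1 h10 with h17 | h17
                · exact absurd h17 h13
                · rw [Finset.mem_singleton] at h17
                  rw [h16, h17]
            have h15 := (hS.two _ hz _ _ (Ne.symm h13) h14).2
            rw [G.opp_opp h h0, G.opp_opp h' h11] at h15
            have h16 := h15 (hX hn)
            rw [← h16]
            exact (hLX _ (hX hn)).2 hn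
      · left
        rw [hS.one h h1 hz] at hn
        rw [hT.1]
        exact (hLX _ (hX hn)).2 hn
    · refine Finset.mem_union_right _ (Finset.mem_biUnion.2 ⟨h₀, Finset.mem_filter.2
        ⟨(hLX h₀ h1).1 h2, fun hn => h3 (Or.inl ?_)⟩, ?_⟩)
      · have h9 := (hS.two _ h5 _ _ h7.symm h8).2
        have h10 := (own_some h4).2.1
        rw [G.opp_opp h₀ h10] at h9
        have h11 := h9 (hX hn)
        rw [hT.1, ← h11]
        exact (hLX _ (hX hn)).2 hn
      · have h9 := (own_some h4).2.2
        rw [h9, if_pos h5]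
        exact h6
  refine (Finset.card_le_card key).trans ((Finset.card_union_le _ _).trans ?_)
  refine add_le_add hw ?_
  refine (Finset.card_biUnion_le_card_mul _ _ 2 ?_).trans ?_
  · intro g _
    split_ifs with h1
    · exact (hS.nl _ h1).1
    · simp
  · rw [mul_comm]
    exact Nat.mul_le_mul_left 2 hw

/-- the nodes with at most one half-edge of the skeleton -/
theorem lv_one {G K : RotGraph V H} {B Z : Finset V} (hS : Sk G K B Z) {L : Option H → Prop}
    {T : Finset (V ⊕ H)} (hT : From G Z L T) (hL : ∀ h, L (some h) → h ∈ dts G B) (g : Option H)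
    (hg : ∀ h ∈ dts K B, L (some h) → g = some h) : (lv G T).card ≤ 3 := by
  rcases g with _ | g
  · have h0 : lv G T = ∅ := by
      rw [Finset.eq_empty_iff_forall_notMem]
      intro h hh
      rcases lv_from hS hT hL hh with ⟨h1, h2⟩ | ⟨h₀, h1, h2, -⟩
      · cases hg h h1 h2
      · cases hg h₀ h1 h2
    rw [h0]
    simp
  · have key : lv G T ⊆ {g} ∪ (if G.base (G.opp g) ∈ Z then nl G (G.base (G.opp g)) else ∅) := by
      intro h hh
      rcases lv_from hS hT hL hh with ⟨h1, h2⟩ | ⟨h₀, h1, h2, h4, h5, h6, -⟩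
      · cases hg h h1 h2
        exact Finset.mem_union_left _ (Finset.mem_singleton_self _)
      · cases hg h₀ h1 h2
        have h9 := (own_some h4).2.2
        refine Finset.mem_union_right _ ?_
        rw [h9, if_pos h5]
        exact h6
    refine (Finset.card_le_card key).trans ((Finset.card_union_le _ _).trans ?_)
    have h1 : (if G.base (G.opp g) ∈ Z then nl G (G.base (G.opp g)) else ∅).card ≤ 2 := by
      split_ifs with h1
      · exact (hS.nl _ h1).1
      · simp
    rw [Finset.card_singleton]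
    omega

/-- the nodes inside one list of units -/
theorem lv_sub {G K : RotGraph V H} {B Z : Finset V} (hS : Sk G K B Z) {b : Option H}
    {T : Finset (V ⊕ H)} (hT : ∀ x ∈ T, x ∈ U G Z b) : (lv G T).card ≤ 3 := by
  have hloop : ∀ h ∈ lv G T, Sum.inl (G.base h) ∈ T → h ∈ nl G (G.base h) := by
    intro h hh h1
    obtain ⟨h2, -, h3⟩ := mem_lv.1 hh
    rw [mem_nl]
    refine ⟨h2, rfl, fun h4 => h3 (Or.inr ?_)⟩
    rw [h4]
    exact h1
  rcases b with _ | g
  · have h0 : lv G T = ∅ := by
      rw [Finset.eq_empty_iff_forall_notMem]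
      intro h hh
      rcases (mem_lv.1 hh).2.1 with h1 | h1
      · cases inr_mem_U.1 (hT _ h1)
      · have h2 := hloop h hh h1
        rw [own_none (inl_mem_U.1 (hT _ h1)).2] at h2
        simp at h2
    rw [h0]
    simp
  · have key : lv G T ⊆ {g} ∪ (if G.base (G.opp g) ∈ Z then nl G (G.base (G.opp g)) else ∅) := by
      intro h hh
      rcases (mem_lv.1 hh).2.1 with h1 | h1
      · cases inr_mem_U.1 (hT _ h1)
        exact Finset.mem_union_left _ (Finset.mem_singleton_self _)
      · have h2 := hloop h hh h1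
        obtain ⟨h3, h4⟩ := inl_mem_U.1 (hT _ h1)
        have h5 := (own_some h4).2.2
        refine Finset.mem_union_right _ ?_
        rw [h5, if_pos h3]
        exact h2
    refine (Finset.card_le_card key).trans ((Finset.card_union_le _ _).trans ?_)
    have h1 : (if G.base (G.opp g) ∈ Z then nl G (G.base (G.opp g)) else ∅).card ≤ 2 := by
      split_ifs with h1
      · exact (hS.nl _ h1).1
      · simp
    rw [Finset.card_singleton]
    omega

/-! ### the fibres -/

/-- the fibres of the anchor map, as lists -/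
noncomputable def F (G : RotGraph V H) (B : Finset V) (anc : H → Option H) :
    Option H → List (Option H)
  | none => (B.toList.flatMap (fun x => (G.rot x).filter (fun h => decide (anc h = none)))).map
      some ++ [none]
  | some g => ((G.rot (G.base g)).filter (fun h => decide (anc h = some g))).map some

theorem some_mem_F {G K : RotGraph V H} {B : Finset V} {anc : H → Option H} (hA : Anc G K B anc)
    {a : Option H} (ha : ∀ g, a = some g → g ∈ dts G B) {h : H} :
    some h ∈ F G B anc a ↔ h ∈ dts G B ∧ anc h = a := by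
  rcases a with _ | g
  · unfold F
    rw [List.mem_append, List.mem_map]
    constructor
    · rintro (⟨h', h1, h2⟩ | h1)
      · cases h2
        rw [List.mem_flatMap] at h1
        obtain ⟨x, h2, h3⟩ := h1
        rw [List.mem_filter, G.mem_rot, decide_eq_true_eq] at h3
        rw [Finset.mem_toList] at h2
        rw [mem_dts]
        exact ⟨⟨h3.1.1, by rw [h3.1.2]; exact h2⟩, h3.2⟩
      · simp at h1
    · rintro ⟨h1, h2⟩
      rw [mem_dts] at h1
      refine Or.inl ⟨h, List.mem_flatMap.2 ⟨G.base h, Finset.mem_toList.2 h1.2, ?_⟩, rfl⟩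
      rw [List.mem_filter, G.mem_rot, decide_eq_true_eq]
      exact ⟨⟨h1.1, rfl⟩, h2⟩
  · unfold F
    rw [List.mem_map]
    have hg := ha g rfl
    constructor
    · rintro ⟨h', h1, h2⟩
      cases h2
      rw [List.mem_filter, G.mem_rot, decide_eq_true_eq] at h1
      refine ⟨?_, h1.2⟩
      rw [mem_dts]
      exact ⟨h1.1.1, by rw [h1.1.2]; exact (mem_dts.1 hg).2⟩
    · rintro ⟨h1, h2⟩
      refine ⟨h, ?_, rfl⟩
      rw [List.mem_filter, G.mem_rot, decide_eq_true_eq]
      exact ⟨⟨(mem_dts.1 h1).1, (hA.mem h h1 g h2).2.symm⟩, h2⟩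

theorem none_mem_F {G : RotGraph V H} {B : Finset V} {anc : H → Option H} {a : Option H} :
    none ∈ F G B anc a ↔ a = none := by
  rcases a with _ | g
  · unfold F
    simp
  · unfold F
    simp

theorem F_nodup (G : RotGraph V H) (B : Finset V) (anc : H → Option H) (a : Option H) :
    (F G B anc a).Nodup := by
  rcases a with _ | g
  · unfold F
    rw [List.nodup_append]
    refine ⟨List.Nodup.map (Option.some_injective H) ?_, List.nodup_singleton _, ?_⟩
    · rw [List.nodup_flatMap]
      refine ⟨fun x _ => (G.nodup x).filter _, ?_⟩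
      refine (Finset.nodup_toList B).imp ?_
      intro x y hxy h h1 h2
      rw [List.mem_filter, G.mem_rot] at h1 h2
      exact hxy (h1.1.2.symm.trans h2.1.2)
    · intro x hx y hy hxy
      obtain ⟨h, -, rfl⟩ := List.mem_map.1 hx
      rw [List.mem_singleton] at hy
      rw [hy] at hxy
      cases hxy
  · exact ((G.nodup _).filter _).map (Option.some_injective H)

/-- the order in the fibres -/
def Ord (G : RotGraph V H) (x y : Option H) : Prop :=
  ∀ b c, x = some b → y = some c → G.base b = G.base c → pos G b < pos G c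

theorem F_ord (G : RotGraph V H) (B : Finset V) (anc : H → Option H) (a : Option H) :
    (F G B anc a).Pairwise (Ord G) := by
  have hrot : ∀ x (p : H → Bool), ((G.rot x).filter p).Pairwise
      (fun b c => G.base b = G.base c → pos G b < pos G c) := by
    intro x p
    refine List.Pairwise.imp ?_ ((rot_pos G x).sublist List.filter_sublist)
    intro b c h _
    exact h
  have hmap : ∀ l : List H, l.Pairwise (fun b c => G.base b = G.base c → pos G b < pos G c) →
      (l.map some).Pairwise (Ord G) := by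
    intro l hl
    rw [List.pairwise_map]
    refine hl.imp ?_
    intro b c h b' c' hb hc
    cases hb
    cases hc
    exact h
  rcases a with _ | g
  · unfold F
    rw [List.pairwise_append]
    refine ⟨hmap _ ?_, List.pairwise_singleton _ _, ?_⟩
    · rw [List.pairwise_flatMap]
      refine ⟨fun x _ => hrot x _, ?_⟩
      refine (Finset.nodup_toList B).imp ?_
      intro x y hxy b hb c hc hbc
      rw [List.mem_filter, G.mem_rot] at hb hc
      exact absurd (hb.1.2.symm.trans (hbc.trans hc.1.2)) hxy
    · intro x _ y hy b c _ hc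
      rw [List.mem_singleton] at hy
      rw [hy] at hc
      cases hc
  · exact hmap _ (hrot _ _)

/-! ### the carving -/

/-- A carving of the half-edges at `B` and the atoms. -/
structure IsUC (w : ℕ) (G : RotGraph V H) (B Z : Finset V) (ι : H → ℕ) (t : Tree (V ⊕ H)) :
    Prop where
  nodup : t.leaves.Nodup
  set : t.set = Z.disjSum (dts G B)
  cv : ∀ s, IsSub s t → ∀ a ∈ dts G B, ∀ b ∈ dts G B, ∀ c ∈ dts G B, G.base a = G.base b →
    G.base c = G.base b → ι a = ι b → ι c = ι b → pos G a ≤ pos G b → pos G b ≤ pos G c →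
    Sum.inr a ∈ s.set → Sum.inr c ∈ s.set → Sum.inr b ∈ s.set
  cut : ∀ s, IsSub s t → (lv G s.set).card ≤ w

/-- the tree of the anchors -/
theorem tree_anc {K : RotGraph V H} {B : Finset V} {w : ℕ} {ι : H → ℕ}
    (ht : dts K B = ∅ ∨ ∃ t, IsSegCar w K B ι t) : ∃ t : Tree (Option H), t.leaves.Nodup ∧
      (∀ a, a ∈ t.leaves ↔ a = none ∨ ∃ g ∈ dts K B, a = some g) ∧ ∀ s, IsSub s t →
        ∃ X ⊆ dts K B, ∃ e : Prop, (X.filter (fun h => K.opp h ∉ X)).card ≤ w ∧
          (∀ a ∈ X, ∀ c ∈ X, ∀ b ∈ dts K B, K.base a = K.base b → K.base c = K.base b →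
            ι a = ι b → ι c = ι b → pos K a ≤ pos K b → pos K b ≤ pos K c → b ∈ X) ∧
          ∀ a, a ∈ s.leaves ↔ (a = none ∧ e) ∨ ∃ g ∈ X, a = some g := by
  rcases ht with h0 | ⟨t, h1, h2, h3⟩
  · refine ⟨.leaf none, by simp [Tree.leaves], fun a => by simp [Tree.leaves, h0], ?_⟩
    intro s hs
    cases hs
    exact ⟨∅, Finset.empty_subset _, True, by simp, fun a ha => by simp at ha,
      fun a => by simp [Tree.leaves]⟩
  · have hm : ∀ s : Tree H, ∀ a, a ∈ (Seg21.tmap some s).leaves ↔ ∃ g ∈ s.set, a = some g := by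
      intro s a
      rw [Seg21.tmap_leaves, List.mem_map]
      constructor
      · rintro ⟨g, h4, h5⟩
        exact ⟨g, TL.mem_set.2 h4, h5.symm⟩
      · rintro ⟨g, h4, h5⟩
        exact ⟨g, TL.mem_set.1 h4, h5.symm⟩
    refine ⟨.node (.leaf none) (Seg21.tmap some t), ?_, ?_, ?_⟩
    · rw [Tree.leaves, Tree.leaves, List.singleton_append, List.nodup_cons]
      refine ⟨?_, ?_⟩
      · rw [hm]
        rintro ⟨g, -, h4⟩
        cases h4
      · rw [Seg21.tmap_leaves]
        exact h1.map (Option.some_injective H)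
    · intro a
      rw [Tree.leaves, Tree.leaves, List.singleton_append, List.mem_cons, hm, h2]
    · intro s hs
      cases hs with
      | refl =>
        refine ⟨dts K B, Finset.Subset.refl _, True, ?_, fun _ _ _ _ b hb _ _ _ _ _ _ => hb, ?_⟩
        · rw [← h2]
          exact (h3 t .refl).2
        · intro a
          rw [Tree.leaves, Tree.leaves, List.singleton_append, List.mem_cons, hm, h2, and_true]
      | left _ _ h4 =>
        cases h4
        exact ⟨∅, Finset.empty_subset _, True, by simp, fun a ha => by simp at ha,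
          fun a => by simp [Tree.leaves]⟩
      | right _ _ h4 =>
        obtain ⟨s₀, h5, rfl⟩ := Seg21.isSub_tmap _ h4
        obtain ⟨h6, h7⟩ := h3 s₀ h5
        refine ⟨s₀.set, ?_, False, h7, h6, fun a => ?_⟩
        · rw [← h2]
          exact TL.sub_set h5
        · rw [hm, and_false, false_or]

theorem exists_uc {G K : RotGraph V H} {B Z : Finset V} (hS : Sk G K B Z) {w s : ℕ} {ι : H → ℕ}
    (hι : Cutting K B ι s) (ht : dts K B = ∅ ∨ ∃ t, IsSegCar w K B ι t) :
    ∃ ι' : H → ℕ, Cutting G B ι' (s + 1) ∧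
      (Z.disjSum (dts G B) = ∅ ∨ ∃ t, IsUC (w + 2 * w + 3) G B Z ι' t) := by
  obtain ⟨anc, hA⟩ := exists_anc hS
  obtain ⟨t₁, h1, h2, h3⟩ := tree_anc ht
  have hab : ∀ a ∈ dts G B, ∀ b ∈ dts G B, G.base a = G.base b → anc a = none → anc b = none := by
    intro a ha b hb hab h4
    rcases ho : anc b with _ | g
    · rfl
    · obtain ⟨h5, h6⟩ := hA.mem b hb g ho
      exact absurd (h6.trans hab.symm) (hA.none a ha h4 g h5)
  have hKd : ∀ g ∈ dts K B, g ∈ G.darts := fun g hg => (mem_dts.1 (hS.sub g hg)).1
  have hval : ∀ h ∈ dts G B, ∀ g, anc h = some g → (anc h).elim 0 ι = ι g := by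
    intro h _ g hg
    rw [hg]
    rfl
  set ι' : H → ℕ := fun h => (anc h).elim 0 ι with hι'
  have hcut : Cutting G B ι' (s + 1) := by
    constructor
    · intro a ha b hb hbase hp
      rcases ha0 : anc a with _ | ga
      · simp only [hι', ha0]
        exact Nat.zero_le _
      · rcases hb0 : anc b with _ | gb
        · rw [hab b hb a ha hbase.symm hb0] at ha0
          cases ha0
        · simp only [hι', ha0, hb0]
          obtain ⟨h4, h5⟩ := hA.mem a ha ga ha0
          obtain ⟨h6, h7⟩ := hA.mem b hb gb hb0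
          have h8 : G.base ga = G.base gb := h5.trans (hbase.trans h7.symm)
          refine hι.mono ga h4 gb h6 ?_ ?_
          · rw [hS.base]
            exact h8
          · exact hS.pos ga h4 gb h6 h8 (hA.mono a ha b hb hbase hp ga gb ha0 hb0)
    · intro a ha
      rcases ha0 : anc a with _ | ga
      · simp only [hι', ha0]
        exact Nat.succ_pos _
      · simp only [hι', ha0]
        exact (hι.lt ga (hA.mem a ha ga ha0).1).trans (Nat.lt_succ_self s)
  refine ⟨ι', hcut, ?_⟩
  have ht1 : ∀ a ∈ t₁.leaves, ∀ g, a = some g → g ∈ dts K B := by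
    intro a ha g hg
    rcases (h2 a).1 ha with h4 | ⟨g', h4, h5⟩
    · rw [h4] at hg
      cases hg
    · rw [h5] at hg
      cases hg
      exact h4
  have ht1' : ∀ a ∈ t₁.leaves, ∀ g, a = some g → g ∈ dts G B := fun a ha g hg =>
    hS.sub g (ht1 a ha g hg)
  have hnone : (none : Option H) ∈ t₁.leaves := (h2 none).2 (Or.inl rfl)
  obtain ⟨t₂, h4, h5⟩ := bind (F G B anc) t₁ (by
    intro h4
    have h5 : (none : Option H) ∈ t₁.leaves.flatMap (F G B anc) :=
      List.mem_flatMap.2 ⟨none, hnone, none_mem_F.2 rfl⟩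
    rw [h4] at h5
    cases h5)
  have hmem2 : ∀ h, some h ∈ t₂.leaves ↔ h ∈ dts G B := by
    intro h
    rw [h4, List.mem_flatMap]
    constructor
    · rintro ⟨a, h6, h7⟩
      exact ((some_mem_F hA (ht1' a h6)).1 h7).1
    · intro h6
      refine ⟨anc h, ?_, ?_⟩
      · rw [h2]
        rcases ho : anc h with _ | g
        · exact Or.inl rfl
        · exact Or.inr ⟨g, (hA.mem h h6 g ho).1, rfl⟩
      · refine (some_mem_F hA ?_).2 ⟨h6, rfl⟩
        intro g hg
        exact hS.sub g (hA.mem h h6 g hg).1
  have hmem2' : (none : Option H) ∈ t₂.leaves := by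
    rw [h4, List.mem_flatMap]
    exact ⟨none, hnone, none_mem_F.2 rfl⟩
  have hnd2 : t₂.leaves.Nodup := by
    rw [h4, List.nodup_flatMap]
    refine ⟨fun a _ => F_nodup G B anc a, ?_⟩
    refine List.Pairwise.imp_of_mem ?_ h1
    intro a b ha hb hne x hx hy
    rcases x with _ | h
    · exact hne ((none_mem_F.1 hx).trans (none_mem_F.1 hy).symm)
    · exact hne (((some_mem_F hA (ht1' a ha)).1 hx).2.symm.trans
        ((some_mem_F hA (ht1' b hb)).1 hy).2)
  by_cases hne : t₂.leaves.flatMap (U G Z) = []
  · left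
    rw [Finset.eq_empty_iff_forall_notMem]
    intro x hx
    have h6 : x ∈ t₂.leaves.flatMap (U G Z) := by
      rw [List.mem_flatMap]
      rcases x with z | h
      · rw [Finset.inl_mem_disjSum] at hx
        refine ⟨own G z, ?_, inl_mem_U.2 ⟨hx, rfl⟩⟩
        rcases ho : own G z with _ | h
        · exact hmem2'
        · rw [hmem2, mem_dts]
          have h7 := own_some ho
          have h8 := (hS.nl z hx).2 _ h7.1
          rw [G.opp_opp h h7.2.1] at h8
          exact ⟨h7.2.1, h8⟩
      · rw [Finset.inr_mem_disjSum] at hx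
        exact ⟨some h, (hmem2 h).2 hx, inr_mem_U.2 rfl⟩
    rw [hne] at h6
    cases h6
  · right
    obtain ⟨t₃, h6, h7⟩ := bind (U G Z) t₂ hne
    have hown : ∀ z ∈ Z, own G z ∈ t₂.leaves := by
      intro z hz
      rcases ho : own G z with _ | h
      · exact hmem2'
      · rw [hmem2, mem_dts]
        have h7 := own_some ho
        have h8 := (hS.nl z hz).2 _ h7.1
        rw [G.opp_opp h h7.2.1] at h8
        exact ⟨h7.2.1, h8⟩
    -- the sets of units at the nodes
    have hfrom : ∀ (s' : Tree (V ⊕ H)) (l : List (Option H)), s'.leaves = l.flatMap (U G Z) →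
        From G Z (fun b => b ∈ l) s'.set := by
      intro s' l hl
      constructor
      · intro h
        rw [TL.mem_set, hl, List.mem_flatMap]
        constructor
        · rintro ⟨b, h8, h9⟩
          rw [inr_mem_U.1 h9] at h8
          exact h8
        · intro h8
          exact ⟨some h, h8, inr_mem_U.2 rfl⟩
      · intro z
        rw [TL.mem_set, hl, List.mem_flatMap]
        constructor
        · rintro ⟨b, h8, h9⟩
          obtain ⟨h10, h11⟩ := inl_mem_U.1 h9
          rw [h11]
          exact ⟨h10, h8⟩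
        · rintro ⟨h8, h9⟩
          exact ⟨_, h9, inl_mem_U.2 ⟨h8, rfl⟩⟩
    -- the three kinds of nodes
    have hkind : ∀ s', IsSub s' t₃ →
        (∃ X ⊆ dts K B, ∃ e : Prop, (X.filter (fun h => K.opp h ∉ X)).card ≤ w ∧
          (∀ a ∈ X, ∀ c ∈ X, ∀ b ∈ dts K B, K.base a = K.base b → K.base c = K.base b →
            ι a = ι b → ι c = ι b → pos K a ≤ pos K b → pos K b ≤ pos K c → b ∈ X) ∧
          From G Z (fun b => (b = none ∧ e) ∨ ∃ h, b = some h ∧ h ∈ dts G B ∧
            ((anc h = none ∧ e) ∨ ∃ g ∈ X, anc h = some g)) s'.set) ∨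
        (∃ a ∈ t₁.leaves, ∃ l₁ l₂, F G B anc a = l₁ ++ l₂ ∧
          From G Z (fun b => b ∈ l₁) s'.set) ∨
        ∃ b, ∀ x ∈ s'.set, x ∈ U G Z b := by
      intro s' hs'
      rcases h7 s' hs' with ⟨s₂, h8, h9⟩ | ⟨b, h8, l₁, l₂, h9, h10⟩ | ⟨b, h8, x, h9, h10⟩
      · rcases h5 s₂ h8 with ⟨s₁, h10, h11⟩ | ⟨a, h10, l₁, l₂, h11, h12⟩ | ⟨a, h10, b, h11, h12⟩
        · left
          obtain ⟨X, hX, e, h12, h13, h14⟩ := h3 s₁ h10
          refine ⟨X, hX, e, h12, h13, ?_⟩
          have h15 := hfrom s' s₂.leaves h9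
          have h16 : ∀ b, b ∈ s₂.leaves ↔ ((b = none ∧ e) ∨ ∃ h, b = some h ∧ h ∈ dts G B ∧
            ((anc h = none ∧ e) ∨ ∃ g ∈ X, anc h = some g)) := by
            intro b
            rw [h11, List.mem_flatMap]
            have hleaf : ∀ a ∈ s₁.leaves, ∀ g, a = some g → g ∈ dts G B := by
              intro a ha g hg
              rcases (h14 a).1 ha with ⟨h17, -⟩ | ⟨g', h17, h18⟩
              · rw [h17] at hg
                cases hg
              · rw [h18] at hg
                cases hg
                exact hS.sub g (hX h17)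
            constructor
            · rintro ⟨a, h17, h18⟩
              rcases b with _ | h
              · have h19 := none_mem_F.1 h18
                rw [h19] at h17
                rcases (h14 none).1 h17 with ⟨-, h20⟩ | ⟨g, -, h20⟩
                · exact Or.inl ⟨rfl, h20⟩
                · cases h20
              · obtain ⟨h19, h20⟩ := (some_mem_F hA (hleaf a h17)).1 h18
                refine Or.inr ⟨h, rfl, h19, ?_⟩
                rw [h20]
                exact (h14 a).1 h17
            · rintro (⟨h17, h18⟩ | ⟨h, rfl, h18, h19⟩)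
              · refine ⟨none, (h14 none).2 (Or.inl ⟨rfl, h18⟩), ?_⟩
                rw [h17]
                exact none_mem_F.2 rfl
              · have h20 := (h14 (anc h)).2 h19
                exact ⟨anc h, h20, (some_mem_F hA (hleaf _ h20)).2 ⟨h18, rfl⟩⟩
          exact ⟨fun h => (h15.1 h).trans (h16 _), fun z => (h15.2 z).trans
            (and_congr_right fun _ => h16 _)⟩
        · right; left
          refine ⟨a, h10, l₁, l₂, h11, ?_⟩
          rw [← h12]
          exact hfrom s' _ h9
        · right; right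
          refine ⟨b, fun x hx => ?_⟩
          rw [TL.mem_set, h9, h12, List.flatMap_singleton] at hx
          exact hx
      · right; right
        refine ⟨b, fun x hx => ?_⟩
        rw [TL.mem_set, h10] at hx
        rw [h9]
        exact List.mem_append_left _ hx
      · right; right
        refine ⟨b, fun y hy => ?_⟩
        rw [TL.mem_set, h10, List.mem_singleton] at hy
        rw [hy]
        exact h9
    refine ⟨t₃, ?_, ?_, ?_, ?_⟩
    · rw [h6, List.nodup_flatMap]
      refine ⟨fun a _ => U_nodup G Z a, ?_⟩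
      refine hnd2.imp ?_
      intro a b hne' x hx hy
      rcases x with z | h
      · exact hne' ((inl_mem_U.1 hx).2.symm.trans (inl_mem_U.1 hy).2)
      · exact hne' ((inr_mem_U.1 hx).trans (inr_mem_U.1 hy).symm)
    · ext x
      rw [TL.mem_set, h6, List.mem_flatMap]
      rcases x with z | h
      · rw [Finset.inl_mem_disjSum]
        constructor
        · rintro ⟨b, -, h8⟩
          exact (inl_mem_U.1 h8).1
        · intro h8
          exact ⟨own G z, hown z h8, inl_mem_U.2 ⟨h8, rfl⟩⟩
      · rw [Finset.inr_mem_disjSum, ← hmem2]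
        constructor
        · rintro ⟨b, h8, h9⟩
          rw [inr_mem_U.1 h9] at h8
          exact h8
        · intro h8
          exact ⟨some h, h8, inr_mem_U.2 rfl⟩
    · intro s' hs' a ha b hb c hc hbab hbcb hιa hιc hpa hpc haT hcT
      rcases hkind s' hs' with ⟨X, hX, e, -, h9, h10⟩ | ⟨a₀, h8, l₁, l₂, h9, h10⟩ | ⟨b₀, h8⟩
      · rw [h10.1] at haT hcT ⊢
        have hsimp : ∀ x : H, ((some x = none ∧ e) ∨ ∃ h, some x = some h ∧ h ∈ dts G B ∧
            ((anc h = none ∧ e) ∨ ∃ g ∈ X, anc h = some g)) ↔ (x ∈ dts G B ∧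
            ((anc x = none ∧ e) ∨ ∃ g ∈ X, anc x = some g)) := by
          intro x
          constructor
          · rintro (⟨h11, -⟩ | ⟨h, h11, h12⟩)
            · cases h11
            · cases h11
              exact h12
          · exact fun h11 => Or.inr ⟨x, rfl, h11⟩
        have haT := (hsimp a).1 haT
        have hcT := (hsimp c).1 hcT
        refine (hsimp b).2 ⟨hb, ?_⟩
        rcases hb0 : anc b with _ | gb
        · have ha0 := hab b hb a ha hbab.symm hb0
          left
          rcases haT.2 with ⟨-, h11⟩ | ⟨g, -, h11⟩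
          · exact ⟨rfl, h11⟩
          · rw [ha0] at h11
            cases h11
        · right
          rcases haT.2 with ⟨h11, -⟩ | ⟨ga, h11, h12⟩
          · rw [hab a ha b hb hbab h11] at hb0
            cases hb0
          · rcases hcT.2 with ⟨h13, -⟩ | ⟨gc, h13, h14⟩
            · rw [hab c hc b hb hbcb h13] at hb0
              cases hb0
            · refine ⟨gb, ?_, rfl⟩
              have hga := hA.mem a ha ga h12
              have hgb := hA.mem b hb gb hb0
              have hgc := hA.mem c hc gc h14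
              have e1 : G.base ga = G.base gb := hga.2.trans (hbab.trans hgb.2.symm)
              have e2 : G.base gc = G.base gb := hgc.2.trans (hbcb.trans hgb.2.symm)
              have e3 : ι ga = ι gb := by
                have h15 : (anc a).elim 0 ι = (anc b).elim 0 ι := hιa
                rw [h12, hb0] at h15
                exact h15
              have e4 : ι gc = ι gb := by
                have h15 : (anc c).elim 0 ι = (anc b).elim 0 ι := hιc
                rw [h14, hb0] at h15
                exact h15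
              refine h9 ga h11 gc h13 gb hgb.1 (by rw [hS.base]; exact e1)
                (by rw [hS.base]; exact e2) e3 e4 ?_ ?_
              · exact hS.pos ga hga.1 gb hgb.1 e1 (hA.mono a ha b hb hbab hpa ga gb h12 hb0)
              · exact hS.pos gb hgb.1 gc hgc.1 e2.symm
                  (hA.mono b hb c hc hbcb.symm hpc gb gc hb0 h14)
      · rw [h10.1] at haT hcT ⊢
        have hFm : ∀ x : H, some x ∈ l₁ → x ∈ dts G B ∧ anc x = a₀ := by
          intro x hx
          refine (some_mem_F hA (ht1' a₀ h8)).1 ?_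
          rw [h9]
          exact List.mem_append_left _ hx
        have hba : anc b = a₀ := by
          rcases ha0 : a₀ with _ | g
          · refine hab a ha b hb hbab ?_
            rw [(hFm a haT).2, ha0]
          · have h11 := (hFm a haT).2
            have h12 := (hFm c hcT).2
            rw [ha0] at h11 h12
            rcases hb0 : anc b with _ | gb
            · rw [hab b hb a ha hbab.symm hb0] at h11
              cases h11
            · have h13 := hA.mono a ha b hb hbab hpa g gb h11 hb0
              have h14 := hA.mono b hb c hc hbcb.symm hpc gb g hb0 h12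
              have h15 := hA.mem a ha g h11
              have h16 := hA.mem b hb gb hb0
              rw [pos_inj (hKd g h15.1) (hKd gb h16.1) (h15.2.trans (hbab.trans h16.2.symm))
                (le_antisymm h13 h14)]
        have hbF : some b ∈ F G B anc a₀ := (some_mem_F hA (ht1' a₀ h8)).2 ⟨hb, hba⟩
        have hord := F_ord G B anc a₀
        rw [h9] at hbF hord
        rcases List.mem_append.1 hbF with h11 | h11
        · exact h11
        · rw [List.pairwise_append] at hord
          have h12 := hord.2.2 _ hcT _ h11 c b rfl rfl hbcb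
          omega
      · have h9 := inr_mem_U.1 (h8 _ haT)
        have h10 := inr_mem_U.1 (h8 _ hcT)
        rw [h9] at h10
        cases h10
        have h11 : a = b := pos_inj (mem_dts.1 ha).1 (mem_dts.1 hb).1 hbab
          (le_antisymm hpa hpc)
        rw [← h11]
        exact haT
    · intro s' hs'
      rcases hkind s' hs' with ⟨X, hX, e, h8, -, h10⟩ | ⟨a₀, h8, l₁, l₂, h9, h10⟩ | ⟨b₀, h8⟩
      · refine (lv_union hS hX h8 h10 ?_ ?_).trans (by omega)
        · rintro h (⟨h11, -⟩ | ⟨h', h11, h12, -⟩)
          · cases h11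
          · cases h11
            exact h12
        · intro h hh
          constructor
          · rintro (⟨h11, -⟩ | ⟨h', h11, h12, h13⟩)
            · cases h11
            · cases h11
              rw [hA.self h hh] at h13
              rcases h13 with ⟨h13, -⟩ | ⟨g, h13, h14⟩
              · cases h13
              · cases h14
                exact h13
          · intro h11
            exact Or.inr ⟨h, rfl, hS.sub h hh, Or.inr ⟨h, h11, hA.self h hh⟩⟩
      · have hFm : ∀ x : H, some x ∈ l₁ → x ∈ dts G B ∧ anc x = a₀ := by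
          intro x hx
          refine (some_mem_F hA (ht1' a₀ h8)).1 ?_
          rw [h9]
          exact List.mem_append_left _ hx
        refine (lv_one hS h10 (fun h hh => (hFm h hh).1) a₀ ?_).trans (by omega)
        intro h hh hl
        rw [← (hFm h hl).2]
        exact hA.self h hh
      · exact (lv_sub hS h8).trans (by omega)

end RotWqo.Tc.SegT21
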